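import Mathlib
import Pool.Agent.Lib.MP_2194ec_nt.SB.Iface
import Pool.Agent.Lib.MP_2194ec_nt.SepA

set_option autoImplicit false

/-!
# Theorem L in every dimension: definitions and statements of the modules
-/

namespace Pool.DynLehmer.SP
open MvPolynomial NumberField Pool.DynLehmer Pool.DynLehmer.SB
open scoped Classical

/-- the homogeneous components of a relation are relations -/
def HomRel (K : Type) [Field K] {B : Type} [CommRing B] [Algebra K B] {ι : Type}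
    (x : ι → B) : Prop :=
  ∀ G : MvPolynomial ι K, aeval x G = 0 → ∀ d, aeval x (homogeneousComponent d G) = 0

/-- `R` is a specialisation of `x` -/
def SpecTo (K : Type) [Field K] {B B' : Type} [CommRing B] [Algebra K B] [CommRing B']
    [Algebra K B'] {ι : Type} (x : ι → B) (R : ι → B') : Prop :=
  ∀ G : MvPolynomial ι K, aeval x G = 0 → aeval R G = 0

/-- `x` is a generic point of a curve whose Hilbert function is at most `W (T + 1)` -/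
structure GenC (K : Type) [Field K] {Ω : Type} [Field Ω] [Algebra K Ω] {ι : Type}
    (x : ι → Ω) (W : ℕ) : Prop where
  hom : HomRel K x
  low : ∀ T, T + 1 ≤ HW K x T
  up : ∀ T, HW K x T ≤ W * (T + 1)

/-- some iterate of the point lies on a periodic irreducible curve over `K`: a homogeneous prime
ideal with Hilbert function between `T + 1` and `c (T + 1)` -/
def OnCurve {K : Type} [Field K] {ι : Type} (F : ι → MvPolynomial ι K) {N : Type} [Field N]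
    [Algebra K N] (P : ι → N) : Prop :=
  ∃ (r k c : ℕ) (Q : Ideal (MvPolynomial ι K)), 0 < k ∧ Q.IsPrime ∧
    (∀ G ∈ Q, ∀ d, homogeneousComponent d G ∈ Q) ∧
    (∀ T, Module.finrank K ↥(homogeneousSubmodule ι K T ⊓ Q.restrictScalars K) + (T + 1) ≤
      Module.finrank K (homogeneousSubmodule ι K T)) ∧
    (∀ T, Module.finrank K (homogeneousSubmodule ι K T) ≤
      Module.finrank K ↥(homogeneousSubmodule ι K T ⊓ Q.restrictScalars K) + c * (T + 1)) ∧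
    (∀ G ∈ Q, aeval ((gAct F N)^[r] P) G = 0) ∧
    ∀ G ∈ Q, (bind₁ F)^[k] G ∈ Q

/-- evaluation of polynomials over the valuation ring -/
noncomputable def evO {K : Type} [Field K] [NumberField K] (v : FinitePlace K) {Ω : Type}
    [Field Ω] [Algebra K Ω] {ι : Type} (x : ι → Ω) : MvPolynomial ι (OW v) →+* Ω :=
  eval₂Hom ((algebraMap K Ω).comp (OW v).subtype) x

/-- evaluation of polynomials with coefficients in `O_v[τ]`, with values in `Ω[τ]` -/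
noncomputable def evT {K : Type} [Field K] [NumberField K] (v : FinitePlace K) {Ω : Type}
    [Field Ω] [Algebra K Ω] {ι : Type} (x : ι → Ω) :
    MvPolynomial ι (Polynomial (OW v)) →+* Polynomial Ω :=
  eval₂Hom (Polynomial.mapRingHom ((algebraMap K Ω).comp (OW v).subtype))
    fun i => Polynomial.C (x i)

/-! ## closeness -/

/-- DWORK -/
def DworkStatement : Prop :=
  ∀ (A : Type) [CommRing A] (ϖ c : A) (q : ℕ) (φ : A →+* A), 2 ≤ q → (q : A) = ϖ * c →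
    φ ϖ = ϖ → (∀ G : A, ∃ H : A, φ G = G ^ q + ϖ * H) →
    ∀ G : A, ∃ a : ℕ → A, ∀ n : ℕ,
      φ^[n] G = ∑ i ∈ Finset.range (n + 1), ϖ ^ i * a i ^ (q ^ (n - i))

/-- WLEM -/
def WlemStatement : Prop :=
  ∀ (A B : Type) [CommRing A] [CommRing B] [IsDomain B] (ϖ c : A) (q U m : ℕ)
    (φ : A →+* A) (θ : A →+* B), 2 ≤ q → (q : A) = ϖ * c → φ ϖ = ϖ →
    (∀ G : A, ∃ H : A, φ G = G ^ q + ϖ * H) → θ ϖ ≠ 0 →
    (∀ (a b : A) (M : ℕ), θ a ^ M = θ (ϖ * b) → ∃ b' : A, θ a ^ (q ^ U) = θ (ϖ * b')) →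
    ∀ (G : A) (n₀ : ℕ), U + m ≤ n₀ → θ (φ^[n₀] G) = 0 →
    ∀ n, U + m ≤ n → ∃ H : A, θ (φ^[n] G) = θ (ϖ ^ (m + 1) * H)

/-- PHI -/
def PhiStatement : Prop :=
  ∀ (K : Type) [Field K] [NumberField K] (p s : ℕ) (ι : Type) [Fintype ι] [DecidableEq ι]
    (v : FinitePlace K) (Φ : GF (OW v) p s ι), p.Prime → 1 ≤ s → v (Φ.ϖ : K) < 1 →
    (Φ.ϖ : K) ≠ 0 → (∀ a : K, v a < 1 → v a ≤ v (Φ.ϖ : K)) →
    ∃ k₀ : ℕ, 1 ≤ k₀ ∧ ∀ G : MvPolynomial ι (OW v), ∃ H : MvPolynomial ι (OW v),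
      (bind₁ Φ.F)^[k₀] G = G ^ ((p ^ s) ^ k₀) + C Φ.ϖ * H

/-- NN, normalisation -/
def NnStatement : Prop :=
  ∀ (A Ω : Type) [CommRing A] [IsDomain A] [CommRing Ω] [IsDomain Ω] [Algebra A Ω]
    (I : Ideal A), I.IsPrime → Infinite (A ⧸ I) → ∀ (s n : ℕ) (y : Fin (n + 2) → Ω), 1 ≤ s →
    (∀ z : Fin 3 → Ω, (∀ i, z i ∈ Submodule.span A (Set.range y)) →
      ∃ g : MvPolynomial (Fin 3) A, g.IsHomogeneous s ∧ (∃ t, coeff t g ∉ I) ∧
        aeval z g = 0) →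
    ∃ (z : Fin 2 → Ω) (lam : A) (m : Fin (s ^ n) → Ω),
      (∀ i, z i ∈ Submodule.span A (Set.range y)) ∧ lam ∉ I ∧ (∃ j, m j = 1) ∧
      ∀ a ∈ Algebra.adjoin A (Set.range y), ∃ k : ℕ, ∀ j,
        lam ^ k • (a * m j) ∈ Submodule.span (Algebra.adjoin A (Set.range z)) (Set.range m)

/-- REL, relations between three linear forms -/
def RelStatement : Prop :=
  ∀ (K : Type) [Field K] [NumberField K] (v : FinitePlace K) (ϖ : OW v), v (ϖ : K) < 1 →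
    (ϖ : K) ≠ 0 → (∀ a : K, v a < 1 → v a ≤ v (ϖ : K)) →
    ∀ (Ω : Type) [Field Ω] [Algebra K Ω] (ι : Type) [Fintype ι] (x : ι → Ω) (s : ℕ),
    2 * HW K x s < (s + 1) * (s + 2) →
    ∀ l : Fin 3 → MvPolynomial ι (Polynomial (OW v)), (∀ i, (l i).IsHomogeneous 1) →
    ∃ g : MvPolynomial (Fin 3) (Polynomial (OW v)), g.IsHomogeneous s ∧
      (∃ t, coeff t g ∉ Ideal.span {Polynomial.C ϖ}) ∧ evT v x (aeval l g) = 0

/-- NIL, nilpotency exponents -/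
def NilStatement : Prop :=
  ∀ (K : Type) [Field K] [NumberField K] (v : FinitePlace K) (ϖ : OW v), v (ϖ : K) < 1 →
    (ϖ : K) ≠ 0 → (∀ a : K, v a < 1 → v a ≤ v (ϖ : K)) →
    ∀ (Ω : Type) [Field Ω] [Algebra K Ω] (ι : Type) [Fintype ι] (x : ι → Ω) (W : ℕ),
    GenC K x W →
    ∀ (a b : MvPolynomial ι (OW v)) (M : ℕ), evO v x a ^ M = evO v x (C ϖ * b) →
      ∃ b' : MvPolynomial ι (OW v),
        evO v x a ^ ((2 * W) ^ Fintype.card ι) = evO v x (C ϖ * b')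

/-- LOCW, symmetric closeness of the levels -/
def LocwStatement : Prop :=
  ∀ (K : Type) [Field K] [NumberField K] (p s : ℕ) (ι : Type) [Fintype ι] [DecidableEq ι]
    [Nonempty ι] (v : FinitePlace K) (Φ : GF (OW v) p s ι), p.Prime → 1 ≤ s →
    v (Φ.ϖ : K) < 1 → (Φ.ϖ : K) ≠ 0 → (∀ a : K, v a < 1 → v a ≤ v (Φ.ϖ : K)) →
    ∀ k₀ : ℕ, 1 ≤ k₀ → (∀ G : MvPolynomial ι (OW v), ∃ H : MvPolynomial ι (OW v),
      (bind₁ Φ.F)^[k₀] G = G ^ ((p ^ s) ^ k₀) + C Φ.ϖ * H) →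
    ∀ F : ι → MvPolynomial ι K, (∀ i, map (OW v).subtype (Φ.F i) = F i) →
    ∀ (Ω : Type) [Field Ω] [Algebra K Ω] (x : ι → Ω) (W U m : ℕ), GenC K x W →
      (2 * W) ^ Fintype.card ι ≤ ((p ^ s) ^ k₀) ^ U →
    ∀ n₀ n : ℕ, U + m ≤ n₀ → U + m ≤ n →
    ∀ (G : MvPolynomial ι K) (T : ℕ), G.IsHomogeneous T → (∀ t, v (coeff t G) ≤ 1) →
      aeval ((gAct F Ω)^[k₀ * n₀] x) G = 0 →
    ∀ (N : Type) [Field N] [NumberField N] [Algebra K N] (w : FinitePlace N) (e : ℕ),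
      Above v w e → ∀ R : ι → N, R ≠ 0 → SpecTo K x R →
      w (aeval ((gAct F N)^[k₀ * n] R) G) ≤
        w (toN v N Φ.ϖ) ^ (m + 1) * (⨆ l, w ((gAct F N)^[k₀ * n] R l)) ^ T

/-! ## jets along the reduced curve -/

/-- JETK -/
def JetkStatement : Prop :=
  ∀ (k : Type) [Field k] [Infinite k] (ι : Type) [Fintype ι] (I : Ideal (MvPolynomial ι k))
    (s κ T : ℕ), 1 ≤ s → 1 ≤ κ →
    (∀ l : Fin 3 → MvPolynomial ι k, (∀ i, (l i).IsHomogeneous 1) →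
      ∃ g : MvPolynomial (Fin 3) k, g.IsHomogeneous s ∧ g ≠ 0 ∧ aeval l g ∈ I) →
    Module.finrank k (homogeneousSubmodule ι k T) ≤
      Module.finrank k ↥(homogeneousSubmodule ι k T ⊓ (I ^ κ).restrictScalars k) +
        (κ * s) ^ Fintype.card ι * (T + 1)

/-- JETD -/
def JetdStatement : Prop :=
  ∀ (k : Type) [Field k] (ι : Type) [Fintype ι] (I : Ideal (MvPolynomial ι k))
    (s κ T : ℕ), 1 ≤ s → 1 ≤ κ →
    (∀ l : Fin 3 → MvPolynomial ι (Polynomial k), (∀ i, (l i).IsHomogeneous 1) →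
      ∃ g : MvPolynomial (Fin 3) (Polynomial k), g.IsHomogeneous s ∧ g ≠ 0 ∧
        aeval l g ∈ I.map (MvPolynomial.map (Polynomial.C : k →+* Polynomial k))) →
    Module.finrank k (homogeneousSubmodule ι k T) ≤
      Module.finrank k ↥(homogeneousSubmodule ι k T ⊓ (I ^ κ).restrictScalars k) +
        (κ * s) ^ Fintype.card ι * (T + 1)

/-- JETO -/
def JetoStatement : Prop :=
  ∀ (K : Type) [Field K] [NumberField K] (v : FinitePlace K) (ϖ : OW v), v (ϖ : K) < 1 →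
    (ϖ : K) ≠ 0 → (∀ a : K, v a < 1 → v a ≤ v (ϖ : K)) →
    ∀ (Ω : Type) [Field Ω] [Algebra K Ω] (ι : Type) [Fintype ι] (x : ι → Ω) (W : ℕ),
    GenC K x W → ∀ κ T : ℕ, 1 ≤ κ →
    ∃ B : Fin ((κ * (2 * W)) ^ Fintype.card ι * (T + 1)) → MvPolynomial ι (OW v),
      (∀ j, (B j).IsHomogeneous T) ∧
      ∀ G : MvPolynomial ι (OW v), G.IsHomogeneous T →
        ∃ c : Fin ((κ * (2 * W)) ^ Fintype.card ι * (T + 1)) → OW v,
          G - ∑ j, C (c j) * B j ∈ RingHom.ker (evO v x) ^ κ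

/-- JETW -/
def JetwStatement : Prop :=
  ∀ (K : Type) [Field K] [NumberField K] (p s : ℕ) (ι : Type) [Fintype ι] [DecidableEq ι]
    [Nonempty ι] (v : FinitePlace K) (Φ : GF (OW v) p s ι), p.Prime → 1 ≤ s →
    v (Φ.ϖ : K) < 1 → (Φ.ϖ : K) ≠ 0 →
    ∀ k₀ : ℕ, 1 ≤ k₀ → (∀ G : MvPolynomial ι (OW v), ∃ H : MvPolynomial ι (OW v),
      (bind₁ Φ.F)^[k₀] G = G ^ ((p ^ s) ^ k₀) + C Φ.ϖ * H) →
    ∀ F : ι → MvPolynomial ι K, (∀ i, map (OW v).subtype (Φ.F i) = F i) →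
    ∀ (Ω : Type) [Field Ω] [Algebra K Ω] (x : ι → Ω), HomRel K x →
    ∀ (N : Type) [Field N] [NumberField N] [Algebra K N] (w : FinitePlace N) (e : ℕ),
      Above v w e → ∀ R : ι → N, R ≠ 0 → SpecTo K x R →
    ∀ (n κ T : ℕ) (E : MvPolynomial ι (OW v)), 1 ≤ n → E.IsHomogeneous T →
      E ∈ RingHom.ker (evO v x) ^ κ →
      w (aeval ((gAct F N)^[k₀ * n] R) (map (OW v).subtype E)) ≤
        w (toN v N Φ.ϖ) ^ κ * (⨆ l, w ((gAct F N)^[k₀ * n] R l)) ^ T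

/-! ## curves -/

/-- CURVE, from a Hilbert function to a curve -/
def CurveStatement : Prop :=
  ∀ (K : Type) [Field K] [Infinite K] (N : Type) [Field N] [Algebra K N] (ι : Type) [Fintype ι]
    (R : ι → N) (w : ℕ), 2 ≤ Fintype.card ι → 1 ≤ w → (∀ T, HW K R T ≤ w * (T + 1)) →
    ∃ (Ω : Type) (_ : Field Ω) (_ : Algebra K Ω) (x : ι → Ω),
      GenC K x ((2 * w) ^ Fintype.card ι) ∧ SpecTo K x R

/-- STEP, used in CURVE -/
def StepStatement : Prop :=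
  ∀ (S : Type) [CommRing S] [IsDomain S] (f : Polynomial S), f.Monic →
    ∀ P : Ideal (Polynomial S), P.IsPrime → f ∈ P →
    ∃ Q : Ideal (Polynomial S), Q.IsPrime ∧ Q ≤ P ∧ f ∈ Q ∧
      ∀ a : S, Polynomial.C a ∈ Q → a = 0

/-- BEZ, Bezout -/
def BezStatement : Prop :=
  ∀ (K : Type) [Field K] (Ω N : Type) [Field Ω] [Algebra K Ω] [Field N] [Algebra K N]
    (ι : Type) [Fintype ι] (x : ι → Ω) (R : ι → N) (W D t : ℕ),
    (∀ T, HW K x T ≤ W * (T + 1)) → SpecTo K x R → R ≠ 0 → (∃ T, D ≤ HW K R T) → W * t < D →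
    ∀ G : MvPolynomial ι K, G.IsHomogeneous t → aeval R G = 0 → aeval x G = 0

/-- DEG -/
def DegStatement : Prop :=
  ∀ (K N : Type) [Field K] [CharZero K] [Field N] [Algebra K N] [FiniteDimensional K N]
    [IsGalois K N] (ι : Type) [Fintype ι] (R : ι → N), R ≠ 0 →
    ∃ T, idx (⊤ : Subgroup (N ≃ₐ[K] N)) R ≤ HW K R T

/-- IMG, the images of a curve -/
def ImgStatement : Prop :=
  ∀ (K : Type) [Field K] [NumberField K] (ι : Type) [Fintype ι] [DecidableEq ι] (q : ℕ)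
    (F : ι → MvPolynomial ι K), 1 ≤ q → (∀ i, (F i).IsHomogeneous q) →
    (∀ z : ι → AlgebraicClosure K, (∀ i, aeval z (F i) = 0) → z = 0) →
    ∀ (Ω : Type) [Field Ω] [Algebra K Ω] (x : ι → Ω) (W : ℕ), GenC K x W →
    ∀ j : ℕ, GenC K ((gAct F Ω)^[j] x) (q ^ j * W)

/-- CUT, a curve is cut out by forms of small degree -/
def CutStatement : Prop :=
  ∀ (K : Type) [Field K] [Infinite K] (Ω Ω' : Type) [Field Ω] [Field Ω'] [Algebra K Ω]
    [Algebra K Ω'] (ι : Type) [Fintype ι] (z : ι → Ω) (y : ι → Ω') (s : ℕ),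
    HomRel K z → (∀ T, T + 1 ≤ HW K z T) → 2 * HW K z s < (s + 1) * (s + 2) →
    (∀ G : MvPolynomial ι K, G.IsHomogeneous s → aeval z G = 0 → aeval y G = 0) →
    SpecTo K z y

/-- PER -/
def PerStatement : Prop :=
  ∀ (K : Type) [Field K] (ι : Type) [Fintype ι] (q : ℕ) (F : ι → MvPolynomial ι K),
    1 ≤ q → (∀ i, (F i).IsHomogeneous q) →
    ∀ (Ω N : Type) [Field Ω] [Algebra K Ω] [Field N] [Algebra K N] (x : ι → Ω) (R : ι → N)
      (W : ℕ), HomRel K x → (∀ T, HW K x T ≤ W * (T + 1)) → SpecTo K x R →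
    ∀ r k : ℕ, 0 < k → (∀ T, T + 1 ≤ HW K ((gAct F Ω)^[r] x) T) →
      SpecTo K ((gAct F Ω)^[r] x) ((gAct F Ω)^[r + k] x) → OnCurve F R

/-! ## determinants -/

/-- CENT -/
def CentStatement : Prop :=
  ∀ (K : Type) [Field K] [NumberField K] (v : FinitePlace K) (Ω : Type) [Field Ω]
    [Algebra K Ω] (ι : Type) [Fintype ι] (y : ι → Ω) (T : ℕ),
    ∃ B : Fin (HW K y T) → MvPolynomial ι K, (∀ j, (B j).IsHomogeneous T) ∧
      (∀ j t, v (coeff t (B j)) ≤ 1) ∧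
      ∀ G : MvPolynomial ι K, G.IsHomogeneous T → (∀ t, v (coeff t G) ≤ 1) →
        ∃ c : Fin (HW K y T) → K, (∀ j, v (c j) ≤ 1) ∧
          aeval y (G - ∑ j, C (c j) * B j) = 0

/-- DETG -/
def DetgStatement : Prop :=
  ∀ (K : Type) [Field K] [NumberField K] (N : Type) [Field N] [NumberField N] [Algebra K N]
    (p s : ℕ) (ι : Type) [Fintype ι] [DecidableEq ι] [Nonempty ι]
    (v : FinitePlace K) (w : FinitePlace N) (e : ℕ) (Φ : GF (OW v) p s ι),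
    Above v w e → v (Φ.ϖ : K) < 1 →
    ∀ F : ι → MvPolynomial ι K, (∀ i, map (OW v).subtype (Φ.F i) = F i) →
    ∀ (n J b : ℕ) (μ : Fin n → ℕ → ι →₀ ℕ), (∀ a j, (μ a j).degree = b) →
    ∀ z : Fin n → ι → N, (∀ i, z i ≠ 0) → ∀ ω : ℝ, 0 ≤ ω → ω ≤ 1 →
    ∀ (r : ℕ) (B : Fin r → MvPolynomial ι K),
      (∀ j, (B j).IsHomogeneous (dl b (p ^ s) J)) → (∀ j t, v (coeff t (B j)) ≤ 1) →
      (∀ G : MvPolynomial ι K, G.IsHomogeneous (dl b (p ^ s) J) →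
        (∀ t, v (coeff t G) ≤ 1) → ∃ c : Fin r → K, (∀ j, v (c j) ≤ 1) ∧ ∀ i,
          w (aeval (z i) (G - ∑ j, C (c j) * B j)) ≤
            ω * (⨆ l, w (z i l)) ^ dl b (p ^ s) J) →
    w (Matrix.of fun i a => aeval (z i) (gQ F J (μ a))).det ≤
      ω ^ (n - r) * ∏ i, ∏ j ∈ Finset.range (J + 1), (⨆ l, w ((gAct F N)^[j] (z i) l)) ^ b

/-- ENEQ, from the local bounds at the places above `v` to heights -/
def EneqStatement : Prop :=
  ∀ (K : Type) [Field K] [NumberField K] (p s : ℕ) (ι : Type) [Fintype ι] [DecidableEq ι]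
    [Nonempty ι] (v : FinitePlace K) (Φ : GF (OW v) p s ι), p.Prime → 1 ≤ s →
    v (Φ.ϖ : K) < 1 → (Φ.ϖ : K) ≠ 0 →
    ∀ F : ι → MvPolynomial ι K, (∀ i, (F i).IsHomogeneous (p ^ s)) →
    (∀ z : ι → AlgebraicClosure K, (∀ i, aeval z (F i) = 0) → z = 0) →
    ∀ b : ℕ, (∀ (J : ℕ) (G : MvPolynomial ι K), G.IsHomogeneous (dl b (p ^ s) J) →
      G ∈ Submodule.span K {Q : MvPolynomial ι K | ∃ μ : ℕ → ι →₀ ℕ,
        (∀ j, (μ j).degree = b) ∧ Q = gQ F J μ}) →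
    ∃ C : ℝ, 0 ≤ C ∧
    ∀ (N : Type) [Field N] [NumberField N] [Algebra K N] [IsGalois K N] (m : ℕ)
      (y : Fin m → ι → N) (J n g : ℕ) (h₀ : ℝ), (∀ l, y l ≠ 0) →
      n = HW K (joint y) (dl b (p ^ s) J) →
      (∀ l, ∃ h : ℝ, Filter.Tendsto (fun i : ℕ => Height.logHeight ((gAct F N)^[i] (y l)) /
        (Module.finrank ℚ N : ℝ) / ((p ^ s : ℕ) : ℝ) ^ i) Filter.atTop (nhds h) ∧ h ≤ h₀) →
      (∀ (w : FinitePlace N) (e : ℕ), Above v w e →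
        ∀ (row : Fin n → Fin m × (N ≃ₐ[K] N)) (μ : Fin n → ℕ → ι →₀ ℕ),
        (∀ a j, (μ a j).degree = b) →
        w (Matrix.of fun i a => aeval (gal (row i).2 (y (row i).1)) (gQ F J (μ a))).det ≤
          w (toN v N Φ.ϖ) ^ g * ∏ i, ∏ j ∈ Finset.range (J + 1),
            (⨆ l, w ((gAct F N)^[j] (gal (row i).2 (y (row i).1)) l)) ^ b) →
      (g : ℝ) * (- Real.log (v (Φ.ϖ : K)) / Module.finrank ℚ K) ≤
        n * (2 * b * ((p ^ s : ℕ) : ℝ) ^ J * h₀ + b * C * (J + 1) + Real.log n)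

/-- CASEB, one level whose Hilbert function is large -/
def CasebStatement : Prop :=
  ∀ (K : Type) [Field K] [NumberField K] (p s : ℕ) (ι : Type) [Fintype ι] [DecidableEq ι]
    [Nonempty ι] (v : FinitePlace K) (Φ : GF (OW v) p s ι), p.Prime → 1 ≤ s →
    v (Φ.ϖ : K) < 1 → (Φ.ϖ : K) ≠ 0 → (∀ a : K, v a < 1 → v a ≤ v (Φ.ϖ : K)) →
    ∀ k₀ : ℕ, 1 ≤ k₀ → (∀ G : MvPolynomial ι (OW v), ∃ H : MvPolynomial ι (OW v),
      (bind₁ Φ.F)^[k₀] G = G ^ ((p ^ s) ^ k₀) + C Φ.ϖ * H) →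
    ∀ F : ι → MvPolynomial ι K, (∀ i, map (OW v).subtype (Φ.F i) = F i) →
    ∀ (Ω : Type) [Field Ω] [Algebra K Ω] (x : ι → Ω) (W : ℕ), GenC K x W →
    ∀ (N : Type) [Field N] [NumberField N] [Algebra K N] [IsGalois K N] (R : ι → N), R ≠ 0 →
      SpecTo K x R →
    ∀ (n₁ κ b J : ℕ), 1 ≤ n₁ → 1 ≤ κ →
      4 * (κ * (2 * W)) ^ Fintype.card ι ≤ dl b (p ^ s) J →
      (dl b (p ^ s) J + 1) * (dl b (p ^ s) J + 2) ≤
        2 * HW K ((gAct F N)^[k₀ * n₁] R) (dl b (p ^ s) J) →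
      ∃ r : ℕ, 2 * r ≤ HW K ((gAct F N)^[k₀ * n₁] R) (dl b (p ^ s) J) ∧
      ∀ (w : FinitePlace N) (e : ℕ), Above v w e →
      ∀ (n : ℕ) (row : Fin n → (N ≃ₐ[K] N)) (μ : Fin n → ℕ → ι →₀ ℕ),
        (∀ a j, (μ a j).degree = b) →
        w (Matrix.of fun i a =>
          aeval (gal (row i) ((gAct F N)^[k₀ * n₁] R)) (gQ F J (μ a))).det ≤
          w (toN v N Φ.ϖ) ^ (κ * (n - r)) * ∏ i, ∏ j ∈ Finset.range (J + 1),
            (⨆ l, w ((gAct F N)^[j] (gal (row i) ((gAct F N)^[k₀ * n₁] R)) l)) ^ b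

/-- CASEA, many levels whose Hilbert functions are small -/
def CaseaStatement : Prop :=
  ∀ (K : Type) [Field K] [NumberField K] (p s : ℕ) (ι : Type) [Fintype ι] [DecidableEq ι]
    [Nonempty ι] (v : FinitePlace K) (Φ : GF (OW v) p s ι), p.Prime → 1 ≤ s →
    v (Φ.ϖ : K) < 1 → (Φ.ϖ : K) ≠ 0 → (∀ a : K, v a < 1 → v a ≤ v (Φ.ϖ : K)) →
    ∀ k₀ : ℕ, 1 ≤ k₀ → (∀ G : MvPolynomial ι (OW v), ∃ H : MvPolynomial ι (OW v),
      (bind₁ Φ.F)^[k₀] G = G ^ ((p ^ s) ^ k₀) + C Φ.ϖ * H) →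
    ∀ F : ι → MvPolynomial ι K, (∀ i, map (OW v).subtype (Φ.F i) = F i) →
    (∀ z : ι → AlgebraicClosure K, (∀ i, aeval z (F i) = 0) → z = 0) →
    ∀ (Ω : Type) [Field Ω] [Algebra K Ω] (x : ι → Ω) (W : ℕ), GenC K x W →
    ∀ (N : Type) [Field N] [NumberField N] [Algebra K N] [IsGalois K N] (R : ι → N), R ≠ 0 →
      SpecTo K x R → ¬ OnCurve F R →
    ∀ (U m b J t L : ℕ), (2 * W) ^ Fintype.card ι ≤ ((p ^ s) ^ k₀) ^ U →
      L = 2 * 3 ^ Fintype.card ι → 2 * (L * t) ≤ dl b (p ^ s) J →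
      W * (dl b (p ^ s) J * (p ^ s) ^ (k₀ * (U + m + L))) < idx (⊤ : Subgroup (N ≃ₐ[K] N)) R →
      (∀ i < L, 2 * HW K ((gAct F N)^[k₀ * (U + m + i)] R) t < (t + 1) * (t + 2)) →
      ∃ r : ℕ, 2 * r ≤ HW K (joint fun i : Fin L => (gAct F N)^[k₀ * (U + m + i)] R)
          (dl b (p ^ s) J) ∧
      ∀ (w : FinitePlace N) (e : ℕ), Above v w e →
      ∀ (n : ℕ) (row : Fin n → Fin L × (N ≃ₐ[K] N)) (μ : Fin n → ℕ → ι →₀ ℕ),
        (∀ a j, (μ a j).degree = b) →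
        w (Matrix.of fun i a => aeval (gal (row i).2
          ((gAct F N)^[k₀ * (U + m + (row i).1)] R)) (gQ F J (μ a))).det ≤
          w (toN v N Φ.ϖ) ^ ((m + 1) * (n - r)) * ∏ i, ∏ j ∈ Finset.range (J + 1),
            (⨆ l, w ((gAct F N)^[j] (gal (row i).2
              ((gAct F N)^[k₀ * (U + m + (row i).1)] R)) l)) ^ b

/-- CRVN, points on curves of small degree -/
def CrvnStatement : Prop :=
  ∀ (K : Type) [Field K] [NumberField K] (p s : ℕ) (ι : Type) [Fintype ι] [DecidableEq ι]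
    [Nonempty ι] (v : FinitePlace K) (Φ : GF (OW v) p s ι), 2 ≤ Fintype.card ι → p.Prime →
    1 ≤ s → v (Φ.ϖ : K) < 1 → (Φ.ϖ : K) ≠ 0 → (∀ a : K, v a < 1 → v a ≤ v (Φ.ϖ : K)) →
    ∀ F : ι → MvPolynomial ι K, (∀ i, (F i).IsHomogeneous (p ^ s)) →
    (∀ z : ι → AlgebraicClosure K, (∀ i, aeval z (F i) = 0) → z = 0) →
    (∀ i, map (OW v).subtype (Φ.F i) = F i) →
    ∃ C1 C2 : ℕ, ∀ (N : Type) [Field N] [NumberField N] [Algebra K N] [IsGalois K N]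
      (R : ι → N), R ≠ 0 → ∀ w : ℕ, 1 ≤ w → (∀ T, HW K R T ≤ w * (T + 1)) →
      C2 * w ^ C2 ≤ idx (⊤ : Subgroup (N ≃ₐ[K] N)) R →
      ∀ h : ℝ, Filter.Tendsto (fun n : ℕ => Height.logHeight ((gAct F N)^[n] R) /
        (Module.finrank ℚ N : ℝ) / ((p ^ s : ℕ) : ℝ) ^ n) Filter.atTop (nhds h) →
      1 ≤ (C1 : ℝ) * (w : ℝ) ^ C1 * h ∨ OnCurve F R

/-! ## non separated orbits have small Hilbert functions -/

/-- COVER -/
def CoverStatement : Prop :=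
  ∀ (G X : Type) [Group G] [Fintype G] [Fintype X] [MulAction G X]
    [MulAction.IsPretransitive G X] (S : Finset X), S.Nonempty →
    ∃ Z : Finset G, (Z.card : ℝ) ≤ (Fintype.card X : ℝ) / S.card *
        (1 + Real.log (Fintype.card X)) ∧ ∀ x : X, ∃ g ∈ Z, g⁻¹ • x ∈ S

/-- NSA -/
def NsaStatement : Prop :=
  ∀ (K N : Type) [Field K] [CharZero K] [Field N] [Algebra K N] [FiniteDimensional K N]
    [IsGalois K N] (ι : Type) [Fintype ι] (P : ι → N) (T : ℕ),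
    ∃ σ : Fin (HW K P T) → (N ≃ₐ[K] N), ∀ a, ∃ G : MvPolynomial ι N, G.IsHomogeneous T ∧
      eval (gal (σ a) P) G ≠ 0 ∧ ∀ i, i ≠ a → eval (gal (σ i) P) G = 0

/-- NS -/
def NsStatement : Prop :=
  ∀ (K N : Type) [Field K] [CharZero K] [Field N] [Algebra K N] [FiniteDimensional K N]
    [IsGalois K N] (ι : Type) [Fintype ι] (P : ι → N), P ≠ 0 → ∀ δ : ℕ,
    ¬ OrbSep K δ P → ∀ T : ℕ, (δ : ℝ) * (HW K P T : ℝ) ≤
      ((T : ℝ) + 1) * ((idx (⊤ : Subgroup (N ≃ₐ[K] N)) P : ℝ) *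
        (1 + Real.log (idx (⊤ : Subgroup (N ≃ₐ[K] N)) P)))

end Pool.DynLehmer.SP
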