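import Pool.Agent.Lib.MP_2194ec_nt.PlC
import Pool.Agent.Lib.MP_2194ec_nt.SP.Iface

set_option autoImplicit false
set_option linter.unusedSectionVars false

/-!
# Module CURVE: from a Hilbert function to a curve (helper72)
-/

namespace Pool.DynLehmer.SP
open MvPolynomial NumberField Pool.DynLehmer Pool.DynLehmer.SB
open scoped Classical

namespace CurveAux

section VW

variable {K : Type} [Field K] {B : Type} [CommRing B] [Algebra K B] {ι : Type}

theorem mem_VW {y : ι → B} {T : ℕ} {b : B} :
    b ∈ VW K y T ↔ ∃ g : MvPolynomial ι K, g.IsHomogeneous T ∧ aeval y g = b := by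
  unfold VW
  rw [Submodule.mem_map]
  exact ⟨fun ⟨g, hg, h⟩ => ⟨g, (mem_homogeneousSubmodule _ _).1 hg, h⟩,
    fun ⟨g, hg, h⟩ => ⟨g, (mem_homogeneousSubmodule _ _).2 hg, h⟩⟩

theorem one_mem (y : ι → B) : (1 : B) ∈ VW K y 0 :=
  mem_VW.2 ⟨1, isHomogeneous_one ι K, by simp⟩

theorem mul_mem {y : ι → B} {T T' : ℕ} {a b : B} (ha : a ∈ VW K y T) (hb : b ∈ VW K y T') :
    a * b ∈ VW K y (T + T') := by
  obtain ⟨g, hg, rfl⟩ := mem_VW.1 ha
  obtain ⟨h, hh, rfl⟩ := mem_VW.1 hb
  exact mem_VW.2 ⟨g * h, hg.mul hh, by simp⟩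

theorem var_mem (y : ι → B) (k : ι) : y k ∈ VW K y 1 :=
  mem_VW.2 ⟨X k, isHomogeneous_X K k, by simp⟩

/-- induction principle -/
theorem VW_le {y : ι → B} (M : ℕ → Submodule K B) (h0 : (1 : B) ∈ M 0)
    (h1 : ∀ T k, ∀ a ∈ M T, y k * a ∈ M (T + 1)) (T : ℕ) : VW K y T ≤ M T := by
  have key : ∀ (T : ℕ) (d : ι →₀ ℕ), d.degree = T →
      aeval y (monomial d (1 : K)) ∈ M T := by
    intro T
    induction T with
    | zero =>
      intro d hd
      rw [(Finsupp.degree_eq_zero_iff d).1 hd]
      simpa using h0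
    | succ T ih =>
      intro d hd
      have hne : d ≠ 0 := by
        rintro rfl
        simp at hd
      obtain ⟨k, hk⟩ := Finsupp.ne_iff.1 hne
      have hk' : 1 ≤ d k := Nat.one_le_iff_ne_zero.2 hk
      set d' := d - Finsupp.single k 1 with hd'
      have hdd : d = Finsupp.single k 1 + d' := by
        rw [hd', add_tsub_cancel_of_le]
        exact Finsupp.single_le_iff.2 hk'
      have hdeg : d'.degree = T := by
        have := congrArg Finsupp.degree hdd
        rw [map_add, Finsupp.degree_single, hd] at this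
        omega
      have h2 := h1 T k _ (ih d' hdeg)
      have h3 : (monomial d (1 : K) : MvPolynomial ι K) = X k * monomial d' 1 := by
        rw [X, monomial_mul, one_mul, ← hdd]
      rw [h3, map_mul, aeval_X]
      exact h2
  rintro _ ⟨g, hg, rfl⟩
  have hg' : g.IsHomogeneous T := (mem_homogeneousSubmodule _ _).1 hg
  change aeval y g ∈ M T
  rw [g.as_sum, map_sum]
  refine Submodule.sum_mem _ fun d hd => ?_
  have h2 : monomial d (coeff d g) = (coeff d g) • (monomial d (1 : K) : MvPolynomial ι K) := by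
    rw [smul_monomial, smul_eq_mul, mul_one]
  rw [h2, map_smul]
  refine Submodule.smul_mem _ _ (key T d ?_)
  have h3 := hg' (mem_support_iff.1 hd)
  rw [Finsupp.degree_eq_weight_one]
  exact h3

theorem finite_hom (ι : Type) [Fintype ι] (T : ℕ) :
    Module.Finite K (homogeneousSubmodule ι K T) :=
  Module.Finite.iff_fg.2 (homogeneousSubmodule_fg ι K T)

theorem finite_VW [Fintype ι] (y : ι → B) (T : ℕ) : Module.Finite K (VW K y T) := by
  have := finite_hom (K := K) ι T
  unfold VW
  infer_instance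

end VW


/-! ### base case -/

section base

variable (K : Type) [Field K]

theorem finrank_two (T : ℕ) : Module.finrank K (homogeneousSubmodule (Fin 2) K T) = T + 1 := by
  have h2 : homogeneousSubmodule (Fin 2) K T = restrictSupport K {d | d.degree = T} :=
    homogeneousSubmodule_eq_finsupp_supported (Fin 2) K T
  rw [h2, Module.finrank_eq_nat_card_basis
    (basisRestrictSupport K {d : Fin 2 →₀ ℕ | d.degree = T})]
  have h3 : {d : Fin 2 →₀ ℕ | d.degree = T} =
      ((Finset.univ : Finset (Fin 2)).finsuppAntidiag T : Set (Fin 2 →₀ ℕ)) := by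
    ext d
    simp [Finsupp.degree_eq_sum]
  rw [h3, Nat.card_coe_set_eq, Set.ncard_coe_finset, Finset.card_finsuppAntidiag_nat_eq_choose,
    Finset.card_univ, Fintype.card_fin]
  have : 2 + T - 1 = T + 1 := by omega
  rw [this, Nat.choose_succ_self_right]

theorem HW_X (T : ℕ) : HW K (X : Fin 2 → MvPolynomial (Fin 2) K) T = T + 1 := by
  rw [HW, VW, ← finrank_two K T]
  have h : (aeval (X : Fin 2 → MvPolynomial (Fin 2) K) :
      MvPolynomial (Fin 2) K →ₐ[K] MvPolynomial (Fin 2) K).toLinearMap = LinearMap.id := by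
    rw [aeval_X_left]
    rfl
  rw [h, Submodule.map_id]

end base

/-! ### the relations between three elements of the span -/

/-- three elements of the span satisfy a form relation of degree `s` -/
def Three (K : Type) [Field K] {N : Type} [Field N] [Algebra K N] {ι : Type} (s : ℕ)
    (y : ι → N) : Prop :=
  ∀ l : Fin 3 → N, (∀ i, l i ∈ Submodule.span K (Set.range y)) →
    ∃ g : MvPolynomial (Fin 3) K, g.IsHomogeneous s ∧ g ≠ 0 ∧ aeval l g = 0

section main

variable {K : Type} [Field K] {N : Type} [Field N] [Algebra K N]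

theorem span_le_VW {ι : Type} (y : ι → N) : Submodule.span K (Set.range y) ≤ VW K y 1 :=
  Submodule.span_le.2 (by rintro _ ⟨k, rfl⟩; exact var_mem y k)

theorem three_of {ι : Type} [Fintype ι] (y : ι → N) (w : ℕ)
    (h : ∀ T, HW K y T ≤ w * (T + 1)) : Three K (2 * w) y := by
  intro l hl
  set φ := (aeval l : MvPolynomial (Fin 3) K →ₐ[K] N).toLinearMap with hφ
  have h1 := rank_null φ (2 * w)
  have h2 : (homogeneousSubmodule (Fin 3) K (2 * w)).map φ ≤ VW K y (2 * w) :=
    VW_le (K := K) (y := l) (fun T => VW K y T) (one_mem y) (fun T k a ha => by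
      have h3 := mul_mem (span_le_VW y (hl k)) ha
      rwa [add_comm 1 T] at h3) (2 * w)
  have := finite_VW (K := K) y (2 * w)
  have h3 : Module.finrank K ((homogeneousSubmodule (Fin 3) K (2 * w)).map φ) ≤
      w * (2 * w + 1) := (Submodule.finrank_mono h2).trans (h (2 * w))
  have h4 := two_choose (2 * w)
  have h5 : (homogeneousSubmodule (Fin 3) K (2 * w) ⊓ LinearMap.ker φ :
      Submodule K (MvPolynomial (Fin 3) K)) ≠ ⊥ := by
    intro h0
    rw [h0, finrank_bot] at h1
    nlinarith
  obtain ⟨g, ⟨hg1, hg2⟩, hg0⟩ := Submodule.exists_mem_ne_zero_of_ne_bot h5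
  exact ⟨g, (mem_homogeneousSubmodule _ _).1 hg1, hg0, hg2⟩

theorem exists_dir [Infinite K] {g : MvPolynomial (Fin 3) K} {s : ℕ} (hg : g.IsHomogeneous s)
    (h0 : g ≠ 0) : ∃ c₀ c₁ : K, eval ![c₀, c₁, 1] g ≠ 0 := by
  by_contra hcon
  push Not at hcon
  have h1 : X 2 * g = 0 := by
    refine MvPolynomial.funext fun x => ?_
    rw [map_mul, eval_X, map_zero]
    by_cases hx : x 2 = 0
    · rw [hx, zero_mul]
    · have h2 := eval_smul_hom hg (x 2) ![x 0 / x 2, x 1 / x 2, 1]
      have h3 : x 2 • ![x 0 / x 2, x 1 / x 2, 1] = x := by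
        funext i
        fin_cases i
        · simp [mul_div_cancel₀ _ hx]
        · simp [mul_div_cancel₀ _ hx]
        · simp
      rw [h3, hcon, mul_zero] at h2
      rw [h2, mul_zero]
  exact h0 ((mul_eq_zero.1 h1).resolve_left (X_ne_zero 2))

/-- the domain over which the point is generic -/
def Good (K : Type) [Field K] {N : Type} [Field N] [Algebra K N] (s n : ℕ)
    (y : Fin (n + 2) → N) : Prop :=
  ∃ (S : Type) (_ : CommRing S) (_ : IsDomain S) (_ : Algebra K S) (yt : Fin (n + 2) → S)
    (ρ : S →ₐ[K] N), (∀ k, ρ (yt k) = y k) ∧ (∀ T, T + 1 ≤ HW K yt T) ∧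
      ∀ T, HW K yt T ≤ s ^ n * (T + 1)

theorem good_zero (s : ℕ) (y : Fin (0 + 2) → N) : Good K s 0 y := by
  refine ⟨MvPolynomial (Fin 2) K, inferInstance, inferInstance, inferInstance, X, aeval y,
    fun k => aeval_X y k, fun T => ?_, fun T => ?_⟩
  · exact (HW_X K T).ge
  · rw [pow_zero, one_mul]
    exact (HW_X K T).le

section rel

variable {S : Type} [CommRing S] [IsDomain S] [Algebra K S]

/-- pairs (polynomial with coefficients in the spaces of forms, leading coefficient) -/
def Mrel (K : Type) [Field K] {S : Type} [CommRing S] [Algebra K S] {ι : Type} (y : ι → S)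
    (T : ℕ) : Submodule K (Polynomial S × K) where
  carrier := {p | (∀ i, i ≤ T → p.1.coeff i ∈ VW K y (T - i)) ∧ (∀ i, T < i → p.1.coeff i = 0) ∧
    p.1.coeff T = algebraMap K S p.2}
  zero_mem' := ⟨fun i _ => by simp, fun i _ => by simp, by simp⟩
  add_mem' := by
    rintro p q ⟨h1, h2, h3⟩ ⟨h4, h5, h6⟩
    refine ⟨fun i hi => ?_, fun i hi => ?_, ?_⟩
    · rw [Prod.fst_add, Polynomial.coeff_add]
      exact Submodule.add_mem _ (h1 i hi) (h4 i hi)
    · rw [Prod.fst_add, Polynomial.coeff_add, h2 i hi, h5 i hi, add_zero]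
    · rw [Prod.fst_add, Polynomial.coeff_add, h3, h6, Prod.snd_add, map_add]
  smul_mem' := by
    rintro c p ⟨h1, h2, h3⟩
    refine ⟨fun i hi => ?_, fun i hi => ?_, ?_⟩
    · rw [Prod.smul_fst, Polynomial.coeff_smul]
      exact Submodule.smul_mem _ _ (h1 i hi)
    · rw [Prod.smul_fst, Polynomial.coeff_smul, h2 i hi, smul_zero]
    · rw [Prod.smul_fst, Polynomial.coeff_smul, h3, Prod.smul_snd, smul_eq_mul, map_mul,
        Algebra.smul_def]

theorem Mrel_mul {ι : Type} {y : ι → S} {T : ℕ} {p : Polynomial S × K} (hp : p ∈ Mrel K y T)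
    {a : S} (ha : a ∈ VW K y 1) (c : K) :
    ((Polynomial.C a + Polynomial.C (algebraMap K S c) * Polynomial.X, c) : Polynomial S × K) *
      p ∈ Mrel K y (T + 1) := by
  obtain ⟨h1, h2, h3⟩ := hp
  have e0 : ((Polynomial.C a + Polynomial.C (algebraMap K S c) * Polynomial.X) * p.1).coeff 0 =
      a * p.1.coeff 0 := by
    rw [add_mul, Polynomial.coeff_add, Polynomial.coeff_C_mul, mul_assoc, Polynomial.coeff_C_mul,
      Polynomial.coeff_X_mul_zero, mul_zero, add_zero]
  have e1 : ∀ i, ((Polynomial.C a + Polynomial.C (algebraMap K S c) * Polynomial.X) *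
      p.1).coeff (i + 1) = a * p.1.coeff (i + 1) + c • p.1.coeff i := by
    intro i
    rw [add_mul, Polynomial.coeff_add, Polynomial.coeff_C_mul, mul_assoc, Polynomial.coeff_C_mul,
      Polynomial.coeff_X_mul, Algebra.smul_def]
  refine ⟨fun i hi => ?_, fun i hi => ?_, ?_⟩
  · rw [Prod.fst_mul]
    rcases i with _ | i
    · rw [e0]
      have h4 := mul_mem ha (h1 0 (Nat.zero_le _))
      rwa [add_comm 1 (T - 0)] at h4
    · rw [e1]
      have h5 : T + 1 - (i + 1) = T - i := by omega
      rw [h5]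
      refine Submodule.add_mem _ ?_ (Submodule.smul_mem _ _ (h1 i (by omega)))
      rcases Nat.lt_or_ge T (i + 1) with h6 | h6
      · rw [h2 _ h6, mul_zero]
        exact Submodule.zero_mem _
      · have h4 := mul_mem ha (h1 (i + 1) h6)
        have h7 : 1 + (T - (i + 1)) = T - i := by omega
        rwa [h7] at h4
  · rw [Prod.fst_mul]
    rcases i with _ | i
    · omega
    · rw [e1, h2 (i + 1) (by omega), h2 i (by omega), mul_zero, smul_zero, add_zero]
  · rw [Prod.fst_mul, e1, h2 (T + 1) (by omega), mul_zero, zero_add, h3, Prod.snd_mul, map_mul,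
      Algebra.smul_def]

end rel

/-- the pieces of the spaces of forms over the quotient -/
noncomputable def Vp (K : Type) [Field K] {S : Type} [CommRing S] [Algebra K S] {ι : Type} (y : ι → S)
    (T i : ℕ) : Submodule K S := if i ≤ T then VW K y (T - i) else ⊥

theorem Vp_pos {S : Type} [CommRing S] [Algebra K S] {ι : Type} {y : ι → S} {T i : ℕ}
    (h : i ≤ T) : Vp K y T i = VW K y (T - i) := if_pos h

theorem Vp_neg {S : Type} [CommRing S] [Algebra K S] {ι : Type} {y : ι → S} {T i : ℕ}
    (h : ¬ i ≤ T) : Vp K y T i = ⊥ := if_neg h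

theorem mem_Vp_pos {S : Type} [CommRing S] [Algebra K S] {ι : Type} {y : ι → S} {T i : ℕ}
    (h : i ≤ T) {a : S} (ha : a ∈ Vp K y T i) : a ∈ VW K y (T - i) := by
  rwa [Vp_pos h] at ha

theorem mem_Vp_neg {S : Type} [CommRing S] [Algebra K S] {ι : Type} {y : ι → S} {T i : ℕ}
    (h : ¬ i ≤ T) {a : S} (ha : a ∈ Vp K y T i) : a = 0 := by
  rwa [Vp_neg h, Submodule.mem_bot] at ha

theorem upper_bound {S S' : Type} [CommRing S] [Algebra K S] [CommRing S'] [Algebra K S']
    {ι κ : Type} [Fintype ι] [Fintype κ] (j : S' →ₐ[K] S) (z : S) (yt' : ι → S') (yt : κ → S)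
    {s : ℕ} (hs : 1 ≤ s) (f : ℕ → S') (hf : ∀ i, i < s → f i ∈ VW K yt' (s - i))
    (hz : z ^ s = ∑ i ∈ Finset.range s, z ^ i * j (f i))
    (hyt : ∀ k, ∃ a ∈ VW K yt' 1, ∃ c : K, yt k = j a + c • z) (A : ℕ)
    (hA : ∀ T, HW K yt' T ≤ A * (T + 1)) (T : ℕ) : HW K yt T ≤ s * A * (T + 1) := by
  let L : ∀ T : ℕ, ((i : Fin s) → Vp K yt' T i) →ₗ[K] S := fun T =>
    ∑ i : Fin s, ((LinearMap.mulLeft K (z ^ (i : ℕ))).comp j.toLinearMap).comp
      ((Vp K yt' T i).subtype.comp (LinearMap.proj i))
  have hL : ∀ T v, L T v = ∑ i : Fin s, z ^ (i : ℕ) * j (v i : S') := by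
    intro T v
    simp only [L, LinearMap.sum_apply]
    rfl
  have hmem : ∀ T (i : Fin s) (a : S'), a ∈ Vp K yt' T i →
      z ^ (i : ℕ) * j a ∈ LinearMap.range (L T) := by
    intro T i a ha
    refine ⟨Pi.single i ⟨a, ha⟩, ?_⟩
    rw [hL, Finset.sum_eq_single i]
    · rw [Pi.single_eq_same]
    · intro k _ hk
      rw [Pi.single_eq_of_ne hk]
      simp
    · intro h
      exact absurd (Finset.mem_univ i) h
  -- multiplication by forms of degree one of the subring
  have hmulj : ∀ T, ∀ a ∈ VW K yt' 1, ∀ b ∈ LinearMap.range (L T),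
      j a * b ∈ LinearMap.range (L (T + 1)) := by
    rintro T a ha _ ⟨v, rfl⟩
    rw [hL, Finset.mul_sum]
    refine Submodule.sum_mem _ fun i _ => ?_
    have h1 : j a * (z ^ (i : ℕ) * j (v i : S')) = z ^ (i : ℕ) * j (a * (v i : S')) := by
      rw [map_mul]
      ring
    rw [h1]
    refine hmem (T + 1) i _ ?_
    by_cases hi : (i : ℕ) ≤ T
    · rw [Vp_pos (by omega)]
      have h2 : (v i : S') ∈ VW K yt' (T - i) := mem_Vp_pos hi (v i).2
      have h3 := mul_mem ha h2
      have h4 : 1 + (T - (i : ℕ)) = T + 1 - i := by omega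
      rwa [h4] at h3
    · have h2 : (v i : S') = 0 := mem_Vp_neg hi (v i).2
      rw [h2, mul_zero]
      exact Submodule.zero_mem _
  have hmulz : ∀ T, ∀ b ∈ LinearMap.range (L T), z * b ∈ LinearMap.range (L (T + 1)) := by
    rintro T _ ⟨v, rfl⟩
    rw [hL, Finset.mul_sum]
    refine Submodule.sum_mem _ fun i _ => ?_
    have h1 : z * (z ^ (i : ℕ) * j (v i : S')) = z ^ ((i : ℕ) + 1) * j (v i : S') := by
      ring
    rw [h1]
    by_cases hi : (i : ℕ) ≤ T
    · have h2 : (v i : S') ∈ VW K yt' (T - i) := mem_Vp_pos hi (v i).2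
      rcases Nat.lt_or_ge ((i : ℕ) + 1) s with h3 | h3
      · refine hmem (T + 1) ⟨(i : ℕ) + 1, h3⟩ _ ?_
        change _ ∈ Vp K yt' (T + 1) ((i : ℕ) + 1)
        rw [Vp_pos (by omega)]
        have h4 : T + 1 - ((i : ℕ) + 1) = T - i := by omega
        rwa [h4]
      · have h4 : (i : ℕ) + 1 = s := by
          have := i.2
          omega
        rw [h4, hz, Finset.sum_mul]
        refine Submodule.sum_mem _ fun m hm => ?_
        rw [Finset.mem_range] at hm
        rw [mul_assoc, ← map_mul]
        refine hmem (T + 1) ⟨m, hm⟩ _ ?_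
        change _ ∈ Vp K yt' (T + 1) m
        rw [Vp_pos (by omega)]
        have h5 := mul_mem (hf m hm) h2
        have h6 : s - m + (T - (i : ℕ)) = T + 1 - m := by omega
        rwa [h6] at h5
    · have h2 : (v i : S') = 0 := mem_Vp_neg hi (v i).2
      rw [h2, map_zero, mul_zero]
      exact Submodule.zero_mem _
  have hle : VW K yt T ≤ LinearMap.range (L T) := by
    refine VW_le (fun T => LinearMap.range (L T)) ?_ ?_ T
    · have h1 := hmem 0 ⟨0, hs⟩ 1 (by
        change (1 : S') ∈ Vp K yt' 0 0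
        rw [Vp_pos le_rfl]
        exact one_mem yt')
      simpa using h1
    · intro T k a ha
      obtain ⟨b, hb, c, hc⟩ := hyt k
      rw [hc, add_mul, smul_mul_assoc]
      exact Submodule.add_mem _ (hmulj T b hb a ha) (Submodule.smul_mem _ _ (hmulz T a ha))
  have hfin : ∀ i : Fin s, Module.Finite K (Vp K yt' T i) := by
    intro i
    by_cases hi : (i : ℕ) ≤ T
    · rw [Vp_pos hi]
      exact finite_VW yt' _
    · rw [Vp_neg hi]
      infer_instance
  have h1 : HW K yt T ≤ Module.finrank K (LinearMap.range (L T)) := Submodule.finrank_mono hle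
  have h2 := LinearMap.finrank_range_le (L T)
  rw [Module.finrank_pi_fintype] at h2
  have h3 : ∀ i : Fin s, Module.finrank K (Vp K yt' T i) ≤ A * (T + 1) := by
    intro i
    by_cases hi : (i : ℕ) ≤ T
    · rw [Vp_pos hi]
      refine (hA (T - i)).trans (Nat.mul_le_mul_left _ (by omega))
    · rw [Vp_neg hi, finrank_bot]
      exact Nat.zero_le _
  have h4 : ∑ i : Fin s, Module.finrank K (Vp K yt' T i) ≤ s * (A * (T + 1)) := by
    refine (Finset.sum_le_card_nsmul _ _ _ fun i _ => h3 i).trans ?_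
    simp
  calc HW K yt T ≤ s * (A * (T + 1)) := h1.trans (h2.trans h4)
    _ = s * A * (T + 1) := by ring

theorem lower_bound {S S' : Type} [CommRing S] [Algebra K S] [CommRing S'] [Algebra K S']
    {ι κ : Type} [Fintype ι] [Fintype κ] (j : S' →ₐ[K] S) (hj : Function.Injective j)
    (yt' : ι → S') (yt : κ → S) (h : ∀ k, j (yt' k) ∈ VW K yt 1) (T : ℕ) :
    HW K yt' T ≤ HW K yt T := by
  have h1 : VW K yt' T ≤ (VW K yt T).comap j.toLinearMap :=
    VW_le (fun T => (VW K yt T).comap j.toLinearMap)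
      (by
        change j 1 ∈ VW K yt 0
        rw [map_one]
        exact one_mem yt)
      (fun T k a ha => by
        change j (yt' k * a) ∈ VW K yt (T + 1)
        rw [map_mul, add_comm T 1]
        exact mul_mem (h k) ha) T
  have h2 : (VW K yt' T).map j.toLinearMap ≤ VW K yt T := Submodule.map_le_iff_le_comap.2 h1
  have := finite_VW (K := K) yt T
  have h3 := Submodule.finrank_mono h2
  rw [HW, HW, (LinearEquiv.finrank_eq (Submodule.equivMapOfInjective j.toLinearMap hj
    (VW K yt' T)))]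
  exact h3

theorem good_succ (hS : StepStatement) [Infinite K] {s n : ℕ} (hs : 1 ≤ s)
    (ih : ∀ y : Fin (n + 2) → N, Three K s y → Good K s n y) (y : Fin (n + 1 + 2) → N)
    (hy : Three K s y) : Good K s (n + 1) y := by
  have hsp : ∀ k, y k ∈ Submodule.span K (Set.range y) := fun k =>
    Submodule.subset_span ⟨k, rfl⟩
  set la : Fin (n + 1 + 2) := Fin.last (n + 2) with hla
  obtain ⟨g₀, hg₀, hg₀0, hg₀y⟩ := hy ![y 0, y 1, y la] (by
    intro i
    fin_cases i
    · exact hsp 0
    · exact hsp 1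
    · exact hsp la)
  obtain ⟨c₀, c₁, hc⟩ := exists_dir hg₀ hg₀0
  set lam := eval ![c₀, c₁, 1] g₀ with hlam
  set g : MvPolynomial (Fin 3) K := C lam⁻¹ * g₀ with hg'
  have hg : g.IsHomogeneous s := by
    have := (isHomogeneous_C (Fin 3) lam⁻¹).mul hg₀
    rwa [zero_add] at this
  have hgy : aeval ![y 0, y 1, y la] g = 0 := by
    rw [hg', map_mul, hg₀y, mul_zero]
  have hg1 : eval ![c₀, c₁, 1] g = 1 := by
    rw [hg', map_mul, eval_C, ← hlam, inv_mul_cancel₀ hc]
  let c : Fin (n + 2) → K := fun k => if k = 0 then c₀ else if k = 1 then c₁ else 0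
  have hc0 : c 0 = c₀ := if_pos rfl
  have hc1 : c 1 = c₁ := by
    have : (1 : Fin (n + 2)) ≠ 0 := by
      intro h
      have := congrArg Fin.val h
      simp at this
    change (if (1 : Fin (n + 2)) = 0 then c₀ else if (1 : Fin (n + 2)) = 1 then c₁ else 0) = c₁
    rw [if_neg this, if_pos rfl]
  let y' : Fin (n + 2) → N := fun k => y k.castSucc - c k • y la
  have hy' : Three K s y' := by
    intro l hl
    refine hy l fun i => ?_
    refine Submodule.span_le.2 ?_ (hl i)
    rintro _ ⟨k, rfl⟩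
    exact Submodule.sub_mem _ (hsp _) (Submodule.smul_mem _ _ (hsp _))
  obtain ⟨S', _, _, _, yt', ρ', h1, h2, h3⟩ := ih y' hy'
  let φ : Polynomial S' →ₐ[K] N :=
    { Polynomial.eval₂RingHom (ρ' : S' →+* N) (y la) with
      commutes' := fun a => by
        change Polynomial.eval₂ (ρ' : S' →+* N) (y la) (algebraMap K (Polynomial S') a) = _
        rw [Polynomial.algebraMap_apply, Polynomial.eval₂_C]
        exact ρ'.commutes a }
  have φC : ∀ a, φ (Polynomial.C a) = ρ' a := fun a => Polynomial.eval₂_C _ _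
  have φX : φ Polynomial.X = y la := Polynomial.eval₂_X _ _
  -- the relation
  let vv : Fin 3 → S' := ![yt' 0, yt' 1, 0]
  let cc : Fin 3 → K := ![c₀, c₁, 1]
  let Y : Fin 3 → Polynomial S' × K := fun i =>
    (Polynomial.C (vv i) + Polynomial.C (algebraMap K S' (cc i)) * Polynomial.X, cc i)
  have hvv : ∀ i, vv i ∈ VW K yt' 1 := by
    intro i
    fin_cases i
    · exact var_mem yt' 0
    · exact var_mem yt' 1
    · exact Submodule.zero_mem _
  have hYle : VW K Y s ≤ Mrel K yt' s := by
    refine VW_le (fun T => Mrel K yt' T) ?_ ?_ s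
    · refine ⟨fun i hi => ?_, fun i hi => ?_, ?_⟩
      · have : i = 0 := by omega
        subst this
        rw [Prod.fst_one, Polynomial.coeff_one_zero]
        exact one_mem yt'
      · rw [Prod.fst_one, Polynomial.coeff_one, if_neg (by omega)]
      · rw [Prod.fst_one, Polynomial.coeff_one_zero, Prod.snd_one, map_one]
    · intro T k a ha
      exact Mrel_mul ha (hvv k) (cc k)
  have hYg : aeval Y g ∈ Mrel K yt' s := hYle (mem_VW.2 ⟨g, hg, rfl⟩)
  set f : Polynomial S' := aeval (fun i => (Y i).1) g with hf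
  have hf1 : (aeval Y g).1 = f := by
    have := DFunLike.congr_fun (comp_aeval Y (AlgHom.fst K (Polynomial S') K)) g
    exact this
  have hf2 : (aeval Y g).2 = 1 := by
    have := DFunLike.congr_fun (comp_aeval Y (AlgHom.snd K (Polynomial S') K)) g
    have h4 : (aeval Y g).2 = aeval cc g := this
    rw [h4, ← hg1, aeval_def, eval₂_eq_eval_map]
    congr 1
    exact map_id g
  obtain ⟨hf3, hf4, hf5⟩ := hYg
  rw [hf1] at hf3 hf4 hf5
  rw [hf2, map_one] at hf5
  have hdeg : f.natDegree ≤ s := Polynomial.natDegree_le_iff_coeff_eq_zero.2 hf4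
  have hmon : f.Monic := Polynomial.monic_of_natDegree_le_of_coeff_eq_one s hdeg hf5
  have hφf : φ f = 0 := by
    have h4 := DFunLike.congr_fun (comp_aeval (fun i => (Y i).1) φ) g
    have h5 : φ f = aeval (fun i => φ (Y i).1) g := h4
    rw [h5, ← hgy]
    congr 2
    funext i
    have h6 : φ (Y i).1 = ρ' (vv i) + cc i • y la := by
      change φ (Polynomial.C (vv i) + Polynomial.C (algebraMap K S' (cc i)) * Polynomial.X) = _
      rw [map_add, map_mul, φC, φC, φX, ρ'.commutes, Algebra.smul_def]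
    rw [h6]
    fin_cases i
    · change ρ' (yt' 0) + c₀ • y la = y 0
      rw [h1]
      change y (Fin.castSucc 0) - c 0 • y la + c₀ • y la = y 0
      rw [hc0, sub_add_cancel, Fin.castSucc_zero]
    · change ρ' (yt' 1) + c₁ • y la = y 1
      rw [h1]
      change y (Fin.castSucc 1) - c 1 • y la + c₁ • y la = y 1
      rw [hc1, sub_add_cancel]
      rfl
    · change ρ' 0 + (1 : K) • y la = y la
      rw [map_zero, zero_add, one_smul]
  obtain ⟨Q, hQ, hQP, hfQ, hQ0⟩ := hS S' f hmon (RingHom.ker φ) (RingHom.ker_isPrime _) hφf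
  have hdom : IsDomain (Polynomial S' ⧸ Q) := Ideal.Quotient.isDomain Q
  let mk : Polynomial S' →ₐ[K] (Polynomial S' ⧸ Q) := Ideal.Quotient.mkₐ K Q
  let j : S' →ₐ[K] (Polynomial S' ⧸ Q) := mk.comp (Polynomial.CAlgHom (R := K) (A := S'))
  have hjC : ∀ a, j a = mk (Polynomial.C a) := fun a => rfl
  let z : Polynomial S' ⧸ Q := mk Polynomial.X
  have hjinj : Function.Injective j := by
    rw [injective_iff_map_eq_zero]
    intro a ha
    refine hQ0 a ?_
    rw [hjC] at ha
    exact Ideal.Quotient.eq_zero_iff_mem.1 ha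
  let ρ : (Polynomial S' ⧸ Q) →ₐ[K] N := Ideal.Quotient.liftₐ Q φ fun a ha => hQP ha
  have hρmk : ∀ a, ρ (mk a) = φ a := fun a => rfl
  let yt : Fin (n + 1 + 2) → Polynomial S' ⧸ Q :=
    Fin.snoc (α := fun _ => Polynomial S' ⧸ Q) (fun k : Fin (n + 2) => j (yt' k) + c k • z) z
  have hyt1 : ∀ k : Fin (n + 2), yt k.castSucc = j (yt' k) + c k • z := fun k =>
    Fin.snoc_castSucc (α := fun _ => Polynomial S' ⧸ Q) _ _ k
  have hyt2 : yt la = z := Fin.snoc_last (α := fun _ => Polynomial S' ⧸ Q) _ _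
  have hzs : z ^ s = ∑ i ∈ Finset.range s, z ^ i * j (- f.coeff i) := by
    have h4 : mk f = 0 := Ideal.Quotient.eq_zero_iff_mem.2 hfQ
    rw [Polynomial.as_sum_range_C_mul_X_pow' f (Nat.lt_succ_of_le hdeg), map_sum,
      Finset.sum_range_succ, hf5] at h4
    have h5 : ∀ i, mk (Polynomial.C (f.coeff i) * Polynomial.X ^ i) = z ^ i * j (f.coeff i) := by
      intro i
      rw [map_mul, map_pow, hjC, mul_comm]
    rw [map_mul, map_one, map_one, one_mul, map_pow] at h4
    rw [eq_neg_of_add_eq_zero_right h4, ← Finset.sum_neg_distrib]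
    refine Finset.sum_congr rfl fun i _ => ?_
    rw [h5, map_neg]
    ring
  refine ⟨Polynomial S' ⧸ Q, inferInstance, hdom, inferInstance, yt, ρ, ?_, ?_, ?_⟩
  · intro k
    refine Fin.lastCases ?_ (fun k => ?_) k
    · change ρ (yt la) = y la
      rw [hyt2]
      exact φX
    · rw [hyt1, map_add, map_smul]
      have h4 : ρ (j (yt' k)) = y' k := (φC (yt' k)).trans (h1 k)
      have h5 : ρ z = y la := φX
      rw [h4, h5]
      change y k.castSucc - c k • y la + c k • y la = y k.castSucc
      rw [sub_add_cancel]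
  · intro T
    refine (h2 T).trans (lower_bound j hjinj yt' yt (fun k => ?_) T)
    have h4 : j (yt' k) = yt k.castSucc - c k • yt la := by
      rw [hyt1, hyt2, add_sub_cancel_right]
    rw [h4]
    exact Submodule.sub_mem _ (var_mem yt _) (Submodule.smul_mem _ _ (var_mem yt _))
  · intro T
    have h4 := upper_bound j z yt' yt hs (fun i => - f.coeff i)
      (fun i hi => Submodule.neg_mem _ (hf3 i hi.le)) hzs (fun k => by
        refine Fin.lastCases ?_ (fun k => ?_) k
        · exact ⟨0, Submodule.zero_mem _, 1, by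
            change yt la = _
            rw [hyt2, map_zero, zero_add, one_smul]⟩
        · exact ⟨yt' k, var_mem yt' k, c k, hyt1 k⟩) (s ^ n) h3 T
    rw [pow_succ']
    exact h4

theorem good (hS : StepStatement) [Infinite K] {s : ℕ} (hs : 1 ≤ s) (n : ℕ) :
    ∀ y : Fin (n + 2) → N, Three K s y → Good K s n y := by
  induction n with
  | zero => exact fun y _ => good_zero s y
  | succ n ih => exact fun y hy => good_succ hS hs ih y hy

end main

/-! ### assembly -/

section asm

variable {K : Type} [Field K]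

theorem VW_comp {B : Type} [CommRing B] [Algebra K B] {ι κ : Type} (e : κ ≃ ι) (y : ι → B)
    (T : ℕ) : VW K (y ∘ e) T = VW K y T := by
  have h : ∀ {ι κ : Type} (e : κ ≃ ι) (y : ι → B), VW K (y ∘ e) T ≤ VW K y T := by
    intro ι κ e y
    refine VW_le (fun T => VW K y T) (one_mem y) (fun T k a ha => ?_) T
    have h3 := mul_mem (var_mem (K := K) y (e k)) ha
    rwa [add_comm 1 T] at h3
  refine le_antisymm (h e y) ?_
  have h2 := h e.symm (y ∘ e)
  have h3 : (y ∘ e) ∘ e.symm = y := by
    funext i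
    simp
  rwa [h3] at h2

theorem HW_comp {B : Type} [CommRing B] [Algebra K B] {ι κ : Type} (e : κ ≃ ι) (y : ι → B)
    (T : ℕ) : HW K (y ∘ e) T = HW K y T := by
  rw [HW, HW, VW_comp]

variable {S : Type} [CommRing S] [IsDomain S] [Algebra K S] {ι : Type}

/-- the generic point of the cone -/
noncomputable def cone (y : ι → S) (i : ι) : Polynomial S := Polynomial.C (y i) * Polynomial.X

theorem aeval_cone_hom {y : ι → S} {G : MvPolynomial ι K} {d : ℕ} (hG : G.IsHomogeneous d) :
    aeval (cone y) G = Polynomial.C (aeval y G) * Polynomial.X ^ d := by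
  rw [G.as_sum, map_sum, map_sum, map_sum, Finset.sum_mul]
  refine Finset.sum_congr rfl fun m hm => ?_
  have h1 : m.degree = d := by
    have h3 := hG (mem_support_iff.1 hm)
    rw [Finsupp.degree_eq_weight_one]
    exact h3
  have h2 : (Polynomial.X : Polynomial S) ^ d = ∏ i ∈ m.support, Polynomial.X ^ m i := by
    rw [Finset.prod_pow_eq_pow_sum, ← h1]
    rfl
  rw [aeval_monomial, aeval_monomial, map_mul, h2,
    Finsupp.prod, Finsupp.prod, map_prod, mul_assoc, ← Finset.prod_mul_distrib]
  congr 1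
  refine Finset.prod_congr rfl fun i _ => ?_
  rw [cone, mul_pow, map_pow]

theorem coeff_aeval_cone {y : ι → S} (G : MvPolynomial ι K) (d : ℕ) :
    (aeval (cone y) G).coeff d = aeval y (homogeneousComponent d G) := by
  have h1 : aeval (cone y) G = ∑ i ∈ Finset.range (G.totalDegree + 1),
      Polynomial.C (aeval y (homogeneousComponent i G)) * Polynomial.X ^ i := by
    conv_lhs => rw [← sum_homogeneousComponent G]
    rw [map_sum]
    exact Finset.sum_congr rfl fun i _ => aeval_cone_hom (homogeneousComponent_isHomogeneous i G)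
  rw [h1, Polynomial.finsetSum_coeff]
  simp only [Polynomial.coeff_C_mul_X_pow]
  rw [Finset.sum_ite_eq]
  split_ifs with h2
  · rfl
  · rw [homogeneousComponent_eq_zero, map_zero]
    rw [Finset.mem_range] at h2
    omega

theorem HW_cone (y : ι → S) (T : ℕ) : HW K (cone y) T = HW K y T := by
  let L : S →ₗ[K] Polynomial S :=
    { toFun := fun a => Polynomial.C a * Polynomial.X ^ T
      map_add' := fun a b => by rw [map_add, add_mul]
      map_smul' := fun c a => by
        rw [Algebra.smul_def, map_mul, Algebra.smul_def, RingHom.id_apply, mul_assoc]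
        rfl }
  have hL : Function.Injective L := by
    intro a b hab
    have h1 : Polynomial.C a * Polynomial.X ^ T = Polynomial.C b * Polynomial.X ^ T := hab
    have h2 := congrArg (fun f : Polynomial S => f.coeff T) h1
    simpa using h2
  have h1 : VW K (cone y) T = (VW K y T).map L := by
    ext b
    rw [mem_VW, Submodule.mem_map]
    constructor
    · rintro ⟨g, hg, rfl⟩
      exact ⟨aeval y g, mem_VW.2 ⟨g, hg, rfl⟩, (aeval_cone_hom hg).symm⟩
    · rintro ⟨a, ha, rfl⟩
      obtain ⟨g, hg, rfl⟩ := mem_VW.1 ha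
      exact ⟨g, hg, aeval_cone_hom hg⟩
  rw [HW, HW, h1]
  exact (LinearEquiv.finrank_eq (Submodule.equivMapOfInjective L hL (VW K y T))).symm

theorem HW_inj {B B' : Type} [CommRing B] [Algebra K B] [CommRing B'] [Algebra K B']
    (j : B →ₐ[K] B') (hj : Function.Injective j) (y : ι → B) (T : ℕ) :
    HW K (fun i => j (y i)) T = HW K y T := by
  have hv : ∀ g : MvPolynomial ι K, aeval (fun i => j (y i)) g = j (aeval y g) := fun g =>
    (DFunLike.congr_fun (comp_aeval y j) g).symm
  have h1 : VW K (fun i => j (y i)) T = (VW K y T).map j.toLinearMap := by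
    ext b
    rw [mem_VW, Submodule.mem_map]
    constructor
    · rintro ⟨g, hg, rfl⟩
      exact ⟨aeval y g, mem_VW.2 ⟨g, hg, rfl⟩, (hv g).symm⟩
    · rintro ⟨a, ha, rfl⟩
      obtain ⟨g, hg, rfl⟩ := mem_VW.1 ha
      exact ⟨g, hg, hv g⟩
  rw [HW, HW, h1]
  exact (LinearEquiv.finrank_eq (Submodule.equivMapOfInjective j.toLinearMap hj (VW K y T))).symm

end asm

end CurveAux

open CurveAux in
/-- CURVE: a point whose Hilbert function is at most `w (T + 1)` is a specialisation of the
generic point of a curve -/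
theorem curve (hS : StepStatement) : CurveStatement := by
  intro K _ _ N _ _ ι _ R w hcard hw hR
  obtain ⟨n, hn⟩ : ∃ n, Fintype.card ι = n + 2 := ⟨Fintype.card ι - 2, by omega⟩
  let e : Fin (n + 2) ≃ ι := (Fintype.equivFinOfCardEq hn).symm
  have h1 : ∀ T, HW K (R ∘ e) T ≤ w * (T + 1) := fun T => by
    rw [HW_comp]
    exact hR T
  obtain ⟨S, _, _, _, yt, ρ, h2, h3, h4⟩ := good hS (s := 2 * w) (by omega) n (R ∘ e)
    (three_of (R ∘ e) w h1)
  set y : ι → S := yt ∘ e.symm with hy
  have hHW : ∀ T, HW K y T = HW K yt T := fun T => HW_comp e.symm yt T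
  have hρ : ∀ i, ρ (y i) = R i := by
    intro i
    have h5 := h2 (e.symm i)
    rw [hy, Function.comp_apply, h5, Function.comp_apply, Equiv.apply_symm_apply]
  let j : Polynomial S →ₐ[K] FractionRing (Polynomial S) :=
    IsScalarTower.toAlgHom K (Polynomial S) (FractionRing (Polynomial S))
  have hj : Function.Injective j := IsFractionRing.injective (Polynomial S) _
  have hja : ∀ g : MvPolynomial ι K,
      aeval (fun i => j (cone y i)) g = j (aeval (cone y) g) := fun g =>
    (DFunLike.congr_fun (comp_aeval (cone y) j) g).symm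
  have hz : ∀ g : MvPolynomial ι K, aeval (fun i => j (cone y i)) g = 0 ↔
      aeval (cone y) g = 0 := by
    intro g
    rw [hja, map_eq_zero_iff j hj]
  have hcomp : ∀ g : MvPolynomial ι K, aeval (fun i => j (cone y i)) g = 0 →
      ∀ d, aeval y (homogeneousComponent d g) = 0 := by
    intro g hg d
    rw [← coeff_aeval_cone, (hz g).1 hg, Polynomial.coeff_zero]
  refine ⟨FractionRing (Polynomial S), inferInstance, inferInstance,
    fun i => j (cone y i), ⟨?_, ?_, ?_⟩, ?_⟩
  · intro G hG d
    rw [hz, aeval_cone_hom (homogeneousComponent_isHomogeneous d G), hcomp G hG d, map_zero,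
      zero_mul]
  · intro T
    rw [HW_inj j hj, HW_cone, hHW]
    exact h3 T
  · intro T
    rw [HW_inj j hj, HW_cone, hHW]
    refine (h4 T).trans (Nat.mul_le_mul_right _ ?_)
    exact Nat.pow_le_pow_right (by omega) (by omega)
  · intro G hG
    have h5 : aeval y G = 0 := by
      rw [← sum_homogeneousComponent G, map_sum]
      exact Finset.sum_eq_zero fun d _ => hcomp G hG d
    have h6 := DFunLike.congr_fun (comp_aeval y ρ) G
    have h7 : ρ (aeval y G) = aeval (fun i => ρ (y i)) G := h6
    rw [h5, map_zero] at h7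
    have h8 : (fun i => ρ (y i)) = R := funext hρ
    rw [h8] at h7
    exact h7.symm

end Pool.DynLehmer.SP
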