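import Mathlib
import Pool.Agent.Lib.MP_2194ec_nt.SP.Iface
import Pool.Agent.Lib.MP_2194ec_nt.SB.Mono

set_option autoImplicit false

/-!
# Module BEZ
-/

namespace Pool.DynLehmer.SP
open MvPolynomial NumberField Pool.DynLehmer Pool.DynLehmer.SB
open scoped Classical

namespace BezAux

/-- a dimension count -/
theorem dim_count {K V A B : Type} [Field K] [AddCommGroup V] [Module K V]
    [FiniteDimensional K V] [AddCommGroup A] [Module K A] [AddCommGroup B] [Module K B]
    (f : V →ₗ[K] A) (g : V →ₗ[K] B) (hfg : LinearMap.ker f ≤ LinearMap.ker g)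
    (S : Submodule K A) (hS : S ≤ (LinearMap.ker g).map f) :
    Module.finrank K (LinearMap.range g) + Module.finrank K S ≤
      Module.finrank K (LinearMap.range f) := by
  have h1 := f.finrank_range_add_finrank_ker
  have h2 := g.finrank_range_add_finrank_ker
  have h3 := (f.domRestrict (LinearMap.ker g)).finrank_range_add_finrank_ker
  rw [LinearMap.range_domRestrict, LinearMap.ker_domRestrict] at h3
  have h4 : Module.finrank K ((LinearMap.ker f).comap (LinearMap.ker g).subtype) =
      Module.finrank K (LinearMap.ker f) :=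
    LinearEquiv.finrank_eq (Submodule.comapSubtypeEquivOfLe hfg)
  have h5 : Module.finrank K S ≤ Module.finrank K ((LinearMap.ker g).map f) :=
    Submodule.finrank_mono hS
  change Module.finrank K ((LinearMap.ker g).map f) +
    Module.finrank K ((LinearMap.ker f).comap (LinearMap.ker g).subtype) = _ at h3
  omega

variable {K : Type} [Field K] {Ω N : Type} [Field Ω] [Algebra K Ω] [Field N] [Algebra K N]
    {ι : Type} [Fintype ι]

/-- one step -/
theorem step {x : ι → Ω} {R : ι → N} {t : ℕ} (hS : SpecTo K x R) {G : MvPolynomial ι K}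
    (hG : G.IsHomogeneous t) (hR : aeval R G = 0) (hx : aeval x G ≠ 0) (T : ℕ) :
    HW K R (T + t) + HW K x T ≤ HW K x (T + t) := by
  haveI := finite_hom K ι (T + t)
  haveI := finite_VW K x T
  let H := homogeneousSubmodule ι K (T + t)
  let f : H →ₗ[K] Ω := (aeval x : MvPolynomial ι K →ₐ[K] Ω).toLinearMap.domRestrict H
  let g : H →ₗ[K] N := (aeval R : MvPolynomial ι K →ₐ[K] N).toLinearMap.domRestrict H
  have hf : LinearMap.range f = VW K x (T + t) := LinearMap.range_domRestrict _ _
  have hg : LinearMap.range g = VW K R (T + t) := LinearMap.range_domRestrict _ _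
  have hinj : Function.Injective (LinearMap.mulLeft K (aeval x G)) :=
    fun a b h => mul_left_cancel₀ hx h
  have h1 : Module.finrank K ((VW K x T).map (LinearMap.mulLeft K (aeval x G))) =
      Module.finrank K (VW K x T) :=
    (LinearEquiv.finrank_eq (Submodule.equivMapOfInjective _ hinj _)).symm
  have h2 := dim_count f g (fun y hy => by
      rw [LinearMap.mem_ker] at hy ⊢
      exact hS y hy) ((VW K x T).map (LinearMap.mulLeft K (aeval x G))) (by
      rintro _ ⟨_, ⟨P, hP, rfl⟩, rfl⟩
      have hP' : P.IsHomogeneous T := (mem_homogeneousSubmodule _ _).1 hP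
      have hPG : (P * G).IsHomogeneous (T + t) := hP'.mul hG
      refine ⟨⟨P * G, (mem_homogeneousSubmodule _ _).2 hPG⟩, ?_, ?_⟩
      · rw [SetLike.mem_coe, LinearMap.mem_ker]
        change aeval R (P * G) = 0
        rw [map_mul, hR, mul_zero]
      · change aeval x (P * G) = aeval x G * aeval x P
        rw [map_mul, mul_comm])
  rw [hf, hg, h1] at h2
  exact h2

end BezAux

theorem bez : BezStatement := by
  intro K _ Ω N _ _ _ _ ι _ x R W D t hW hS hR0 hD hWt G hG hR
  by_contra hx
  obtain ⟨T₀, hT₀⟩ := hD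
  have hmono : ∀ k, D ≤ HW K R (T₀ + k * t + t) := fun k =>
    hT₀.trans (mono K N ι R hR0 _ _ (by omega))
  have htel : ∀ k, k * D ≤ HW K x (T₀ + k * t) := by
    intro k
    induction k with
    | zero => simp
    | succ k ih =>
      have h1 := BezAux.step hS hG hR hx (T₀ + k * t)
      have h2 := hmono k
      have h3 : T₀ + (k + 1) * t = T₀ + k * t + t := by ring
      rw [h3, Nat.succ_mul]
      omega
  have h1 := htel (W * (T₀ + 1) + 1)
  have h2 := hW (T₀ + (W * (T₀ + 1) + 1) * t)
  obtain ⟨d, rfl⟩ : ∃ d, D = W * t + 1 + d := ⟨D - (W * t + 1), by omega⟩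
  have h3 := h1.trans h2
  nlinarith [Nat.zero_le (d * (W * (T₀ + 1) + 1))]

end Pool.DynLehmer.SP
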