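import Mathlib
import Pool.Agent.Lib.MP_2194ec_nt.SP.Iface

set_option autoImplicit false

/-!
# Module CASEB: one level whose Hilbert function is large
-/

namespace Pool.DynLehmer.SP
open MvPolynomial NumberField Pool.DynLehmer Pool.DynLehmer.SB
open scoped Classical

namespace CasebAux

section basic

variable {K : Type} [Field K] {ι : Type} {N : Type} [Field N] [Algebra K N]

theorem aeval_gal (σ : N ≃ₐ[K] N) (R : ι → N) (G : MvPolynomial ι K) :
    aeval (gal σ R) G = σ (aeval R G) :=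
  (comp_aeval_apply (σ : N →ₐ[K] N) (f := R) G).symm

theorem specTo_gal {Ω : Type} [Field Ω] [Algebra K Ω] {x : ι → Ω} {R : ι → N}
    (h : SpecTo K x R) (σ : N ≃ₐ[K] N) : SpecTo K x (gal σ R) := by
  intro G hG
  rw [aeval_gal, h G hG, map_zero]

theorem gAct_iter_gal (F : ι → MvPolynomial ι K) (σ : N ≃ₐ[K] N) (k : ℕ) (R : ι → N) :
    (gAct F N)^[k] (gal σ R) = gal σ ((gAct F N)^[k] R) :=
  gAct_iter_map F (σ : N →ₐ[K] N) k R

end basic

section int

variable {K : Type} [Field K] [NumberField K] {ι : Type} (v : FinitePlace K)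

theorem map_subtype_inj : Function.Injective (map (σ := ι) (OW v).subtype) :=
  map_injective _ Subtype.val_injective

/-- a form with integral coefficients comes from a form over the valuation ring -/
theorem lift_int {T : ℕ} (G : MvPolynomial ι K) (hG : G.IsHomogeneous T)
    (h : ∀ t, v (coeff t G) ≤ 1) :
    ∃ G' : MvPolynomial ι (OW v), G'.IsHomogeneous T ∧ map (OW v).subtype G' = G := by
  have h1 : G ∈ Set.range (map (σ := ι) (OW v).subtype) := by
    rw [mem_range_map_iff_coeffs_subset]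
    intro c hc
    obtain ⟨t, -, rfl⟩ := mem_coeffs_iff.1 (Finset.mem_coe.1 hc)
    exact ⟨⟨coeff t G, h t⟩, rfl⟩
  obtain ⟨G', hG'⟩ := h1
  refine ⟨G', ?_, hG'⟩
  refine IsHomogeneous.of_map (f := (OW v).subtype) Subtype.val_injective ?_
  rw [hG']; exact hG

theorem coeff_map_le (G : MvPolynomial ι (OW v)) (t : ι →₀ ℕ) :
    v (coeff t (map (OW v).subtype G)) ≤ 1 := by
  rw [coeff_map]
  exact (coeff t G).2

/-- iterates of nonzero vectors are nonzero -/
theorem gAct_iter_ne_red {p s : ℕ} [Fintype ι] [DecidableEq ι] [Nonempty ι]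
    (Φ : GF (OW v) p s ι) (hϖ : v (Φ.ϖ : K) < 1) (F : ι → MvPolynomial ι K)
    (hΦF : ∀ i, map (OW v).subtype (Φ.F i) = F i)
    (N : Type) [Field N] [NumberField N] [Algebra K N] (w : FinitePlace N) (e : ℕ)
    (h : Above v w e) (k : ℕ) (R : ι → N) (hR : R ≠ 0) : (gAct F N)^[k] R ≠ 0 := by
  obtain ⟨c, u, hc, hzu, hu⟩ := gexists_prim (w := w) hR
  have hact : (Φ.map (toN v N)).act = gAct F N := gact_eq_aeval Φ F hΦF N
  obtain ⟨l, hl⟩ := prim_act_iter Φ h hϖ k u hu
  have h4 : (gAct F N)^[k] R = (c ^ ((p ^ s) ^ k)) •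
      fun l => (((Φ.map (toOW h)).act^[k] u l : OW w) : N) := by
    rw [← hact, hzu, GF.act_iter_smul, ← gcoe_act_iter Φ h]
  intro h0
  have h5 := congrFun h0 l
  rw [h4] at h5
  simp only [Pi.smul_apply, smul_eq_mul, Pi.zero_apply, mul_eq_zero] at h5
  rcases h5 with h5 | h5
  · exact pow_ne_zero _ hc h5
  · rw [h5, map_zero] at hl
    exact zero_ne_one hl

end int

end CasebAux

open CasebAux in
/-- module CASEB -/
theorem caseb : JetoStatement → JetwStatement → DetgStatement → CasebStatement := by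
  intro hJO hJW hD K _ _ p s ι _ _ _ v Φ hp hs hϖ hϖ0 hun k₀ hk₀ hfr F hΦF Ω _ _ x W hx
    N _ _ _ _ R hR hxR n₁ κ b J hn₁ hκ hT hHW
  set T := dl b (p ^ s) J with hTdef
  obtain ⟨B, hBh, hB⟩ := hJO K v Φ.ϖ hϖ hϖ0 hun Ω ι x W hx κ T hκ
  refine ⟨(κ * (2 * W)) ^ Fintype.card ι * (T + 1), ?_, ?_⟩
  · nlinarith
  · intro w e hw n row μ hμ
    have hω0 : 0 ≤ w (toN v N Φ.ϖ) := apply_nonneg w _
    have hω1 : w (toN v N Φ.ϖ) ≤ 1 := (gw_unif Φ hw hϖ).le
    have key := hD K N p s ι v w e Φ hw hϖ F hΦF n J b μ hμ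
      (fun i => gal (row i) ((gAct F N)^[k₀ * n₁] R))
      (fun i => gal_ne _ (gAct_iter_ne_red v Φ hϖ F hΦF N w e hw _ R hR))
      (w (toN v N Φ.ϖ) ^ κ) (pow_nonneg hω0 _) (pow_le_one₀ hω0 hω1)
      ((κ * (2 * W)) ^ Fintype.card ι * (T + 1)) (fun j => map (OW v).subtype (B j))
      (fun j => (hBh j).map _) (fun j t => coeff_map_le v (B j) t) ?_
    · rw [← pow_mul] at key
      exact key
    · intro G hG hGv
      obtain ⟨G', hG'h, rfl⟩ := lift_int v G hG hGv
      obtain ⟨c, hc⟩ := hB G' hG'h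
      refine ⟨fun j => (c j : K), fun j => (c j).2, fun i => ?_⟩
      have hE : (G' - ∑ j, C (c j) * B j).IsHomogeneous T := by
        refine hG'h.sub ?_
        exact IsHomogeneous.sum _ _ _ fun j _ => (hBh j).C_mul _
      have h1 := hJW K p s ι v Φ hp hs hϖ hϖ0 k₀ hk₀ hfr F hΦF Ω x hx.hom N w e hw
        (gal (row i) R) (gal_ne _ hR) (specTo_gal hxR _) n₁ κ T _ hn₁ hE hc
      rw [gAct_iter_gal] at h1
      have h2 : map (OW v).subtype (G' - ∑ j, C (c j) * B j) =
          map (OW v).subtype G' - ∑ j, C ((c j : K)) * map (OW v).subtype (B j) := by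
        rw [map_sub, map_sum]
        congr 1
        refine Finset.sum_congr rfl fun j _ => ?_
        rw [map_mul, map_C]
        rfl
      rw [h2] at h1
      exact h1

end Pool.DynLehmer.SP
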