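import Mathlib
import Pool.Agent.Lib.MP_2194ec_nt.SP.CaseB

set_option autoImplicit false

/-!
# Module CASEA: many levels whose Hilbert functions are small
-/

namespace Pool.DynLehmer.SP
open MvPolynomial NumberField Pool.DynLehmer Pool.DynLehmer.SB
open scoped Classical

namespace CaseaAux

section basic

variable {K : Type} [Field K] {ι : Type} (F : ι → MvPolynomial ι K)

theorem aeval_bind_iter {N : Type} [Field N] [Algebra K N] (j : ℕ) (R : ι → N)
    (h : MvPolynomial ι K) :
    aeval R ((bind₁ F)^[j] h) = aeval ((gAct F N)^[j] R) h := by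
  induction j generalizing h with
  | zero => rfl
  | succ j ih =>
    rw [Function.iterate_succ_apply, ih, Function.iterate_succ_apply', aeval_bind₁]
    rfl

theorem hom_bind_iter {q : ℕ} (hF : ∀ i, (F i).IsHomogeneous q) (j : ℕ) {b : ℕ}
    {h : MvPolynomial ι K} (hh : h.IsHomogeneous b) :
    ((bind₁ F)^[j] h).IsHomogeneous (b * q ^ j) := by
  induction j generalizing h b with
  | zero => simpa using hh
  | succ j ih =>
    rw [Function.iterate_succ_apply]
    have h1 : (bind₁ F h).IsHomogeneous (q * b) := by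
      have := hh.aeval F hF
      rwa [aeval_eq_bind₁] at this
    have h2 := ih h1
    rwa [show q * b * q ^ j = b * q ^ (j + 1) by ring] at h2

theorem hw_le_of_imp [Fintype ι] {Ω N : Type} [Field Ω] [Algebra K Ω] [Field N] [Algebra K N]
    (x : ι → Ω) (y : ι → N) (T : ℕ)
    (h : ∀ G : MvPolynomial ι K, G.IsHomogeneous T → aeval y G = 0 → aeval x G = 0) :
    HW K x T ≤ HW K y T := by
  set V := homogeneousSubmodule ι K T with hV
  have : Module.Finite K V := Module.Finite.iff_fg.2 (homogeneousSubmodule_fg ι K T)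
  let f : V →ₗ[K] N := ((aeval y : MvPolynomial ι K →ₐ[K] N).toLinearMap).domRestrict V
  let g : V →ₗ[K] Ω := ((aeval x : MvPolynomial ι K →ₐ[K] Ω).toLinearMap).domRestrict V
  have hf : VW K y T = LinearMap.range f := by
    rw [VW, LinearMap.range_domRestrict]
  have hg : VW K x T = LinearMap.range g := by
    rw [VW, LinearMap.range_domRestrict]
  have h1 := f.finrank_range_add_finrank_ker
  have h2 := g.finrank_range_add_finrank_ker
  have h3 : LinearMap.ker f ≤ LinearMap.ker g := by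
    intro u hu
    rw [LinearMap.mem_ker] at hu ⊢
    exact h u.1 ((mem_homogeneousSubmodule _ _).1 u.2) hu
  have h4 := Submodule.finrank_mono h3
  rw [HW, HW, hf, hg]
  omega

end basic

end CaseaAux

open CasebAux CaseaAux in
/-- module CASEA -/
theorem casea : CutStatement → PerStatement → ImgStatement → BezStatement → DegStatement →
    CentStatement → DetgStatement → LocwStatement → IndepStatement → DoubStatement →
    MonoStatement → CaseaStatement := by
  intro hCUT hPER hIMG hBEZ hDEG hCENT hDETG hLOCW hINDEP hDOUB hMONO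
    K _ _ p s ι _ _ _ v Φ hp hs hϖ hϖ0 hun k₀ hk₀ hfr F hΦF hz Ω _ _ x W hx
    N _ _ _ _ R hR hxR hcurve U m b J t L hU hL hT hD hsmall
  set T := dl b (p ^ s) J with hTdef
  set q := p ^ s with hqdef
  have hq1 : 1 ≤ q := Nat.one_le_pow _ _ hp.pos
  have hFh : ∀ i, (F i).IsHomogeneous q := fun i => by
    rw [← hΦF i]; exact (Φ.F_hom i).map _
  have hL2 : 2 ≤ L := by
    rw [hL]
    have := Nat.one_le_pow (Fintype.card ι) 3 (by norm_num)
    omega
  have hLt : L * t ≤ T := by omega
  -- Bezout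
  have hdeg := hDEG K N ι R hR
  have hbez : ∀ (τ i : ℕ), τ ≤ T → i < L → ∀ G : MvPolynomial ι K, G.IsHomogeneous τ →
      aeval ((gAct F N)^[k₀ * (U + m + i)] R) G = 0 →
      aeval ((gAct F Ω)^[k₀ * (U + m + i)] x) G = 0 := by
    intro τ i hτ hi G hG h0
    rw [← aeval_bind_iter] at h0 ⊢
    refine hBEZ K Ω N ι x R W (idx (⊤ : Subgroup (N ≃ₐ[K] N)) R) (τ * q ^ (k₀ * (U + m + i)))
      hx.up hxR hR hdeg ?_ _ (hom_bind_iter F hFh _ hG) h0
    refine lt_of_le_of_lt (Nat.mul_le_mul_left W ?_) hD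
    refine Nat.mul_le_mul hτ (Nat.pow_le_pow_right hq1 (Nat.mul_le_mul_left _ ?_))
    omega
  have hspec : ∀ (i : ℕ) (G : MvPolynomial ι K),
      aeval ((gAct F Ω)^[k₀ * (U + m + i)] x) G = 0 →
      aeval ((gAct F N)^[k₀ * (U + m + i)] R) G = 0 := by
    intro i G h0
    rw [← aeval_bind_iter] at h0 ⊢
    exact hxR _ h0
  have hT0 : t ≤ T := by nlinarith
  -- separation of the levels
  have hsep : ∀ l' l : Fin L, l' < l → ∃ f : MvPolynomial ι K, f.IsHomogeneous t ∧
      aeval ((gAct F N)^[k₀ * (U + m + l')] R) f = 0 ∧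
      aeval ((gAct F N)^[k₀ * (U + m + l)] R) f ≠ 0 := by
    intro l' l hll
    by_contra hcon
    push Not at hcon
    apply hcurve
    have himg := hIMG K ι q F hq1 hFh hz Ω x W hx (k₀ * (U + m + l'))
    have hHW : HW K ((gAct F Ω)^[k₀ * (U + m + l')] x) t ≤
        HW K ((gAct F N)^[k₀ * (U + m + l')] R) t :=
      hw_le_of_imp _ _ t fun G hG h0 => hbez t l' hT0 l'.2 G hG h0
    have hcut := hCUT K Ω Ω ι ((gAct F Ω)^[k₀ * (U + m + l')] x)
      ((gAct F Ω)^[k₀ * (U + m + l)] x) t himg.hom himg.low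
      (lt_of_le_of_lt (Nat.mul_le_mul_left 2 hHW) (hsmall l' l'.2)) (by
        intro G hG h0
        exact hbez t l hT0 l.2 G hG (hcon G hG (hspec l' G h0)))
    have hlt : (l' : ℕ) < l := hll
    refine hPER K ι q F hq1 hFh Ω N x R W hx.hom hx.up hxR (k₀ * (U + m + l'))
      (k₀ * (l - l')) (Nat.mul_pos hk₀ (by omega)) himg.low ?_
    have h1 : k₀ * (U + m + l') + k₀ * (l - l') = k₀ * (U + m + l) := by
      rw [← Nat.mul_add]
      congr 1
      omega
    rw [h1]
    exact hcut
  -- the smallest level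
  have : Nonempty (Fin L) := ⟨⟨0, by omega⟩⟩
  obtain ⟨l₀, hl₀⟩ := Finite.exists_min
    (fun l : Fin L => HW K ((gAct F N)^[k₀ * (U + m + l)] R) T)
  -- nonvanishing of the levels
  have hne' : ∀ k, (gAct F N)^[k] R ≠ 0 := fun k => gAct_iter_ne F hFh hz k R hR
  refine ⟨HW K ((gAct F N)^[k₀ * (U + m + l₀)] R) T, ?_, ?_⟩
  · have h1 := hINDEP K N ι L (fun l : Fin L => (gAct F N)^[k₀ * (U + m + l)] R) t
      (fun l => hne' _) hsep T hLt
    refine le_trans ?_ h1
    have h2 : ∀ l : Fin L, HW K ((gAct F N)^[k₀ * (U + m + l₀)] R) T ≤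
        3 ^ Fintype.card ι * HW K ((gAct F N)^[k₀ * (U + m + l)] R) (T - L * t) := by
      intro l
      refine (hl₀ l).trans ((hDOUB K N ι _ T).trans (Nat.mul_le_mul_left _ ?_))
      exact hMONO K N ι _ (hne' _) _ _ (by omega)
    have h3 : L * HW K ((gAct F N)^[k₀ * (U + m + l₀)] R) T ≤
        3 ^ Fintype.card ι *
          ∑ l : Fin L, HW K ((gAct F N)^[k₀ * (U + m + l)] R) (T - L * t) := by
      calc L * HW K ((gAct F N)^[k₀ * (U + m + l₀)] R) T
          = ∑ l : Fin L, HW K ((gAct F N)^[k₀ * (U + m + l₀)] R) T := by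
            rw [Finset.sum_const, Finset.card_univ, Fintype.card_fin, smul_eq_mul]
        _ ≤ _ := by
            rw [Finset.mul_sum]
            exact Finset.sum_le_sum fun l _ => h2 l
    have h4 : 0 < 3 ^ Fintype.card ι := by positivity
    have h5 : ∀ a : ℕ, 3 ^ Fintype.card ι * (2 * a) = L * a := by
      intro a
      rw [hL]
      ring
    refine Nat.le_of_mul_le_mul_left ?_ h4
    calc 3 ^ Fintype.card ι * (2 * HW K ((gAct F N)^[k₀ * (U + m + l₀)] R) T)
        = L * HW K ((gAct F N)^[k₀ * (U + m + l₀)] R) T := h5 _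
      _ ≤ _ := h3
  · intro w e hw n row μ hμ
    have hω0 : 0 ≤ w (toN v N Φ.ϖ) := apply_nonneg w _
    have hω1 : w (toN v N Φ.ϖ) ≤ 1 := (gw_unif Φ hw hϖ).le
    obtain ⟨B, hBh, hBv, hB⟩ := hCENT K v N ι ((gAct F N)^[k₀ * (U + m + l₀)] R) T
    have key := hDETG K N p s ι v w e Φ hw hϖ F hΦF n J b μ hμ
      (fun i => gal (row i).2 ((gAct F N)^[k₀ * (U + m + (row i).1)] R))
      (fun i => gal_ne _ (hne' _))
      (w (toN v N Φ.ϖ) ^ (m + 1)) (pow_nonneg hω0 _) (pow_le_one₀ hω0 hω1)
      (HW K ((gAct F N)^[k₀ * (U + m + l₀)] R) T) B hBh hBv ?_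
    · rw [← pow_mul] at key
      exact key
    · intro G hG hGv
      obtain ⟨c, hcv, hc⟩ := hB G hG hGv
      refine ⟨c, hcv, fun i => ?_⟩
      have hE : (G - ∑ j, C (c j) * B j).IsHomogeneous T := by
        refine hG.sub ?_
        exact IsHomogeneous.sum _ _ _ fun j _ => (hBh j).C_mul _
      have hEv : ∀ t, v (coeff t (G - ∑ j, C (c j) * B j)) ≤ 1 := by
        intro t
        have h1 : coeff t (G - ∑ j, C (c j) * B j) =
            coeff t G - ∑ j, c j * coeff t (B j) := by
          rw [coeff_sub, coeff_sum]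
          simp only [coeff_C_mul]
        rw [h1]
        have h2 : coeff t G - ∑ j, c j * coeff t (B j) ∈ OW v := by
          refine (OW v).sub_mem (hGv t) ((OW v).sum_mem fun j _ => ?_)
          exact (OW v).mul_mem (hcv j) (hBv j t)
        exact h2
      have h1 := hLOCW K p s ι v Φ hp hs hϖ hϖ0 hun k₀ hk₀ hfr F hΦF Ω x W U m hx hU
        (U + m + l₀) (U + m + (row i).1) (by omega) (by omega) _ T hE hEv
        (hbez T l₀ le_rfl l₀.2 _ hE hc) N w e hw (gal (row i).2 R) (gal_ne _ hR)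
        (specTo_gal hxR _)
      rw [gAct_iter_gal] at h1
      exact h1

end Pool.DynLehmer.SP
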