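import Mathlib
import Pool.Agent.Lib.MP_2194ec_nt.SP.Iface
import Pool.Agent.Lib.MP_2194ec_nt.H9.DetGain
import Pool.Agent.Lib.MP_2194ec_nt.SB.Mono

set_option autoImplicit false

/-!
# Module CENT
-/

namespace Pool.DynLehmer.SP
open MvPolynomial NumberField Pool.DynLehmer Pool.DynLehmer.SB
open scoped Classical

theorem cent : CentStatement := by
  intro K _ _ v Ω _ _ ι _ y T
  haveI := finite_VW K y T
  have hh : Module.finrank K (VW K y T) = HW K y T := rfl
  generalize HW K y T = h at hh ⊢
  let b : Module.Basis (Fin h) K (VW K y T) := Module.finBasisOfFinrankEq K (VW K y T) hh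
  let D : Finset (ι →₀ ℕ) := (Finset.univ : Finset ι).finsuppAntidiag T
  have hD : ∀ t : ι →₀ ℕ, t ∈ D ↔ t.degree = T := by
    intro t
    simp [D, Finset.mem_finsuppAntidiag, Finsupp.degree_eq_sum]
  let n := D.card
  let eq : D ≃ Fin n := D.equivFin
  let mon : Fin n → MvPolynomial ι K := fun i => monomial ((eq.symm i : D) : ι →₀ ℕ) 1
  have hmon : ∀ i, (mon i).IsHomogeneous T := fun i =>
    isHomogeneous_monomial _ ((hD _).1 (eq.symm i).2)
  have hmem : ∀ G : MvPolynomial ι K, G.IsHomogeneous T → aeval y G ∈ VW K y T := fun G hG =>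
    ⟨G, (mem_homogeneousSubmodule _ _).2 hG, rfl⟩
  let f : Fin n → Fin h → K := fun i => b.equivFun ⟨aeval y (mon i), hmem _ (hmon i)⟩
  have hG : ∀ G : MvPolynomial ι K, G.IsHomogeneous T →
      G = ∑ i, C (coeff ((eq.symm i : D) : ι →₀ ℕ) G) * mon i := by
    intro G hG
    have h1 : G = ∑ t ∈ D, C (coeff t G) * monomial t 1 := by
      conv_lhs => rw [G.as_sum]
      have h2 : ∀ t, monomial t (coeff t G) = (C (coeff t G) * monomial t 1 : MvPolynomial ι K) := by
        intro t
        rw [C_mul_monomial, mul_one]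
      rw [Finset.sum_congr rfl fun t _ => h2 t]
      apply Finset.sum_subset
      · intro t ht
        rw [hD]
        rw [mem_support_iff] at ht
        have := hG ht
        rwa [Finsupp.degree_eq_weight_one]
      · intro t _ ht
        rw [notMem_support_iff] at ht
        rw [ht, C_0, zero_mul]
    conv_lhs => rw [h1]
    rw [← Finset.sum_coe_sort D]
    exact (Equiv.sum_comp eq.symm fun t : D =>
      (C (coeff (t : ι →₀ ℕ) G) * monomial (t : ι →₀ ℕ) 1 : MvPolynomial ι K)).symm
  -- the coordinates of a form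
  have hco : ∀ (G : MvPolynomial ι K) (hGT : G.IsHomogeneous T),
      b.equivFun ⟨aeval y G, hmem G hGT⟩ =
        ∑ i, coeff ((eq.symm i : D) : ι →₀ ℕ) G • f i := by
    intro G hGT
    have h1 : (⟨aeval y G, hmem G hGT⟩ : VW K y T) =
        ∑ i, coeff ((eq.symm i : D) : ι →₀ ℕ) G • (⟨aeval y (mon i), hmem _ (hmon i)⟩ : VW K y T) := by
      apply Subtype.ext
      rw [AddSubmonoidClass.coe_finsetSum]
      simp only [SetLike.val_smul]
      conv_lhs => rw [hG G hGT]
      rw [map_sum]
      refine Finset.sum_congr rfl fun i _ => ?_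
      rw [map_mul, aeval_C, Algebra.smul_def]
    rw [h1, map_sum]
    simp only [map_smul]
    rfl
  have hspan : Submodule.span K (Set.range f) = ⊤ := by
    rw [eq_top_iff]
    intro x _
    obtain ⟨⟨_, G, hGT, rfl⟩, rfl⟩ := b.equivFun.surjective x
    have hGT' : G.IsHomogeneous T := (mem_homogeneousSubmodule _ _).1 hGT
    have h1 := hco G hGT'
    change b.equivFun ⟨aeval y G, hmem G hGT'⟩ ∈ _
    rw [h1]
    exact Submodule.sum_mem _ fun i _ => Submodule.smul_mem _ _ (Submodule.subset_span ⟨i, rfl⟩)
  obtain ⟨e, he⟩ := Pool.DynLehmerDet.exists_integral_basis v f (h := h) (by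
    rw [hspan, finrank_top, Module.finrank_fin_fun])
  choose c hc1 hc2 using he
  refine ⟨fun j => mon (e j), fun j => hmon _, ?_, ?_⟩
  · intro j t
    simp only [mon, coeff_monomial]
    split_ifs <;> simp
  · intro G hGT hGv
    refine ⟨fun j => ∑ i, coeff ((eq.symm i : D) : ι →₀ ℕ) G * c i j, fun j => ?_, ?_⟩
    · refine finitePlace_sum_le v _ _ _ zero_le_one fun i _ => ?_
      rw [map_mul]
      exact mul_le_one₀ (hGv _) (apply_nonneg v _) (hc1 i j)
    · have hC : ∀ (a : K) (H : MvPolynomial ι K), H.IsHomogeneous T →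
          (C a * H).IsHomogeneous T := by
        intro a H hH
        have h1 := (isHomogeneous_C ι a).mul hH
        rwa [zero_add] at h1
      have hsum : (∑ j, C (∑ i, coeff ((eq.symm i : D) : ι →₀ ℕ) G * c i j) *
          mon (e j)).IsHomogeneous T :=
        IsHomogeneous.sum _ _ _ fun j _ => hC _ _ (hmon _)
      have h1 := hco G hGT
      have h2 : (⟨aeval y G, hmem G hGT⟩ : VW K y T) =
          ∑ j, (∑ i, coeff ((eq.symm i : D) : ι →₀ ℕ) G * c i j) •
            (⟨aeval y (mon (e j)), hmem _ (hmon (e j))⟩ : VW K y T) := by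
        apply b.equivFun.injective
        rw [h1, map_sum]
        simp only [map_smul]
        change _ = ∑ j, (∑ i, coeff ((eq.symm i : D) : ι →₀ ℕ) G * c i j) • f (e j)
        simp only [Finset.sum_smul]
        rw [Finset.sum_comm]
        refine Finset.sum_congr rfl fun i _ => ?_
        conv_lhs => rw [hc2 i]
        rw [Finset.smul_sum]
        refine Finset.sum_congr rfl fun j _ => ?_
        rw [smul_smul]
      have h3 := congrArg Subtype.val h2
      rw [AddSubmonoidClass.coe_finsetSum] at h3
      simp only [SetLike.val_smul] at h3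
      rw [map_sub, h3, map_sum, sub_eq_zero]
      refine Finset.sum_congr rfl fun j _ => ?_
      rw [map_mul, aeval_C, Algebra.smul_def]

end Pool.DynLehmer.SP
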