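import Pool.Agent.Lib.MP_2194ec_nt.SP.Iface

set_option autoImplicit false

/-! # Covering by translates -/

namespace Pool.DynLehmer.SP

open Finset
open scoped Classical

namespace CoverAux

variable {G X : Type} [Group G] [Fintype G] [Fintype X] [MulAction G X]

/-- The number of elements that move `x` to `s`. -/
noncomputable def cnt (G : Type) {X : Type} [Group G] [Fintype G] [MulAction G X] (x s : X) : ℕ :=
  (univ.filter fun g : G => g⁻¹ • x = s).card

omit [Fintype X] in
theorem cnt_eq [MulAction.IsPretransitive G X] (x s s' : X) : cnt G x s = cnt G x s' := by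
  obtain ⟨h, hh⟩ := MulAction.exists_smul_eq G s s'
  unfold cnt
  refine card_bij' (fun g _ => g * h⁻¹) (fun g _ => g * h) ?_ ?_ ?_ ?_
  · intro g hg
    rw [mem_filter] at hg ⊢
    refine ⟨mem_univ _, ?_⟩
    rw [mul_inv_rev, inv_inv, mul_smul, hg.2, hh]
  · intro g hg
    rw [mem_filter] at hg ⊢
    refine ⟨mem_univ _, ?_⟩
    rw [mul_inv_rev, mul_smul, hg.2, ← hh, inv_smul_smul]
  · intro g _
    exact inv_mul_cancel_right g h
  · intro g _
    exact mul_inv_cancel_right g h

theorem cnt_sum (x : X) : ∑ s : X, cnt G x s = Fintype.card G := by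
  unfold cnt
  rw [← card_univ, ← card_eq_sum_card_fiberwise (f := fun g : G => g⁻¹ • x)]
  intro g _
  exact mem_coe.2 (mem_univ _)

theorem card_mul_cnt [MulAction.IsPretransitive G X] (x s : X) :
    Fintype.card X * cnt G x s = Fintype.card G := by
  rw [← cnt_sum (G := G) x, sum_congr rfl fun s' _ => cnt_eq (G := G) x s' s, sum_const, card_univ,
    smul_eq_mul]

theorem count_S [MulAction.IsPretransitive G X] (S : Finset X) (x : X) :
    Fintype.card X * (univ.filter fun g : G => g⁻¹ • x ∈ S).card = S.card * Fintype.card G := by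
  have h : (univ.filter fun g : G => g⁻¹ • x ∈ S).card = ∑ s ∈ S, cnt G x s := by
    unfold cnt
    rw [card_eq_sum_card_fiberwise (f := fun g : G => g⁻¹ • x) (t := S)]
    · refine sum_congr rfl fun s hs => ?_
      congr 1
      ext g
      simp only [mem_filter, mem_univ, true_and]
      constructor
      · rintro ⟨_, h⟩; exact h
      · rintro h; exact ⟨h ▸ hs, h⟩
    · intro g hg
      exact (mem_filter.1 hg).2
  rw [h, mul_sum, sum_congr rfl fun s _ => card_mul_cnt (G := G) x s, sum_const, smul_eq_mul]

theorem average [MulAction.IsPretransitive G X] (S Y : Finset X) :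
    ∃ g : G, Y.card * S.card ≤ Fintype.card X * (Y.filter fun x => g⁻¹ • x ∈ S).card := by
  by_contra hcon
  push Not at hcon
  have h1 : ∑ g : G, Fintype.card X * (Y.filter fun x => g⁻¹ • x ∈ S).card <
      ∑ _g : G, Y.card * S.card :=
    sum_lt_sum_of_nonempty univ_nonempty fun g _ => hcon g
  have h2 : ∑ g : G, Fintype.card X * (Y.filter fun x => g⁻¹ • x ∈ S).card =
      Y.card * (S.card * Fintype.card G) := by
    have h3 : ∀ g : G, (Y.filter fun x => g⁻¹ • x ∈ S).card =
        ∑ x ∈ Y, if g⁻¹ • x ∈ S then 1 else 0 := fun g => by rw [card_filter]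
    rw [← mul_sum, sum_congr rfl fun g _ => h3 g, sum_comm, mul_sum,
      sum_congr rfl (g := fun _ => S.card * Fintype.card G) (fun x _ => ?_), sum_const,
      smul_eq_mul]
    rw [← card_filter]
    exact count_S S x
  rw [h2, sum_const, smul_eq_mul, card_univ] at h1
  have : Y.card * (S.card * Fintype.card G) = Fintype.card G * (Y.card * S.card) := by ring
  omega

/-- The uncovered points. -/
noncomputable def unc (S : Finset X) (Z : Finset G) : Finset X :=
  univ.filter fun x => ∀ g ∈ Z, g⁻¹ • x ∉ S

theorem greedy [MulAction.IsPretransitive G X] (S : Finset X) (hX : 0 < Fintype.card X) (k : ℕ) :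
    ∃ Z : Finset G, Z.card ≤ k ∧ ((unc S Z).card : ℝ) ≤
      Fintype.card X * (1 - S.card / Fintype.card X) ^ k := by
  induction k with
  | zero =>
    refine ⟨∅, le_rfl, ?_⟩
    rw [pow_zero, mul_one]
    exact_mod_cast card_le_univ _
  | succ k ih =>
    obtain ⟨Z, h1, h2⟩ := ih
    obtain ⟨g, hg⟩ := average (G := G) S (unc S Z)
    refine ⟨insert g Z, (card_insert_le _ _).trans (by omega), ?_⟩
    have h3 : unc S (insert g Z) = (unc S Z).filter fun x => ¬ g⁻¹ • x ∈ S := by
      ext x
      simp only [unc, mem_filter, mem_univ, true_and, mem_insert, forall_eq_or_imp]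
      exact and_comm
    have h4 : ((unc S Z).filter fun x => g⁻¹ • x ∈ S).card +
        ((unc S Z).filter fun x => ¬ g⁻¹ • x ∈ S).card = (unc S Z).card :=
      card_filter_add_card_filter_not _
    have hX' : (0 : ℝ) < Fintype.card X := by exact_mod_cast hX
    have h5 : ((unc S Z).card : ℝ) * S.card ≤ Fintype.card X *
        ((unc S Z).filter fun x => g⁻¹ • x ∈ S).card := by exact_mod_cast hg
    have h6 : (((unc S Z).filter fun x => g⁻¹ • x ∈ S).card : ℝ) +
        (((unc S Z).filter fun x => ¬ g⁻¹ • x ∈ S).card : ℝ) = (unc S Z).card := by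
      exact_mod_cast h4
    have h7 : ((unc S Z).card : ℝ) * (S.card / Fintype.card X) ≤
        ((unc S Z).filter fun x => g⁻¹ • x ∈ S).card := by
      rw [← mul_div_assoc, div_le_iff₀ hX']
      linarith
    have h8 : (0 : ℝ) ≤ 1 - S.card / Fintype.card X := by
      rw [sub_nonneg, div_le_one hX']
      exact_mod_cast card_le_univ S
    rw [h3]
    calc (((unc S Z).filter fun x => ¬ g⁻¹ • x ∈ S).card : ℝ)
        ≤ (unc S Z).card * (1 - S.card / Fintype.card X) := by linarith
      _ ≤ (Fintype.card X * (1 - S.card / Fintype.card X) ^ k) *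
          (1 - S.card / Fintype.card X) := mul_le_mul_of_nonneg_right h2 h8
      _ = _ := by ring

end CoverAux

open CoverAux in
/-- COVER -/
theorem cover : CoverStatement := by
  intro G X _ _ _ _ _ S hS
  have hX : 0 < Fintype.card X := Fintype.card_pos_iff.2 ⟨hS.choose⟩
  have hX' : (0 : ℝ) < Fintype.card X := by exact_mod_cast hX
  have hS' : (0 : ℝ) < S.card := by exact_mod_cast hS.card_pos
  have hle : (S.card : ℝ) ≤ Fintype.card X := by exact_mod_cast card_le_univ S
  set s : ℝ := S.card / Fintype.card X with hs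
  have hs0 : 0 < s := div_pos hS' hX'
  have hs1 : s ≤ 1 := (div_le_one hX').2 hle
  have hlog : 0 ≤ Real.log (Fintype.card X) := Real.log_nonneg (by exact_mod_cast hX)
  set k : ℕ := ⌊Real.log (Fintype.card X) / s⌋₊ + 1 with hk
  obtain ⟨Z, h1, h2⟩ := greedy (G := G) S hX k
  have hk1 : Real.log (Fintype.card X) / s < k := by
    rw [hk]
    push_cast
    exact Nat.lt_floor_add_one _
  have hk2 : (k : ℝ) ≤ Real.log (Fintype.card X) / s + 1 := by
    rw [hk]
    push_cast
    linarith [Nat.floor_le (div_nonneg hlog hs0.le)]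
  refine ⟨Z, ?_, ?_⟩
  · have h3 : (Fintype.card X : ℝ) / S.card = 1 / s := by
      rw [hs, one_div_div]
    rw [h3]
    have h4 : (Z.card : ℝ) ≤ k := by exact_mod_cast h1
    have h5 : 1 ≤ 1 / s := by rw [le_div_iff₀ hs0, one_mul]; exact hs1
    calc (Z.card : ℝ) ≤ Real.log (Fintype.card X) / s + 1 := h4.trans hk2
      _ ≤ Real.log (Fintype.card X) / s + 1 / s := by linarith
      _ = 1 / s * (1 + Real.log (Fintype.card X)) := by ring
  · have h3 : (1 - s) ^ k ≤ Real.exp (-(s * k)) := by
      have h4 : 1 - s ≤ Real.exp (-s) := by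
        have := Real.add_one_le_exp (-s)
        linarith
      calc (1 - s) ^ k ≤ Real.exp (-s) ^ k := pow_le_pow_left₀ (by linarith) h4 k
        _ = Real.exp (-(s * k)) := by
          rw [← Real.exp_nat_mul]
          congr 1
          ring
    have h4 : ((unc S Z).card : ℝ) < 1 := by
      calc ((unc S Z).card : ℝ) ≤ Fintype.card X * (1 - s) ^ k := h2
        _ ≤ Fintype.card X * Real.exp (-(s * k)) := mul_le_mul_of_nonneg_left h3 hX'.le
        _ < Fintype.card X * Real.exp (-Real.log (Fintype.card X)) := by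
          refine mul_lt_mul_of_pos_left (Real.exp_lt_exp.2 ?_) hX'
          rw [div_lt_iff₀ hs0] at hk1
          linarith
        _ = 1 := by
          rw [Real.exp_neg, Real.exp_log hX', mul_inv_cancel₀ hX'.ne']
    have h5 : (unc S Z).card = 0 := by
      have : (unc S Z).card < 1 := by exact_mod_cast h4
      omega
    intro x
    by_contra hcon
    push Not at hcon
    have h6 : x ∈ unc S Z := mem_filter.2 ⟨mem_univ _, hcon⟩
    rw [card_eq_zero.1 h5] at h6
    exact absurd h6 (notMem_empty _)

end Pool.DynLehmer.SP
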