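import Pool.Agent.Lib.MP_2194ec_nt.PlI
import Pool.Agent.Lib.MP_2194ec_nt.SB.CoreA
import Pool.Agent.Lib.MP_2194ec_nt.SB.Mono
import Pool.Agent.Lib.MP_2194ec_nt.SP.Iface

set_option autoImplicit false

/-! # CRVN: points on curves of small degree, the parameters -/

namespace Pool.DynLehmer.SP

open MvPolynomial NumberField Pool.DynLehmer Pool.DynLehmer.SB Filter Topology
open scoped Classical

namespace CrvnAux

/-- the Hilbert function of one point -/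
theorem HW_joint_one (K : Type) [Field K] {L : Type} [Field L] [Algebra K L] {ι : Type}
    (y : ι → L) (T : ℕ) : HW K (joint fun _ : Fin 1 => y) T = HW K y T := by
  let f : L →ₗ[K] (Fin 1 → L) := LinearMap.pi fun _ => LinearMap.id
  have hf : Function.Injective f := fun a b h => congrFun h 0
  have h1 : VW K (joint fun _ : Fin 1 => y) T = (VW K y T).map f := by
    unfold VW
    rw [← Submodule.map_comp]
    congr 1
    refine LinearMap.ext fun A => ?_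
    funext i
    have h2 := (Pi.evalAlgHom K (fun _ : Fin 1 => L) i).comp_apply
      (aeval (joint fun _ : Fin 1 => y)) A
    have h3 : (Pi.evalAlgHom K (fun _ : Fin 1 => L) i).comp
        (aeval (joint fun _ : Fin 1 => y)) = (aeval y : MvPolynomial ι K →ₐ[K] L) := by
      refine MvPolynomial.algHom_ext fun j => ?_
      simp [joint]
    rw [h3] at h2
    exact h2.symm
  rw [HW, HW, h1]
  exact (Submodule.equivMapOfInjective f hf _).finrank_eq.symm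

theorem HW_joint_pos (K : Type) [Field K] {L : Type} [Field L] [Algebra K L] {ι : Type}
    [Fintype ι] {m : ℕ} (y : Fin m → ι → L) (l : Fin m) (hy : y l ≠ 0) (T : ℕ) :
    1 ≤ HW K (joint y) T := by
  have hfin := finite_VW K (joint y) T
  obtain ⟨i, hi⟩ := Function.ne_iff.1 hy
  rw [HW, Nat.one_le_iff_ne_zero]
  intro h0
  have h1 : VW K (joint y) T = ⊥ := Submodule.finrank_eq_zero.1 h0
  have h2 : aeval (joint y) ((X i : MvPolynomial ι K) ^ T) ∈ VW K (joint y) T := by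
    refine ⟨X i ^ T, ?_, rfl⟩
    rw [SetLike.mem_coe, mem_homogeneousSubmodule]
    exact isHomogeneous_X_pow i T
  rw [h1, Submodule.mem_bot, map_pow, aeval_X] at h2
  have h3 := congrFun h2 l
  rw [Pi.pow_apply, Pi.zero_apply] at h3
  exact pow_ne_zero T hi h3

/-- the error terms -/
theorem err {b C q X T n : ℝ} {m0 J : ℕ} (hb : 1 ≤ b) (hC : 0 ≤ C) (hq : 2 ≤ q) (hX : 1 ≤ X)
    (hJ : q ^ J ≤ X) (hT0 : 0 ≤ T) (hT : T ≤ 2 * b * X) (hn1 : 1 ≤ n)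
    (hn : n ≤ (T + 1) ^ m0) :
    b * C * (J + 1) + Real.log n ≤
      b * C + m0 * Real.log (3 * b) + (2 * b * C + m0) * Real.log X := by
  have hlogX : 0 ≤ Real.log X := Real.log_nonneg hX
  have hm0 : (0 : ℝ) ≤ m0 := Nat.cast_nonneg _
  have h1 : (J : ℝ) * Real.log q ≤ Real.log X := by
    rw [← Real.log_pow]
    exact Real.log_le_log (by positivity) hJ
  have h2 : (1 / 2 : ℝ) ≤ Real.log q := by
    have h3 : Real.log 2 ≤ Real.log q := Real.log_le_log (by norm_num) hq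
    linarith [Real.log_two_gt_d9]
  have h3 : (J : ℝ) * (1 / 2) ≤ J * Real.log q :=
    mul_le_mul_of_nonneg_left h2 (Nat.cast_nonneg _)
  have h4 : (J : ℝ) ≤ 2 * Real.log X := by linarith
  have h5 : b * C * (J + 1) ≤ b * C * (2 * Real.log X + 1) :=
    mul_le_mul_of_nonneg_left (by linarith) (by positivity)
  have h6 : Real.log n ≤ m0 * (Real.log (3 * b) + Real.log X) := by
    have h7 : Real.log n ≤ m0 * Real.log (T + 1) := by
      rw [← Real.log_pow]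
      exact Real.log_le_log (by linarith) hn
    have h8 : Real.log (T + 1) ≤ Real.log (3 * b) + Real.log X := by
      rw [← Real.log_mul (by positivity) (by positivity)]
      refine Real.log_le_log (by linarith only [hT0]) ?_
      have hbX : (1 : ℝ) ≤ b * X := one_le_mul_of_one_le_of_one_le hb hX
      linarith only [hbX, hT]
    exact h7.trans (mul_le_mul_of_nonneg_left h8 hm0)
  linarith

/-- the logarithm of the first parameter -/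
theorem logX {q : ℝ} {C3 l W m0 κ : ℕ} (hq : 2 ≤ q) (hC3 : 1 ≤ C3) (hl : 1 ≤ l) (hW : 1 ≤ W)
    (hκ : κ = C3 * l) (hWl : W ≤ 2 ^ l) :
    Real.log (q * (4 * ((κ : ℝ) * (2 * W)) ^ m0)) ≤
      Real.log (4 * q) + m0 * (Real.log C3 + 3 * l) := by
  have hC3r : (1 : ℝ) ≤ C3 := by exact_mod_cast hC3
  have hlr : (1 : ℝ) ≤ l := by exact_mod_cast hl
  have hWr : (1 : ℝ) ≤ W := by exact_mod_cast hW
  have hκr : (κ : ℝ) = C3 * l := by rw [hκ]; push_cast; ring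
  have hκ0 : (0 : ℝ) < κ := by rw [hκr]; positivity
  have e1 : q * (4 * ((κ : ℝ) * (2 * W)) ^ m0) = (4 * q) * ((κ : ℝ) * (2 * W)) ^ m0 := by ring
  rw [e1, Real.log_mul (by positivity) (by positivity), Real.log_pow]
  have h1 : Real.log ((κ : ℝ) * (2 * W)) ≤ Real.log C3 + 3 * l := by
    rw [Real.log_mul (by positivity) (by positivity), hκr,
      Real.log_mul (by positivity) (by positivity)]
    have h2 : Real.log l ≤ l := by
      have := Real.log_le_sub_one_of_pos (show (0 : ℝ) < l by positivity)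
      linarith
    have h3 : Real.log (2 * (W : ℝ)) ≤ 2 * l := by
      have h4 : (2 * (W : ℝ)) ≤ 2 ^ (l + 1) := by
        have h5 : 2 * W ≤ 2 ^ (l + 1) := by rw [pow_succ]; omega
        exact_mod_cast h5
      have h6 := Real.log_le_log (by positivity) h4
      rw [Real.log_pow] at h6
      push_cast at h6
      have h7 : Real.log 2 ≤ 1 := by linarith [Real.log_two_lt_d9]
      have h8 : ((l : ℝ) + 1) * Real.log 2 ≤ (l + 1) * 1 :=
        mul_le_mul_of_nonneg_left h7 (by positivity)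
      linarith
    linarith
  have h2 := mul_le_mul_of_nonneg_left h1 (Nat.cast_nonneg m0 : (0 : ℝ) ≤ m0)
  linarith

/-- canonical heights along the orbit -/
theorem lim_orb {K N ι : Type} [Field K] [Field N] [NumberField N] [Algebra K N] [Fintype ι]
    (F : ι → MvPolynomial ι K) {q : ℝ} (hq : 2 ≤ q) (R : ι → N) {h : ℝ}
    (hlim : Tendsto (fun n : ℕ => Height.logHeight ((gAct F N)^[n] R) /
        (Module.finrank ℚ N : ℝ) / q ^ n) atTop (𝓝 h)) (n : ℕ) :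
    Tendsto (fun i : ℕ => Height.logHeight ((gAct F N)^[i] ((gAct F N)^[n] R)) /
        (Module.finrank ℚ N : ℝ) / q ^ i) atTop (𝓝 (q ^ n * h)) := by
  have h1 := ((tendsto_add_atTop_iff_nat n).2 hlim).const_mul (q ^ n)
  refine h1.congr fun i => ?_
  rw [Function.iterate_add_apply]
  have hq0 : q ≠ 0 := by linarith
  rw [pow_add]
  field_simp

theorem fin1 {κ n g lam Y e1 e2 Z : ℝ} (hlam : 0 < lam) (hκ : 1 ≤ κ) (hn : 1 ≤ n)
    (hg : κ * n / 2 ≤ g) (hmain : g * lam ≤ n * (Y + e1 + e2))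
    (her : e1 + e2 ≤ lam / 4 * κ)
    (hY : Y ≤ Z) : lam / 4 ≤ Z := by
  have h1 : n * (κ / 2 * lam) ≤ n * (Y + lam / 4 * κ) := by
    calc n * (κ / 2 * lam) = κ * n / 2 * lam := by ring
      _ ≤ g * lam := mul_le_mul_of_nonneg_right hg hlam.le
      _ ≤ n * (Y + e1 + e2) := hmain
      _ ≤ _ := mul_le_mul_of_nonneg_left (by linarith) (by linarith)
  have h2 : κ / 2 * lam ≤ Y + lam / 4 * κ := le_of_mul_le_mul_left h1 (by linarith)
  have h3 : lam / 4 * 1 ≤ lam / 4 * κ := mul_le_mul_of_nonneg_left hκ (by positivity)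
  linarith

theorem fin2 {κ n r : ℕ} (h : 2 * r ≤ n) :
    (κ : ℝ) * n / 2 ≤ ((κ * (n - r) : ℕ) : ℝ) := by
  have h1 : n ≤ 2 * (n - r) := by omega
  have h2 : (n : ℝ) ≤ 2 * ((n - r : ℕ) : ℝ) := by exact_mod_cast h1
  have h3 : (0 : ℝ) ≤ κ := Nat.cast_nonneg _
  rw [Nat.cast_mul]
  have h4 := mul_le_mul_of_nonneg_left h2 h3
  linarith

theorem s1 {A D E c m l : ℝ} (hA : 0 ≤ A) (hD : 0 ≤ D) (hE : 0 ≤ E) (hc : 0 ≤ c)
    (hm : 0 ≤ m) (hl : 1 ≤ l) :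
    A + c * (D + m * (E + 3 * l)) ≤ l * (A + c * (D + m * 3) + c * m * E) := by
  have h1 : 0 ≤ (l - 1) * (A + c * D + c * m * E) := mul_nonneg (by linarith) (by positivity)
  have h2 : l * (A + c * (D + m * 3) + c * m * E) - (A + c * (D + m * (E + 3 * l))) =
    (l - 1) * (A + c * D + c * m * E) := by ring
  linarith

theorem nT {b qn C3 l W m0 Jt J L κ x0 t T : ℕ} (hκ : κ = C3 * l) (hl : l ≤ 2 * W)
    (hx0 : x0 = 4 * (κ * (2 * W)) ^ m0) (ht2 : t ≤ 2 * b * qn ^ Jt)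
    (hJt2 : qn ^ Jt ≤ qn * x0) (hT2 : T ≤ 2 * b * qn ^ J)
    (hJ2 : qn ^ J ≤ qn * (2 * (L * t))) :
    T ≤ 32 * b ^ 2 * qn ^ 2 * L * C3 ^ m0 * (2 * W) ^ (2 * m0) := by
  have hκW : κ * (2 * W) ≤ C3 * (2 * W) ^ 2 := by
    calc κ * (2 * W) = C3 * l * (2 * W) := by rw [hκ]
      _ ≤ C3 * (2 * W) * (2 * W) := by gcongr
      _ = _ := by ring
  have h1 : t ≤ 8 * b * qn * (κ * (2 * W)) ^ m0 := by
    calc t ≤ 2 * b * qn ^ Jt := ht2
      _ ≤ 2 * b * (qn * x0) := Nat.mul_le_mul_left _ hJt2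
      _ = _ := by rw [hx0]; ring
  have h2 : (κ * (2 * W)) ^ m0 ≤ C3 ^ m0 * (2 * W) ^ (2 * m0) := by
    calc (κ * (2 * W)) ^ m0 ≤ (C3 * (2 * W) ^ 2) ^ m0 := Nat.pow_le_pow_left hκW _
      _ = _ := by rw [mul_pow, ← pow_mul]
  calc T ≤ 2 * b * qn ^ J := hT2
    _ ≤ 2 * b * (qn * (2 * (L * t))) := Nat.mul_le_mul_left _ hJ2
    _ = 4 * b * qn * L * t := by ring
    _ ≤ 4 * b * qn * L * (8 * b * qn * (C3 ^ m0 * (2 * W) ^ (2 * m0))) :=
      Nat.mul_le_mul_left _ (h1.trans (Nat.mul_le_mul_left _ h2))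
    _ = _ := by ring

theorem nQ {Q W m0 l C4 U m L c' : ℕ} (hc' : c' = Q ^ C4) (hm : m = C4 * l)
    (hl : 2 ^ l ≤ 2 * W) (hU2 : Q ^ U ≤ Q * (2 * W) ^ m0) :
    Q ^ (U + m + L) ≤ Q * (2 * W) ^ m0 * (2 * W) ^ c' * Q ^ L := by
  have h1 : Q ^ m ≤ (2 * W) ^ c' := by
    calc Q ^ m = (Q ^ C4) ^ l := by rw [← pow_mul, hm]
      _ ≤ (2 ^ c') ^ l := by
        apply Nat.pow_le_pow_left
        rw [← hc']
        exact (Nat.lt_two_pow_self).le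
      _ = (2 ^ l) ^ c' := by rw [← pow_mul 2 c', ← pow_mul 2 l, mul_comm]
      _ ≤ (2 * W) ^ c' := Nat.pow_le_pow_left hl _
  calc Q ^ (U + m + L) = Q ^ U * Q ^ m * Q ^ L := by rw [pow_add, pow_add]
    _ ≤ _ := by gcongr

theorem nB {a Q W w m0 L c' T P E1 E2 : ℕ} (hT : T ≤ a * (2 * W) ^ (2 * m0))
    (hP : P ≤ Q * (2 * W) ^ m0 * (2 * W) ^ c' * Q ^ L) (hE1 : E1 = 3 * m0 + c')
    (hE2 : E2 = (m0 + 1) * E1) (hw : 1 ≤ w) (hW : W = (2 * w) ^ m0) :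
    T * P ≤ (a * Q * Q ^ L * 2 ^ E2) * w ^ E2 := by
  have hWw : 2 * W ≤ (2 * w) ^ (m0 + 1) := by
    rw [pow_succ, hW, mul_comm]
    exact Nat.mul_le_mul_left _ (by omega)
  calc T * P ≤ (a * (2 * W) ^ (2 * m0)) * (Q * (2 * W) ^ m0 * (2 * W) ^ c' * Q ^ L) :=
        Nat.mul_le_mul hT hP
    _ = (a * Q * Q ^ L) * ((2 * W) ^ (2 * m0) * (2 * W) ^ m0 * (2 * W) ^ c') := by ring
    _ = (a * Q * Q ^ L) * (2 * W) ^ E1 := by
      rw [← pow_add, ← pow_add, hE1]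
      congr 2
      ring
    _ ≤ (a * Q * Q ^ L) * ((2 * w) ^ (m0 + 1)) ^ E1 :=
      Nat.mul_le_mul_left _ (Nat.pow_le_pow_left hWw _)
    _ = _ := by rw [← pow_mul, ← hE2, mul_pow]; ring

theorem nI {W B w m0 A2 E2 i : ℕ} (hw : 1 ≤ w) (hW : W = (2 * w) ^ m0)
    (hB : B ≤ A2 * w ^ E2)
    (hi : (2 ^ m0 * A2 + E2 + m0 + 1) * w ^ (2 ^ m0 * A2 + E2 + m0 + 1) ≤ i) : W * B < i := by
  refine lt_of_lt_of_le ?_ hi
  have h1 : W * B ≤ 2 ^ m0 * A2 * w ^ (E2 + m0) := by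
    calc W * B ≤ (2 * w) ^ m0 * (A2 * w ^ E2) := by
          rw [hW]; exact Nat.mul_le_mul_left _ hB
      _ = _ := by rw [mul_pow, pow_add]; ring
  have h2 : w ^ (E2 + m0) ≤ w ^ (2 ^ m0 * A2 + E2 + m0 + 1) :=
    Nat.pow_le_pow_right hw (by omega)
  have h3 : 0 < w ^ (2 ^ m0 * A2 + E2 + m0 + 1) := pow_pos hw _
  calc W * B ≤ 2 ^ m0 * A2 * w ^ (E2 + m0) := h1
    _ ≤ 2 ^ m0 * A2 * w ^ (2 ^ m0 * A2 + E2 + m0 + 1) := Nat.mul_le_mul_left _ h2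
    _ < _ := Nat.mul_lt_mul_of_pos_right (by omega) h3

theorem rH {b A2 E2 C1 B w : ℕ} {lam h : ℝ} (hlam : 0 < lam) (hw : 1 ≤ w)
    (hC1 : 8 * b * A2 / lam ≤ (C1 : ℝ)) (hB : B ≤ A2 * w ^ E2) (hh : 0 ≤ h)
    (hk : lam / 4 ≤ 2 * b * (B * h)) :
    1 ≤ ((C1 + E2 : ℕ) : ℝ) * (w : ℝ) ^ (C1 + E2) * h := by
  have hwr : (1 : ℝ) ≤ w := by exact_mod_cast hw
  have hBr : (B : ℝ) ≤ A2 * (w : ℝ) ^ E2 := by exact_mod_cast hB
  have h1 : lam / 4 ≤ 2 * b * ((A2 * (w : ℝ) ^ E2) * h) :=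
    hk.trans (mul_le_mul_of_nonneg_left (mul_le_mul_of_nonneg_right hBr hh) (by positivity))
  have h2 : 1 ≤ (8 * b * A2 / lam) * (w : ℝ) ^ E2 * h := by
    rw [div_mul_eq_mul_div, div_mul_eq_mul_div, le_div_iff₀ hlam]
    linarith
  have h3 : 8 * b * A2 / lam ≤ ((C1 + E2 : ℕ) : ℝ) := by
    push_cast
    have : (0 : ℝ) ≤ E2 := Nat.cast_nonneg _
    linarith
  have h4 : (w : ℝ) ^ E2 ≤ (w : ℝ) ^ (C1 + E2) := pow_le_pow_right₀ hwr (by omega)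
  refine h2.trans (mul_le_mul_of_nonneg_right (mul_le_mul h3 h4 (by positivity)
    (Nat.cast_nonneg _)) hh)

/-- the parameters -/
theorem params (b qn k0 m0 : ℕ) (C lam : ℝ) (hb : 1 ≤ b) (hq : 2 ≤ qn) (hk0 : 1 ≤ k0)
    (hm0 : 2 ≤ m0) (hC : 0 ≤ C) (hlam : 0 < lam) :
    ∃ C1 C2 : ℕ, ∀ w : ℕ, 1 ≤ w → ∃ κ Jt J U m B : ℕ, 1 ≤ κ ∧ 1 ≤ U ∧
      4 * (κ * (2 * (2 * w) ^ m0)) ^ m0 ≤ dl b qn Jt ∧
      (2 * (2 * w) ^ m0) ^ m0 ≤ (qn ^ k0) ^ U ∧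
      2 * (2 * 3 ^ m0 * dl b qn Jt) ≤ dl b qn J ∧
      qn ^ Jt ≤ dl b qn J ∧ qn ^ J ≤ dl b qn J ∧
      B = dl b qn J * qn ^ (k0 * (U + m + 2 * 3 ^ m0)) ∧
      (∀ i : ℕ, C2 * w ^ C2 ≤ i → (2 * w) ^ m0 * B < i) ∧
      (∀ n : ℕ, 1 ≤ n → n ≤ (dl b qn Jt + 1) ^ m0 →
        b * C * (Jt + 1) + Real.log n ≤ lam / 4 * κ) ∧
      (∀ n : ℕ, 1 ≤ n → n ≤ (dl b qn J + 1) ^ m0 →
        b * C * (J + 1) + Real.log n ≤ lam / 4 * (m + 1)) ∧
      (∀ h : ℝ, 0 ≤ h → lam / 4 ≤ 2 * b * (B * h) → 1 ≤ (C1 : ℝ) * (w : ℝ) ^ C1 * h) := by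
  have hbr : (1 : ℝ) ≤ b := by exact_mod_cast hb
  have hqr : (2 : ℝ) ≤ qn := by exact_mod_cast hq
  have hm0r : (0 : ℝ) ≤ m0 := Nat.cast_nonneg _
  have hlog4q : 0 ≤ Real.log (4 * qn) := Real.log_nonneg (by linarith)
  have hlog3b : 0 ≤ Real.log (3 * b) := Real.log_nonneg (by linarith)
  obtain ⟨c7, hc7⟩ : ∃ c7 : ℝ, c7 = 2 * b * C + m0 := ⟨_, rfl⟩
  obtain ⟨A, hA⟩ : ∃ A : ℝ, A = b * C + m0 * Real.log (3 * b) := ⟨_, rfl⟩
  have hc70 : 0 ≤ c7 := by rw [hc7]; positivity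
  have hA0 : 0 ≤ A := by rw [hA]; positivity
  obtain ⟨C3, hC31, hC3⟩ := exists_C3 (C6 := A + c7 * (Real.log (4 * qn) + m0 * 3))
    (C7 := c7 * m0) hlam (by positivity) (by positivity)
  have hC3r : (1 : ℝ) ≤ C3 := by exact_mod_cast hC31
  have hlogC3 : 0 ≤ Real.log C3 := Real.log_nonneg hC3r
  obtain ⟨L, hL⟩ : ∃ L : ℕ, L = 2 * 3 ^ m0 := ⟨_, rfl⟩
  have hL1 : 1 ≤ L := by rw [hL]; exact Nat.mul_pos two_pos (pow_pos (by norm_num) _)
  have hL1r : (1 : ℝ) ≤ L := by exact_mod_cast hL1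
  have hqLb : (1 : ℝ) ≤ qn * (L * b) := by
    have h1 : (1 : ℝ) ≤ L * b := one_le_mul_of_one_le_of_one_le hL1r hbr
    exact one_le_mul_of_one_le_of_one_le (by linarith only [hqr]) h1
  have hlogLb : 0 ≤ Real.log (4 * qn * L * b) := Real.log_nonneg (by linarith)
  obtain ⟨C4, hC4⟩ := exists_nat_ge (4 * (A + c7 * ((Real.log (4 * qn * L * b) +
    Real.log (4 * qn)) + m0 * 3) + c7 * m0 * Real.log C3) / lam)
  rw [div_le_iff₀ hlam] at hC4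
  obtain ⟨c', hc'⟩ : ∃ c' : ℕ, c' = (qn ^ k0) ^ C4 := ⟨_, rfl⟩
  obtain ⟨a, ha⟩ : ∃ a : ℕ, a = 32 * b ^ 2 * qn ^ 2 * L * C3 ^ m0 := ⟨_, rfl⟩
  obtain ⟨E1, hE1⟩ : ∃ E1 : ℕ, E1 = 3 * m0 + c' := ⟨_, rfl⟩
  obtain ⟨E2, hE2⟩ : ∃ E2 : ℕ, E2 = (m0 + 1) * E1 := ⟨_, rfl⟩
  obtain ⟨A2, hA2⟩ : ∃ A2 : ℕ, A2 = a * qn ^ k0 * (qn ^ k0) ^ L * 2 ^ E2 := ⟨_, rfl⟩
  obtain ⟨C1', hC1'⟩ := exists_nat_ge (8 * b * A2 / lam)
  refine ⟨C1' + E2, 2 ^ m0 * A2 + E2 + m0 + 1, ?_⟩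
  intro w hw
  obtain ⟨W, hW⟩ : ∃ W : ℕ, W = (2 * w) ^ m0 := ⟨_, rfl⟩
  rw [← hW, ← hL]
  have hW1 : 1 ≤ W := by rw [hW]; exact Nat.one_le_pow _ _ (by omega)
  obtain ⟨l, hl⟩ : ∃ l : ℕ, l = Nat.log 2 W + 1 := ⟨_, rfl⟩
  have hl1 : 1 ≤ l := by omega
  have hWl : W ≤ 2 ^ l := by rw [hl]; exact (Nat.lt_pow_succ_log_self (by norm_num) W).le
  have hlW : 2 ^ l ≤ 2 * W := by
    rw [hl, pow_succ, mul_comm]
    exact Nat.mul_le_mul_left _ (Nat.pow_log_le_self 2 (by omega))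
  have hl2 : l ≤ 2 ^ l := (Nat.lt_two_pow_self).le
  have hlr : (1 : ℝ) ≤ l := by exact_mod_cast hl1
  obtain ⟨κ, hκ⟩ : ∃ κ : ℕ, κ = C3 * l := ⟨_, rfl⟩
  have hκ1 : 1 ≤ κ := by rw [hκ]; exact Nat.mul_pos hC31 hl1
  obtain ⟨x0, hx0⟩ : ∃ x0 : ℕ, x0 = 4 * (κ * (2 * W)) ^ m0 := ⟨_, rfl⟩
  have hx01 : 1 ≤ x0 := by
    rw [hx0]; exact Nat.mul_pos (by norm_num) (pow_pos (Nat.mul_pos hκ1 (by omega)) _)
  obtain ⟨Jt, hJt1, hJt2⟩ := exists_pow_between hq hx01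
  obtain ⟨ht1, ht2⟩ := dl_bounds hb hq Jt
  obtain ⟨t, ht⟩ : ∃ t : ℕ, t = dl b qn Jt := ⟨_, rfl⟩
  rw [← ht] at ht1 ht2
  have ht01 : 1 ≤ t := le_trans (Nat.one_le_pow _ _ (by omega)) ht1
  obtain ⟨J, hJ1, hJ2⟩ := exists_pow_between hq (show 1 ≤ 2 * (L * t) from
    Nat.mul_pos two_pos (Nat.mul_pos hL1 ht01))
  obtain ⟨hT1, hT2⟩ := dl_bounds hb hq J
  obtain ⟨T, hT⟩ : ∃ T : ℕ, T = dl b qn J := ⟨_, rfl⟩
  rw [← hT] at hT1 hT2
  have hqk2 : 2 ≤ qn ^ k0 := hq.trans (Nat.le_self_pow (by omega) _)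
  obtain ⟨U, hU1, hU2⟩ := exists_pow_between hqk2 (show 1 ≤ (2 * W) ^ m0 from
    Nat.one_le_pow _ _ (by omega))
  have hU0 : 1 ≤ U := by
    rcases Nat.eq_zero_or_pos U with h0 | h0
    · exfalso
      rw [h0, pow_zero] at hU1
      have h1 : 2 ^ 1 ≤ (2 * W) ^ m0 :=
        (Nat.pow_le_pow_left (by omega) 1).trans (Nat.pow_le_pow_right (by omega) (by omega))
      omega
    · exact h0
  obtain ⟨m, hm⟩ : ∃ m : ℕ, m = C4 * l := ⟨_, rfl⟩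
  have hBw : T * qn ^ (k0 * (U + m + L)) ≤ A2 * w ^ E2 := by
    rw [hA2, pow_mul]
    exact nB (ha ▸ nT hκ (hl2.trans hlW) hx0 ht2 hJt2 hT2 hJ2) (nQ hc' hm hlW hU2) hE1 hE2
      hw hW
  -- the real bounds
  have hx0r : qn * (4 * ((κ : ℝ) * (2 * W)) ^ m0) = qn * x0 := by rw [hx0]; push_cast; ring
  have hx0r1 : (1 : ℝ) ≤ x0 := by exact_mod_cast hx01
  have hlogX1 : Real.log (qn * x0) ≤ Real.log (4 * qn) + m0 * (Real.log C3 + 3 * l) := by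
    rw [← hx0r]
    exact logX hqr hC31 hl1 hW1 hκ hWl
  have hX11 : (1 : ℝ) ≤ qn * x0 :=
    one_le_mul_of_one_le_of_one_le (by linarith only [hqr]) hx0r1
  have ht0r : (1 : ℝ) ≤ t := by exact_mod_cast ht01
  have htX : (t : ℝ) ≤ 2 * b * (qn * x0) := by
    have h1 : t ≤ 2 * b * (qn * x0) := ht2.trans (Nat.mul_le_mul_left _ hJt2)
    exact_mod_cast h1
  have hX21 : (1 : ℝ) ≤ qn * (2 * (L * t)) := by
    have h1 : 1 ≤ qn * (2 * (L * t)) :=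
      Nat.mul_pos (by omega) (Nat.mul_pos two_pos (Nat.mul_pos hL1 ht01))
    exact_mod_cast h1
  have hTX : (T : ℝ) ≤ 2 * b * (qn * (2 * (L * t))) := by
    have h1 : T ≤ 2 * b * (qn * (2 * (L * t))) := hT2.trans (Nat.mul_le_mul_left _ hJ2)
    exact_mod_cast h1
  have hlogX2 : Real.log (qn * (2 * (L * t))) ≤
      Real.log (4 * qn * L * b) + Real.log (qn * x0) := by
    rw [← Real.log_mul (by linarith) (by linarith)]
    refine Real.log_le_log (by linarith) ?_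
    calc (qn : ℝ) * (2 * (L * t)) = 2 * qn * L * t := by ring
      _ ≤ 2 * qn * L * (2 * b * (qn * x0)) :=
        mul_le_mul_of_nonneg_left htX (by positivity)
      _ = _ := by ring
  refine ⟨κ, Jt, J, U, m, _, hκ1, hU0, ?_, hU1, ?_, ?_, ?_, rfl, ?_, ?_, ?_, ?_⟩
  · rw [← ht, ← hx0]; exact hJt1.trans ht1
  · rw [← ht, ← hT]
    exact hJ1.trans hT1
  · rw [← hT]
    refine ht1.trans (le_trans ?_ (hJ1.trans hT1))
    calc t = 1 * t := (one_mul t).symm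
      _ ≤ (2 * L) * t := Nat.mul_le_mul_right _ (by omega)
      _ = _ := by ring
  · rw [← hT]; exact hT1
  · rw [← hT]
    intro i hi
    exact nI hw hW hBw hi
  · rw [← ht]
    intro n hn1 hn
    have h1 := err (b := b) (C := C) (q := qn) (X := qn * x0) (T := t) (n := n) (m0 := m0)
      (J := Jt) hbr hC hqr hX11 (by exact_mod_cast hJt2) (Nat.cast_nonneg _) htX
      (by exact_mod_cast hn1) (by exact_mod_cast hn)
    rw [← hA, ← hc7] at h1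
    have h2 : c7 * Real.log (qn * x0) ≤
        c7 * (Real.log (4 * qn) + m0 * (Real.log C3 + 3 * l)) :=
      mul_le_mul_of_nonneg_left hlogX1 hc70
    have h3 := s1 hA0 hlog4q hlogC3 hc70 hm0r hlr
    have h4 := mul_le_mul_of_nonneg_left hC3 (show (0 : ℝ) ≤ l by linarith)
    have h5 : (l : ℝ) * (lam / 8 * C3) = lam / 8 * κ := by rw [hκ]; push_cast; ring
    have h6 : lam / 8 * κ ≤ lam / 4 * κ :=
      mul_le_mul_of_nonneg_right (by linarith) (Nat.cast_nonneg _)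
    linarith
  · rw [← hT]
    intro n hn1 hn
    have h1 := err (b := b) (C := C) (q := qn) (X := qn * (2 * (L * t))) (T := T) (n := n)
      (m0 := m0) (J := J) hbr hC hqr hX21 (by exact_mod_cast hJ2) (Nat.cast_nonneg _) hTX
      (by exact_mod_cast hn1) (by exact_mod_cast hn)
    rw [← hA, ← hc7] at h1
    have h2 : c7 * Real.log (qn * (2 * (L * t))) ≤ c7 * ((Real.log (4 * qn * L * b) +
        Real.log (4 * qn)) + m0 * (Real.log C3 + 3 * l)) :=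
      mul_le_mul_of_nonneg_left (by linarith) hc70
    have h3 := s1 hA0 (add_nonneg hlogLb hlog4q) hlogC3 hc70 hm0r hlr
    have h4 := mul_le_mul_of_nonneg_left hC4 (show (0 : ℝ) ≤ l by linarith)
    have h5 : (l : ℝ) * (C4 * lam) = lam * m := by rw [hm]; push_cast; ring
    rw [h5] at h4
    linarith
  · rw [← hT]
    intro h hh hk
    exact rH hlam hw hC1' hBw hh hk

end CrvnAux

open CrvnAux

/-- CRVN -/
theorem crvn (hCA : CaseaStatement) (hCB : CasebStatement) (hEN : EneqStatement)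
    (hCU : CurveStatement) (hPH : PhiStatement) : CrvnStatement := by
  intro K _ _ p s ι _ _ _ v Φ hcard hp hs hϖ hϖ0 hmax F hF hz hΦF
  have hq2 : 2 ≤ p ^ s := hp.two_le.trans (Nat.le_self_pow (by omega) p)
  have hq2r : (2 : ℝ) ≤ ((p ^ s : ℕ) : ℝ) := by exact_mod_cast hq2
  obtain ⟨k0, hk01, hk0⟩ := hPH K p s ι v Φ hp hs hϖ hϖ0 hmax
  obtain ⟨b, hb1, hb⟩ := span_adapted F (p ^ s) hF hz
  obtain ⟨C, hC0, hC⟩ := hEN K p s ι v Φ hp hs hϖ hϖ0 F hF hz b hb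
  have hlam0 : 0 < - Real.log (v (Φ.ϖ : K)) / Module.finrank ℚ K := by
    have h1 : 0 < - Real.log (v (Φ.ϖ : K)) :=
      neg_pos.2 (Real.log_neg (FinitePlace.pos_iff.2 hϖ0) hϖ)
    have h2 : (0 : ℝ) < Module.finrank ℚ K := by exact_mod_cast Module.finrank_pos
    positivity
  obtain ⟨C1, C2, hP⟩ := params b (p ^ s) k0 (Fintype.card ι) C _ hb1 hq2 hk01 hcard hC0 hlam0
  refine ⟨C1, C2, ?_⟩
  intro N _ _ _ _ R hR w hw hHW hidx h hlimR
  by_cases hnp : OnCurve F R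
  · exact Or.inr hnp
  left
  have hh0 : 0 ≤ h := ge_of_tendsto' hlimR fun n => div_nonneg (div_nonneg
    (Height.logHeight_nonneg _) (Nat.cast_nonneg _)) (pow_nonneg (by linarith) _)
  obtain ⟨κ, Jt, J, U, m, B, hκ1, hU0, hx, hU1, hJ1, hJt, hJ, hB, hbig, her1, her2, hfin⟩ :=
    hP w hw
  refine hfin h hh0 ?_
  have hKinf : Infinite K := inferInstance
  obtain ⟨Ω, _, _, x, hGen, hSpec⟩ := hCU K N ι R w hcard hw hHW
  have hbr : (0 : ℝ) ≤ b := Nat.cast_nonneg _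
  have hH0 : 0 ≤ ((p ^ s : ℕ) : ℝ) ^ (k0 * (U + m + 2 * 3 ^ Fintype.card ι)) * h :=
    mul_nonneg (pow_nonneg (by linarith) _) hh0
  have hBh : (B : ℝ) * h = dl b (p ^ s) J *
      (((p ^ s : ℕ) : ℝ) ^ (k0 * (U + m + 2 * 3 ^ Fintype.card ι)) * h) := by
    rw [hB, Nat.cast_mul, Nat.cast_pow (p ^ s), mul_assoc]
  have hTq : ∀ J' : ℕ, (p ^ s) ^ J' ≤ dl b (p ^ s) J → 2 * b * ((p ^ s : ℕ) : ℝ) ^ J' *
      (((p ^ s : ℕ) : ℝ) ^ (k0 * (U + m + 2 * 3 ^ Fintype.card ι)) * h) ≤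
      2 * b * (B * h) := by
    intro J' hJ'
    rw [hBh, mul_assoc (2 * (b : ℝ))]
    refine mul_le_mul_of_nonneg_left (mul_le_mul_of_nonneg_right ?_ hH0) (by positivity)
    rw [← Nat.cast_pow]
    exact_mod_cast hJ'
  have hheights : ∀ n : ℕ, n ≤ k0 * (U + m + 2 * 3 ^ Fintype.card ι) → ∃ h' : ℝ,
      Tendsto (fun i : ℕ => Height.logHeight ((gAct F N)^[i] ((gAct F N)^[n] R)) /
      (Module.finrank ℚ N : ℝ) / ((p ^ s : ℕ) : ℝ) ^ i) atTop (𝓝 h') ∧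
      h' ≤ ((p ^ s : ℕ) : ℝ) ^ (k0 * (U + m + 2 * 3 ^ Fintype.card ι)) * h := by
    intro n hn
    refine ⟨((p ^ s : ℕ) : ℝ) ^ n * h, lim_orb F hq2r R hlimR n, ?_⟩
    exact mul_le_mul_of_nonneg_right (pow_le_pow_right₀ (by linarith) hn) hh0
  by_cases hcase : ∃ i < 2 * 3 ^ Fintype.card ι, (dl b (p ^ s) Jt + 1) * (dl b (p ^ s) Jt + 2) ≤
      2 * HW K ((gAct F N)^[k0 * (U + m + i)] R) (dl b (p ^ s) Jt)
  · -- one level with a large Hilbert function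
    obtain ⟨i, hi, hit⟩ := hcase
    obtain ⟨r, hr, hdet⟩ := hCB K p s ι v Φ hp hs hϖ hϖ0 hmax k0 hk01 hk0 F hΦF Ω x _ hGen N R
      hR hSpec (U + m + i) κ b Jt (by omega) hκ1 hx hit
    have hn1 : 1 ≤ HW K ((gAct F N)^[k0 * (U + m + i)] R) (dl b (p ^ s) Jt) := by
      have : 0 < (dl b (p ^ s) Jt + 1) * (dl b (p ^ s) Jt + 2) := by positivity
      omega
    have hmain := hC N 1 (fun _ => (gAct F N)^[k0 * (U + m + i)] R) Jt _
      (κ * (HW K ((gAct F N)^[k0 * (U + m + i)] R) (dl b (p ^ s) Jt) - r))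
      (((p ^ s : ℕ) : ℝ) ^ (k0 * (U + m + 2 * 3 ^ Fintype.card ι)) * h)
      (fun _ => gAct_iter_ne F hF hz _ _ hR) (HW_joint_one K _ _).symm
      (fun _ => hheights _ (Nat.mul_le_mul_left _ (by omega)))
      (fun ww e hwe row μ hμ => hdet ww e hwe _ (fun a => (row a).2) μ hμ)
    have h1 := her1 _ hn1 (HW_le_pow K ((gAct F N)^[k0 * (U + m + i)] R) _)
    exact fin1 hlam0 (by exact_mod_cast hκ1) (by exact_mod_cast hn1) (fin2 hr) hmain h1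
      (hTq Jt hJt)
  · -- all levels have small Hilbert functions
    push Not at hcase
    obtain ⟨r, hr, hdet⟩ := hCA K p s ι v Φ hp hs hϖ hϖ0 hmax k0 hk01 hk0 F hΦF hz Ω x _ hGen N R
      hR hSpec hnp U m b J (dl b (p ^ s) Jt) (2 * 3 ^ Fintype.card ι) hU1 rfl hJ1
      (by rw [← hB]; exact hbig _ hidx) hcase
    have hyne : ∀ i : Fin (2 * 3 ^ Fintype.card ι),
        (gAct F N)^[k0 * (U + m + i)] R ≠ 0 := fun i => gAct_iter_ne F hF hz _ _ hR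
    have hL0 : 0 < 2 * 3 ^ Fintype.card ι := by positivity
    have hn1 := HW_joint_pos K (fun i : Fin (2 * 3 ^ Fintype.card ι) =>
      (gAct F N)^[k0 * (U + m + i)] R) ⟨0, hL0⟩ (hyne _) (dl b (p ^ s) J)
    have hmain := hC N (2 * 3 ^ Fintype.card ι)
      (fun i : Fin (2 * 3 ^ Fintype.card ι) => (gAct F N)^[k0 * (U + m + i)] R) J _
      ((m + 1) * (HW K (joint fun i : Fin (2 * 3 ^ Fintype.card ι) =>
        (gAct F N)^[k0 * (U + m + i)] R) (dl b (p ^ s) J) - r))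
      (((p ^ s : ℕ) : ℝ) ^ (k0 * (U + m + 2 * 3 ^ Fintype.card ι)) * h) hyne rfl
      (fun i => hheights _ (Nat.mul_le_mul_left _ (by have := i.2; omega)))
      (fun ww e hwe row μ hμ => hdet ww e hwe _ row μ hμ)
    have h1 := her2 _ hn1 (HW_le_pow K _ _)
    have h2 := fin2 (κ := m + 1) hr
    rw [Nat.cast_add, Nat.cast_one] at h2
    have h3 : (1 : ℝ) ≤ (m : ℝ) + 1 := by
      have : (0 : ℝ) ≤ m := Nat.cast_nonneg _
      linarith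
    exact fin1 hlam0 h3 (by exact_mod_cast hn1) h2 hmain h1 (hTq J hJ)

end Pool.DynLehmer.SP
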