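import Pool.Agent.Lib.MP_2194ec_nt.PlC
import Pool.Agent.Lib.MP_2194ec_nt.SP.Iface

set_option autoImplicit false
set_option linter.style.haveILetI false

/-!
# Module CUT: a curve is cut out by forms of small degree
-/

namespace Pool.DynLehmer.SP.CutAux
open scoped Classical

/-- extension of homomorphisms to an algebraically closed field along integral maps -/
theorem exists_lift {R S M : Type} [CommRing R] [CommRing S] [Algebra R S]
    [Algebra.IsIntegral R S] [Field M] [IsAlgClosed M] (f : R →+* M)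
    (h : RingHom.ker (algebraMap R S) ≤ RingHom.ker f) :
    ∃ g : S →+* M, g.comp (algebraMap R S) = f := by
  haveI hP : (RingHom.ker f).IsPrime := RingHom.ker_isPrime f
  obtain ⟨Q, -, hQ, hQP⟩ := Ideal.exists_ideal_over_prime_of_isIntegral (RingHom.ker f)
    (⊥ : Ideal S) h
  let R' := R ⧸ RingHom.ker f
  let S' := S ⧸ Q
  letI a1 : Algebra R' S' := (Ideal.quotientMap Q (algebraMap R S) (by rw [hQP])).toAlgebra
  letI a2 : Algebra R' M := (Ideal.Quotient.lift (RingHom.ker f) f (fun a ha => ha)).toAlgebra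
  haveI t1 : IsScalarTower R R' S' := IsScalarTower.of_algebraMap_eq fun x => rfl
  haveI i1 : Algebra.IsIntegral R S' := inferInstance
  haveI i2 : Algebra.IsIntegral R' S' := Algebra.IsIntegral.tower_top R
  haveI inj1 : Function.Injective (algebraMap R' S') :=
    Ideal.quotientMap_injective' (by rw [hQP])
  haveI inj2 : Function.Injective (algebraMap R' M) := RingHom.kerLift_injective f
  haveI : IsDomain R' := Ideal.Quotient.isDomain _
  haveI : IsDomain S' := Ideal.Quotient.isDomain _
  haveI : Module.IsTorsionFree R' S' := Module.isTorsionFree_iff_algebraMap_injective.2 inj1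
  haveI : Module.IsTorsionFree R' M := Module.isTorsionFree_iff_algebraMap_injective.2 inj2
  haveI : Algebra.IsAlgebraic R' S' := inferInstance
  let g' : S' →ₐ[R'] M := IsAlgClosed.lift
  refine ⟨g'.toRingHom.comp (Ideal.Quotient.mk Q), ?_⟩
  ext r
  have h1 : (Ideal.Quotient.mk Q) (algebraMap R S r) =
      algebraMap R' S' (Ideal.Quotient.mk _ r) := rfl
  have h2 : g' (algebraMap R' S' (Ideal.Quotient.mk _ r)) =
      algebraMap R' M (Ideal.Quotient.mk _ r) := g'.commutes _
  simp only [RingHom.comp_apply, h1]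
  exact h2

/-- extension with a prescribed value at one element -/
theorem exists_lift_root {B S M : Type} [CommRing B] [IsDomain B] [IsIntegrallyClosed B]
    [CommRing S] [IsDomain S] [Algebra B S] [Module.IsTorsionFree B S]
    [Algebra.IsIntegral B S] [Field M] [IsAlgClosed M] (ψ : B →+* M) (l : S) (β : M)
    (h : (minpoly B l).eval₂ ψ β = 0) :
    ∃ g : S →+* M, g.comp (algebraMap B S) = ψ ∧ g l = β := by
  letI a1 : Algebra (Polynomial B) S := (Polynomial.aeval l : Polynomial B →ₐ[B] S).toRingHom.toAlgebra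
  haveI t1 : IsScalarTower B (Polynomial B) S := IsScalarTower.of_algebraMap_eq fun x => by
    change algebraMap B S x = Polynomial.aeval l (algebraMap B (Polynomial B) x)
    rw [AlgHom.commutes]
  haveI i1 : Algebra.IsIntegral (Polynomial B) S := Algebra.IsIntegral.tower_top B
  obtain ⟨g, hg⟩ := exists_lift (S := S) (Polynomial.eval₂RingHom ψ β) (by
    intro p hp
    have h1 : Polynomial.aeval l p = 0 := hp
    obtain ⟨r, rfl⟩ := minpoly.isIntegrallyClosed_dvd (Algebra.IsIntegral.isIntegral l) h1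
    rw [RingHom.mem_ker, Polynomial.coe_eval₂RingHom, Polynomial.eval₂_mul, h, zero_mul])
  refine ⟨g, ?_, ?_⟩
  · ext b
    have h2 := RingHom.congr_fun hg (Polynomial.C b)
    rw [RingHom.comp_apply, Polynomial.coe_eval₂RingHom, Polynomial.eval₂_C] at h2
    rw [RingHom.comp_apply, ← h2]
    congr 1
    change algebraMap B S b = Polynomial.aeval l (Polynomial.C b)
    rw [Polynomial.aeval_C]
  · have h2 := RingHom.congr_fun hg Polynomial.X
    rw [RingHom.comp_apply, Polynomial.coe_eval₂RingHom, Polynomial.eval₂_X] at h2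
    rw [← h2]
    congr 1
    change l = Polynomial.aeval l Polynomial.X
    rw [Polynomial.aeval_X]

/-- finitely many values -/
theorem finite_values {B S M : Type} [CommRing B] [CommRing S] [Algebra B S]
    [Algebra.IsIntegral B S] [Field M] (ψ : B →+* M) {ι : Type} [Fintype ι] (z : ι → S) :
    {w : ι → M | ∃ g : S →+* M, g.comp (algebraMap B S) = ψ ∧ w = fun i => g (z i)}.Finite := by
  choose p hp1 hp2 using fun i => Algebra.IsIntegral.isIntegral (R := B) (z i)
  refine Set.Finite.subset (Set.Finite.pi' (fun i => ((p i).map ψ).rootSet_finite M)) ?_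
  rintro w ⟨g, hg, rfl⟩ i
  have hm : ((p i).map ψ).Monic := (hp1 i).map ψ
  refine (Polynomial.mem_rootSet_of_ne hm.ne_zero).2 ?_
  rw [Polynomial.coe_aeval_eq_eval, Polynomial.eval_map, ← hg, ← Polynomial.hom_eval₂, hp2,
    map_zero]

/-- the key lemma: a point which satisfies the minimal equations of the elements `∑ c^i z_i`
is a specialisation -/
theorem exists_spec {B S M K : Type} [CommRing B] [IsDomain B] [IsIntegrallyClosed B]
    [CommRing S] [IsDomain S] [Algebra B S] [Module.IsTorsionFree B S]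
    [Algebra.IsIntegral B S] [Field M] [IsAlgClosed M] [Field K] [Infinite K] [Algebra K B]
    (ψ : B →+* M) {n : ℕ} (z : Fin n → S) (y : Fin n → M)
    (h : ∀ c : K, (minpoly B (∑ i : Fin n, algebraMap B S (algebraMap K B c) ^ (i : ℕ) *
      z i)).eval₂ ψ (∑ i : Fin n, ψ (algebraMap K B c) ^ (i : ℕ) * y i) = 0) :
    ∃ g : S →+* M, g.comp (algebraMap B S) = ψ ∧ ∀ i, g (z i) = y i := by
  choose g hg1 hg2 using fun c : K => exists_lift_root ψ _ _ (h c)
  have hfin := finite_values (M := M) ψ z
  let F : K → {w : Fin n → M | ∃ g : S →+* M, g.comp (algebraMap B S) = ψ ∧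
    w = fun i => g (z i)} := fun c => ⟨fun i => g c (z i), g c, hg1 c, rfl⟩
  haveI : Finite {w : Fin n → M | ∃ g : S →+* M, g.comp (algebraMap B S) = ψ ∧
    w = fun i => g (z i)} := hfin
  obtain ⟨⟨w, g₀, hg₀, hw⟩, hinf⟩ := Finite.exists_infinite_fiber F
  refine ⟨g₀, hg₀, ?_⟩
  let P : Polynomial M := ∑ i : Fin n, Polynomial.monomial (i : ℕ) (w i - y i)
  have hP : P = 0 := by
    have hinj : Function.Injective fun c : F ⁻¹' {⟨w, g₀, hg₀, hw⟩} =>
        ψ (algebraMap K B (c : K)) := by
      intro a b hab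
      exact Subtype.ext ((ψ.comp (algebraMap K B)).injective hab)
    refine Polynomial.eq_zero_of_infinite_isRoot P ((Set.infinite_range_of_injective hinj).mono ?_)
    rintro _ ⟨⟨c, hc⟩, rfl⟩
    have h1 : ∀ i, g c (z i) = w i := fun i => congrFun (congrArg Subtype.val hc) i
    have h2 := hg2 c
    have h3 : g c (algebraMap B S (algebraMap K B c)) = ψ (algebraMap K B c) :=
      RingHom.congr_fun (hg1 c) _
    simp only [map_sum, map_mul, map_pow, h3, h1] at h2
    change Polynomial.eval _ P = 0
    simp only [P, Polynomial.eval_finsetSum, Polynomial.eval_monomial]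
    rw [← sub_eq_zero, ← Finset.sum_sub_distrib] at h2
    rw [← h2]
    exact Finset.sum_congr rfl fun i _ => by ring
  intro i
  have h1 : P.coeff (i : ℕ) = w i - y i := by
    simp only [P, Polynomial.finsetSum_coeff, Polynomial.coeff_monomial]
    rw [Finset.sum_eq_single i]
    · simp
    · intro j _ hj
      rw [if_neg (fun h => hj (Fin.ext h))]
    · simp
  rw [hP, Polynomial.coeff_zero] at h1
  have h2 : w i = g₀ (z i) := congrFun hw i
  rw [← h2]
  exact (sub_eq_zero.1 h1.symm)


open MvPolynomial Pool.DynLehmer Pool.DynLehmer.SB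

/-- components of a substitution of linear forms -/
theorem hc_linear {K : Type} [Field K] {ι κ : Type} (U : κ → MvPolynomial ι K)
    (hU : ∀ i, (U i).IsHomogeneous 1) (P : MvPolynomial κ K) (d : ℕ) :
    homogeneousComponent d (aeval U P) = aeval U (homogeneousComponent d P) := by
  have h1 : ∀ i, (aeval U (homogeneousComponent i P)).IsHomogeneous i := fun i => by
    have := (homogeneousComponent_isHomogeneous i P).aeval U hU
    rwa [one_mul] at this
  conv_lhs => rw [← sum_homogeneousComponent P]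
  rw [map_sum, map_sum]
  have h2 : ∀ i ∈ Finset.range (P.totalDegree + 1),
      homogeneousComponent d (aeval U (homogeneousComponent i P)) =
        if i = d then aeval U (homogeneousComponent d P) else 0 := by
    intro i _
    rw [homogeneousComponent_of_mem (h1 i)]
    by_cases h : d = i
    · subst h
      simp
    · rw [if_neg h, if_neg (fun h' => h h'.symm)]
  rw [Finset.sum_congr rfl h2, Finset.sum_ite_eq']
  split_ifs with h3
  · rfl
  · rw [homogeneousComponent_eq_zero _ _ (by
      rw [Finset.mem_range] at h3; omega), map_zero]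

/-- linear combinations of a point with homogeneous relations -/
theorem homRel_linear {K : Type} [Field K] {ι κ : Type} {Ω : Type} [CommRing Ω] [Algebra K Ω]
    {x : ι → Ω} (hx : HomRel K x) (U : κ → MvPolynomial ι K)
    (hU : ∀ i, (U i).IsHomogeneous 1) {u : κ → Ω} (hu : ∀ i, aeval x (U i) = u i) :
    HomRel K u := by
  have h1 : ∀ P : MvPolynomial κ K, aeval u P = aeval x (aeval U P) := by
    intro P
    have h2 : (aeval x : MvPolynomial ι K →ₐ[K] Ω).comp (aeval U) = aeval u := by
      refine algHom_ext fun i => ?_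
      rw [AlgHom.comp_apply, aeval_X, aeval_X, hu]
    rw [← h2, AlgHom.comp_apply]
  intro G hG d
  rw [h1, ← hc_linear U hU]
  rw [h1] at hG
  exact hx _ hG d

/-- elements of the span of the coordinates are values of linear forms -/
theorem exists_linear {K : Type} [Field K] {ι : Type} {Ω : Type} [CommRing Ω] [Algebra K Ω]
    (x : ι → Ω) {u : Ω} (hu : u ∈ Submodule.span K (Set.range x)) :
    ∃ U : MvPolynomial ι K, U.IsHomogeneous 1 ∧ aeval x U = u := by
  refine Submodule.span_induction (p := fun u _ => ∃ U : MvPolynomial ι K,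
    U.IsHomogeneous 1 ∧ aeval x U = u) ?_ ?_ ?_ ?_ hu
  · rintro _ ⟨i, rfl⟩
    exact ⟨X i, isHomogeneous_X _ _, aeval_X _ _⟩
  · exact ⟨0, isHomogeneous_zero _ _ _, map_zero _⟩
  · rintro a b _ _ ⟨A, hA, rfl⟩ ⟨B, hB, rfl⟩
    exact ⟨A + B, hA.add hB, map_add _ _ _⟩
  · rintro c a _ ⟨A, hA, rfl⟩
    exact ⟨c • A, (homogeneousSubmodule ι K 1).smul_mem c hA, map_smul _ _ _⟩

/-- evaluation through `finSuccEquiv` -/
theorem aeval_cons {K : Type} [Field K] {n : ℕ} {Ω : Type} [CommRing Ω] [Algebra K Ω]
    (u : Fin n → Ω) (l : Ω) (P : MvPolynomial (Fin (n + 1)) K) :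
    aeval (Fin.cons l u : Fin (n + 1) → Ω) P =
      (finSuccEquiv K n P).eval₂ (aeval u : MvPolynomial (Fin n) K →ₐ[K] Ω).toRingHom l := by
  have h1 : ((aeval (Fin.cons l u : Fin (n + 1) → Ω) : MvPolynomial (Fin (n + 1)) K →ₐ[K] Ω) :
      MvPolynomial (Fin (n + 1)) K →+* Ω) =
      (Polynomial.eval₂RingHom (aeval u : MvPolynomial (Fin n) K →ₐ[K] Ω).toRingHom l).comp
        (finSuccEquiv K n : MvPolynomial (Fin (n + 1)) K →+* Polynomial (MvPolynomial (Fin n) K)) := by
    refine MvPolynomial.ringHom_ext (fun a => ?_) (fun i => ?_)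
    · have e1 : finSuccEquiv K n (C a) = Polynomial.C (C a) := by
        rw [← MvPolynomial.algebraMap_eq, AlgEquiv.commutes]
        rfl
      simp [e1]
    · refine Fin.cases ?_ (fun j => ?_) i
      · simp [finSuccEquiv_X_zero]
      · simp [finSuccEquiv_X_succ]
  exact RingHom.congr_fun h1 P

/-- the component of degree `d` of a monic equation of degree `d` -/
theorem monic_component {K : Type} [Field K] {n : ℕ} {Ω : Type} [CommRing Ω] [Algebra K Ω]
    {u : Fin n → Ω} {l : Ω} (hul : HomRel K (Fin.cons l u : Fin (n + 1) → Ω))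
    {p : Polynomial (MvPolynomial (Fin n) K)} (hp : p.Monic)
    (h : p.eval₂ (aeval u : MvPolynomial (Fin n) K →ₐ[K] Ω).toRingHom l = 0) :
    ∃ P : MvPolynomial (Fin (n + 1)) K, P.IsHomogeneous p.natDegree ∧
      (finSuccEquiv K n P).Monic ∧ (finSuccEquiv K n P).natDegree = p.natDegree ∧
      aeval (Fin.cons l u : Fin (n + 1) → Ω) P = 0 := by
  set d := p.natDegree with hd
  set P₀ := (finSuccEquiv K n).symm p with hP₀
  have hP₀' : finSuccEquiv K n P₀ = p := (finSuccEquiv K n).apply_symm_apply p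
  have h0 : aeval (Fin.cons l u : Fin (n + 1) → Ω) P₀ = 0 := by
    rw [aeval_cons, hP₀', h]
  have hc : ∀ (j : ℕ) (m : Fin n →₀ ℕ),
      coeff m ((finSuccEquiv K n (homogeneousComponent d P₀)).coeff j) =
        if (Finsupp.cons j m).degree = d then coeff m (p.coeff j) else 0 := by
    intro j m
    rw [finSuccEquiv_coeff_coeff, coeff_homogeneousComponent, ← finSuccEquiv_coeff_coeff, hP₀']
  have hdeg : ∀ (j : ℕ) (m : Fin n →₀ ℕ), (Finsupp.cons j m).degree = j + m.degree := by
    intro j m
    rw [Finsupp.degree_eq_sum, Finsupp.degree_eq_sum, Fin.sum_univ_succ]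
    simp
  have hlt : ∀ j, d < j → (finSuccEquiv K n (homogeneousComponent d P₀)).coeff j = 0 := by
    intro j hj
    ext m
    rw [hc, Polynomial.coeff_eq_zero_of_natDegree_lt hj]
    simp
  have htop : (finSuccEquiv K n (homogeneousComponent d P₀)).coeff d = 1 := by
    ext m
    rw [hc, hdeg]
    have h1 : p.coeff d = 1 := hp
    rw [h1]
    split_ifs with h2
    · rfl
    · rw [coeff_one, if_neg]
      rintro rfl
      simp at h2
  have hnd : (finSuccEquiv K n (homogeneousComponent d P₀)).natDegree = d := by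
    refine le_antisymm (Polynomial.natDegree_le_iff_coeff_eq_zero.2 hlt) ?_
    refine Polynomial.le_natDegree_of_ne_zero ?_
    rw [htop]
    exact one_ne_zero
  refine ⟨homogeneousComponent d P₀, homogeneousComponent_isHomogeneous d P₀, ?_, hnd,
    hul _ h0 d⟩
  rw [Polynomial.Monic, Polynomial.leadingCoeff, hnd, htop]


/-- scaling -/
theorem aeval_scale {K : Type} [Field K] {ι : Type} [Fintype ι] {R : Type} [CommRing R]
    [Algebra K R] {P : MvPolynomial ι K} {d : ℕ} (hP : P.IsHomogeneous d) (c : R) (z : ι → R) :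
    aeval (fun k => c * z k) P = c ^ d * aeval z P := by
  rw [aeval_def, aeval_def, eval₂_eq', eval₂_eq', Finset.mul_sum]
  refine Finset.sum_congr rfl fun s hs => ?_
  have h2 : s.degree = d := by
    by_contra hne
    exact (mem_support_iff.1 hs) (hP.coeff_eq_zero hne)
  have h3 : ∏ k, (c * z k) ^ s k = c ^ d * ∏ k, z k ^ s k := by
    simp_rw [mul_pow]
    rw [Finset.prod_mul_distrib, Finset.prod_pow_eq_pow_sum, ← h2, Finsupp.degree_eq_sum]
  rw [h3]
  ring

/-- a binary form relation makes the ratio algebraic -/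
theorem ratio_integral {K : Type} [Field K] {Ω : Type} [Field Ω] [Algebra K Ω] {u : Fin 2 → Ω}
    {h : MvPolynomial (Fin 2) K} {δ : ℕ} (hh : h.IsHomogeneous δ) (h0 : h ≠ 0)
    (hu : aeval u h = 0) : ∃ w : Ω, w ≠ 0 ∧ ∀ j, IsIntegral K (w⁻¹ * u j) := by
  by_cases h1 : u 1 = 0
  · by_cases h2 : u 0 = 0
    · refine ⟨1, one_ne_zero, fun j => ?_⟩
      have : u j = 0 := by fin_cases j <;> assumption
      rw [this, mul_zero]
      exact isIntegral_zero
    · refine ⟨u 0, h2, fun j => ?_⟩
      fin_cases j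
      · change IsIntegral K ((u 0)⁻¹ * u 0)
        rw [inv_mul_cancel₀ h2]
        exact isIntegral_one
      · change IsIntegral K ((u 0)⁻¹ * u 1)
        rw [h1, mul_zero]
        exact isIntegral_zero
  · refine ⟨u 1, h1, fun j => ?_⟩
    fin_cases j
    · change IsIntegral K ((u 1)⁻¹ * u 0)
      set p : Polynomial K := aeval ![Polynomial.X, 1] h with hp
      have hp0 : p ≠ 0 := by
        intro hp0
        have h3 := Polynomial.homogenize_eq_of_isHomogeneous hh hp.symm
        rw [hp0, Polynomial.homogenize_zero] at h3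
        exact h0 h3.symm
      have h4 : Polynomial.aeval ((u 1)⁻¹ * u 0) p = 0 := by
        have h5 : (Polynomial.aeval ((u 1)⁻¹ * u 0)).comp
            (aeval ![Polynomial.X, 1] : MvPolynomial (Fin 2) K →ₐ[K] Polynomial K) =
            aeval (fun k => (u 1)⁻¹ * u k) := by
          refine algHom_ext fun i => ?_
          fin_cases i
          · simp
          · simp [inv_mul_cancel₀ h1]
        have h6 := DFunLike.congr_fun h5 h
        rw [AlgHom.comp_apply, aeval_scale hh, hu, mul_zero] at h6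
        exact h6
      exact (isAlgebraic_iff_isIntegral.1 ⟨p, hp0, h4⟩)
    · change IsIntegral K ((u 1)⁻¹ * u 1)
      rw [inv_mul_cancel₀ h1]
      exact isIntegral_one

/-- algebraic independence of two linear forms over which everything is integral -/
theorem indep {K : Type} [Field K] {ι : Type} [Fintype ι] {Ω : Type} [Field Ω] [Algebra K Ω]
    {z : ι → Ω} (hz : HomRel K z) (hlow : ∀ T, T + 1 ≤ HW K z T)
    {U : Fin 2 → MvPolynomial ι K} (hU : ∀ i, (U i).IsHomogeneous 1) {u : Fin 2 → Ω}
    (hu : ∀ i, aeval z (U i) = u i)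
    (hint : ∀ i, (aeval u : MvPolynomial (Fin 2) K →ₐ[K] Ω).toRingHom.IsIntegralElem (z i)) :
    Function.Injective (aeval u : MvPolynomial (Fin 2) K →ₐ[K] Ω) := by
  rw [injective_iff_map_eq_zero]
  intro P hP
  by_contra hP0
  obtain ⟨δ, hδ⟩ : ∃ δ, homogeneousComponent δ P ≠ 0 := by
    by_contra hcon
    push Not at hcon
    apply hP0
    rw [← sum_homogeneousComponent P]
    exact Finset.sum_eq_zero fun i _ => hcon i
  have hur : HomRel K u := homRel_linear hz U hU hu
  obtain ⟨w, hw, huw⟩ := ratio_integral (homogeneousComponent_isHomogeneous δ P) hδ (hur P hP δ)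
  have hzw : ∀ i, IsIntegral K (w⁻¹ * z i) := by
    intro i
    obtain ⟨p, hp, hpz⟩ := hint i
    have hcr : HomRel K (Fin.cons (z i) u : Fin 3 → Ω) := by
      refine homRel_linear hz (Fin.cons (X i) U : Fin 3 → MvPolynomial ι K) ?_ ?_
      · intro k
        refine Fin.cases ?_ (fun j => ?_) k
        · exact isHomogeneous_X _ _
        · exact hU j
      · intro k
        refine Fin.cases ?_ (fun j => ?_) k
        · exact aeval_X _ _
        · exact hu j
    obtain ⟨Q, hQ, hQm, -, hQz⟩ := monic_component hcr hp hpz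
    have h1 : aeval (Fin.cons (w⁻¹ * z i) (fun j => w⁻¹ * u j) : Fin 3 → Ω) Q = 0 := by
      have h2 : (Fin.cons (w⁻¹ * z i) (fun j => w⁻¹ * u j) : Fin 3 → Ω) =
          fun k => w⁻¹ * (Fin.cons (z i) u : Fin 3 → Ω) k := by
        funext k
        refine Fin.cases ?_ (fun j => ?_) k
        · rfl
        · rfl
      rw [h2, aeval_scale hQ, hQz, mul_zero]
    rw [aeval_cons] at h1
    let E₀ := integralClosure K Ω
    let u' : Fin 2 → E₀ := fun j => ⟨w⁻¹ * u j, huw j⟩
    have h3 : (aeval (fun j => w⁻¹ * u j) : MvPolynomial (Fin 2) K →ₐ[K] Ω).toRingHom =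
        (algebraMap E₀ Ω).comp (aeval u' : MvPolynomial (Fin 2) K →ₐ[K] E₀).toRingHom := by
      refine MvPolynomial.ringHom_ext (fun a => ?_) (fun k => ?_)
      · simp only [AlgHom.toRingHom_eq_coe, RingHom.coe_coe, RingHom.comp_apply, aeval_C]
        rfl
      · simp only [AlgHom.toRingHom_eq_coe, RingHom.coe_coe, RingHom.comp_apply, aeval_X]
        rfl
    rw [h3, ← Polynomial.eval₂_map] at h1
    have h4 : IsIntegral E₀ (w⁻¹ * z i) := ⟨_, hQm.map _, h1⟩
    exact isIntegral_trans (R := K) (A := E₀) _ h4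
  -- the algebra generated by the ratios is finite dimensional
  have hfg := fg_adjoin_of_finite (R := K) (Set.finite_range fun i => w⁻¹ * z i) (by
    rintro _ ⟨i, rfl⟩
    exact hzw i)
  set E := Algebra.adjoin K (Set.range fun i => w⁻¹ * z i) with hE
  haveI : Module.Finite K (Subalgebra.toSubmodule E) := Module.Finite.iff_fg.2 hfg
  set d := Module.finrank K (Subalgebra.toSubmodule E) with hd
  have h5 : VW K z d ≤ (Subalgebra.toSubmodule E).map (LinearMap.mulLeft K (w ^ d)) := by
    rintro _ ⟨G, hG, rfl⟩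
    refine ⟨aeval (fun i => w⁻¹ * z i) G, ?_, ?_⟩
    · have h6 : (aeval (fun i => w⁻¹ * z i) : MvPolynomial ι K →ₐ[K] Ω).range ≤ E :=
        (Algebra.adjoin_range_eq_range_aeval K _).symm.le
      exact h6 ⟨G, rfl⟩
    · rw [LinearMap.mulLeft_apply, aeval_scale ((mem_homogeneousSubmodule _ _).1 hG), ← mul_assoc,
        ← mul_pow, mul_inv_cancel₀ hw, one_pow, one_mul]
      rfl
  have h7 : HW K z d ≤ d := by
    have h8 := Submodule.finrank_mono h5
    exact h8.trans (Submodule.finrank_map_le _ _)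
  have h9 := hlow d
  omega

/-- the minimal polynomial of a linear form is a form of small degree -/
theorem minpoly_form {K : Type} [Field K] {ι : Type} {Ω : Type} [Field Ω]
    [Algebra K Ω] {z : ι → Ω} (hz : HomRel K z)
    {U : Fin 2 → MvPolynomial ι K} (hU : ∀ i, (U i).IsHomogeneous 1) {u : Fin 2 → Ω}
    (hu : ∀ i, aeval z (U i) = u i)
    {S : Type} [CommRing S] [IsDomain S] [Algebra (MvPolynomial (Fin 2) K) S]
    [Module.IsTorsionFree (MvPolynomial (Fin 2) K) S]
    [Algebra.IsIntegral (MvPolynomial (Fin 2) K) S]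
    (j : S →+* Ω) (hj : Function.Injective j)
    (hjB : ∀ b, j (algebraMap (MvPolynomial (Fin 2) K) S b) = aeval u b)
    (l : S) (L : MvPolynomial ι K) (hL : L.IsHomogeneous 1) (hl : aeval z L = j l) {s : ℕ}
    {g : MvPolynomial (Fin 3) K} (hg : g.IsHomogeneous s) (hg0 : g ≠ 0)
    (hgz : aeval (Fin.cons (j l) u : Fin 3 → Ω) g = 0) :
    ∃ (d : ℕ) (P : MvPolynomial (Fin 3) K), d ≤ s ∧ P.IsHomogeneous d ∧
      finSuccEquiv K 2 P = minpoly (MvPolynomial (Fin 2) K) l ∧
      aeval (Fin.cons (j l) u : Fin 3 → Ω) P = 0 := by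
  have hint := Algebra.IsIntegral.isIntegral (R := MvPolynomial (Fin 2) K) l
  have hcomp : j.comp (algebraMap (MvPolynomial (Fin 2) K) S) =
      (aeval u : MvPolynomial (Fin 2) K →ₐ[K] Ω).toRingHom := RingHom.ext hjB
  have hev : ∀ q : Polynomial (MvPolynomial (Fin 2) K),
      j (Polynomial.aeval l q) =
        q.eval₂ (aeval u : MvPolynomial (Fin 2) K →ₐ[K] Ω).toRingHom (j l) := by
    intro q
    rw [Polynomial.aeval_def, Polynomial.hom_eval₂, hcomp]
  have hcr : HomRel K (Fin.cons (j l) u : Fin 3 → Ω) := by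
    refine homRel_linear hz (Fin.cons L U : Fin 3 → MvPolynomial ι K) ?_ ?_
    · intro k
      refine Fin.cases ?_ (fun j => ?_) k
      · exact hL
      · exact hU j
    · intro k
      refine Fin.cases ?_ (fun j => ?_) k
      · exact hl
      · exact hu j
  have hvan : ∀ Q : MvPolynomial (Fin 3) K, aeval (Fin.cons (j l) u : Fin 3 → Ω) Q = 0 →
      minpoly (MvPolynomial (Fin 2) K) l ∣ finSuccEquiv K 2 Q := by
    intro Q hQ
    refine minpoly.isIntegrallyClosed_dvd hint (hj ?_)
    rw [hev, ← aeval_cons, hQ, map_zero]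
  obtain ⟨P, hP, hPm, hPd, hPz⟩ := monic_component hcr (minpoly.monic hint) (by
    rw [← hev, minpoly.aeval, map_zero])
  refine ⟨_, P, ?_, hP, ?_, hPz⟩
  · have h1 := Polynomial.natDegree_le_of_dvd (hvan g hgz)
      (fun h => hg0 ((finSuccEquiv K 2).injective (by rw [h, map_zero])))
    rw [natDegree_finSuccEquiv] at h1
    exact h1.trans ((degreeOf_le_totalDegree _ _).trans hg.totalDegree_le)
  · exact Polynomial.eq_of_monic_of_dvd_of_natDegree_le (minpoly.monic hint) hPm (hvan P hPz)
      hPd.le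

/-- a form of degree at most `s` which vanishes at `z` vanishes at `y` -/
theorem pad {K : Type} [Field K] {Ω Ω' : Type} [Field Ω] [Field Ω'] [Algebra K Ω]
    [Algebra K Ω'] {ι : Type} {z : ι → Ω} {y : ι → Ω'} {s d : ℕ} (hy0 : y ≠ 0)
    (h : ∀ G : MvPolynomial ι K, G.IsHomogeneous s → aeval z G = 0 → aeval y G = 0)
    (hd : d ≤ s) {G : MvPolynomial ι K} (hG : G.IsHomogeneous d) (hz : aeval z G = 0) :
    aeval y G = 0 := by
  obtain ⟨i, hi⟩ := Function.ne_iff.1 hy0
  have h1 := h (X i ^ (s - d) * G) (by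
    have := ((isHomogeneous_X K i).pow (s - d)).mul hG
    rwa [one_mul, Nat.sub_add_cancel hd] at this) (by rw [map_mul, hz, mul_zero])
  rw [map_mul, map_pow, aeval_X] at h1
  exact (mul_eq_zero.1 h1).resolve_left (pow_ne_zero _ hi)

/-- relations between three linear forms -/
theorem three {K : Type} [Field K] {Ω : Type} [Field Ω] [Algebra K Ω] {ι : Type} [Fintype ι]
    (x : ι → Ω) {s : ℕ} (hs : 2 * HW K x s < (s + 1) * (s + 2)) (Z : Fin 3 → Ω)
    (hZ : ∀ i, Z i ∈ Submodule.span K (Set.range x)) :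
    ∃ g : MvPolynomial (Fin 3) K, g.IsHomogeneous s ∧ g ≠ 0 ∧ aeval Z g = 0 := by
  choose L hL1 hL2 using fun i => exists_linear x (hZ i)
  have h1 := rank_null (aeval Z : MvPolynomial (Fin 3) K →ₐ[K] Ω).toLinearMap s
  have hle : (homogeneousSubmodule (Fin 3) K s).map
      (aeval Z : MvPolynomial (Fin 3) K →ₐ[K] Ω).toLinearMap ≤ VW K x s := by
    rintro _ ⟨G, hG, rfl⟩
    refine ⟨aeval L G, ?_, ?_⟩
    · have := IsHomogeneous.aeval (S := K) ((mem_homogeneousSubmodule _ _).1 hG) L hL1
      rw [one_mul] at this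
      exact this
    · have h2 : (aeval x : MvPolynomial ι K →ₐ[K] Ω).comp (aeval L) = aeval Z := by
        refine algHom_ext fun i => ?_
        rw [AlgHom.comp_apply, aeval_X, aeval_X, hL2]
      exact DFunLike.congr_fun h2 G
  haveI : Module.Finite K (homogeneousSubmodule ι K s) :=
    Module.Finite.iff_fg.2 (homogeneousSubmodule_fg ι K s)
  haveI : Module.Finite K (VW K x s) := by
    unfold VW
    infer_instance
  have h2 := Submodule.finrank_mono hle
  have h3 := two_choose s
  have h4 : Module.finrank K (VW K x s) = HW K x s := rfl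
  have h5 : (homogeneousSubmodule (Fin 3) K s ⊓
      LinearMap.ker (aeval Z : MvPolynomial (Fin 3) K →ₐ[K] Ω).toLinearMap :
      Submodule K (MvPolynomial (Fin 3) K)) ≠ ⊥ := by
    intro h0
    rw [h0, finrank_bot, add_zero] at h1
    rw [h1, h4] at h2
    nlinarith
  obtain ⟨g, ⟨hg1, hg2⟩, hg0⟩ := Submodule.exists_mem_ne_zero_of_ne_bot h5
  exact ⟨g, (mem_homogeneousSubmodule _ _).1 hg1, hg0, hg2⟩

/-- integrality over the linear forms, from normalisation -/
theorem integral_of_nn {K : Type} [Field K] {Ω : Type} [Field Ω] [Algebra K Ω] {r : ℕ}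
    {uv : Fin 2 → Ω} {m : Fin r → Ω} {lam : K} (hlam : lam ≠ 0) {j₀ : Fin r} (hj₀ : m j₀ = 1)
    {a : Ω} {k : ℕ} (h : ∀ j, lam ^ k • (a * m j) ∈
      Submodule.span (Algebra.adjoin K (Set.range uv)) (Set.range m)) :
    (aeval uv : MvPolynomial (Fin 2) K →ₐ[K] Ω).toRingHom.IsIntegralElem a := by
  set A₁ := Algebra.adjoin K (Set.range uv) with hA₁
  set N := Submodule.span A₁ (Set.range m) with hN
  have h1 : ∀ j, a * m j ∈ N := by
    intro j
    have h2 := N.smul_mem (algebraMap K A₁ (lam ^ k)⁻¹) (h j)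
    rw [algebraMap_smul, smul_smul, inv_mul_cancel₀ (pow_ne_zero _ hlam), one_smul] at h2
    exact h2
  have h2 : ∀ n ∈ N, a • n ∈ N := by
    intro n hn
    induction hn using Submodule.span_induction with
    | mem x hx =>
        obtain ⟨j, rfl⟩ := hx
        exact h1 j
    | zero => rw [smul_zero]; exact N.zero_mem
    | add x y _ _ hx hy => rw [smul_add]; exact N.add_mem hx hy
    | smul r x _ hx => rw [smul_comm]; exact N.smul_mem r hx
  have hN0 : N ≠ ⊥ := by
    intro h0
    have h3 : m j₀ ∈ N := Submodule.subset_span ⟨j₀, rfl⟩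
    rw [h0, Submodule.mem_bot, hj₀] at h3
    exact one_ne_zero h3
  have hint : IsIntegral A₁ a := isIntegral_of_smul_mem_submodule N hN0
    (Submodule.fg_span (Set.finite_range m)) a h2
  obtain ⟨p, hp, hpa⟩ := hint
  let f : MvPolynomial (Fin 2) K →+* A₁ := ((aeval uv : MvPolynomial (Fin 2) K →ₐ[K] Ω).codRestrict
    A₁ (fun x => by
      rw [hA₁, Algebra.adjoin_range_eq_range_aeval]
      exact ⟨x, rfl⟩)).toRingHom
  have hf : Function.Surjective f := by
    rintro ⟨x, hx⟩
    have hx' := hx
    rw [hA₁, Algebra.adjoin_range_eq_range_aeval] at hx'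
    obtain ⟨b, hb⟩ := hx'
    exact ⟨b, Subtype.ext hb⟩
  obtain ⟨q, hq1, -, hq3⟩ := Polynomial.lifts_and_natDegree_eq_and_monic
    ((Polynomial.mem_lifts p).2 (Polynomial.map_surjective f hf p)) hp
  refine ⟨q, hq3, ?_⟩
  have h4 : (aeval uv : MvPolynomial (Fin 2) K →ₐ[K] Ω).toRingHom =
      (algebraMap A₁ Ω).comp f := rfl
  rw [h4, ← Polynomial.eval₂_map, hq1, hpa]

end Pool.DynLehmer.SP.CutAux

namespace Pool.DynLehmer.SP
open MvPolynomial Pool.DynLehmer Pool.DynLehmer.SB CutAux
open scoped Classical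

theorem cut (hNN : NnStatement) : CutStatement := by
  intro K _ _ Ω Ω' _ _ _ _ ι _ z y s hz hlow hs hy
  by_cases hy0 : y = 0
  · subst hy0
    intro G hG
    have h1 := hz G hG 0
    rw [homogeneousComponent_zero, aeval_C, map_eq_zero] at h1
    rw [aeval_zero, constantCoeff_eq, h1, map_zero]
  have hs1 : 1 ≤ s := by
    by_contra h0
    have h1 : s = 0 := by omega
    subst h1
    have := hlow 0
    omega
  have hspan1 : VW K z 1 = Submodule.span K (Set.range z) := by
    unfold VW
    rw [homogeneousSubmodule_one_eq_span_X, Submodule.map_span, ← Set.range_comp]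
    congr 1
    refine congrArg Set.range ?_
    funext i
    simp
  have hcard : 2 ≤ Fintype.card ι := by
    have h1 := hlow 1
    have h2 : HW K z 1 ≤ Fintype.card ι := by
      unfold HW
      rw [hspan1]
      exact finrank_range_le_card z
    omega
  obtain ⟨n, hn⟩ : ∃ n, Fintype.card ι = n + 2 := ⟨Fintype.card ι - 2, by omega⟩
  let e : Fin (n + 2) ≃ ι := (Fintype.equivFinOfCardEq hn).symm
  have hrange : Set.range (fun i => z (e i)) = Set.range z := by
    ext w
    constructor
    · rintro ⟨i, rfl⟩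
      exact ⟨e i, rfl⟩
    · rintro ⟨i, rfl⟩
      exact ⟨e.symm i, by simp⟩
  have hinf : Infinite (K ⧸ (⊥ : Ideal K)) :=
    Infinite.of_injective (Ideal.Quotient.mk (⊥ : Ideal K)) (RingHom.injective _)
  obtain ⟨u, lam, m, hu, hlam, ⟨j₀, hj₀⟩, hm⟩ := hNN K Ω ⊥ Ideal.isPrime_bot hinf s n
    (fun i => z (e i)) hs1 (by
      intro Z hZ
      rw [hrange] at hZ
      obtain ⟨g, hg, hg0, hgZ⟩ := three z hs Z hZ
      obtain ⟨t, ht⟩ := ne_zero_iff.1 hg0
      exact ⟨g, hg, ⟨t, fun h => ht h⟩, hgZ⟩)
  have hlam0 : lam ≠ 0 := fun h => hlam h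
  have hint : ∀ a ∈ Algebra.adjoin K (Set.range z),
      (aeval u : MvPolynomial (Fin 2) K →ₐ[K] Ω).toRingHom.IsIntegralElem a := by
    intro a ha
    rw [← hrange] at ha
    obtain ⟨k, hk⟩ := hm a ha
    exact integral_of_nn hlam0 hj₀ hk
  choose U hU1 hU2 using fun i => exists_linear z (by have := hu i; rwa [hrange] at this)
  have hinj := indep hz hlow hU1 hU2 (fun i => hint _ (Algebra.subset_adjoin ⟨i, rfl⟩))
  -- the rings
  letI algB : Algebra (MvPolynomial (Fin 2) K) Ω :=
    (aeval u : MvPolynomial (Fin 2) K →ₐ[K] Ω).toRingHom.toAlgebra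
  let S := integralClosure (MvPolynomial (Fin 2) K) Ω
  have hjB : ∀ b, algebraMap S Ω (algebraMap (MvPolynomial (Fin 2) K) S b) = aeval u b :=
    fun b => rfl
  haveI tf : Module.IsTorsionFree (MvPolynomial (Fin 2) K) S := by
    refine Module.isTorsionFree_iff_algebraMap_injective.2 fun a b hab => hinj ?_
    rw [← hjB, ← hjB, hab]
  let M := AlgebraicClosure Ω'
  let v : Fin 2 → Ω' := fun i => aeval y (U i)
  let ψ : MvPolynomial (Fin 2) K →+* M :=
    (algebraMap Ω' M).comp (aeval v : MvPolynomial (Fin 2) K →ₐ[K] Ω').toRingHom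
  have hzS : ∀ i, z i ∈ S := fun i => hint _ (Algebra.subset_adjoin ⟨i, rfl⟩)
  obtain ⟨g, hg1, hg2⟩ := exists_spec (K := K) ψ (fun i : Fin (n + 2) => (⟨z (e i), hzS _⟩ : S))
    (fun i => algebraMap Ω' M (y (e i))) (by
      intro c
      set l : S := ∑ i : Fin (n + 2), algebraMap (MvPolynomial (Fin 2) K) S
        (algebraMap K (MvPolynomial (Fin 2) K) c) ^ (i : ℕ) * (⟨z (e i), hzS _⟩ : S) with hl
      set L : MvPolynomial ι K := ∑ i : Fin (n + 2), C (c ^ (i : ℕ)) * X (e i) with hLdef
      have hL : L.IsHomogeneous 1 := by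
        refine IsHomogeneous.sum _ _ _ fun i _ => ?_
        have := (isHomogeneous_C ι (c ^ (i : ℕ))).mul (isHomogeneous_X K (e i))
        rwa [zero_add] at this
      have hLz : aeval z L = algebraMap S Ω l := by
        rw [hLdef, hl, map_sum, map_sum]
        refine Finset.sum_congr rfl fun i _ => ?_
        rw [map_mul, map_mul, aeval_C, aeval_X, map_pow, map_pow, hjB, AlgHom.commutes]
        rfl
      obtain ⟨g, hg, hg0, hgZ⟩ := three z hs (Fin.cons (algebraMap S Ω l) u : Fin 3 → Ω) (by
        intro k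
        refine Fin.cases ?_ (fun j => ?_) k
        · rw [Fin.cons_zero, ← hLz, ← hspan1]
          exact ⟨L, hL, rfl⟩
        · rw [Fin.cons_succ, ← hU2, ← hspan1]
          exact ⟨U j, hU1 j, rfl⟩)
      obtain ⟨d, P, hd, hP, hPm, hPz⟩ := minpoly_form hz hU1 hU2 (algebraMap S Ω)
        Subtype.val_injective hjB l L hL hLz hg hg0 hgZ
      have h1 : ∀ (A : Type) [CommRing A] [Algebra K A] (x : ι → A) (Q : MvPolynomial (Fin 3) K),
          aeval x (aeval (Fin.cons L U : Fin 3 → MvPolynomial ι K) Q) =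
            aeval (Fin.cons (aeval x L) (fun i => aeval x (U i)) : Fin 3 → A) Q := by
        intro A _ _ x Q
        have h2 : (aeval x : MvPolynomial ι K →ₐ[K] A).comp
            (aeval (Fin.cons L U : Fin 3 → MvPolynomial ι K)) =
            aeval (Fin.cons (aeval x L) (fun i => aeval x (U i)) : Fin 3 → A) := by
          refine algHom_ext fun k => ?_
          refine Fin.cases ?_ (fun j => ?_) k
          · simp
          · simp
        exact DFunLike.congr_fun h2 Q
      have h2 : aeval y (aeval (Fin.cons L U : Fin 3 → MvPolynomial ι K) P) = 0 := by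
        refine pad hy0 hy hd ?_ ?_
        · have := hP.aeval (Fin.cons L U : Fin 3 → MvPolynomial ι K) (n := 1) (by
            intro k
            refine Fin.cases ?_ (fun j => ?_) k
            · exact hL
            · exact hU1 j)
          rwa [one_mul] at this
        · rw [h1, hLz]
          have h3 : (fun i => aeval z (U i)) = u := funext hU2
          rw [h3, hPz]
      rw [h1, aeval_cons, hPm] at h2
      have h3 := congrArg (algebraMap Ω' M) h2
      rw [Polynomial.hom_eval₂, map_zero] at h3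
      have h4 : algebraMap Ω' M (aeval y L) = ∑ i : Fin (n + 2),
          ψ (algebraMap K (MvPolynomial (Fin 2) K) c) ^ (i : ℕ) * algebraMap Ω' M (y (e i)) := by
        rw [hLdef, map_sum, map_sum]
        refine Finset.sum_congr rfl fun i _ => ?_
        rw [map_mul, map_mul, aeval_C, aeval_X, map_pow, map_pow]
        congr 2
        change _ = algebraMap Ω' M ((aeval v : MvPolynomial (Fin 2) K →ₐ[K] Ω')
          (algebraMap K (MvPolynomial (Fin 2) K) c))
        rw [AlgHom.commutes]
      rw [← h4]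
      exact h3)
  -- conclusion
  intro G hG
  let z' : ι → S := fun i => ⟨z i, hzS i⟩
  have hgz : ∀ i, g (z' i) = algebraMap Ω' M (y i) := by
    intro i
    have := hg2 (e.symm i)
    simpa using this
  let κ : K →+* S := (algebraMap (MvPolynomial (Fin 2) K) S).comp
    (algebraMap K (MvPolynomial (Fin 2) K))
  have h1 : eval₂ κ z' G = 0 := by
    have h2 : algebraMap S Ω (eval₂ κ z' G) = 0 := by
      rw [eval₂_comp_left]
      have h3 : (algebraMap S Ω).comp κ = algebraMap K Ω := by
        ext c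
        change aeval u (algebraMap K (MvPolynomial (Fin 2) K) c) = _
        rw [AlgHom.commutes]
      rw [h3]
      exact hG
    exact Subtype.val_injective h2
  have h2 := congrArg g h1
  rw [eval₂_comp_left, map_zero] at h2
  have h3 : g.comp κ = (algebraMap Ω' M).comp (algebraMap K Ω') := by
    ext c
    have h4 := RingHom.congr_fun hg1 (algebraMap K (MvPolynomial (Fin 2) K) c)
    change g (algebraMap (MvPolynomial (Fin 2) K) S (algebraMap K (MvPolynomial (Fin 2) K) c)) = _
    rw [← RingHom.comp_apply g, h4]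
    change algebraMap Ω' M ((aeval v : MvPolynomial (Fin 2) K →ₐ[K] Ω')
      (algebraMap K (MvPolynomial (Fin 2) K) c)) = _
    rw [AlgHom.commutes]
    rfl
  have h5 : g ∘ z' = algebraMap Ω' M ∘ y := funext hgz
  rw [h3, h5, ← eval₂_comp_left] at h2
  exact (map_eq_zero _).1 h2

end Pool.DynLehmer.SP
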