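import Pool.Agent.Lib.MP_2194ec_nt.PlA
import Pool.Agent.Lib.MP_2194ec_nt.SP.Iface

set_option autoImplicit false

/-!
# Module DEG (Theorem L in every dimension) (helper43)
-/

namespace Pool.DynLehmer.SP
open MvPolynomial NumberField Pool.DynLehmer Pool.DynLehmer.SB
open scoped Classical

namespace DegAux

variable {K N : Type} [Field K] [Field N] [Algebra K N] {ι : Type}

theorem aeval_galI (σ : N ≃ₐ[K] N) (P : ι → N) (f : MvPolynomial ι K) :
    aeval (gal σ P) f = σ (aeval P f) := by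
  have h : (aeval (gal σ P) : MvPolynomial ι K →ₐ[K] N) =
      (σ : N →ₐ[K] N).comp (aeval P) := by
    apply MvPolynomial.algHom_ext
    intro i
    simp [gal]
  rw [h]; rfl

end DegAux

open DegAux

/-- module DEG -/
theorem deg : DegStatement := by
  intro K N _ _ _ _ _ _ ι _ R hR
  have hne : ∀ σ : N ≃ₐ[K] N, gal (1 * σ) R ≠ 0 := fun σ => gal_ne _ hR
  obtain ⟨n, z, pre, hn1, hn, hpre, hz0, hzz, -⟩ := exists_rows
    (fin (⊤ : Subgroup (N ≃ₐ[K] N))) ⟨1, mem_fin.2 (Subgroup.one_mem _)⟩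
    (fun σ => gal (1 * σ) R) hne
  have hn' : n = idx (⊤ : Subgroup (N ≃ₐ[K] N)) R := by
    rw [hn, ← card_orbit (⊤ : Subgroup (N ≃ₐ[K] N)) R 1 hne]
  refine ⟨n, ?_⟩
  rw [← hn']
  refine (card_le_finrank (K := K) z (Pool.DynLehmer.exists_sep (δ := n) (by omega) z hz0
    hzz)).trans ?_
  have hle : (homogeneousSubmodule ι K n).map (evK (K := K) z) ≤
      (VW K R n).map (LinearMap.pi fun i : Fin n =>
        ((1 * pre i : N ≃ₐ[K] N) : N →ₐ[K] N).toLinearMap : N →ₗ[K] (Fin n → N)) := by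
    rintro x ⟨F, hF, rfl⟩
    refine ⟨aeval R F, ⟨F, hF, rfl⟩, ?_⟩
    funext i
    rw [evK_apply, (hpre i).2, aeval_galI]
    rfl
  have hfd : FiniteDimensional K (VW K R n) := inferInstance
  exact (Submodule.finrank_mono hle).trans (Submodule.finrank_map_le _ _)

end Pool.DynLehmer.SP
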