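import Mathlib
import Pool.Agent.Lib.MP_2194ec_nt.SP.Iface

set_option autoImplicit false

/-!
# The Dwork expansion of the iterates of a lift of the Frobenius map
-/

namespace Pool.DynLehmer.SP
namespace DworkAux

variable {A : Type} [CommRing A]

/-- one step: congruences improve under the power `q` -/
theorem pow_step {ϖ c x y : A} {q k : ℕ} (hq : (q : A) = ϖ * c)
    (h : ϖ ^ (k + 1) ∣ x - y) : ϖ ^ (k + 2) ∣ x ^ q - y ^ q := by
  have h1 : ϖ ∣ x - y := (dvd_pow_self ϖ (Nat.succ_ne_zero k)).trans h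
  have h2 : ϖ ∣ ∑ i ∈ Finset.range q, x ^ i * y ^ (q - 1 - i) := by
    rw [dvd_geom_sum₂_iff_of_dvd_sub h1, hq]
    exact (Dvd.intro _ rfl : ϖ ∣ ϖ * c).mul_right _
  rw [← (Commute.all x y).geom_sum₂_mul q, pow_succ' ϖ (k + 1)]
  exact mul_dvd_mul h2 h

/-- iterated version -/
theorem pow_iter {ϖ c x y : A} {q : ℕ} (hq : (q : A) = ϖ * c) (h : ϖ ∣ x - y) (j : ℕ) :
    ϖ ^ (j + 1) ∣ x ^ (q ^ j) - y ^ (q ^ j) := by
  induction j with
  | zero => simpa using h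
  | succ j ih =>
    have h1 := pow_step hq ih
    rwa [← pow_mul, ← pow_mul, ← pow_succ] at h1

/-- the coefficients of the expansion, by strong recursion -/
noncomputable def co (ϖ G : A) (q : ℕ) (φ : A →+* A) (n : ℕ) : A :=
  Nat.strongRecOn n fun n ih => Classical.epsilon fun b : A =>
    φ^[n] G = ∑ i : Fin n, ϖ ^ (i : ℕ) * ih i i.2 ^ (q ^ (n - i)) + ϖ ^ n * b

theorem co_eq (ϖ G : A) (q : ℕ) (φ : A →+* A) (n : ℕ) :
    co ϖ G q φ n = Classical.epsilon fun b : A =>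
      φ^[n] G = ∑ i : Fin n, ϖ ^ (i : ℕ) * co ϖ G q φ i ^ (q ^ (n - i)) + ϖ ^ n * b := by
  have h := Nat.strongRecOn_eq (motive := fun _ => A) (ind := fun n ih =>
    Classical.epsilon fun b : A =>
      φ^[n] G = ∑ i : Fin n, ϖ ^ (i : ℕ) * ih i i.2 ^ (q ^ (n - i)) + ϖ ^ n * b) n
  exact h

theorem expansion {ϖ c : A} {q : ℕ} {φ : A →+* A} (hq : (q : A) = ϖ * c) (hφ : φ ϖ = ϖ)
    (hF : ∀ G : A, ∃ H : A, φ G = G ^ q + ϖ * H) (G : A) (n : ℕ) :
    φ^[n] G = ∑ i ∈ Finset.range (n + 1), ϖ ^ i * co ϖ G q φ i ^ (q ^ (n - i)) := by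
  -- it is enough to have some remainder
  have key : ∀ n, (∃ b : A, φ^[n] G =
      ∑ i ∈ Finset.range n, ϖ ^ i * co ϖ G q φ i ^ (q ^ (n - i)) + ϖ ^ n * b) →
      φ^[n] G = ∑ i ∈ Finset.range (n + 1), ϖ ^ i * co ϖ G q φ i ^ (q ^ (n - i)) := by
    intro n hn
    have hn' : ∃ b : A, φ^[n] G =
        ∑ i : Fin n, ϖ ^ (i : ℕ) * co ϖ G q φ i ^ (q ^ (n - i)) + ϖ ^ n * b := by
      obtain ⟨b, hb⟩ := hn
      refine ⟨b, ?_⟩
      rw [hb, Fin.sum_univ_eq_sum_range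
        (fun i => ϖ ^ i * co ϖ G q φ i ^ (q ^ (n - i))) n]
    have h1 := Classical.epsilon_spec hn'
    rw [← co_eq, Fin.sum_univ_eq_sum_range
      (fun i => ϖ ^ i * co ϖ G q φ i ^ (q ^ (n - i))) n] at h1
    rw [Finset.sum_range_succ, Nat.sub_self, pow_zero, pow_one]
    exact h1
  induction n with
  | zero => exact key 0 ⟨G, by simp⟩
  | succ n ih =>
    apply key
    have h1 : ∀ i ∈ Finset.range (n + 1), ∃ b : A,
        φ (ϖ ^ i * co ϖ G q φ i ^ (q ^ (n - i))) =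
          ϖ ^ i * co ϖ G q φ i ^ (q ^ (n + 1 - i)) + ϖ ^ (n + 1) * b := by
      intro i hi
      have hin : i ≤ n := Nat.lt_succ_iff.1 (Finset.mem_range.1 hi)
      obtain ⟨H, hH⟩ := hF (co ϖ G q φ i)
      have h2 : ϖ ∣ φ (co ϖ G q φ i) - co ϖ G q φ i ^ q := ⟨H, by rw [hH]; ring⟩
      obtain ⟨b, hb⟩ := pow_iter hq h2 (n - i)
      refine ⟨b, ?_⟩
      rw [map_mul, map_pow, map_pow, hφ, sub_eq_iff_eq_add.1 hb, ← pow_mul, ← pow_succ',
        show n - i + 1 = n + 1 - i by omega, mul_add, ← mul_assoc, ← pow_add,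
        show i + (n + 1 - i) = n + 1 by omega]
      ring
    choose! b hb using h1
    refine ⟨∑ i ∈ Finset.range (n + 1), b i, ?_⟩
    rw [Function.iterate_succ_apply', ih, map_sum, Finset.sum_congr rfl hb,
      Finset.sum_add_distrib, Finset.mul_sum]

end DworkAux

/-- DWORK -/
theorem dwork : DworkStatement := by
  intro A _ ϖ c q φ _ hq hφ hF G
  exact ⟨DworkAux.co ϖ G q φ, DworkAux.expansion hq hφ hF G⟩

end Pool.DynLehmer.SP
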