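import Pool.Agent.Lib.MP_2194ec_nt.SB.Ded
import Pool.Agent.Lib.MP_2194ec_nt.SB.Energy3
import Pool.Agent.Lib.MP_2194ec_nt.SB.Rows
import Pool.Agent.Lib.MP_2194ec_nt.SP.Iface

set_option autoImplicit false

/-!
# Module ENEQ: from the local bounds at the places above `v` to heights
-/

namespace Pool.DynLehmer.SP
open MvPolynomial NumberField Pool.DynLehmer Pool.DynLehmer.SB Filter Topology
open scoped Classical

/-- ENEQ -/
theorem eneq : EneqStatement := by
  intro K _ _ p s ι _ _ _ v Φ hp hs hϖ hϖ0 F hF hz b hb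
  have hq2 : 2 ≤ p ^ s := hp.two_le.trans (Nat.le_self_pow (by omega) p)
  have hq2r : (2 : ℝ) ≤ ((p ^ s : ℕ) : ℝ) := by exact_mod_cast hq2
  obtain ⟨C, hC0, hC⟩ := height_morphism F (p ^ s) hF hz
  refine ⟨C, hC0, ?_⟩
  intro N _ _ _ _ m y J n g h₀ hy hn hlimy hloc
  have hfd : FiniteDimensional K N := Module.Finite.of_restrictScalars_finite ℚ K N
  have hKpos : (0 : ℝ) < Module.finrank ℚ K := by exact_mod_cast Module.finrank_pos
  have hNpos : (0 : ℝ) < Module.finrank ℚ N := by exact_mod_cast Module.finrank_pos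
  have hKNpos : (0 : ℝ) < Module.finrank K N := by exact_mod_cast Module.finrank_pos
  have htower : (Module.finrank ℚ K : ℝ) * Module.finrank K N = Module.finrank ℚ N := by
    exact_mod_cast Module.finrank_mul_finrank ℚ K N
  set Λ : ℝ := - Real.log (v (Φ.ϖ : K)) with hΛ
  set q : ℝ := ((p ^ s : ℕ) : ℝ) with hq
  have hq0 : 0 < q := by linarith
  -- heights on `N`
  set H : (ι → N) → ℝ := fun z => Height.logHeight z / (Module.finrank ℚ N : ℝ) with hH
  have hHact : ∀ z, |H (gAct F N z) - q * H z| ≤ C := by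
    intro z
    simp only [hH]
    have h5 : Height.logHeight (gAct F N z) / (Module.finrank ℚ N : ℝ) -
        q * (Height.logHeight z / Module.finrank ℚ N) =
        (Height.logHeight (gAct F N z) - q * Height.logHeight z) / Module.finrank ℚ N := by
      field_simp
    rw [h5, abs_div, abs_of_pos hNpos, div_le_iff₀ hNpos]
    exact hC N z
  obtain ⟨hh, hlim, -, hdiff, hmul, -⟩ := commuting_heights H (gAct F N) (gAct F N)
    (fun _ => rfl) hq2r hq2r hHact hHact
  have hmuln : ∀ (i : ℕ) z, hh ((gAct F N)^[i] z) = q ^ i * hh z := by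
    intro i z
    induction i with
    | zero => simp
    | succ i ih => rw [Function.iterate_succ_apply', hmul, ih, pow_succ]; ring
  have hhnn : ∀ z, 0 ≤ hh z := fun z =>
    ge_of_tendsto' (hlim z) fun i => div_nonneg (div_nonneg (Height.logHeight_nonneg _)
      (Nat.cast_nonneg _)) (pow_nonneg hq0.le _)
  have hhgal : ∀ (σ : N ≃ₐ[K] N) (P : ι → N), hh (gal σ P) = hh P := by
    intro σ P
    refine tendsto_nhds_unique (hlim (gal σ P)) ((hlim P).congr fun i => ?_)
    rw [gal_act F σ i P]
    simp only [hH]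
    rw [show Height.logHeight (gal σ ((gAct F N)^[i] P)) / (Module.finrank ℚ N : ℝ) =
      Height.logHeight ((gAct F N)^[i] P) / (Module.finrank ℚ N : ℝ) from
      logHeight_hom (σ : N →+* N) _]
  have hhy : ∀ l, hh (y l) ≤ h₀ := by
    intro l
    obtain ⟨h, h1, h2⟩ := hlimy l
    rwa [tendsto_nhds_unique (hlim (y l)) h1]
  -- the rows
  have hcard : Nat.card (N →ₐ[K] N) = Module.finrank K N := by
    rw [← Nat.card_congr (algEquivEquivAlgHom K N).toEquiv]
    exact IsGalois.card_aut_eq_finrank K N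
  obtain ⟨row0, μ, hμ, hdet0⟩ := rows ded K N N hcard ι F b (p ^ s) J hF (hb J) m y n hn
  set row : Fin n → Fin m × (N ≃ₐ[K] N) := fun i =>
    ((row0 i).1, (algEquivEquivAlgHom K N).symm (row0 i).2) with hrow
  have hdet : (Matrix.of fun i a =>
      aeval (gal (row i).2 (y (row i).1)) (gQ F J (μ a))).det ≠ 0 := by
    exact hdet0
  obtain ⟨S, e, hS, hsum⟩ := exists_above v N
  have hw : ∀ w ∈ S, Real.log (w (toN v N Φ.ϖ)) = - (e w * Λ) := by
    intro w hw
    change Real.log (w (algebraMap K N (Φ.ϖ : K))) = _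
    rw [(hS w hw).2, Real.log_pow, hΛ]
    ring
  have hw0 : ∀ w ∈ S, 0 < w (toN v N Φ.ϖ) := by
    intro w _
    refine FinitePlace.pos_iff.2 ?_
    change algebraMap K N (Φ.ϖ : K) ≠ 0
    rw [Ne, map_eq_zero]
    exact hϖ0
  have hen := SB.energy3 K N ι (p ^ s) F hF hz n J b μ hμ
    (fun i => gal (row i).2 (y (row i).1)) (fun i => gal_ne _ (hy _)) hdet S
    (fun w => w (toN v N Φ.ϖ)) g hw0 (fun w hwS => hloc w (e w) (hS w hwS) row μ hμ)
  -- left side
  have hleft : ∑ w ∈ S, (g : ℝ) * (- Real.log (w (toN v N Φ.ϖ))) =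
      Module.finrank ℚ N * ((g : ℝ) * (Λ / Module.finrank ℚ K)) := by
    have h1 : ∑ w ∈ S, (g : ℝ) * (- Real.log (w (toN v N Φ.ϖ))) =
        g * Λ * ∑ w ∈ S, (e w : ℝ) := by
      rw [Finset.mul_sum]
      refine Finset.sum_congr rfl fun w hwS => ?_
      rw [hw w hwS]
      ring
    have h2 : ∑ w ∈ S, (e w : ℝ) = Module.finrank K N := by exact_mod_cast hsum
    rw [h1, h2, ← htower]
    field_simp
  -- right side
  have hright : ∑ i : Fin n, ∑ j ∈ Finset.range (J + 1), (b : ℝ) *
      Height.logHeight ((gAct F N)^[j] (gal (row i).2 (y (row i).1))) +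
      Module.finrank ℚ N * Real.log (n.factorial) ≤
      Module.finrank ℚ N * (n * (2 * b * q ^ J * h₀ + b * C * ((J : ℝ) + 1) + Real.log n)) := by
    have h1 : ∀ i : Fin n, ∑ j ∈ Finset.range (J + 1), (b : ℝ) *
        Height.logHeight ((gAct F N)^[j] (gal (row i).2 (y (row i).1))) ≤
        Module.finrank ℚ N * (2 * b * q ^ J * h₀ + b * C * ((J : ℝ) + 1)) := by
      intro i
      have h00 : 0 ≤ h₀ := (hhnn _).trans (hhy (row i).1)
      have h2 : ∀ j ∈ Finset.range (J + 1), (b : ℝ) *
          Height.logHeight ((gAct F N)^[j] (gal (row i).2 (y (row i).1))) ≤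
          Module.finrank ℚ N * (b * (q ^ j * h₀ + C)) := by
        intro j _
        have h3 : Height.logHeight ((gAct F N)^[j] (gal (row i).2 (y (row i).1))) =
            Module.finrank ℚ N * H ((gAct F N)^[j] (gal (row i).2 (y (row i).1))) := by
          simp only [hH]
          field_simp
        have h4 : H ((gAct F N)^[j] (gal (row i).2 (y (row i).1))) ≤ q ^ j * h₀ + C := by
          have h5 := abs_le.1 (hdiff ((gAct F N)^[j] (gal (row i).2 (y (row i).1))))
          rw [hmuln, hhgal] at h5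
          have h6 : q ^ j * hh (y (row i).1) ≤ q ^ j * h₀ :=
            mul_le_mul_of_nonneg_left (hhy _) (by positivity)
          linarith [h5.2]
        rw [h3]
        calc (b : ℝ) * (Module.finrank ℚ N *
            H ((gAct F N)^[j] (gal (row i).2 (y (row i).1))))
            = Module.finrank ℚ N *
              (b * H ((gAct F N)^[j] (gal (row i).2 (y (row i).1)))) := by ring
          _ ≤ _ := by gcongr
      refine (Finset.sum_le_sum h2).trans ?_
      rw [← Finset.mul_sum, ← Finset.mul_sum, Finset.sum_add_distrib, ← Finset.sum_mul,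
        Finset.sum_const, Finset.card_range, nsmul_eq_mul]
      apply mul_le_mul_of_nonneg_left _ hNpos.le
      have h3 : (∑ j ∈ Finset.range (J + 1), q ^ j) ≤ 2 * q ^ J := sum_geom_le hq2r J
      push_cast
      calc (b : ℝ) * ((∑ j ∈ Finset.range (J + 1), q ^ j) * h₀ + ((J : ℝ) + 1) * C)
          ≤ b * ((2 * q ^ J) * h₀ + ((J : ℝ) + 1) * C) := by gcongr
        _ = _ := by ring
    have h2 : Real.log (n.factorial) ≤ n * Real.log n := EData.log_factorial_le n
    calc ∑ i : Fin n, ∑ j ∈ Finset.range (J + 1), (b : ℝ) *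
          Height.logHeight ((gAct F N)^[j] (gal (row i).2 (y (row i).1))) +
          Module.finrank ℚ N * Real.log (n.factorial)
        ≤ ∑ _i : Fin n, (Module.finrank ℚ N *
            (2 * b * q ^ J * h₀ + b * C * ((J : ℝ) + 1)) : ℝ) +
            Module.finrank ℚ N * (n * Real.log n) := by
          gcongr with i _
          exact h1 i
      _ = _ := by
          rw [Finset.sum_const, Finset.card_univ, Fintype.card_fin, nsmul_eq_mul]
          ring
  have hmain := hleft.symm.le.trans (hen.trans hright)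
  exact le_of_mul_le_mul_left hmain hNpos

end Pool.DynLehmer.SP
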