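import Mathlib
import Pool.Agent.Lib.MP_2194ec_nt.SP.Iface
import Pool.Agent.Lib.MP_2194ec_nt.SepE
import Pool.Agent.Lib.MP_2194ec_nt.SepF
import Pool.Agent.Lib.MP_2194ec_nt.SepG0

set_option autoImplicit false

/-!
# Theorem L in every dimension: assembly
-/

namespace Pool.DynLehmer.SP
open MvPolynomial NumberField IsDedekindDomain Filter Topology Pool.DynLehmer Pool.DynLehmer.SB
open scoped Classical Pointwise LinearAlgebra.Projectivization

section defs

variable {K : Type} [Field K] {ι : Type}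

theorem OnCurve.of_iter {F : ι → MvPolynomial ι K} {N : Type} [Field N]
    [Algebra K N] {P : ι → N} {l : ℕ} (h : OnCurve F ((gAct F N)^[l] P)) :
    OnCurve F P := by
  obtain ⟨r, k, c, Q, hk, hQ, hh, hL, hH, hg0, hgk⟩ := h
  refine ⟨r + l, k, c, Q, hk, hQ, hh, hL, hH, ?_, hgk⟩
  intro G hG
  rw [Function.iterate_add_apply]
  exact hg0 G hG

end defs

theorem asm_lt_mul (D g : ℕ) : D < (D / (g + 1) + 1) * (g + 1) := by
  have := Nat.lt_div_mul_add (a := D) (b := g + 1) (by omega)
  rw [add_mul, one_mul]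
  exact this

theorem asm_three_mul {w g u E : ℝ} (h1 : w < (g + 1) * u + 1) (hg : g ≤ E) (hE : 1 ≤ E)
    (hu : 1 ≤ u) : w ≤ 3 * u * E := by
  have a1 : (g + 1) * u ≤ (E + E) * u :=
    mul_le_mul_of_nonneg_right (by linarith) (by linarith)
  have a2 : 1 * 1 ≤ u * E := mul_le_mul hu hE zero_le_one (by linarith)
  linarith

theorem asm_mul_four {a b x : ℝ} (h : 4 * a ≤ b) (hx : 0 ≤ x) : a * x * 4 ≤ x * b := by
  have := mul_le_mul_of_nonneg_left h hx
  linarith

section main

variable {K : Type} [Field K] [NumberField K] {p s : ℕ} {ι : Type} [Fintype ι] [DecidableEq ι]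

/-- **Assembly.** -/
theorem space_core (hNs : NsStatement) (hCrvn : CrvnStatement) [Nonempty ι]
    (hι : 2 ≤ Fintype.card ι) (hp : p.Prime) (hs : 1 ≤ s) (v : FinitePlace K)
    (Φ : GF (OW v) p s ι) (hϖ : v (Φ.ϖ : K) < 1) (hϖ0 : (Φ.ϖ : K) ≠ 0)
    (hunif : ∀ a : K, v a < 1 → v a ≤ v (Φ.ϖ : K))
    (F : ι → MvPolynomial ι K) (hF : ∀ i, (F i).IsHomogeneous (p ^ s))
    (hz : ∀ z : ι → AlgebraicClosure K, (∀ i, aeval z (F i) = 0) → z = 0)
    (hΦF : ∀ i, map (OW v).subtype (Φ.F i) = F i) :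
    ∃ c : ℝ, 0 < c ∧ ∀ (N : Type) [Field N] [NumberField N] [Algebra K N] [IsGalois K N]
      (P : ι → N), P ≠ 0 →
      (¬ ∃ m n : ℕ, m ≠ n ∧ ∃ c : N, c ≠ 0 ∧ (gAct F N)^[n] P = c • (gAct F N)^[m] P) →
      ∃ h : ℝ, Tendsto (fun n : ℕ => Height.logHeight ((gAct F N)^[n] P) /
        (Module.finrank ℚ N : ℝ) / ((p ^ s : ℕ) : ℝ) ^ n) atTop (𝓝 h) ∧
        (c ≤ (idx (⊤ : Subgroup (N ≃ₐ[K] N)) P : ℝ) * h ∨ OnCurve F P) := by
  have hq2 : 2 ≤ p ^ s := hp.two_le.trans (Nat.le_self_pow (by omega) p)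
  have hq2r : (2 : ℝ) ≤ ((p ^ s : ℕ) : ℝ) := by exact_mod_cast hq2
  obtain ⟨A, B, cb, hA, hB, hcb, hcore⟩ := sep_core hι hp hs v Φ hϖ hϖ0 hunif F hF hz hΦF
  obtain ⟨A', B', hA', hB', hnear⟩ := near_core hι hp hs v Φ hϖ hϖ0 hunif F hF hz hΦF
  obtain ⟨C1, C2, hcurve⟩ := hCrvn K p s ι v Φ hι hp hs hϖ hϖ0 hunif F hF hz hΦF
  set q : ℝ := ((p ^ s : ℕ) : ℝ) with hq
  have hq0 : 0 < q := by linarith
  set n1 : ℕ := Fintype.card ι + 1 with hn1
  set θ : ℝ := ((Fintype.card ι - 1 : ℕ) : ℝ) / (((Fintype.card ι - 1 : ℕ) : ℝ) + 1) with hθ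
  have hθ0 : 0 ≤ θ := by rw [hθ]; positivity
  have hθ1 : θ < 1 := by
    rw [hθ, div_lt_one (by positivity)]
    linarith
  -- the parameters
  set K0 : ℕ := 4 * (C1 + C2 + 1) with hK0
  have hK01 : 4 ≤ K0 := by omega
  have hK0pos : (0 : ℝ) < K0 := by
    have : 0 < K0 := by omega
    exact_mod_cast this
  have hlogq : 0 ≤ Real.log q := Real.log_nonneg (by linarith)
  have hcbr : (1 : ℝ) ≤ cb := by exact_mod_cast hcb
  have hlogcb : 0 ≤ Real.log cb := Real.log_nonneg hcbr
  -- growth estimates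
  obtain ⟨c1, hc1, hg1⟩ := growth_le (a := 1 / (K0 : ℝ)) (B := B) (θ := θ) (by positivity)
    hB.le hθ0 hθ1 n1
  obtain ⟨c2, hc2, hg2⟩ := growth_le (a := 1 / 4) (B := Real.log q * B) (θ := θ) (by norm_num)
    (by positivity) hθ0 hθ1 (n1 + C1)
  obtain ⟨c3, hc3, hg3⟩ := growth_le (a := 1 / 4) (B := Real.log cb * B) (θ := θ) (by norm_num)
    (by positivity) hθ0 hθ1 (C2 + 1)
  -- threshold
  set xs : ℝ := ((C2 : ℝ) * 3 ^ C2) / c3 with hxs
  have hxs0 : 0 ≤ xs := by positivity
  set c4 : ℝ := A' * Real.exp (-(B' * (1 + xs ^ θ))) / (A * (1 + xs) ^ n1) with hc4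
  have hc40 : 0 < c4 := by positivity
  refine ⟨min (c1 / (2 * A)) (min (c2 / (A * ((C1 + 1) * 3 ^ C1))) c4), by positivity, ?_⟩
  intro N _ _ _ _ P hP hwand
  obtain ⟨hcbP, hcoreP⟩ := hcore N P hP
  obtain ⟨h, hlim, hpos, m, hm1, hm2⟩ := hcoreP hwand
  refine ⟨h, hlim, ?_⟩
  have hPl : ∀ l, (gAct F N)^[l] P ≠ 0 := fun l => gAct_iter_ne F hF hz l P hP
  have hfd : FiniteDimensional K N := Module.Finite.of_restrictScalars_finite ℚ K N
  set D : ℝ := (idx (⊤ : Subgroup (N ≃ₐ[K] N)) P : ℝ) with hD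
  set Dm := idx (⊤ : Subgroup (N ≃ₐ[K] N)) ((gAct F N)^[m] P) with hDm
  have hDm1 : 1 ≤ Dm := idx_pos _ _
  have hDm1r : (1 : ℝ) ≤ Dm := by exact_mod_cast hDm1
  set x : ℝ := Real.log Dm with hx
  have hx0 : 0 ≤ x := Real.log_nonneg hDm1r
  have hDmx : (Dm : ℝ) = Real.exp x := by rw [hx, Real.exp_log (by linarith)]
  have h1x : 0 < 1 + x := by linarith
  have h1x' : 1 ≤ 1 + x := by linarith
  set y : ℝ := (1 + x) ^ θ with hy
  have hy0 : 0 < y := by positivity
  have hDpos : 0 < D := by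
    have : 1 ≤ idx (⊤ : Subgroup (N ≃ₐ[K] N)) P := idx_pos _ _
    have h1 : (1 : ℝ) ≤ D := by rw [hD]; exact_mod_cast this
    linarith
  -- a lower bound for `Dm q^m h` gives one for `D h`
  have hkey : ∀ a : ℝ, a * (A * (1 + x) ^ n1) ≤ q ^ m * h * Dm → a ≤ D * h := by
    intro a ha
    have h1 : q ^ m * h * Dm ≤ A * (1 + x) ^ n1 * D * h := by
      calc q ^ m * h * Dm = (q ^ m * Dm) * h := by ring
        _ ≤ (A * (1 + x) ^ n1 * D) * h := by gcongr
    have h2 : (A * (1 + x) ^ n1) * a ≤ (A * (1 + x) ^ n1) * (D * h) := by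
      calc (A * (1 + x) ^ n1) * a = a * (A * (1 + x) ^ n1) := by ring
        _ ≤ _ := ha.trans h1
        _ = _ := by ring
    exact le_of_mul_le_mul_left h2 (by positivity)
  set γ : ℕ := ⌊Real.exp (x / K0)⌋₊ with hγ
  have hγle : (γ : ℝ) ≤ Real.exp (x / K0) := Nat.floor_le (Real.exp_nonneg _)
  have hγlt : Real.exp (x / K0) < γ + 1 := Nat.lt_floor_add_one _
  have hexp1 : 1 ≤ Real.exp (x / K0) := Real.one_le_exp (by positivity)
  set δ : ℕ := Dm / (γ + 1) + 1 with hδ
  have hδ1 : 1 ≤ δ := Nat.le_add_left 1 _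
  have hδ5 : δ ≤ 5 * Dm := by
    have h1 : Dm / (γ + 1) ≤ Dm := Nat.div_le_self _ _
    omega
  have hδlow : Dm < δ * (γ + 1) := by
    rw [hδ]
    exact asm_lt_mul Dm γ
  by_cases hall : ∀ l : ℕ, m ≤ l → (l : ℝ) ≤ m + B * y → OrbSep K δ ((gAct F N)^[l] P)
  · -- all levels are separated
    left
    refine le_trans (min_le_left _ _) ?_
    have h1 := hm2 δ hδ1 hδ5 hall
    have hδr : (δ : ℝ) ≤ 2 * Real.exp (x - x / K0) := by
      have e1 : ((Dm / (γ + 1) : ℕ) : ℝ) ≤ Real.exp (x - x / K0) := by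
        have h2 : ((Dm / (γ + 1) : ℕ) : ℝ) ≤ (Dm : ℝ) / ((γ + 1 : ℕ) : ℝ) := Nat.cast_div_le
        refine h2.trans ?_
        rw [Real.exp_sub, ← hDmx]
        push_cast
        exact div_le_div_of_nonneg_left (by linarith) (Real.exp_pos _) hγlt.le
      have e3 : (1 : ℝ) ≤ Real.exp (x - x / K0) := by
        apply Real.one_le_exp
        have h3 : x / K0 ≤ x / 1 := by
          apply div_le_div_of_nonneg_left hx0 (by norm_num)
          have : 1 ≤ K0 := by omega
          exact_mod_cast this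
        rw [div_one] at h3
        linarith
      rw [hδ]
      push_cast
      linarith
    apply hkey
    have h2 : c1 * ((1 + x) ^ n1 * Real.exp (B * y)) ≤ Real.exp (x / K0) := by
      have := hg1 x hx0
      rwa [one_div, inv_mul_eq_div] at this
    have h3 : 1 ≤ 2 * Real.exp (x - x / K0) * Real.exp (B * y) * (q ^ m * h) := by
      refine h1.trans ?_
      have : 0 ≤ q ^ m * h := by positivity
      gcongr
    have h4 : Real.exp (x - x / K0) * Real.exp (x / K0) = Dm := by
      rw [← Real.exp_add, hDmx]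
      congr 1
      ring
    calc c1 / (2 * A) * (A * (1 + x) ^ n1) = c1 * (1 + x) ^ n1 / 2 * 1 := by field_simp
      _ ≤ c1 * (1 + x) ^ n1 / 2 * (2 * Real.exp (x - x / K0) * Real.exp (B * y) *
          (q ^ m * h)) := by gcongr
      _ = (c1 * ((1 + x) ^ n1 * Real.exp (B * y))) * Real.exp (x - x / K0) * (q ^ m * h) := by
          ring
      _ ≤ Real.exp (x / K0) * Real.exp (x - x / K0) * (q ^ m * h) := by gcongr
      _ = q ^ m * h * Dm := by rw [← h4]; ring
  · -- some level is not separated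
    push Not at hall
    obtain ⟨l, hl1, hl2, hnsep⟩ := hall
    obtain ⟨j, hj⟩ : ∃ j, l = j + m := ⟨l - m, by omega⟩
    have hjr : (j : ℝ) ≤ B * y := by
      rw [hj] at hl2
      push_cast at hl2
      linarith
    by_cases hxx : x < xs
    · -- bounded degree
      left
      refine le_trans (min_le_right _ _) (le_trans (min_le_right _ _) ?_)
      obtain ⟨h', hlim', hle'⟩ := hnear N ((gAct F N)^[m] P) (hPl m) (wand_iter F hwand m)
      have hh' : h' = q ^ m * h := tendsto_nhds_unique hlim' (lim_iter F hq0 hlim m)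
      rw [hh', ← hDm, ← hx] at hle'
      apply hkey
      have h2 : A' * Real.exp (-(B' * (1 + xs ^ θ))) ≤ q ^ m * h * Dm := by
        have h3 : A' * Real.exp (-(B' * (1 + xs ^ θ))) ≤ A' * Real.exp (-(B' * (1 + x ^ θ))) := by
          have h4 : x ^ θ ≤ xs ^ θ := Real.rpow_le_rpow hx0 hxx.le hθ0
          have h5 : -(B' * (1 + xs ^ θ)) ≤ -(B' * (1 + x ^ θ)) := by
            have : B' * (1 + x ^ θ) ≤ B' * (1 + xs ^ θ) := by gcongr
            linarith
          have h6 := Real.exp_le_exp.2 h5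
          gcongr
        refine h3.trans ?_
        have h4 : A' / (Dm : ℝ) * Real.exp (-(B' * (1 + x ^ θ))) * Dm ≤ q ^ m * h * Dm := by
          gcongr
        refine le_trans (le_of_eq ?_) h4
        have : (Dm : ℝ) ≠ 0 := by linarith
        field_simp
      refine le_trans ?_ h2
      rw [hc4]
      have h3 : (1 + x) ^ n1 ≤ (1 + xs) ^ n1 := by gcongr
      calc A' * Real.exp (-(B' * (1 + xs ^ θ))) / (A * (1 + xs) ^ n1) * (A * (1 + x) ^ n1)
          ≤ A' * Real.exp (-(B' * (1 + xs ^ θ))) / (A * (1 + xs) ^ n1) *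
            (A * (1 + xs) ^ n1) := by
            gcongr
        _ = _ := by field_simp
    · push Not at hxx
      -- the Hilbert function of the level
      set w : ℕ := ⌈((γ : ℝ) + 1) * (1 + x)⌉₊ with hw
      have hwge : ((γ : ℝ) + 1) * (1 + x) ≤ w := Nat.le_ceil _
      have hw1 : 1 ≤ w := by
        rw [hw, Nat.one_le_ceil_iff]
        positivity
      have hwle : (w : ℝ) ≤ 3 * (1 + x) * Real.exp (x / K0) := by
        have h1 : (w : ℝ) < ((γ : ℝ) + 1) * (1 + x) + 1 := Nat.ceil_lt_add_one (by positivity)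
        exact asm_three_mul h1 hγle hexp1 h1x'
      have hDl : idx (⊤ : Subgroup (N ≃ₐ[K] N)) ((gAct F N)^[l] P) ≤ Dm := by
        rw [hj, Function.iterate_add_apply]
        exact idx_mono _ (stab_act F hF j _)
      have hDlpos : 1 ≤ idx (⊤ : Subgroup (N ≃ₐ[K] N)) ((gAct F N)^[l] P) := idx_pos _ _
      have hHW : ∀ T, HW K ((gAct F N)^[l] P) T ≤ w * (T + 1) := by
        intro T
        have h1 := hNs K N ι ((gAct F N)^[l] P) (hPl l) δ hnsep T
        set Dl := idx (⊤ : Subgroup (N ≃ₐ[K] N)) ((gAct F N)^[l] P) with hDld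
        have hDlr : (Dl : ℝ) ≤ Dm := by exact_mod_cast hDl
        have hDl1 : (1 : ℝ) ≤ Dl := by exact_mod_cast hDlpos
        have hlog : Real.log Dl ≤ x := by
          rw [hx]
          exact Real.log_le_log (by linarith) hDlr
        have hlog0 : 0 ≤ Real.log Dl := Real.log_nonneg hDl1
        have h2 : (δ : ℝ) * (HW K ((gAct F N)^[l] P) T : ℝ) ≤ (T + 1) * (Dm * (1 + x)) := by
          refine h1.trans ?_
          gcongr
        have h3 : (Dm : ℝ) < δ * (γ + 1) := by exact_mod_cast hδlow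
        have hδ0 : (0 : ℝ) < δ := by exact_mod_cast hδ1
        have h4 : (δ : ℝ) * (HW K ((gAct F N)^[l] P) T : ℝ) ≤ δ * (w * (T + 1)) := by
          refine h2.trans ?_
          calc ((T : ℝ) + 1) * (Dm * (1 + x)) ≤ (T + 1) * ((δ * (γ + 1)) * (1 + x)) := by
                gcongr
            _ = δ * ((((γ : ℝ) + 1) * (1 + x)) * (T + 1)) := by ring
            _ ≤ δ * (w * (T + 1)) := by gcongr
        have h5 := le_of_mul_le_mul_left h4 hδ0
        exact_mod_cast h5
      -- powers of `w`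
      have hwpow : ∀ C : ℕ, C ≤ C1 + C2 + 1 → (w : ℝ) ^ C ≤
          3 ^ C * (1 + x) ^ C * Real.exp (x / 4) := by
        intro C hC
        calc (w : ℝ) ^ C ≤ (3 * (1 + x) * Real.exp (x / K0)) ^ C := by gcongr
          _ = 3 ^ C * (1 + x) ^ C * Real.exp (C * (x / K0)) := by
              rw [mul_pow, mul_pow, ← Real.exp_nat_mul]
          _ ≤ 3 ^ C * (1 + x) ^ C * Real.exp (x / 4) := by
              have h1 : (C : ℝ) * (x / K0) ≤ x / 4 := by
                rw [mul_div_assoc', div_le_div_iff₀ hK0pos (by norm_num)]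
                have h6 : (4 : ℝ) * C ≤ K0 := by
                  have : 4 * C ≤ K0 := by omega
                  exact_mod_cast this
                exact asm_mul_four h6 hx0
              have h2 := Real.exp_le_exp.2 h1
              gcongr
      -- the degree of the point is large with respect to the curve
      have hdeg : C2 * w ^ C2 ≤ idx (⊤ : Subgroup (N ≃ₐ[K] N)) ((gAct F N)^[l] P) := by
        have h2 : (Dm : ℝ) ≤ (cb : ℝ) ^ j *
            idx (⊤ : Subgroup (N ≃ₐ[K] N)) ((gAct F N)^[l] P) := by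
          have h3 := (hcore N ((gAct F N)^[m] P) (hPl m)).1 j
          rw [← Function.iterate_add_apply, ← hj, ← hDm] at h3
          exact_mod_cast h3
        have h3 : (cb : ℝ) ^ j ≤ Real.exp (Real.log cb * B * y) := by
          rw [← Real.exp_log (show (0 : ℝ) < (cb : ℝ) ^ j by positivity), Real.log_pow]
          apply Real.exp_le_exp.2
          calc (j : ℝ) * Real.log cb ≤ B * y * Real.log cb := by gcongr
            _ = _ := by ring
        have h4 : (C2 : ℝ) * (w : ℝ) ^ C2 ≤
            C2 * 3 ^ C2 * (1 + x) ^ C2 * Real.exp (x / 4) := by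
          have h5 := hwpow C2 (by omega)
          calc (C2 : ℝ) * (w : ℝ) ^ C2 ≤ C2 * (3 ^ C2 * (1 + x) ^ C2 * Real.exp (x / 4)) := by
                gcongr
            _ = _ := by ring
        have h5 : (C2 : ℝ) * 3 ^ C2 * (1 + x) ^ C2 * Real.exp (Real.log cb * B * y) ≤
            Real.exp (x / 4) := by
          have h6 := hg3 x hx0
          have h7 : (C2 : ℝ) * 3 ^ C2 ≤ c3 * (1 + x) := by
            have h8 : (C2 : ℝ) * 3 ^ C2 = c3 * xs := by rw [hxs]; field_simp
            rw [h8]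
            apply mul_le_mul_of_nonneg_left _ hc3.le
            linarith
          calc (C2 : ℝ) * 3 ^ C2 * (1 + x) ^ C2 * Real.exp (Real.log cb * B * y)
              ≤ c3 * (1 + x) * (1 + x) ^ C2 * Real.exp (Real.log cb * B * y) := by gcongr
            _ = c3 * ((1 + x) ^ (C2 + 1) * Real.exp (Real.log cb * B * y)) := by ring
            _ ≤ Real.exp (1 / 4 * x) := h6
            _ = _ := by congr 1; ring
        have h6 : (C2 : ℝ) * (w : ℝ) ^ C2 * Real.exp (Real.log cb * B * y) ≤ Dm := by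
          calc (C2 : ℝ) * (w : ℝ) ^ C2 * Real.exp (Real.log cb * B * y)
              ≤ C2 * 3 ^ C2 * (1 + x) ^ C2 * Real.exp (x / 4) *
                Real.exp (Real.log cb * B * y) := by gcongr
            _ = (C2 * 3 ^ C2 * (1 + x) ^ C2 * Real.exp (Real.log cb * B * y)) *
                Real.exp (x / 4) := by ring
            _ ≤ Real.exp (x / 4) * Real.exp (x / 4) := by gcongr
            _ ≤ Dm := by
                rw [← Real.exp_add, hDmx]
                apply Real.exp_le_exp.2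
                linarith
        have h7 : (C2 : ℝ) * (w : ℝ) ^ C2 * Real.exp (Real.log cb * B * y) ≤
            Real.exp (Real.log cb * B * y) *
              idx (⊤ : Subgroup (N ≃ₐ[K] N)) ((gAct F N)^[l] P) := by
          refine h6.trans (h2.trans ?_)
          gcongr
        have h8 : (C2 : ℝ) * (w : ℝ) ^ C2 ≤
            idx (⊤ : Subgroup (N ≃ₐ[K] N)) ((gAct F N)^[l] P) := by
          rw [mul_comm] at h7
          exact le_of_mul_le_mul_left h7 (Real.exp_pos _)
        exact_mod_cast h8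
      rcases hcurve N ((gAct F N)^[l] P) (hPl l) w hw1 hHW hdeg
        (q ^ l * h) (lim_iter F hq0 hlim l) with hgood | hbad
      · left
        refine le_trans (min_le_right _ _) (le_trans (min_le_left _ _) ?_)
        apply hkey
        have h2 := hwpow C1 (by omega)
        have h3 : q ^ l ≤ q ^ m * Real.exp (Real.log q * B * y) := by
          rw [hj, pow_add, mul_comm]
          apply mul_le_mul_of_nonneg_left _ (by positivity)
          rw [← Real.exp_log (show (0 : ℝ) < q ^ j by positivity), Real.log_pow]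
          apply Real.exp_le_exp.2
          calc (j : ℝ) * Real.log q ≤ B * y * Real.log q := by gcongr
            _ = _ := by ring
        have h4 : 1 ≤ (C1 + 1) * (3 ^ C1 * (1 + x) ^ C1 * Real.exp (x / 4)) *
            (q ^ m * Real.exp (Real.log q * B * y) * h) := by
          refine hgood.trans ?_
          gcongr
          linarith
        have h5 : c2 * ((1 + x) ^ (n1 + C1) * Real.exp (Real.log q * B * y)) ≤
            Real.exp (x / 4) := by
          have := hg2 x hx0
          convert this using 2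
          ring
        have h6 : Real.exp (x / 4) * Real.exp (x / 4) ≤ Dm := by
          rw [← Real.exp_add, hDmx]
          apply Real.exp_le_exp.2
          linarith
        calc c2 / (A * ((C1 + 1) * 3 ^ C1)) * (A * (1 + x) ^ n1)
            = c2 * (1 + x) ^ n1 / ((C1 + 1) * 3 ^ C1) * 1 := by field_simp
          _ ≤ c2 * (1 + x) ^ n1 / ((C1 + 1) * 3 ^ C1) *
              ((C1 + 1) * (3 ^ C1 * (1 + x) ^ C1 * Real.exp (x / 4)) *
                (q ^ m * Real.exp (Real.log q * B * y) * h)) := by gcongr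
          _ = (c2 * ((1 + x) ^ (n1 + C1) * Real.exp (Real.log q * B * y))) *
              Real.exp (x / 4) * (q ^ m * h) := by
              have e1 : ((C1 : ℝ) + 1) * 3 ^ C1 ≠ 0 := by positivity
              rw [pow_add (1 + x) n1 C1]
              generalize (1 + x) ^ n1 = t1
              generalize (1 + x) ^ C1 = t2
              generalize Real.exp (x / 4) = t3
              generalize Real.exp (Real.log q * B * y) = t4
              field_simp
          _ ≤ Real.exp (x / 4) * Real.exp (x / 4) * (q ^ m * h) := by gcongr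
          _ ≤ Dm * (q ^ m * h) := by gcongr
          _ = q ^ m * h * Dm := by ring
      · right
        exact hbad.of_iter

end main

end Pool.DynLehmer.SP
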