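import Mathlib
import Pool.Agent.Lib.MP_2194ec_nt.SP.Asm
import Pool.Agent.Lib.MP_2194ec_nt.SepH

set_option autoImplicit false

/-!
# Theorem L in every dimension: arbitrary extensions and commuting maps
-/

namespace Pool.DynLehmer.SP
open MvPolynomial NumberField IsDedekindDomain Filter Topology Pool.DynLehmer Pool.DynLehmer.SB
open scoped Classical Pointwise LinearAlgebra.Projectivization

section results

variable {K : Type} [Field K] [NumberField K] {ι : Type}

omit [NumberField K] in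
theorem OnCurve.of_map {F : ι → MvPolynomial ι K} {L N : Type} [Field L]
    [Algebra K L] [Field N] [Algebra K N] (φ : L →ₐ[K] N) {x : ι → L}
    (h : OnCurve F (fun t => φ (x t))) : OnCurve F x := by
  obtain ⟨r, k, c, Q, hk, hQ, hh, hL, hH, hg0, hgk⟩ := h
  refine ⟨r, k, c, Q, hk, hQ, hh, hL, hH, ?_, hgk⟩
  intro G hG
  have h0 := hg0 G hG
  rw [gAct_iter_map F φ] at h0
  apply φ.toRingHom.injective
  change φ _ = φ 0
  have h1 := DFunLike.congr_fun (comp_aeval ((gAct F L)^[r] x) φ) G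
  rw [map_zero]
  exact h1.trans h0

/-- **The Lehmer bound in every dimension, outside preperiodic curves.** -/
theorem space_lehmer (hNs : NsStatement) (hCrvn : CrvnStatement) [Fintype ι] [DecidableEq ι]
    [Nonempty ι] (hι : 2 ≤ Fintype.card ι) {d p s : ℕ} (hd : 2 ≤ d)
    (F : ι → MvPolynomial ι K) (hF : ∀ i, (F i).IsHomogeneous d)
    (hz : ∀ z : ι → AlgebraicClosure K, (∀ i, aeval z (F i) = 0) → z = 0)
    (hp : p.Prime) (hs : 1 ≤ s) (v : FinitePlace K)
    (P : ι → MvPolynomial ι K) (hP : ∀ i, (P i).IsHomogeneous (p ^ s))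
    (hv : v (p : K) < 1) (hint : ∀ i t, v (coeff t (P i)) ≤ 1)
    (hred : ∀ i t, (∀ j, t ≠ Finsupp.single j (p ^ s)) → v (coeff t (P i)) < 1)
    (hdet : v (Matrix.det (Matrix.of fun i j => coeff (Finsupp.single j (p ^ s)) (P i))) = 1)
    (hc : ∀ i j, bind₁ P (F i) * bind₁ F (P j) = bind₁ P (F j) * bind₁ F (P i)) :
    ∃ c : ℝ, 0 < c ∧ ∀ (L : Type) [Field L] [NumberField L] [Algebra K L],
      ∀ x : ι → L, x ≠ 0 →
      (¬ ∃ m n : ℕ, m ≠ n ∧ ∃ c : L, c ≠ 0 ∧ (gAct F L)^[n] x = c • (gAct F L)^[m] x) →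
      ∃ h : ℝ, Tendsto (fun n : ℕ => Height.logHeight ((gAct F L)^[n] x) /
        (Module.finrank ℚ L : ℝ) / (d : ℝ) ^ n) atTop (𝓝 h) ∧
        (c / (Module.finrank K L : ℝ) ≤ h ∨ OnCurve P x) := by
  obtain ⟨Φ, hΦP, hϖ0, hϖ, hunif⟩ := exists_GF v hp P hP hv hint hred hdet
  have hzP := gno_common_zero hp Φ hϖ P hΦP
  obtain ⟨c, hc0, hbound⟩ := space_core hNs hCrvn hι hp hs v Φ hϖ hϖ0 hunif P hP hzP hΦP
  refine ⟨c, hc0, ?_⟩
  intro L _ _ _ x hx hwand
  have hq2 : 2 ≤ p ^ s := hp.two_le.trans (Nat.le_self_pow (by omega) p)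
  obtain ⟨hwandP, htrans⟩ := commute_transfer hd hq2 F P hF hP hz hzP hc L x hx hwand
  -- the Galois closure
  let N := IntermediateField.normalClosure K L (AlgebraicClosure L)
  have hfdKL : FiniteDimensional K L := Module.Finite.of_restrictScalars_finite ℚ K L
  have hfd : FiniteDimensional K N := normalClosure.is_finiteDimensional K L (AlgebraicClosure L)
  have hNnf : NumberField N := NumberField.of_module_finite K N
  have hnormal : Normal K N := normalClosure.normal K L (AlgebraicClosure L)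
  have hgal : IsGalois K N := ⟨⟩
  have hφ0 := wand_lift P hP hzP (IsScalarTower.toAlgHom K L N) x hx hwandP
  have hP0 : (fun t => IsScalarTower.toAlgHom K L N (x t)) ≠ 0 := by
    intro h0
    apply hx
    funext t
    have := congrFun h0 t
    simpa using this
  obtain ⟨h, hlim, hle⟩ := hbound N (fun t => IsScalarTower.toAlgHom K L N (x t)) hP0 hφ0
  have hlim' : Tendsto (fun n : ℕ => Height.logHeight ((gAct P L)^[n] x) /
      (Module.finrank ℚ L : ℝ) / ((p ^ s : ℕ) : ℝ) ^ n) atTop (𝓝 h) := by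
    refine hlim.congr fun n => ?_
    rw [gAct_iter_map P (IsScalarTower.toAlgHom K L N) n x]
    rw [show Height.logHeight (fun i => (IsScalarTower.toAlgHom K L N) ((gAct P L)^[n] x i)) /
      (Module.finrank ℚ N : ℝ) = Height.logHeight ((gAct P L)^[n] x) / (Module.finrank ℚ L : ℝ)
      from logHeight_hom ((IsScalarTower.toAlgHom K L N : L →ₐ[K] N) : L →+* N) _]
  refine ⟨h, htrans h hlim', ?_⟩
  rcases hle with hle | hle
  · left
    have hfin : (0 : ℝ) < Module.finrank K L := by exact_mod_cast Module.finrank_pos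
    have h1 : idx (⊤ : Subgroup (N ≃ₐ[K] N)) (fun t => IsScalarTower.toAlgHom K L N (x t)) ≤
        Module.finrank K L := by
      rw [← fixGroup_top]
      exact idx_le_finrank (M := K) x hx
    have h2 : (idx (⊤ : Subgroup (N ≃ₐ[K] N))
        (fun t => IsScalarTower.toAlgHom K L N (x t)) : ℝ) ≤ Module.finrank K L := by
      exact_mod_cast h1
    have h3 : 0 < h := by
      have h4 : 0 < (idx (⊤ : Subgroup (N ≃ₐ[K] N))
          (fun t => IsScalarTower.toAlgHom K L N (x t)) : ℝ) * h := lt_of_lt_of_le hc0 hle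
      by_contra hcon
      push Not at hcon
      have h5 : (idx (⊤ : Subgroup (N ≃ₐ[K] N))
          (fun t => IsScalarTower.toAlgHom K L N (x t)) : ℝ) * h ≤ 0 :=
        mul_nonpos_of_nonneg_of_nonpos (Nat.cast_nonneg _) hcon
      linarith
    rw [div_le_iff₀ hfin]
    calc c ≤ _ := hle
      _ ≤ Module.finrank K L * h := by gcongr
      _ = _ := mul_comm _ _
  · right
    exact hle.of_map (IsScalarTower.toAlgHom K L N)

end results

end Pool.DynLehmer.SP
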