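import Pool.Agent.Lib.MP_2194ec_nt.SP.Iface
import Pool.Agent.Lib.MP_2194ec_nt.SmallA

set_option autoImplicit false

/-!
# Module IMG (Theorem L in every dimension) (helper43)

The image of a curve is a curve.
-/

namespace Pool.DynLehmer.SP
open MvPolynomial NumberField Pool.DynLehmer Pool.DynLehmer.SB
open scoped Classical

namespace ImgAux

section comp

variable {K : Type} [Field K] {ι : Type}

/-- substitution of forms commutes with homogeneous components -/
theorem hom_bind {q : ℕ} (hq : 1 ≤ q) {F : ι → MvPolynomial ι K}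
    (hF : ∀ i, (F i).IsHomogeneous q) (G : MvPolynomial ι K) (d : ℕ) :
    homogeneousComponent (q * d) (bind₁ F G) = bind₁ F (homogeneousComponent d G) := by
  have key : ∀ e, (bind₁ F (homogeneousComponent e G)).IsHomogeneous (q * e) := by
    intro e
    have h1 := (homogeneousComponent_isHomogeneous e G).aeval (S := K) F hF
    rwa [aeval_eq_bind₁] at h1
  conv_lhs => rw [← sum_homogeneousComponent G]
  rw [map_sum, map_sum]
  by_cases hd : d ∈ Finset.range (G.totalDegree + 1)
  · rw [Finset.sum_eq_single_of_mem d hd]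
    · rw [homogeneousComponent_of_mem ((mem_homogeneousSubmodule _ _).2 (key d)), if_pos rfl]
    · intro e _ he
      rw [homogeneousComponent_of_mem ((mem_homogeneousSubmodule _ _).2 (key e)), if_neg]
      intro h
      exact he (Nat.eq_of_mul_eq_mul_left (by omega) h).symm
  · have h0 : homogeneousComponent d G = 0 :=
      homogeneousComponent_eq_zero d G (by
        rw [Finset.mem_range] at hd
        omega)
    rw [h0, map_zero]
    refine Finset.sum_eq_zero fun e he => ?_
    rw [homogeneousComponent_of_mem ((mem_homogeneousSubmodule _ _).2 (key e)), if_neg]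
    intro h
    have := (Nat.eq_of_mul_eq_mul_left (by omega) h)
    rw [this] at hd
    exact hd he

variable {Ω : Type} [Field Ω] [Algebra K Ω]

theorem aeval_gAct (F : ι → MvPolynomial ι K) (x : ι → Ω) (G : MvPolynomial ι K) :
    aeval (gAct F Ω x) G = aeval x (bind₁ F G) := by
  rw [aeval_bind₁]
  rfl

theorem homRel_gAct {q : ℕ} (hq : 1 ≤ q) {F : ι → MvPolynomial ι K}
    (hF : ∀ i, (F i).IsHomogeneous q) {x : ι → Ω} (hx : HomRel K x) :
    HomRel K (gAct F Ω x) := by
  intro G hG d
  rw [aeval_gAct] at hG ⊢
  rw [← hom_bind hq hF]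
  exact hx _ hG _

end comp

section hilb

variable {K : Type} [Field K] {ι : Type} [Fintype ι] {Ω : Type} [Field Ω] [Algebra K Ω]

theorem fdVW (x : ι → Ω) (T : ℕ) : FiniteDimensional K (VW K x T) := by
  have h : FiniteDimensional K (homogeneousSubmodule ι K T) :=
    Module.Finite.iff_fg.2 (homogeneousSubmodule_fg ι K T)
  exact Module.Finite.map _ _

theorem hw_gAct_le {q : ℕ} {F : ι → MvPolynomial ι K}
    (hF : ∀ i, (F i).IsHomogeneous q) (x : ι → Ω) (T : ℕ) :
    HW K (gAct F Ω x) T ≤ HW K x (q * T) := by
  have hfd : FiniteDimensional K (VW K x (q * T)) := fdVW x _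
  refine Submodule.finrank_mono ?_
  rintro y ⟨G, hG, rfl⟩
  refine ⟨bind₁ F G, ?_, ?_⟩
  · have h1 := ((mem_homogeneousSubmodule _ _).1 hG).aeval (S := K) F hF
    rw [aeval_eq_bind₁] at h1
    exact (mem_homogeneousSubmodule _ _).2 h1
  · change aeval x (bind₁ F G) = aeval (gAct F Ω x) G
    rw [aeval_gAct]

/-- a point with a small value of the Hilbert function has a bounded Hilbert function -/
theorem bounded_of_le {y : ι → Ω} {T : ℕ} (hT : HW K y T ≤ T) :
    ∃ B, ∀ n, 1 ≤ n → HW K y n ≤ B := by
  by_cases hy : y = 0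
  · refine ⟨0, fun n hn => ?_⟩
    have h1 : VW K y n ≤ ⊥ := by
      rintro z ⟨G, hG, rfl⟩
      rw [Submodule.mem_bot]
      change aeval y G = 0
      have h2 := aeval_smul_hom ((mem_homogeneousSubmodule _ _).1 hG) (0 : Ω) y
      rw [zero_smul, zero_pow (by omega), zero_mul] at h2
      rw [hy]
      exact h2
    have h2 : VW K y n = ⊥ := le_bot_iff.1 h1
    rw [HW, h2, finrank_bot]
  · obtain ⟨k0, hk0⟩ := Function.ne_iff.1 hy
    have hk0' : y k0 ≠ 0 := hk0
    set r : ι → Ω := (y k0)⁻¹ • y with hr
    have hyr : y = y k0 • r := by rw [hr, smul_smul, mul_inv_cancel₀ hk0', one_smul]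
    have hfd : ∀ n, FiniteDimensional K (VW K y n) := fun n => fdVW y n
    have hint : ∀ a, IsIntegral K (r a) := by
      intro a
      have hmem : ∀ k : Fin (T + 1), y a ^ (k : ℕ) * y k0 ^ (T - k) ∈ VW K y T := by
        intro k
        refine ⟨X a ^ (k : ℕ) * X k0 ^ (T - k), ?_, ?_⟩
        · rw [SetLike.mem_coe, mem_homogeneousSubmodule]
          have h1 := (isHomogeneous_X_pow (R := K) a (k : ℕ)).mul
            (isHomogeneous_X_pow (R := K) k0 (T - k))
          convert h1 using 1
          have := k.2
          omega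
        · change aeval y (X a ^ (k : ℕ) * X k0 ^ (T - k)) = _
          rw [map_mul, map_pow, map_pow, aeval_X, aeval_X]
      have hdep : ¬ LinearIndependent K (fun k : Fin (T + 1) =>
          (⟨y a ^ (k : ℕ) * y k0 ^ (T - k), hmem k⟩ : VW K y T)) := by
        intro h
        have h1 := h.fintype_card_le_finrank
        rw [Fintype.card_fin] at h1
        have h2 : Module.finrank K (VW K y T) ≤ T := hT
        omega
      rw [Fintype.not_linearIndependent_iff] at hdep
      obtain ⟨g, hg, k1, hk1⟩ := hdep
      have hg' : ∑ k : Fin (T + 1), g k • (y a ^ (k : ℕ) * y k0 ^ (T - k)) = 0 := by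
        have := congrArg Subtype.val hg
        rw [AddSubmonoidClass.coe_finsetSum] at this
        exact this
      refine IsAlgebraic.isIntegral ⟨∑ k : Fin (T + 1), Polynomial.monomial (k : ℕ) (g k), ?_, ?_⟩
      · intro h0
        apply hk1
        have h1 := congrArg (fun p : Polynomial K => p.coeff (k1 : ℕ)) h0
        simp only [Polynomial.finsetSum_coeff, Polynomial.coeff_monomial,
          Polynomial.coeff_zero] at h1
        rw [Finset.sum_eq_single k1] at h1
        · simpa using h1
        · intro b _ hb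
          rw [if_neg]
          intro h2
          exact hb (Fin.ext h2)
        · intro h2
          exact absurd (Finset.mem_univ _) h2
      · rw [map_sum]
        have h1 : y k0 ^ T * ∑ k : Fin (T + 1), Polynomial.aeval (r a)
            (Polynomial.monomial (k : ℕ) (g k)) = 0 := by
          rw [← hg', Finset.mul_sum]
          refine Finset.sum_congr rfl fun k _ => ?_
          rw [Polynomial.aeval_monomial, Algebra.smul_def]
          have h2 : y k0 ^ T = y k0 ^ (k : ℕ) * y k0 ^ (T - k) := by
            rw [← pow_add]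
            congr 1
            have := k.2
            omega
          have h3 : y a = y k0 * r a := congrFun hyr a
          rw [h2, h3, mul_pow]
          ring
        exact (mul_eq_zero.1 h1).resolve_left (pow_ne_zero _ hk0')
    have hfg : (Subalgebra.toSubmodule (Algebra.adjoin K (Set.range r))).FG :=
      fg_adjoin_of_finite (Set.finite_range r) (by
        rintro _ ⟨a, rfl⟩
        exact hint a)
    have hfdE : FiniteDimensional K (Subalgebra.toSubmodule (Algebra.adjoin K (Set.range r))) :=
      Module.Finite.iff_fg.2 hfg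
    refine ⟨Module.finrank K (Subalgebra.toSubmodule (Algebra.adjoin K (Set.range r))),
      fun n _ => ?_⟩
    have hle : VW K y n ≤ (Subalgebra.toSubmodule (Algebra.adjoin K (Set.range r))).map
        (LinearMap.mulLeft K ((y k0) ^ n)) := by
      rintro z ⟨G, hG, rfl⟩
      refine ⟨aeval r G, ?_, ?_⟩
      · rw [SetLike.mem_coe, Subalgebra.mem_toSubmodule, Algebra.adjoin_range_eq_range_aeval]
        exact ⟨G, rfl⟩
      · rw [LinearMap.mulLeft_apply]
        change y k0 ^ n * aeval r G = aeval y G
        have h1 : aeval y G = aeval (y k0 • r) G := congrArg (fun z => aeval z G) hyr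
        rw [h1]
        exact (aeval_smul_hom ((mem_homogeneousSubmodule _ _).1 hG) (y k0) r).symm
    exact (Submodule.finrank_mono hle).trans (Submodule.finrank_map_le _ _)

/-- the Hilbert function of a point is bounded by that of its image -/
theorem hw_le_gAct {q b n : ℕ} {F : ι → MvPolynomial ι K}
    (h : ∀ G : MvPolynomial ι K, G.IsHomogeneous (b + q * n) →
      G ∈ Submodule.span K {Q : MvPolynomial ι K | ∃ (t : ι →₀ ℕ) (P : MvPolynomial ι K),
        t.degree = b ∧ P.IsHomogeneous n ∧ Q = monomial t 1 * bind₁ F P}) (x : ι → Ω) :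
    HW K x (b + q * n) ≤
      ((Finset.univ : Finset ι).finsuppAntidiag b).card * HW K (gAct F Ω x) n := by
  set A := (Finset.univ : Finset ι).finsuppAntidiag b with hA
  set y := gAct F Ω x with hy
  have hfd : FiniteDimensional K (VW K y n) := fdVW y n
  set Φ : (A → VW K y n) →ₗ[K] Ω := ∑ t : A,
    (LinearMap.mulLeft K (aeval x (monomial (t : ι →₀ ℕ) (1 : K)))).comp
      ((VW K y n).subtype.comp (LinearMap.proj t)) with hΦ
  have hmem : VW K x (b + q * n) ≤ LinearMap.range Φ := by
    rintro z ⟨G, hG, rfl⟩
    have h1 := h G ((mem_homogeneousSubmodule _ _).1 hG)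
    have h2 : Submodule.span K {Q : MvPolynomial ι K | ∃ (t : ι →₀ ℕ) (P : MvPolynomial ι K),
        t.degree = b ∧ P.IsHomogeneous n ∧ Q = monomial t 1 * bind₁ F P} ≤
        (LinearMap.range Φ).comap (aeval x : MvPolynomial ι K →ₐ[K] Ω).toLinearMap := by
      rw [Submodule.span_le]
      rintro Q ⟨t, P, ht, hP, rfl⟩
      have htA : t ∈ A := by
        rw [hA, Finset.mem_finsuppAntidiag]
        refine ⟨?_, Finset.subset_univ _⟩
        rw [← Finsupp.degree_eq_sum]
        exact ht
      have hPy : aeval y P ∈ VW K y n := ⟨P, (mem_homogeneousSubmodule _ _).2 hP, rfl⟩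
      refine ⟨Pi.single ⟨t, htA⟩ ⟨aeval y P, hPy⟩, ?_⟩
      change _ = aeval x (monomial t 1 * bind₁ F P)
      rw [map_mul, ← aeval_gAct, ← hy, hΦ, LinearMap.sum_apply,
        Finset.sum_eq_single (⟨t, htA⟩ : A)]
      · simp
      · intro s _ hs
        simp [Pi.single_eq_of_ne hs]
      · intro h3
        exact absurd (Finset.mem_univ _) h3
    exact h2 h1
  have h1 := Submodule.finrank_mono hmem
  refine h1.trans ((LinearMap.finrank_range_le Φ).trans ?_)
  rw [Module.finrank_pi_fintype, Finset.sum_const, Finset.card_univ, Fintype.card_coe,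
    smul_eq_mul]
  rfl

end hilb

/-- one step -/
theorem img_step {K : Type} [Field K] [NumberField K] {ι : Type} [Fintype ι]
    {q : ℕ} {F : ι → MvPolynomial ι K} (hq : 1 ≤ q) (hF : ∀ i, (F i).IsHomogeneous q)
    (hz : ∀ z : ι → AlgebraicClosure K, (∀ i, aeval z (F i) = 0) → z = 0)
    {Ω : Type} [Field Ω] [Algebra K Ω] {x : ι → Ω} {W : ℕ} (h : GenC K x W) :
    GenC K (gAct F Ω x) (q * W) where
  hom := homRel_gAct hq hF h.hom
  low := by
    intro T
    by_contra hcon
    obtain ⟨B, hB⟩ := bounded_of_le (K := K) (y := gAct F Ω x) (T := T) (by omega)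
    obtain ⟨b, hb1, hb⟩ := span_step F q hF hz
    set C := ((Finset.univ : Finset ι).finsuppAntidiag b).card with hC
    have h1 := hw_le_gAct (hb (C * B + 1)) x
    rw [← hC] at h1
    have h2 := h.low (b + q * (C * B + 1))
    have h3 := hB (C * B + 1) (by omega)
    have h4 : C * HW K (gAct F Ω x) (C * B + 1) ≤ C * B := Nat.mul_le_mul_left _ h3
    have h5 : C * B + 1 ≤ q * (C * B + 1) := Nat.le_mul_of_pos_left _ (by omega)
    omega
  up := by
    intro T
    refine (hw_gAct_le hF x T).trans ((h.up (q * T)).trans ?_)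
    have h1 : q * T + 1 ≤ q * (T + 1) := by
      rw [Nat.mul_add]
      omega
    calc W * (q * T + 1) ≤ W * (q * (T + 1)) := Nat.mul_le_mul_left _ h1
      _ = q * W * (T + 1) := by ring

end ImgAux

open ImgAux

/-- module IMG -/
theorem img : ImgStatement := by
  intro K _ _ ι _ _ q F hq hF hz Ω _ _ x W h j
  induction j with
  | zero => simpa using h
  | succ j ih =>
    rw [Function.iterate_succ_apply', pow_succ']
    have := img_step hq hF hz ih
    rwa [← mul_assoc] at this

end Pool.DynLehmer.SP
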