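import Pool.Agent.Lib.MP_2194ec_nt.SP.Iface
import Pool.Agent.Lib.MP_2194ec_nt.SB.Mono
import Pool.Agent.Lib.MP_2194ec_nt.SB.Doub

set_option autoImplicit false

/-!
# Module JETK
-/

namespace Pool.DynLehmer.SP.JetkAux
open MvPolynomial Pool.DynLehmer Pool.DynLehmer.SB Pool.DynLehmer.SB.Doub
open scoped Classical

section basic

variable {k A : Type} [Field k] [CommRing A] [Algebra k A] {ι : Type}

theorem vw_mul {y : ι → A} {m n : ℕ} {a b : A} (ha : a ∈ VW k y m) (hb : b ∈ VW k y n) :
    a * b ∈ VW k y (m + n) := by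
  obtain ⟨f, hf, rfl⟩ := ha
  obtain ⟨g, hg, rfl⟩ := hb
  refine ⟨f * g, ?_, by simp⟩
  exact (mem_homogeneousSubmodule _ _).2
    (((mem_homogeneousSubmodule _ _).1 hf).mul ((mem_homogeneousSubmodule _ _).1 hg))

theorem vw_one (y : ι → A) : (1 : A) ∈ VW k y 0 :=
  ⟨1, (mem_homogeneousSubmodule _ _).2 (isHomogeneous_one ι k), by simp⟩

theorem vw_gen (y : ι → A) (i : ι) : y i ∈ VW k y 1 :=
  ⟨X i, (mem_homogeneousSubmodule _ _).2 (isHomogeneous_X k i), by simp⟩

/-- induction along the generators -/
theorem vw_induct (y : ι → A) (W : ℕ → Submodule k A) (h0 : (1 : A) ∈ W 0)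
    (hs : ∀ T i, ∀ a ∈ W T, y i * a ∈ W (T + 1)) (T : ℕ) : VW k y T ≤ W T := by
  have key : ∀ (T : ℕ) (d : ι →₀ ℕ), d.degree = T → aeval y (monomial d (1 : k)) ∈ W T := by
    intro T
    induction T with
    | zero =>
      intro d hd
      have : d = 0 := by
        rw [← Finsupp.degree_eq_zero_iff]; exact hd
      subst this
      simpa using h0
    | succ T ih =>
      intro d hd
      have hne : d ≠ 0 := by
        rintro rfl
        simp at hd
      obtain ⟨i, hi⟩ := Finsupp.ne_iff.1 hne
      have hle : Finsupp.single i 1 ≤ d := by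
        rw [Finsupp.single_le_iff]
        exact Nat.one_le_iff_ne_zero.2 hi
      have hd' : d = Finsupp.single i 1 + (d - Finsupp.single i 1) :=
        (add_tsub_cancel_of_le hle).symm
      have hdeg : (d - Finsupp.single i 1).degree = T := by
        have := congrArg Finsupp.degree hd'
        rw [map_add, hd, Finsupp.degree_single] at this
        omega
      have h1 : monomial d (1 : k) = X i * monomial (d - Finsupp.single i 1) 1 := by
        conv_lhs => rw [hd']
        rw [X, monomial_mul, one_mul]
      rw [h1, map_mul, aeval_X]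
      exact hs T i _ (ih _ hdeg)
  rintro _ ⟨f, hf, rfl⟩
  have hf' := (mem_homogeneousSubmodule _ _).1 hf
  rw [f.as_sum]
  rw [AlgHom.toLinearMap_apply, map_sum]
  refine Submodule.sum_mem _ fun d hd => ?_
  have h2 : monomial d (coeff d f) = (coeff d f) • monomial d (1 : k) := by
    rw [smul_monomial, smul_eq_mul, mul_one]
  rw [h2, map_smul]
  refine Submodule.smul_mem _ _ (key T d ?_)
  by_contra hne
  exact (mem_support_iff.1 hd) (hf'.coeff_eq_zero hne)

end basic

section step

variable {k A : Type} [Field k] [CommRing A] [Algebra k A] {n : ℕ}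

/-- forms in `z` and the `y`, of degree less than `T` in `z` -/
def RS (k : Type) [Field k] [Algebra k A] (y : Fin n → A) (z : A) (T : ℕ) : Submodule k A :=
  Submodule.span k {u | ∃ i e : ℕ, i < T ∧ i + e = T ∧ ∃ m ∈ VW k y e, u = z ^ i * m}

theorem rs_mul_z {y : Fin n → A} {z : A} {T : ℕ} {u : A} (hu : u ∈ RS k y z T) (j : ℕ) :
    z ^ j * u ∈ RS k y z (T + j) := by
  induction hu using Submodule.span_induction with
  | mem u hu =>
    obtain ⟨i, e, hi, hie, m, hm, rfl⟩ := hu
    exact Submodule.subset_span ⟨j + i, e, by omega, by omega, m, hm, by ring⟩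
  | zero => simp
  | add a b _ _ ha hb => rw [mul_add]; exact Submodule.add_mem _ ha hb
  | smul c a _ ha => rw [mul_smul_comm]; exact Submodule.smul_mem _ _ ha

theorem rs_mul_y {y : Fin n → A} {z : A} {T : ℕ} {u : A} (hu : u ∈ RS k y z T) {a : A}
    (ha : a ∈ VW k y 1) : a * u ∈ RS k y z (T + 1) := by
  induction hu using Submodule.span_induction with
  | mem u hu =>
    obtain ⟨i, e, hi, hie, m, hm, rfl⟩ := hu
    refine Submodule.subset_span ⟨i, 1 + e, by omega, by omega, a * m, vw_mul ha hm, by ring⟩
  | zero => simp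
  | add a b _ _ ha hb => rw [mul_add]; exact Submodule.add_mem _ ha hb
  | smul c a _ ha => rw [mul_smul_comm]; exact Submodule.smul_mem _ _ ha

/-- the leading coefficient in `z` of the value of a form -/
theorem lead {y : Fin n → A} {z : A} {κ : Type} (l : κ → A) (c : κ → k)
    (hl : ∀ i, l i - c i • z ∈ VW k y 1) (T : ℕ) (g : MvPolynomial κ k) (hg : g.IsHomogeneous T) :
    aeval l g - (eval c g) • z ^ T ∈ RS k y z T := by
  have key : ∀ (T : ℕ) (d : κ →₀ ℕ), d.degree = T →
      aeval l (monomial d (1 : k)) - (eval c (monomial d (1 : k))) • z ^ T ∈ RS k y z T := by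
    intro T
    induction T with
    | zero =>
      intro d hd
      have : d = 0 := by
        rw [← Finsupp.degree_eq_zero_iff]; exact hd
      subst this
      simp
    | succ T ih =>
      intro d hd
      have hne : d ≠ 0 := by
        rintro rfl
        simp at hd
      obtain ⟨i, hi⟩ := Finsupp.ne_iff.1 hne
      have hle : Finsupp.single i 1 ≤ d := by
        rw [Finsupp.single_le_iff]
        exact Nat.one_le_iff_ne_zero.2 hi
      have hd' : d = Finsupp.single i 1 + (d - Finsupp.single i 1) :=
        (add_tsub_cancel_of_le hle).symm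
      have hdeg : (d - Finsupp.single i 1).degree = T := by
        have := congrArg Finsupp.degree hd'
        rw [map_add, hd, Finsupp.degree_single] at this
        omega
      have h1 : monomial d (1 : k) = X i * monomial (d - Finsupp.single i 1) 1 := by
        conv_lhs => rw [hd']
        rw [X, monomial_mul, one_mul]
      have h3 := ih _ hdeg
      rw [h1, map_mul, map_mul, aeval_X, eval_X]
      set w := aeval l (monomial (d - Finsupp.single i 1) (1 : k)) with hw
      set γ := eval c (monomial (d - Finsupp.single i 1) (1 : k)) with hγ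
      have h4 : l i * w - (c i * γ) • z ^ (T + 1) =
          (l i - c i • z) * (w - γ • z ^ T) + γ • (z ^ T * (l i - c i • z)) +
            c i • (z ^ 1 * (w - γ • z ^ T)) := by
        simp only [Algebra.smul_def, map_mul]
        ring
      rw [h4]
      refine Submodule.add_mem _ (Submodule.add_mem _ (rs_mul_y h3 (hl i))
        (Submodule.smul_mem _ _ ?_)) (Submodule.smul_mem _ _ (rs_mul_z h3 1))
      exact Submodule.subset_span ⟨T, 1, by omega, rfl, _, hl i, rfl⟩
  rw [g.as_sum, map_sum, map_sum, Finset.sum_smul, ← Finset.sum_sub_distrib]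
  refine Submodule.sum_mem _ fun d hd => ?_
  have h2 : monomial d (coeff d g) = (coeff d g) • monomial d (1 : k) := by
    rw [smul_monomial, smul_eq_mul, mul_one]
  rw [h2, map_smul, smul_eval, mul_smul, ← smul_sub]
  refine Submodule.smul_mem _ _ (key T d ?_)
  by_contra hne
  exact (mem_support_iff.1 hd) (hg.coeff_eq_zero hne)

/-- sums of `z ^ i * G ^ f * (form in y)` with `i < s` -/
def WS (k : Type) [Field k] [Algebra k A] (y : Fin n → A) (z G : A) (s T : ℕ) : Submodule k A :=
  Submodule.span k {u | ∃ i f e : ℕ, i < s ∧ i + s * f + e = T ∧ ∃ m ∈ VW k y e,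
    u = z ^ i * G ^ f * m}

theorem ws_mul_y {y : Fin n → A} {z G : A} {s T : ℕ} {u : A} (hu : u ∈ WS k y z G s T) {a : A}
    (ha : a ∈ VW k y 1) : a * u ∈ WS k y z G s (T + 1) := by
  induction hu using Submodule.span_induction with
  | mem u hu =>
    obtain ⟨i, f, e, hi, hie, m, hm, rfl⟩ := hu
    refine Submodule.subset_span ⟨i, f, 1 + e, hi, by omega, a * m, vw_mul ha hm, by ring⟩
  | zero => simp
  | add a b _ _ ha hb => rw [mul_add]; exact Submodule.add_mem _ ha hb
  | smul c a _ ha => rw [mul_smul_comm]; exact Submodule.smul_mem _ _ ha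

theorem ws_mul_z {y : Fin n → A} {z G : A} {s : ℕ} (hs : 1 ≤ s) {γ : k} (hγ : γ ≠ 0)
    (hG : G - γ • z ^ s ∈ RS k y z s) {T : ℕ} {u : A} (hu : u ∈ WS k y z G s T) :
    z * u ∈ WS k y z G s (T + 1) := by
  induction hu using Submodule.span_induction with
  | mem u hu =>
    obtain ⟨i, f, e, hi, hie, m, hm, rfl⟩ := hu
    by_cases h : i + 1 < s
    · exact Submodule.subset_span ⟨i + 1, f, e, h, by omega, m, hm, by ring⟩
    have his : i + 1 = s := by omega
    have h1 : z * (z ^ i * G ^ f * m) =
        γ⁻¹ • (z ^ 0 * G ^ (f + 1) * m) - γ⁻¹ • ((G - γ • z ^ s) * (G ^ f * m)) := by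
      have h2 : γ⁻¹ • (γ • z ^ s) = z ^ s := by rw [smul_smul, inv_mul_cancel₀ hγ, one_smul]
      have h3 : γ⁻¹ • ((G - γ • z ^ s) * (G ^ f * m)) =
          γ⁻¹ • (G * (G ^ f * m)) - z ^ s * (G ^ f * m) := by
        rw [sub_mul, smul_sub, ← smul_mul_assoc γ⁻¹ (γ • z ^ s), h2]
      rw [h3, ← his]
      simp only [Algebra.smul_def]
      ring
    rw [h1]
    refine Submodule.sub_mem _ (Submodule.smul_mem _ _ (Submodule.subset_span
      ⟨0, f + 1, e, by omega, by rw [mul_add]; omega, m, hm, rfl⟩)) (Submodule.smul_mem _ _ ?_)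
    generalize hr : G - γ • z ^ s = r at hG
    clear hr h1
    induction hG using Submodule.span_induction with
    | mem r hr =>
      obtain ⟨i', e', hi', hie', m', hm', rfl⟩ := hr
      exact Submodule.subset_span ⟨i', f, e' + e, hi', by omega, m' * m, vw_mul hm' hm, by ring⟩
    | zero => simp
    | add a b _ _ ha hb => rw [add_mul]; exact Submodule.add_mem _ ha hb
    | smul c a _ ha => rw [smul_mul_assoc]; exact Submodule.smul_mem _ _ ha
  | zero => simp
  | add a b _ _ ha hb => rw [mul_add]; exact Submodule.add_mem _ ha hb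
  | smul c a _ ha => rw [mul_smul_comm]; exact Submodule.smul_mem _ _ ha

theorem vw_le_ws {y : Fin n → A} {z G : A} {s : ℕ} (hs : 1 ≤ s) {γ : k} (hγ : γ ≠ 0)
    (hG : G - γ • z ^ s ∈ RS k y z s) {m : ℕ} (x : Fin m → A) (c : Fin m → k)
    (hx : ∀ i, x i - c i • z ∈ VW k y 1) (T : ℕ) : VW k x T ≤ WS k y z G s T := by
  refine vw_induct x (fun T => WS k y z G s T) ?_ ?_ T
  · exact Submodule.subset_span ⟨0, 0, 0, hs, by omega, 1, vw_one y, by simp⟩
  · intro T i a ha
    have h1 : x i * a = (x i - c i • z) * a + c i • (z * a) := by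
      simp only [Algebra.smul_def]
      ring
    show x i * a ∈ WS k y z G s (T + 1)
    rw [h1]
    exact Submodule.add_mem _ (ws_mul_y ha (hx i))
      (Submodule.smul_mem _ _ (ws_mul_z hs hγ hG ha))

end step

/-- the hypothesis on three linear forms -/
def Hyp {k A : Type} [Field k] [CommRing A] [Algebra k A] (I : Ideal A) (s : ℕ) {n : ℕ}
    (y : Fin n → A) : Prop :=
  ∀ l : Fin 3 → A, (∀ i, l i ∈ VW k y 1) →
    ∃ g : MvPolynomial (Fin 3) k, g.IsHomogeneous s ∧ g ≠ 0 ∧ aeval l g ∈ I

/-- a good point -/
theorem exists_good {k : Type} [Field k] [Infinite k] (s : ℕ) (g : MvPolynomial (Fin 3) k)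
    (hg : g.IsHomogeneous s) (h0 : g ≠ 0) : ∃ c : Fin 3 → k, c 2 = 1 ∧ eval c g ≠ 0 := by
  have h1 : g * X 2 ≠ 0 := mul_ne_zero h0 (X_ne_zero 2)
  obtain ⟨p, hp⟩ : ∃ p : Fin 3 → k, eval p (g * X 2) ≠ 0 := by
    by_contra hcon
    push Not at hcon
    exact h1 (MvPolynomial.funext fun p => by rw [hcon p, map_zero])
  rw [map_mul, eval_X] at hp
  have hp1 : eval p g ≠ 0 := left_ne_zero_of_mul hp
  have hp2 : p 2 ≠ 0 := right_ne_zero_of_mul hp
  refine ⟨fun i => (p 2)⁻¹ * p i, inv_mul_cancel₀ hp2, ?_⟩
  have h3 : eval (fun i => (p 2)⁻¹ * p i) g = (p 2)⁻¹ ^ s * eval p g :=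
    eval_smul_hom hg _ _
  rw [h3]
  exact mul_ne_zero (pow_ne_zero _ (inv_ne_zero hp2)) hp1

theorem vw_mono {k A : Type} [Field k] [CommRing A] [Algebra k A] {m n : ℕ} {x : Fin m → A}
    {y : Fin n → A} (h : ∀ i, x i ∈ VW k y 1) (T : ℕ) : VW k x T ≤ VW k y T := by
  refine vw_induct x (fun T => VW k y T) (vw_one y) (fun T i a ha => ?_) T
  have := vw_mul (h i) ha
  rwa [add_comm] at this

/-- the number of monomials in at most two variables -/
theorem card_mons (n T : ℕ) (hn : n ≤ 2) : (mons (Fin n) T).card ≤ T + 1 := by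
  rcases n with _ | n
  · exact (Finset.card_le_one.2 fun a _ b _ => Subsingleton.elim a b).trans (by omega)
  · have h1 : (mons (Fin (n + 1)) T).card ≤ (Finset.range (T + 1)).card := by
      refine Finset.card_le_card_of_injOn (fun m => m 0) (fun m hm => ?_) ?_
      · have h2 := (mem_mons T m).1 hm
        rw [Finsupp.degree_eq_sum] at h2
        have h3 := Finset.single_le_sum (f := fun i => m i) (fun _ _ => Nat.zero_le _)
          (Finset.mem_univ (0 : Fin (n + 1)))
        simp only [Finset.coe_range, Set.mem_Iio]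
        omega
      · intro m hm m' hm' h
        have h2 := (mem_mons T m).1 hm
        have h3 := (mem_mons T m').1 hm'
        simp only at h
        rw [Finsupp.degree_eq_sum, Fin.sum_univ_succ] at h2 h3
        rcases n with _ | n
        · ext i
          have hi : i = 0 := by
            have := i.2
            apply Fin.ext
            simp only [Fin.val_zero]
            omega
          rw [hi]
          exact h
        · obtain rfl : n = 0 := by omega
          simp only [Fin.sum_univ_succ, Finset.univ_eq_empty, Finset.sum_empty, add_zero] at h2 h3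
          ext i
          refine Fin.cases h (fun j => ?_) i
          have hj : j = 0 := by
            have := j.2
            apply Fin.ext
            simp only [Fin.val_zero]
            omega
          rw [hj]
          omega
    rwa [Finset.card_range] at h1

theorem main {k A : Type} [Field k] [Infinite k] [CommRing A] [Algebra k A] (I : Ideal A)
    (s : ℕ) (hs : 1 ≤ s) : ∀ (n : ℕ) (y : Fin n → A), Hyp (k := k) I s y → ∀ κ T : ℕ, 1 ≤ κ →
    ∃ B : Finset A, B.card ≤ (κ * s) ^ n * (T + 1) ∧
      VW k y T ≤ Submodule.span k (B : Set A) ⊔ (I ^ κ).restrictScalars k := by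
  have base : ∀ n : ℕ, n ≤ 2 → ∀ (y : Fin n → A) (κ T : ℕ), 1 ≤ κ →
      ∃ B : Finset A, B.card ≤ (κ * s) ^ n * (T + 1) ∧
      VW k y T ≤ Submodule.span k (B : Set A) ⊔ (I ^ κ).restrictScalars k := by
    intro n hn y κ T hκ
    refine ⟨(mons (Fin n) T).image (mval k y), ?_, ?_⟩
    · refine Finset.card_image_le.trans ((card_mons n T hn).trans ?_)
      exact Nat.le_mul_of_pos_left _ (pow_pos (Nat.mul_pos (by omega) (by omega)) n)
    · rw [Finset.coe_image, ← VW_eq]
      exact le_sup_left
  intro n
  induction n with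
  | zero => exact fun y _ => base 0 (by omega) y
  | succ n ih =>
    intro y hy κ T hκ
    rcases n with _ | _ | n
    · exact base 1 (by omega) y κ T hκ
    · exact base 2 (by omega) y κ T hκ
    set z := y (Fin.last (n + 2)) with hz
    obtain ⟨g, hg, hg0, hgI⟩ := hy ![y (Fin.castSucc 0), y (Fin.castSucc 1), z] (by
      intro i
      fin_cases i
      · exact vw_gen y _
      · exact vw_gen y _
      · exact vw_gen y _)
    obtain ⟨c, hc2, hγ⟩ := exists_good s g hg hg0
    set G := aeval ![y (Fin.castSucc 0), y (Fin.castSucc 1), z] g with hG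
    let c' : Fin (n + 2) → k := fun i => if i = 0 then c 0 else if i = 1 then c 1 else 0
    let y' : Fin (n + 2) → A := fun i => y (Fin.castSucc i) - c' i • z
    have hy'mem : ∀ i, y' i ∈ VW k y 1 := fun i =>
      Submodule.sub_mem _ (vw_gen y _) (Submodule.smul_mem _ _ (vw_gen y _))
    have hy' : Hyp (k := k) I s y' := fun l hl => hy l fun i => vw_mono hy'mem 1 (hl i)
    have hlead : G - (eval c g) • z ^ s ∈ RS k y' z s := by
      refine lead _ c (fun i => ?_) s g hg
      fin_cases i
      · have h1 : y (Fin.castSucc 0) - c 0 • z = y' 0 := by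
          simp only [y', c', if_true]
        show y (Fin.castSucc 0) - c 0 • z ∈ _
        rw [h1]
        exact vw_gen y' 0
      · have h1 : y (Fin.castSucc 1) - c 1 • z = y' 1 := by
          have h2 : (1 : Fin (n + 2)) ≠ 0 := by
            intro h
            have := congrArg Fin.val h
            simp at this
          simp only [y', c', if_neg h2, if_true]
        show y (Fin.castSucc 1) - c 1 • z ∈ _
        rw [h1]
        exact vw_gen y' 1
      · show z - c 2 • z ∈ _
        rw [hc2, one_smul, sub_self]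
        exact Submodule.zero_mem _
    have hle : VW k y T ≤ WS k y' z G s T := by
      refine vw_le_ws hs hγ hlead y (Fin.lastCases 1 c') (fun i => ?_) T
      refine Fin.lastCases ?_ (fun j => ?_) i
      · rw [Fin.lastCases_last, one_smul, ← hz, sub_self]
        exact Submodule.zero_mem _
      · rw [Fin.lastCases_castSucc]
        exact vw_gen y' j
    choose B hB1 hB2 using fun (κ : ℕ) (hκ : 1 ≤ κ) (T : ℕ) => ih y' hy' κ T hκ
    let Bf : ℕ × ℕ → Finset A := fun p => if h : 1 ≤ κ - p.2 then
      (B (κ - p.2) h (T - p.1 - s * p.2)).image (fun b => z ^ p.1 * G ^ p.2 * b) else ∅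
    refine ⟨(Finset.range s ×ˢ Finset.range κ).biUnion Bf, ?_, ?_⟩
    · refine (Finset.card_biUnion_le_card_mul _ _ ((κ * s) ^ (n + 2) * (T + 1)) ?_).trans ?_
      · intro p hp
        rw [Finset.mem_product, Finset.mem_range, Finset.mem_range] at hp
        simp only [Bf]
        rw [dif_pos (by omega)]
        refine Finset.card_image_le.trans ((hB1 _ _ _).trans ?_)
        exact Nat.mul_le_mul (Nat.pow_le_pow_left (Nat.mul_le_mul_right _ (by omega)) _)
          (by omega)
      · rw [Finset.card_product, Finset.card_range, Finset.card_range]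
        apply le_of_eq
        ring
    · refine hle.trans (Submodule.span_le.2 ?_)
      rintro u ⟨i, f, e, hi, hie, m, hm, rfl⟩
      by_cases hf : κ ≤ f
      · refine Submodule.mem_sup_right ?_
        rw [Submodule.restrictScalars_mem]
        refine Ideal.mul_mem_right _ _ (Ideal.mul_mem_left _ _ ?_)
        exact Ideal.pow_le_pow_right hf (Ideal.pow_mem_pow hgI f)
      · have h1 : 1 ≤ κ - f := by omega
        have hee : T - i - s * f = e := by omega
        have h2 := hB2 (κ - f) h1 (T - i - s * f) (by rw [hee]; exact hm)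
        obtain ⟨b, hb, r, hr, hbr⟩ := Submodule.mem_sup.1 h2
        rw [← hbr, mul_add]
        refine Submodule.add_mem_sup ?_ ?_
        · have h3 : z ^ i * G ^ f * b ∈ Submodule.span k
              ((fun b => z ^ i * G ^ f * b) '' (B (κ - f) h1 (T - i - s * f) : Set A)) := by
            have h4 := Submodule.mem_map_of_mem (f := LinearMap.mulLeft k (z ^ i * G ^ f)) hb
            rw [Submodule.map_span] at h4
            exact h4
          refine Submodule.span_mono ?_ h3
          intro a ha
          rw [Finset.mem_coe, Finset.mem_biUnion]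
          refine ⟨(i, f), ?_, ?_⟩
          · rw [Finset.mem_product, Finset.mem_range, Finset.mem_range]
            exact ⟨hi, by omega⟩
          · simp only [Bf]
            rw [dif_pos h1, Finset.mem_image]
            obtain ⟨b', hb', rfl⟩ := ha
            exact ⟨b', hb', rfl⟩
        · rw [Submodule.restrictScalars_mem] at hr ⊢
          rw [mul_assoc]
          refine Ideal.mul_mem_left _ _ ?_
          have h5 : κ = f + (κ - f) := by omega
          rw [h5, pow_add]
          exact Ideal.mul_mem_mul (Ideal.pow_mem_pow hgI f) (by simpa using hr)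

end Pool.DynLehmer.SP.JetkAux

namespace Pool.DynLehmer.SP
open MvPolynomial Pool.DynLehmer Pool.DynLehmer.SB JetkAux
open scoped Classical

theorem jetk : JetkStatement := by
  intro k _ _ ι _ I s κ T hs hκ hI
  let e : ι ≃ Fin (Fintype.card ι) := Fintype.equivFin ι
  let y : Fin (Fintype.card ι) → MvPolynomial ι k := fun i => X (e.symm i)
  have hy : Hyp (k := k) I s y := by
    intro l hl
    refine hI l fun i => ?_
    obtain ⟨h, hh, hhl⟩ := hl i
    have h1 : (aeval y : _ →ₐ[k] _) h = rename e.symm h := by
      have h0 : y = (X : ι → MvPolynomial ι k) ∘ e.symm := rfl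
      rw [h0, ← aeval_rename, aeval_X_left, AlgHom.id_apply]
    rw [AlgHom.toLinearMap_apply, h1] at hhl
    rw [← hhl]
    exact ((mem_homogeneousSubmodule _ _).1 hh).rename_isHomogeneous
  obtain ⟨B, hB1, hB2⟩ := main I s hs _ y hy κ T hκ
  have h2 : homogeneousSubmodule ι k T ≤ VW k y T := by
    intro f hf
    refine ⟨rename e f, (mem_homogeneousSubmodule _ _).2
      ((mem_homogeneousSubmodule _ _).1 hf).rename_isHomogeneous, ?_⟩
    rw [AlgHom.toLinearMap_apply, aeval_rename]
    have h3 : y ∘ e = X := by
      funext i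
      simp [y]
    rw [h3, aeval_X_left, AlgHom.id_apply]
  haveI := finite_hom k ι T
  set H := homogeneousSubmodule ι k T
  set J := (I ^ κ).restrictScalars k
  have h4 : Module.finrank k ↥(H.map J.mkQ) ≤ B.card := by
    have h5 : H.map J.mkQ ≤ Submodule.span k (J.mkQ '' (B : Set (MvPolynomial ι k))) := by
      rw [← Submodule.map_span]
      refine (Submodule.map_mono (h2.trans hB2)).trans ?_
      rw [Submodule.map_sup, Submodule.mkQ_map_self, sup_bot_eq]
    haveI : Module.Finite k ↥(Submodule.span k (J.mkQ '' (B : Set (MvPolynomial ι k)))) :=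
      Module.Finite.span_of_finite k (Set.Finite.image _ B.finite_toSet)
    refine (Submodule.finrank_mono h5).trans ?_
    have h6 := finrank_span_finset_le_card (R := k) (B.image J.mkQ)
    rw [Finset.coe_image] at h6
    exact h6.trans Finset.card_image_le
  have h7 := LinearMap.finrank_range_add_finrank_ker (J.mkQ.comp H.subtype)
  have h8 : LinearMap.range (J.mkQ.comp H.subtype) = H.map J.mkQ := by
    rw [LinearMap.range_comp, Submodule.range_subtype]
  have h9 : LinearMap.ker (J.mkQ.comp H.subtype) = J.comap H.subtype := by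
    rw [LinearMap.ker_comp, Submodule.ker_mkQ]
  have h10 : Module.finrank k ↥(J.comap H.subtype) = Module.finrank k ↥(H ⊓ J) := by
    rw [← LinearEquiv.finrank_eq (Submodule.comapSubtypeEquivOfLe (inf_le_left : H ⊓ J ≤ H)),
      Submodule.comap_inf, Submodule.comap_subtype_self, top_inf_eq]
  rw [h8, h9, h10] at h7
  omega

end Pool.DynLehmer.SP
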