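import Mathlib
import Pool.Agent.Lib.MP_2194ec_nt.SP.Iface

set_option autoImplicit false

/-!
# JETD: jets along the reduced curve over an arbitrary field, descent from `k(τ)`
-/

namespace Pool.DynLehmer.SP
open MvPolynomial NumberField Pool.DynLehmer Pool.DynLehmer.SB
open scoped Classical

namespace JETDAux

/-- homogeneous polynomials and scaling of the arguments -/
theorem bind_scale {E : Type} [Field E] {ι : Type} (d : E) (s : ℕ)
    (l : Fin 3 → MvPolynomial ι E) (g : MvPolynomial (Fin 3) E) (hg : g.IsHomogeneous s) :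
    aeval (fun i => C d * l i) g = C (d ^ s) * aeval l g := by
  rw [aeval_def, aeval_def, eval₂_eq', eval₂_eq', Finset.mul_sum]
  refine Finset.sum_congr rfl fun m hm => ?_
  have h1 : m.degree = s := by
    have := hg (mem_support_iff.1 hm)
    rw [← this, Finsupp.degree_eq_weight_one]
    rfl
  have h2 : ∏ i, (C d * l i) ^ m i = C (d ^ s) * ∏ i, l i ^ m i := by
    rw [show (∏ i, (C d * l i) ^ m i) = ∏ i, (C d) ^ m i * (l i) ^ m i from
      Finset.prod_congr rfl fun i _ => mul_pow _ _ _, Finset.prod_mul_distrib,
      Finset.prod_pow_eq_pow_sum, C_pow]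
    congr 2
    rw [← h1, Finsupp.degree_eq_sum]
  rw [h2]
  ring

/-- clearing denominators in three linear forms -/
theorem clear {k : Type} [Field k] {ι : Type} (l : Fin 3 → MvPolynomial ι (RatFunc k))
    (hl : ∀ i, (l i).IsHomogeneous 1) :
    ∃ (d : Polynomial k) (l' : Fin 3 → MvPolynomial ι (Polynomial k)), d ≠ 0 ∧
      (∀ i, (l' i).IsHomogeneous 1) ∧
      ∀ i, MvPolynomial.map (algebraMap (Polynomial k) (RatFunc k)) (l' i) =
        C (algebraMap (Polynomial k) (RatFunc k) d) * l i := by
  obtain ⟨b, hb⟩ := IsLocalization.exist_integer_multiples_of_finset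
    (nonZeroDivisors (Polynomial k))
    (Finset.univ.biUnion fun i : Fin 3 => (l i).support.image fun m => coeff m (l i))
  have hc : ∀ (i : Fin 3) (m : ι →₀ ℕ), ∃ c : Polynomial k, m ∈ (l i).support →
      algebraMap (Polynomial k) (RatFunc k) c =
        algebraMap (Polynomial k) (RatFunc k) (b : Polynomial k) * coeff m (l i) := by
    intro i m
    by_cases h : m ∈ (l i).support
    · obtain ⟨c, hc⟩ := hb (coeff m (l i)) (Finset.mem_biUnion.2 ⟨i, Finset.mem_univ i,
        Finset.mem_image_of_mem _ h⟩)
      refine ⟨c, fun _ => ?_⟩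
      rw [hc, Algebra.smul_def]
    · exact ⟨0, fun h' => absurd h' h⟩
  choose c hc using hc
  refine ⟨b, fun i => ∑ m ∈ (l i).support, monomial m (c i m), nonZeroDivisors.ne_zero b.2,
    fun i => ?_, fun i => ?_⟩
  · refine IsHomogeneous.sum _ _ _ fun m hm => isHomogeneous_monomial _ ?_
    have := hl i (mem_support_iff.1 hm)
    rw [← this, Finsupp.degree_eq_weight_one]
    rfl
  · rw [map_sum]
    conv_rhs => rw [(l i).as_sum, Finset.mul_sum]
    refine Finset.sum_congr rfl fun m hm => ?_
    rw [map_monomial, hc i m hm, C_mul_monomial]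

end JETDAux

open JETDAux in
theorem jetd : JetkStatement → JetdStatement := by
  intro hjet k _ ι _ I s κ T hs hκ hyp
  -- the field `k(τ)`
  have hinf : Infinite (RatFunc k) :=
    Infinite.of_injective _ (IsFractionRing.injective (Polynomial k) (RatFunc k))
  set ψ : Polynomial k →+* RatFunc k := algebraMap (Polynomial k) (RatFunc k) with hψ
  have hψi : Function.Injective ψ := IsFractionRing.injective (Polynomial k) (RatFunc k)
  set φ : k →+* RatFunc k := ψ.comp Polynomial.C with hφ
  set Φ : MvPolynomial ι k →+* MvPolynomial ι (RatFunc k) := MvPolynomial.map φ with hΦ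
  have hΦc : (MvPolynomial.map ψ).comp (MvPolynomial.map (Polynomial.C : k →+* Polynomial k)) =
      (Φ : MvPolynomial ι k →+* MvPolynomial ι (RatFunc k)) :=
    RingHom.ext fun p => map_map _ _ p
  set J : Ideal (MvPolynomial ι (RatFunc k)) := I.map Φ with hJ
  have hyp' : ∀ l : Fin 3 → MvPolynomial ι (RatFunc k), (∀ i, (l i).IsHomogeneous 1) →
      ∃ g : MvPolynomial (Fin 3) (RatFunc k), g.IsHomogeneous s ∧ g ≠ 0 ∧ aeval l g ∈ J := by
    intro l hl
    obtain ⟨d, l', hd, hl', hll⟩ := clear l hl
    obtain ⟨g, hg, hg0, hgI⟩ := hyp l' hl'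
    refine ⟨MvPolynomial.map ψ g, hg.map ψ, ?_, ?_⟩
    · intro h0
      exact hg0 (map_injective ψ hψi (by rw [h0, map_zero]))
    · have h1 : MvPolynomial.map ψ (aeval l' g) ∈ J := by
        have := Ideal.mem_map_of_mem (MvPolynomial.map ψ) hgI
        rwa [Ideal.map_map, hΦc] at this
      have h2 : MvPolynomial.map ψ (aeval l' g) =
          aeval (fun i => C (ψ d) * l i) (MvPolynomial.map ψ g) := by
        have := map_bind₁ ψ l' g
        rw [show (fun i => MvPolynomial.map ψ (l' i)) = fun i => C (ψ d) * l i from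
          funext hll] at this
        exact this
      rw [h2, bind_scale _ s _ _ (hg.map ψ)] at h1
      have hd' : ψ d ≠ 0 := fun h0 => hd (hψi (by rw [h0, map_zero]))
      have h3 := J.mul_mem_left (C ((ψ d ^ s)⁻¹)) h1
      rwa [← mul_assoc, ← C_mul, inv_mul_cancel₀ (pow_ne_zero s hd'), C_1, one_mul] at h3
  have hmain := hjet (RatFunc k) ι J s κ T hs hκ hyp'
  -- a dual family modulo `I ^ κ`
  set V := homogeneousSubmodule ι k T with hV
  set VE := homogeneousSubmodule ι (RatFunc k) T with hVE
  have hfin : FiniteDimensional k V := Module.Finite.iff_fg.2 (homogeneousSubmodule_fg ι k T)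
  have hfinE : FiniteDimensional (RatFunc k) VE :=
    Module.Finite.iff_fg.2 (homogeneousSubmodule_fg ι (RatFunc k) T)
  set Q : Submodule k (MvPolynomial ι k) := (I ^ κ).restrictScalars k with hQ
  set f : V →ₗ[k] (MvPolynomial ι k ⧸ Q) := Q.mkQ.domRestrict V with hf
  have hrank := LinearMap.finrank_range_add_finrank_ker f
  have hker : Module.finrank k ↥(LinearMap.ker f) = Module.finrank k ↥(V ⊓ Q) := by
    have h4 : (LinearMap.ker f).map V.subtype = V ⊓ Q := by
      ext G
      constructor
      · rintro ⟨g, hg, rfl⟩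
        refine ⟨g.2, ?_⟩
        have : Q.mkQ (g : MvPolynomial ι k) = 0 := hg
        rwa [Submodule.mkQ_apply, Submodule.Quotient.mk_eq_zero] at this
      · rintro ⟨hG, hG'⟩
        refine ⟨⟨G, hG⟩, ?_, rfl⟩
        show Q.mkQ G = 0
        rwa [Submodule.mkQ_apply, Submodule.Quotient.mk_eq_zero]
    rw [← h4]
    exact LinearEquiv.finrank_eq (Submodule.equivMapOfInjective _
      (Submodule.injective_subtype _) _)
  set n := Module.finrank k ↥(LinearMap.range f) with hn
  let b := Module.finBasis k ↥(LinearMap.range f)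
  obtain ⟨g, hg⟩ := LinearMap.exists_extend (p := LinearMap.range f)
    (b.equivFun.toLinearMap : ↥(LinearMap.range f) →ₗ[k] (Fin n → k))
  have hB : ∀ j, ∃ B : V, f B = (b j : MvPolynomial ι k ⧸ Q) := fun j => (b j).2
  choose B hB using hB
  set lam : MvPolynomial ι k →ₗ[k] (Fin n → k) := g ∘ₗ Q.mkQ with hlam
  have hlB : ∀ j, lam (B j) = Pi.single j 1 := by
    intro j
    have h1 : lam (B j) = g (b j : MvPolynomial ι k ⧸ Q) := by
      rw [← hB j]; rfl
    have h2 : g (b j : MvPolynomial ι k ⧸ Q) = b.equivFun (b j) := by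
      have := LinearMap.congr_fun hg (b j)
      exact this
    rw [h1, h2]
    funext i
    rw [b.equivFun_self, Pi.single_apply]
    simp only [eq_comm]
  have hlQ : ∀ a ∈ I ^ κ, lam a = 0 := by
    intro a ha
    have : Q.mkQ a = 0 := by
      rw [Submodule.mkQ_apply, Submodule.Quotient.mk_eq_zero]
      exact ha
    rw [hlam, LinearMap.comp_apply, this, map_zero]
  -- base change of the functionals
  set lamE : MvPolynomial ι (RatFunc k) →ₗ[RatFunc k] (Fin n → RatFunc k) :=
    (basisMonomials ι (RatFunc k)).constr (RatFunc k)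
      (fun m => fun i => φ (lam (monomial m 1) i)) with hlamE
  have hmon : ∀ (m : ι →₀ ℕ) (c : RatFunc k),
      lamE (monomial m c) = c • fun i => φ (lam (monomial m 1) i) := by
    intro m c
    have h1 : (monomial m c : MvPolynomial ι (RatFunc k)) =
        c • basisMonomials ι (RatFunc k) m := by
      rw [coe_basisMonomials, smul_monomial, smul_eq_mul, mul_one]
    rw [h1, map_smul, hlamE, Module.Basis.constr_basis]
  have hnat : ∀ p : MvPolynomial ι k, lamE (Φ p) = fun i => φ (lam p i) := by
    intro p
    induction p using MvPolynomial.induction_on' with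
    | monomial m a =>
      rw [hΦ, map_monomial, hmon]
      funext i
      have h2 : (monomial m a : MvPolynomial ι k) = a • monomial m 1 := by
        rw [smul_monomial, smul_eq_mul, mul_one]
      rw [h2, map_smul, Pi.smul_apply, Pi.smul_apply, smul_eq_mul, smul_eq_mul, map_mul]
    | add p q hp hq =>
      rw [map_add, map_add, hp, hq, map_add]
      funext i
      simp
  have hvan : ∀ x ∈ (I ^ κ).map Φ, ∀ p, lamE (p * x) = 0 := by
    intro x hx
    induction hx using Submodule.span_induction with
    | mem x hx =>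
      obtain ⟨a, ha, rfl⟩ := hx
      intro p
      induction p using MvPolynomial.induction_on' with
      | monomial m c =>
        have h3 : (monomial m c : MvPolynomial ι (RatFunc k)) * Φ a =
            c • Φ (monomial m 1 * a) := by
          rw [map_mul, hΦ, map_monomial, map_one, ← smul_mul_assoc, smul_monomial,
            smul_eq_mul, mul_one]
        rw [h3, map_smul, hnat, hlQ _ ((I ^ κ).mul_mem_left _ ha)]
        funext i
        simp
      | add p q hp hq => rw [add_mul, map_add, hp, hq, add_zero]
    | zero => intro p; rw [mul_zero, map_zero]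
    | add x y _ _ hx hy => intro p; rw [mul_add, map_add, hx, hy, add_zero]
    | smul a x _ hx => intro p; rw [smul_eq_mul, ← mul_assoc]; exact hx _
  -- dimensions over `k(τ)`
  set F := lamE.domRestrict VE with hF
  have hrankE := LinearMap.finrank_range_add_finrank_ker F
  have hsurj : LinearMap.range F = ⊤ := by
    rw [eq_top_iff, ← (Pi.basisFun (RatFunc k) (Fin n)).span_eq, Submodule.span_le]
    rintro _ ⟨j, rfl⟩
    refine ⟨⟨Φ (B j), ?_⟩, ?_⟩
    · exact (show (B j : MvPolynomial ι k).IsHomogeneous T from (B j).2).map φ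
    · show lamE (Φ (B j)) = _
      rw [hnat, hlB, Pi.basisFun_apply]
      funext i
      by_cases h : i = j
      · subst h; simp
      · simp [h]
  have hkerE : Module.finrank (RatFunc k)
      ↥(VE ⊓ (J ^ κ).restrictScalars (RatFunc k)) ≤
      Module.finrank (RatFunc k) ↥(LinearMap.ker F) := by
    have h4 : VE ⊓ (J ^ κ).restrictScalars (RatFunc k) ≤ (LinearMap.ker F).map VE.subtype := by
      rintro G ⟨hG, hG'⟩
      refine ⟨⟨G, hG⟩, ?_, rfl⟩
      show lamE G = 0
      have h5 : G ∈ (I ^ κ).map Φ := by
        rw [Ideal.map_pow]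
        exact hG'
      have := hvan G h5 1
      rwa [one_mul] at this
    have h6 : Module.finrank (RatFunc k) ↥((LinearMap.ker F).map VE.subtype) =
        Module.finrank (RatFunc k) ↥(LinearMap.ker F) :=
      (LinearEquiv.finrank_eq (Submodule.equivMapOfInjective _
        (Submodule.injective_subtype _) _)).symm
    rw [← h6]
    exact Submodule.finrank_mono h4
  rw [hsurj, finrank_top, Module.finrank_fin_fun] at hrankE
  rw [hker] at hrank
  omega

end Pool.DynLehmer.SP
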