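import Pool.Agent.Lib.MP_2194ec_nt.SP.Iface

set_option autoImplicit false

/-!
# JETO : forms over the valuation ring modulo a power of the ideal of the curve
-/

namespace Pool.DynLehmer.SP
open MvPolynomial NumberField Pool.DynLehmer Pool.DynLehmer.SB

namespace JetoAux

/-- the coefficient of `τ ^ j` -/
noncomputable def cf {R : Type} [CommRing R] {ι : Type} (j : ℕ)
    (h : MvPolynomial ι (Polynomial R)) : MvPolynomial ι R :=
  ∑ t ∈ h.support, monomial t ((coeff t h).coeff j)

theorem coeff_cf {R : Type} [CommRing R] {ι : Type} (j : ℕ)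
    (h : MvPolynomial ι (Polynomial R)) (t : ι →₀ ℕ) :
    coeff t (cf j h) = (coeff t h).coeff j := by
  classical
  rw [cf, coeff_sum]
  simp only [coeff_monomial]
  rw [Finset.sum_ite_eq']
  split_ifs with ht
  · rfl
  · rw [notMem_support_iff.1 ht, Polynomial.coeff_zero]

theorem eq_sum_cf {R : Type} [CommRing R] {ι : Type} (h : MvPolynomial ι (Polynomial R)) :
    h = ∑ j ∈ Finset.range (h.support.sup (fun t => (coeff t h).natDegree) + 1),
      C (Polynomial.X ^ j) * map Polynomial.C (cf j h) := by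
  apply MvPolynomial.ext
  intro t
  rw [coeff_sum]
  simp only [coeff_C_mul, coeff_map, coeff_cf]
  by_cases ht : t ∈ h.support
  · have h1 : (coeff t h).natDegree < h.support.sup (fun t => (coeff t h).natDegree) + 1 :=
      Nat.lt_succ_of_le (Finset.le_sup (f := fun t => (coeff t h).natDegree) ht)
    conv_lhs => rw [(coeff t h).as_sum_range' _ h1]
    refine Finset.sum_congr rfl fun j _ => ?_
    rw [← Polynomial.C_mul_X_pow_eq_monomial, mul_comm]
  · rw [notMem_support_iff.1 ht]
    simp

/-- a polynomial lies in the extension of an ideal if its coefficients do -/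
theorem mem_map_of_cf {R : Type} [CommRing R] {ι : Type} (I : Ideal (MvPolynomial ι R))
    (h : MvPolynomial ι (Polynomial R)) (hh : ∀ j, cf j h ∈ I) :
    h ∈ I.map (MvPolynomial.map (Polynomial.C : R →+* Polynomial R)) := by
  rw [eq_sum_cf h]
  exact Ideal.sum_mem _ fun j _ => Ideal.mul_mem_left _ _ (Ideal.mem_map_of_mem _ (hh j))

theorem cf_map {R S : Type} [CommRing R] [CommRing S] {ι : Type} (f : R →+* S) (j : ℕ)
    (h : MvPolynomial ι (Polynomial R)) :
    cf j (map (Polynomial.mapRingHom f) h) = map f (cf j h) := by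
  apply MvPolynomial.ext
  intro t
  simp only [coeff_cf, coeff_map, Polynomial.coe_mapRingHom, Polynomial.coeff_map]

theorem coeff_evT {K : Type} [Field K] [NumberField K] (v : FinitePlace K) {Ω : Type}
    [Field Ω] [Algebra K Ω] {ι : Type} (x : ι → Ω) (j : ℕ)
    (h : MvPolynomial ι (Polynomial (OW v))) :
    (evT v x h).coeff j = evO v x (cf j h) := by
  rw [cf, map_sum]
  conv_lhs => rw [h.as_sum, map_sum, Polynomial.finsetSum_coeff]
  refine Finset.sum_congr rfl fun t _ => ?_
  have h1 : evT v x (monomial t (coeff t h)) =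
      Polynomial.mapRingHom ((algebraMap K Ω).comp (OW v).subtype) (coeff t h) *
        Polynomial.C (t.prod fun i n => x i ^ n) := by
    rw [evT, coe_eval₂Hom, eval₂_monomial]
    congr 1
    rw [Finsupp.prod, Finsupp.prod, map_prod]
    simp only [map_pow]
  rw [h1, Polynomial.coeff_mul_C, evO, coe_eval₂Hom, eval₂_monomial, Polynomial.coe_mapRingHom,
    Polynomial.coeff_map]

theorem map_hc {R S : Type} [CommRing R] [CommRing S] {ι : Type} (f : R →+* S) (d : ℕ)
    (h : MvPolynomial ι R) :
    map f (homogeneousComponent d h) = homogeneousComponent d (map f h) := by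
  classical
  apply MvPolynomial.ext
  intro t
  simp only [coeff_map, coeff_homogeneousComponent]
  split_ifs <;> simp

/-- lift of a form -/
theorem exists_lift {R S : Type} [CommRing R] [CommRing S] {ι : Type} (f : R →+* S)
    (hf : Function.Surjective f) (d : ℕ) (h : MvPolynomial ι S) (hh : h.IsHomogeneous d) :
    ∃ H : MvPolynomial ι R, H.IsHomogeneous d ∧ map f H = h := by
  obtain ⟨H, hH⟩ := map_surjective f hf h
  refine ⟨homogeneousComponent d H, homogeneousComponent_isHomogeneous d H, ?_⟩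
  rw [map_hc, hH, homogeneousComponent_eq_self hh]

/-- a spanning family modulo a subspace -/
theorem exists_span {k : Type} [Field k] {M : Type} [AddCommGroup M] [Module k M]
    [FiniteDimensional k M] (U : Submodule k M) (r : ℕ)
    (hr : Module.finrank k M ≤ Module.finrank k U + r) :
    ∃ b : Fin r → M, ∀ x : M, ∃ c : Fin r → k, x - ∑ j, c j • b j ∈ U := by
  have h1 : Module.finrank k (M ⧸ U) ≤ r := by
    have := Submodule.finrank_quotient_add_finrank U
    omega
  set n := Module.finrank k (M ⧸ U) with hn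
  let e := Module.finBasis k (M ⧸ U)
  have hs : ∀ i : Fin n, ∃ m : M, U.mkQ m = e i := fun i => U.mkQ_surjective (e i)
  choose m hm using hs
  refine ⟨fun j => if h : (j : ℕ) < n then m ⟨j, h⟩ else 0, fun x => ?_⟩
  refine ⟨fun j => if h : (j : ℕ) < n then e.repr (U.mkQ x) ⟨j, h⟩ else 0, ?_⟩
  refine (Submodule.Quotient.mk_eq_zero U).1 ?_
  rw [← Submodule.mkQ_apply, map_sub, map_sum]
  have h2 : ∑ j : Fin r, U.mkQ ((if h : (j : ℕ) < n then e.repr (U.mkQ x) ⟨j, h⟩ else 0) •
      (if h : (j : ℕ) < n then m ⟨j, h⟩ else 0)) =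
      ∑ i : Fin n, e.repr (U.mkQ x) i • e i := by
    have h3 : ∀ j : Fin r, U.mkQ ((if h : (j : ℕ) < n then e.repr (U.mkQ x) ⟨j, h⟩ else 0) •
        (if h : (j : ℕ) < n then m ⟨j, h⟩ else 0)) =
        if h : (j : ℕ) < n then e.repr (U.mkQ x) ⟨j, h⟩ • e ⟨j, h⟩ else 0 := by
      intro j
      split_ifs with h
      · rw [map_smul, hm]
      · simp
    rw [Finset.sum_congr rfl fun j _ => h3 j]
    rw [Finset.sum_fin_eq_sum_range, Finset.sum_fin_eq_sum_range]
    rw [← Finset.sum_subset (Finset.range_subset_range.2 h1)]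
    · refine Finset.sum_congr rfl fun i hi => ?_
      have hi' := Finset.mem_range.1 hi
      rw [dif_pos (lt_of_lt_of_le hi' h1), dif_pos hi']
    · intro i _ hi'
      have : ¬ i < n := fun h => hi' (Finset.mem_range.2 h)
      split_ifs <;> first | rfl | simp_all
  rw [h2, e.sum_repr, sub_self]

/-- powers of a homogeneous ideal -/
theorem hom_pow {R : Type} [CommRing R] {ι : Type} (I : Ideal (MvPolynomial ι R))
    (hI : ∀ p ∈ I, ∀ d, homogeneousComponent d p ∈ I) (κ : ℕ) :
    ∀ p ∈ I ^ κ, ∀ d, homogeneousComponent d p ∈ I ^ κ := by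
  let _ := MvPolynomial.gradedAlgebra (σ := ι) (R := R)
  have h1 : I.IsHomogeneous (homogeneousSubmodule ι R) := by
    intro d p hp
    have h2 : ((DirectSum.decompose (homogeneousSubmodule ι R) p d :
        homogeneousSubmodule ι R d) : MvPolynomial ι R) = homogeneousComponent d p :=
      decomposition.decompose'_apply p d
    rw [h2]
    exact hI p hp d
  have h3 : ∀ n : ℕ, (I ^ n).IsHomogeneous (homogeneousSubmodule ι R) := by
    intro n
    induction n with
    | zero => rw [pow_zero, Ideal.one_eq_top]; exact Ideal.IsHomogeneous.top _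
    | succ n ih => rw [pow_succ]; exact ih.mul h1
  intro p hp d
  exact homogeneousComponent_mem_of_mem (h3 κ) hp d

/-- the core, over a local ring -/
theorem core {O k : Type} [CommRing O] [Field k] (ϖ : O) (f : O →+* k)
    (hf : Function.Surjective f) (hker : ∀ a, f a = 0 → ∃ b, a = ϖ * b)
    (hjac : Ideal.span {ϖ} ≤ Ideal.jacobson ⊥) {ι : Type} [Fintype ι]
    (I : Ideal (MvPolynomial ι O)) (hI : ∀ p ∈ I, ∀ d, homogeneousComponent d p ∈ I)
    (κ T r : ℕ)
    (hr : Module.finrank k (homogeneousSubmodule ι k T) ≤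
      Module.finrank k ↥(homogeneousSubmodule ι k T ⊓
        ((I.map (map f)) ^ κ).restrictScalars k) + r) :
    ∃ B : Fin r → MvPolynomial ι O, (∀ j, (B j).IsHomogeneous T) ∧
      ∀ G : MvPolynomial ι O, G.IsHomogeneous T →
        ∃ c : Fin r → O, G - ∑ j, C (c j) * B j ∈ I ^ κ := by
  have hfd : FiniteDimensional k (homogeneousSubmodule ι k T) :=
    Module.Finite.iff_fg.2 (homogeneousSubmodule_fg ι k T)
  set V := homogeneousSubmodule ι k T with hV
  set Z : Submodule k (MvPolynomial ι k) := ((I.map (map f)) ^ κ).restrictScalars k with hZ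
  have hr' : Module.finrank k V ≤ Module.finrank k (Z.comap V.subtype) + r := by
    have h1 : Module.finrank k (Z.comap V.subtype) = Module.finrank k ↥(V ⊓ Z) := by
      have h2 := (Submodule.equivSubtypeMap V (Z.comap V.subtype)).finrank_eq
      rw [Submodule.map_comap_subtype] at h2
      exact h2
    rw [h1]
    exact hr
  obtain ⟨b, hb⟩ := exists_span (Z.comap V.subtype) r hr'
  have hl : ∀ j, ∃ H : MvPolynomial ι O, H.IsHomogeneous T ∧ map f H = (b j : MvPolynomial ι k) :=
    fun j => exists_lift f hf T _ (b j).2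
  choose B hB1 hB2 using hl
  refine ⟨B, hB1, ?_⟩
  -- the reduction step
  have step : ∀ G : MvPolynomial ι O, G.IsHomogeneous T →
      ∃ (c : Fin r → O) (E H : MvPolynomial ι O), E ∈ I ^ κ ∧ H.IsHomogeneous T ∧
        G = ∑ j, C (c j) * B j + E + C ϖ * H := by
    intro G hG
    obtain ⟨c, hc⟩ := hb ⟨map f G, hG.map f⟩
    have hcl : ∀ j, ∃ a : O, f a = c j := fun j => hf (c j)
    choose a ha using hcl
    have h1 : map f (G - ∑ j, C (a j) * B j) ∈ (I ^ κ).map (map f) := by
      rw [Ideal.map_pow]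
      have h2 : map f (G - ∑ j, C (a j) * B j) =
          ((⟨map f G, hG.map f⟩ : V) - ∑ j, c j • b j : V) := by
        rw [map_sub, map_sum, Submodule.coe_sub, Submodule.coe_sum]
        congr 1
        refine Finset.sum_congr rfl fun j _ => ?_
        rw [map_mul, map_C, hB2, ha, Submodule.coe_smul, smul_eq_C_mul]
      rw [h2]
      exact hc
    obtain ⟨E, hE, hEe⟩ := (Ideal.mem_map_iff_of_surjective _ (map_surjective f hf)).1 h1
    have hGh : (G - ∑ j, C (a j) * B j).IsHomogeneous T :=
      hG.sub (IsHomogeneous.sum _ _ _ fun j _ => (hB1 j).C_mul (a j))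
    set E' := homogeneousComponent T E with hE'
    have hE'h : E'.IsHomogeneous T := homogeneousComponent_isHomogeneous T E
    have hE'm : E' ∈ I ^ κ := hom_pow I hI κ E hE T
    have h3 : map f E' = map f (G - ∑ j, C (a j) * B j) := by
      rw [hE', map_hc, hEe, homogeneousComponent_eq_self (hGh.map f)]
    set D := G - ∑ j, C (a j) * B j - E' with hD
    have hDh : D.IsHomogeneous T := hGh.sub hE'h
    have hD0 : map f D = 0 := by rw [hD, map_sub, h3, sub_self]
    have h4 : ∀ t, ∃ b, coeff t D = ϖ * b := by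
      intro t
      apply hker
      rw [← coeff_map, hD0, coeff_zero]
    choose u hu using h4
    set H₀ : MvPolynomial ι O := ∑ t ∈ D.support, monomial t (u t) with hH₀
    have h5 : C ϖ * H₀ = D := by
      rw [hH₀, Finset.mul_sum]
      conv_rhs => rw [D.as_sum]
      refine Finset.sum_congr rfl fun t _ => ?_
      rw [C_mul_monomial, ← hu t]
    refine ⟨a, E', homogeneousComponent T H₀, hE'm, homogeneousComponent_isHomogeneous T H₀, ?_⟩
    rw [← homogeneousComponent_C_mul, h5, homogeneousComponent_eq_self hDh, hD]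
    ring
  -- Nakayama
  let N : Submodule O (MvPolynomial ι O) :=
    Submodule.span O (Set.range B) ⊔ (I ^ κ).restrictScalars O
  have hN : homogeneousSubmodule ι O T ≤ N := by
    refine Submodule.le_of_le_smul_of_le_jacobson_bot (I := Ideal.span {ϖ})
      (homogeneousSubmodule_fg ι O T) hjac ?_
    intro G hG
    obtain ⟨c, E, H, hE, hH, he⟩ := step G hG
    rw [he]
    refine Submodule.add_mem _ (Submodule.mem_sup_left ?_) (Submodule.mem_sup_right ?_)
    · refine Submodule.add_mem _ (Submodule.mem_sup_left ?_) (Submodule.mem_sup_right hE)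
      refine Submodule.sum_mem _ fun j _ => ?_
      rw [← smul_eq_C_mul]
      exact Submodule.smul_mem _ _ (Submodule.subset_span ⟨j, rfl⟩)
    · rw [← smul_eq_C_mul]
      exact Submodule.smul_mem_smul (Ideal.mem_span_singleton_self ϖ) hH
  intro G hG
  obtain ⟨g, hg, E, hE, he⟩ := Submodule.mem_sup.1 (hN hG)
  obtain ⟨c, hc⟩ := (Submodule.mem_span_range_iff_exists_fun O).1 hg
  refine ⟨c, ?_⟩
  have h6 : G - ∑ j, C (c j) * B j = E := by
    rw [← he, ← hc]
    simp only [smul_eq_C_mul]
    ring
  rw [h6]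
  exact hE

end JetoAux

open JetoAux in
theorem jeto (hRel : RelStatement) (hJetd : JetdStatement) : JetoStatement := by
  intro K _ _ v ϖ hϖ1 hϖ0 hmax Ω _ _ ι _ x W hx κ T hκ
  have hvpos : 0 < v (ϖ : K) := FinitePlace.pos_iff.2 hϖ0
  -- the maximal ideal
  have hdiv : ∀ a : OW v, v (a : K) < 1 → ∃ b : OW v, a = ϖ * b := by
    intro a ha
    refine ⟨⟨(ϖ : K)⁻¹ * a, ?_⟩, ?_⟩
    · rw [mem_OW, map_mul, map_inv₀, inv_mul_le_iff₀ hvpos, mul_one]
      exact hmax a ha
    · apply Subtype.ext
      rw [Subring.coe_mul, mul_inv_cancel_left₀ hϖ0]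
  have hle : ∀ a : OW v, v (a : K) ≤ 1 := fun a => a.2
  have hmul : ∀ b : OW v, v ((ϖ * b : OW v) : K) < 1 := by
    intro b
    rw [Subring.coe_mul, map_mul]
    calc v (ϖ : K) * v (b : K) ≤ v (ϖ : K) * 1 :=
          mul_le_mul_of_nonneg_left (hle b) hvpos.le
      _ < 1 := by rw [mul_one]; exact hϖ1
  have hmem : ∀ a : OW v, a ∈ Ideal.span {ϖ} ↔ v (a : K) < 1 := by
    intro a
    rw [Ideal.mem_span_singleton]
    constructor
    · rintro ⟨b, rfl⟩
      exact hmul b
    · intro ha
      obtain ⟨b, hb⟩ := hdiv a ha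
      exact ⟨b, hb⟩
  have hunit : ∀ a : OW v, v (a : K) = 1 → ∃ b : OW v, a * b = 1 := by
    intro a ha
    have ha0 : (a : K) ≠ 0 := by
      intro h
      rw [h, map_zero] at ha
      exact zero_ne_one ha
    refine ⟨⟨(a : K)⁻¹, ?_⟩, ?_⟩
    · rw [mem_OW, map_inv₀, ha, inv_one]
    · apply Subtype.ext
      rw [Subring.coe_mul, mul_inv_cancel₀ ha0, Subring.coe_one]
  have hMax : (Ideal.span {ϖ} : Ideal (OW v)).IsMaximal := by
    rw [Ideal.isMaximal_iff]
    refine ⟨?_, ?_⟩
    · rw [hmem, Subring.coe_one, map_one]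
      exact lt_irrefl 1
    · intro J a hJ ha haJ
      rw [hmem] at ha
      have h1 : v (a : K) = 1 := le_antisymm (hle a) (not_lt.1 ha)
      obtain ⟨b, hb⟩ := hunit a h1
      rw [← hb]
      exact Ideal.mul_mem_right _ _ haJ
  have hjac : (Ideal.span {ϖ} : Ideal (OW v)) ≤ Ideal.jacobson ⊥ := by
    intro a ha
    rw [Ideal.mem_jacobson_bot]
    intro y
    have h1 : v ((a * y : OW v) : K) < 1 := (hmem _).1 (Ideal.mul_mem_right y _ ha)
    have h2 : v ((a * y + 1 : OW v) : K) = 1 := by
      refine le_antisymm (hle _) ?_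
      by_contra hlt
      rw [not_le] at hlt
      have h3 : v (1 : K) ≤ max (v ((a * y + 1 : OW v) : K)) (v (-((a * y : OW v) : K))) := by
        have h4 : (1 : K) = ((a * y + 1 : OW v) : K) + (-((a * y : OW v) : K)) := by
          rw [Subring.coe_add, Subring.coe_one]
          ring
        conv_lhs => rw [h4]
        exact FinitePlace.add_le v _ _
      rw [map_one, map_neg_eq_map] at h3
      exact absurd (max_lt hlt h1) (not_lt.2 h3)
    obtain ⟨b, hb⟩ := hunit _ h2
    exact IsUnit.of_mul_eq_one b hb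
  -- the residue field
  let _ : Field (OW v ⧸ (Ideal.span {ϖ} : Ideal (OW v))) := Ideal.Quotient.field _
  set f : OW v →+* (OW v ⧸ (Ideal.span {ϖ} : Ideal (OW v))) := Ideal.Quotient.mk _ with hfdef
  have hf : Function.Surjective f := Ideal.Quotient.mk_surjective
  have hker : ∀ a, f a = 0 → ∃ b, a = ϖ * b := by
    intro a ha
    exact hdiv a ((hmem a).1 (Ideal.Quotient.eq_zero_iff_mem.1 ha))
  set I := RingHom.ker (evO v x) with hIdef
  have hI : ∀ p ∈ I, ∀ d, homogeneousComponent d p ∈ I := by
    have h1 : ∀ p : MvPolynomial ι (OW v), evO v x p = aeval x (map (OW v).subtype p) := by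
      intro p
      rw [evO, coe_eval₂Hom, aeval_def, eval₂_map]
    intro p hp d
    rw [hIdef, RingHom.mem_ker, h1, map_hc]
    refine hx.hom _ ?_ d
    rw [← h1]
    exact hp
  have hW : 1 ≤ W := by
    have h1 := hx.low 0
    have h2 := hx.up 0
    omega
  have hHW : 2 * HW K x (2 * W) < (2 * W + 1) * (2 * W + 2) := by
    have h1 := hx.up (2 * W)
    calc 2 * HW K x (2 * W) ≤ 2 * (W * (2 * W + 1)) := Nat.mul_le_mul_left _ h1
      _ < (2 * W + 1) * (2 * W + 2) := by nlinarith
  refine core ϖ f hf hker hjac I hI κ T _ ?_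
  refine hJetd _ ι _ (2 * W) κ T (by omega) hκ ?_
  intro l hl
  have hfT : Function.Surjective (Polynomial.mapRingHom f) := Polynomial.map_surjective f hf
  have hll : ∀ i, ∃ L : MvPolynomial ι (Polynomial (OW v)), L.IsHomogeneous 1 ∧
      map (Polynomial.mapRingHom f) L = l i := fun i => exists_lift _ hfT 1 _ (hl i)
  choose L hL1 hL2 using hll
  obtain ⟨g, hg, ⟨t, ht⟩, hg0⟩ := hRel K v ϖ hϖ1 hϖ0 hmax Ω ι x (2 * W) hHW L hL1
  refine ⟨map (Polynomial.mapRingHom f) g, hg.map _, ?_, ?_⟩
  · intro h0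
    apply ht
    have h1 : Polynomial.mapRingHom f (coeff t g) = 0 := by
      rw [← coeff_map, h0, coeff_zero]
    rw [Ideal.mem_span_singleton, Polynomial.C_dvd_iff_dvd_coeff]
    intro i
    have h2 : f ((coeff t g).coeff i) = 0 := by
      rw [← Polynomial.coeff_map, ← Polynomial.coe_mapRingHom, h1, Polynomial.coeff_zero]
    obtain ⟨b, hb⟩ := hker _ h2
    exact ⟨b, hb⟩
  · have h1 : aeval l (map (Polynomial.mapRingHom f) g) =
        map (Polynomial.mapRingHom f) (aeval L g) := by
      rw [aeval_def, eval₂_map, aeval_def, ← coe_eval₂Hom, ← coe_eval₂Hom,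
        ← RingHom.comp_apply (map (Polynomial.mapRingHom f)), ]
      congr 1
      apply MvPolynomial.ringHom_ext
      · intro a
        simp only [coe_eval₂Hom, eval₂_C, RingHom.comp_apply, algebraMap_eq, map_C]
      · intro i
        simp only [coe_eval₂Hom, eval₂_X, RingHom.comp_apply, hL2]
    rw [h1]
    apply mem_map_of_cf
    intro j
    rw [cf_map]
    apply Ideal.mem_map_of_mem
    rw [hIdef, RingHom.mem_ker, ← coeff_evT, hg0, Polynomial.coeff_zero]

end Pool.DynLehmer.SP
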