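import Pool.Agent.Lib.MP_2194ec_nt.SP.Iface
import Pool.Agent.Lib.MP_2194ec_nt.SmallA

set_option autoImplicit false

/-!
# Module JETW: elements of `ker(evO)^κ` are small on all levels
-/

namespace Pool.DynLehmer.SP
open MvPolynomial NumberField Pool.DynLehmer Pool.DynLehmer.SB
open scoped Classical

namespace JetwAux

variable {A B : Type} [CommRing A] [CommRing B] {p s : ℕ} {ι : Type} [Fintype ι] [DecidableEq ι]

theorem ev_act (Φ : GF A p s ι) (χ : A →+* B) (u : ι → B) (G : MvPolynomial ι A) :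
    eval₂ χ ((Φ.map χ).act u) G = eval₂ χ u (bind₁ Φ.F G) := by
  have h1 := eval₂Hom_bind₁ χ u Φ.F G
  simp only [coe_eval₂Hom] at h1
  rw [h1]
  congr 1
  funext i
  rw [GF.act, GF.map_F, eval_map]

theorem ev_act_iter (Φ : GF A p s ι) (χ : A →+* B) (k : ℕ) (u : ι → B) (G : MvPolynomial ι A) :
    eval₂ χ ((Φ.map χ).act^[k] u) G = eval₂ χ u ((bind₁ Φ.F)^[k] G) := by
  induction k generalizing G with
  | zero => rfl
  | succ k ih => rw [Function.iterate_succ_apply', ev_act, ih, ← Function.iterate_succ_apply]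

end JetwAux

open JetwAux in
/-- JETW -/
theorem jetw : JetwStatement := by
  intro K _ _ p s ι _ _ _ v Φ hp hs hϖ hϖ0 k₀ hk₀ hφ F hΦF Ω _ _ x hx N _ _ _ w e h R hR hspec
    n κ T E hn hE hEk
  obtain ⟨a, u, ha, hau, hu⟩ := gexists_prim (w := w) hR
  set Ψ := Φ.map (toOW h) with hΨ
  have hev : ∀ (z : ι → OW w) (G : MvPolynomial ι (OW v)),
      ((eval₂ (toOW h) z G : OW w) : N) =
        aeval (fun l => (z l : N)) (map (OW v).subtype G) := by
    intro z G
    have h4 : ((eval₂ (toOW h) z G : OW w) : N) =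
        eval₂ ((OW w).subtype.comp (toOW h)) (fun l => (z l : N)) G := by
      have := eval₂_comp_left (OW w).subtype (toOW h) z G
      exact this
    rw [h4, aeval_def, eval₂_map]
    rfl
  have h0 : ∀ G ∈ RingHom.ker (evO v x), eval₂ (toOW h) u G = 0 := by
    intro G hG
    have h1 : aeval x (map (OW v).subtype G) = 0 := by
      rw [RingHom.mem_ker] at hG
      rw [aeval_def, eval₂_map]
      exact hG
    have h2 : ∀ d, aeval (fun l => (u l : N))
        (homogeneousComponent d (map (OW v).subtype G)) = 0 := by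
      intro d
      have h3 := hspec _ (hx _ h1 d)
      rw [hau, aeval_smul_hom (homogeneousComponent_isHomogeneous d _)] at h3
      exact (mul_eq_zero.1 h3).resolve_left (pow_ne_zero _ ha)
    apply Subtype.val_injective
    rw [hev, ← sum_homogeneousComponent (map (OW v).subtype G), map_sum]
    exact Finset.sum_eq_zero fun d _ => h2 d
  have hstep : ∀ i : ℕ, ∀ G ∈ RingHom.ker (evO v x),
      (toOW h Φ.ϖ) ∣ eval₂ (toOW h) (Ψ.act^[k₀ * i] u) G := by
    intro i
    induction i with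
    | zero =>
      intro G hG
      rw [mul_zero, Function.iterate_zero, id, h0 G hG]
      exact dvd_zero _
    | succ i ih =>
      intro G hG
      obtain ⟨H, hH⟩ := hφ G
      have e1 : Ψ.act^[k₀ * (i + 1)] u = Ψ.act^[k₀] (Ψ.act^[k₀ * i] u) := by
        rw [← Function.iterate_add_apply]
        congr 2
        ring
      rw [e1, hΨ, ev_act_iter, hH, eval₂_add, eval₂_mul, eval₂_C, eval₂_pow]
      have hQ : (p ^ s) ^ k₀ ≠ 0 := pow_ne_zero _ (pow_ne_zero _ hp.ne_zero)
      exact dvd_add ((ih G hG).trans (dvd_pow_self _ hQ)) (Dvd.intro _ rfl)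
  set z := Ψ.act^[k₀ * n] u with hz
  have hmem : eval₂Hom (toOW h) z E ∈ Ideal.span {(toOW h Φ.ϖ) ^ κ} := by
    rw [← Ideal.span_singleton_pow]
    have h1 : Ideal.map (eval₂Hom (toOW h) z) (RingHom.ker (evO v x)) ≤
        Ideal.span {toOW h Φ.ϖ} := by
      rw [Ideal.map_le_iff_le_comap]
      intro G hG
      rw [Ideal.mem_comap, Ideal.mem_span_singleton]
      exact hstep n G hG
    have h2 := Ideal.mem_map_of_mem (eval₂Hom (toOW h) z) hEk
    rw [Ideal.map_pow] at h2
    exact Ideal.pow_right_mono h1 κ h2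
  rw [Ideal.mem_span_singleton] at hmem
  obtain ⟨c, hc⟩ := hmem
  have hact : (Φ.map (toN v N)).act = gAct F N := gact_eq_aeval Φ F hΦF N
  have h4 : (gAct F N)^[k₀ * n] R = (a ^ ((p ^ s) ^ (k₀ * n))) • fun l => ((z l : OW w) : N) := by
    rw [← hact, hau, GF.act_iter_smul, ← gcoe_act_iter Φ h]
  obtain ⟨l, hl⟩ := prim_act_iter Φ h hϖ (k₀ * n) u hu
  have h5 : w ((gAct F N)^[k₀ * n] R l) = w (a ^ ((p ^ s) ^ (k₀ * n))) := by
    rw [h4]
    simp only [Pi.smul_apply, smul_eq_mul, map_mul]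
    rw [hz, hl, mul_one]
  have h6 : aeval ((gAct F N)^[k₀ * n] R) (map (OW v).subtype E) =
      (a ^ ((p ^ s) ^ (k₀ * n))) ^ T * (((toOW h Φ.ϖ) ^ κ * c : OW w) : N) := by
    rw [h4, aeval_smul_hom (hE.map _), ← hev, ← hc]
    rfl
  rw [h6, map_mul, map_pow, mul_comm]
  refine mul_le_mul ?_ ?_ (pow_nonneg (apply_nonneg w _) _) (pow_nonneg (apply_nonneg w _) _)
  · rw [Subring.coe_mul, Subring.coe_pow, map_mul, map_pow, toOW_coe]
    exact mul_le_of_le_one_right (pow_nonneg (apply_nonneg w _) _) c.2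
  · refine pow_le_pow_left₀ (apply_nonneg w _) ?_ T
    rw [← h5]
    exact Finite.le_ciSup (fun l => w ((gAct F N)^[k₀ * n] R l)) l

end Pool.DynLehmer.SP
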