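import Pool.Agent.Lib.MP_2194ec_nt.SP.Jetw

set_option autoImplicit false

/-!
# Module LOCW: symmetric closeness of the levels
-/

namespace Pool.DynLehmer.SP
open MvPolynomial NumberField Pool.DynLehmer Pool.DynLehmer.SB
open scoped Classical

open JetwAux in
/-- LOCW -/
theorem locw : NilStatement → WlemStatement → LocwStatement := by
  intro hnil hwlem K _ _ p s ι _ _ _ v Φ hp hs hϖ hϖ0 hϖ1 k₀ hk₀ hφ F hΦF Ω _ _ x W U m hx hWU
    n₀ n hn₀ hn G T hG hGv hG0 N _ _ _ w e h R hR hspec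
  -- lift the form to the valuation ring
  obtain ⟨G', hG'⟩ : ∃ G' : MvPolynomial ι (OW v), map (OW v).subtype G' = G := by
    refine ⟨∑ t ∈ G.support, monomial t ⟨coeff t G, hGv t⟩, ?_⟩
    rw [map_sum]
    conv_rhs => rw [G.as_sum]
    refine Finset.sum_congr rfl fun t _ => ?_
    rw [map_monomial]
    rfl
  -- the endomorphism
  let f₀ : MvPolynomial ι (OW v) →+* MvPolynomial ι (OW v) :=
    ((bind₁ Φ.F : MvPolynomial ι (OW v) →ₐ[OW v] MvPolynomial ι (OW v)) :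
      MvPolynomial ι (OW v) →+* MvPolynomial ι (OW v))
  let φ : MvPolynomial ι (OW v) →+* MvPolynomial ι (OW v) := f₀ ^ k₀
  have hφ1 : ∀ G, φ G = (bind₁ Φ.F)^[k₀] G := by
    intro G
    have h1 : ⇑(f₀ ^ k₀) = (⇑f₀)^[k₀] := RingHom.coe_pow f₀ k₀
    change (f₀ ^ k₀) G = _
    rw [h1]
    rfl
  have hφ2 : ∀ (j : ℕ) G, φ^[j] G = (bind₁ Φ.F)^[k₀ * j] G := by
    intro j G
    rw [Function.iterate_mul]
    congr 1
  have hconst : ∀ (j : ℕ) (a : OW v), (bind₁ Φ.F)^[j] (C a) = C a := by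
    intro j a
    induction j with
    | zero => rfl
    | succ j ih => rw [Function.iterate_succ_apply', ih, bind₁_C_right]
  -- the residue characteristic
  have hq : 2 ≤ (p ^ s) ^ k₀ := by
    rw [← pow_mul]
    exact hp.two_le.trans (Nat.le_self_pow (Nat.mul_pos hs hk₀).ne' p)
  have hqc : (((p ^ s) ^ k₀ : ℕ) : MvPolynomial ι (OW v)) =
      C Φ.ϖ * C (Φ.c * ((p ^ (s * k₀ - 1) : ℕ) : OW v)) := by
    rw [← pow_mul]
    have h1 : p ^ (s * k₀) = p * p ^ (s * k₀ - 1) := by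
      rw [← pow_succ']
      congr 1
      have := Nat.mul_pos hs hk₀
      omega
    rw [h1, Nat.cast_mul, ← C_mul, ← mul_assoc, ← Φ.hp, C_mul]
    simp
  have hθϖ : evO v x (C Φ.ϖ) ≠ 0 := by
    have h1 : evO v x (C Φ.ϖ) = algebraMap K Ω (Φ.ϖ : K) := by
      unfold evO
      rw [coe_eval₂Hom, eval₂_C]
      rfl
    rw [h1]
    exact (map_ne_zero _).2 hϖ0
  have hnil' : ∀ (a b : MvPolynomial ι (OW v)) (M : ℕ),
      evO v x a ^ M = evO v x (C Φ.ϖ * b) → ∃ b' : MvPolynomial ι (OW v),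
        evO v x a ^ (((p ^ s) ^ k₀) ^ U) = evO v x (C Φ.ϖ * b') := by
    intro a b M hab
    obtain ⟨b', hb'⟩ := hnil K v Φ.ϖ hϖ hϖ0 hϖ1 Ω ι x W hx a b M hab
    refine ⟨b' * a ^ (((p ^ s) ^ k₀) ^ U - (2 * W) ^ Fintype.card ι), ?_⟩
    rw [← mul_assoc, map_mul (evO v x) (C Φ.ϖ * b'), ← hb', map_pow, ← pow_add,
      Nat.add_sub_cancel' hWU]
  have hact : (Φ.map ((algebraMap K Ω).comp (OW v).subtype)).act = gAct F Ω := by
    funext z i
    rw [GF.act, GF.map_F, eval_map]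
    change _ = aeval z (F i)
    rw [← hΦF i, aeval_def, eval₂_map]
  have hstart : evO v x (φ^[n₀] G') = 0 := by
    rw [hφ2]
    unfold evO
    rw [coe_eval₂Hom, ← ev_act_iter Φ ((algebraMap K Ω).comp (OW v).subtype) (k₀ * n₀) x G',
      hact]
    rw [← hG', aeval_def, eval₂_map] at hG0
    exact hG0
  obtain ⟨H, hH⟩ := hwlem (MvPolynomial ι (OW v)) Ω (C Φ.ϖ) _ ((p ^ s) ^ k₀) U m φ (evO v x)
    hq hqc (by rw [hφ1, hconst]) (fun G => by
      obtain ⟨H, hH⟩ := hφ G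
      exact ⟨H, by rw [hφ1, hH]⟩) hθϖ hnil' G' n₀ hn₀ hstart n hn
  -- evaluate at a primitive vector
  obtain ⟨a, u, ha, hau, hu⟩ := gexists_prim (w := w) hR
  set Ψ := Φ.map (toOW h) with hΨ
  have hev : ∀ (z : ι → OW w) (G : MvPolynomial ι (OW v)),
      ((eval₂ (toOW h) z G : OW w) : N) =
        aeval (fun l => (z l : N)) (map (OW v).subtype G) := by
    intro z G
    have h4 : ((eval₂ (toOW h) z G : OW w) : N) =
        eval₂ ((OW w).subtype.comp (toOW h)) (fun l => (z l : N)) G := by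
      have := eval₂_comp_left (OW w).subtype (toOW h) z G
      exact this
    rw [h4, aeval_def, eval₂_map]
    rfl
  have h0 : ∀ G, evO v x G = 0 → eval₂ (toOW h) u G = 0 := by
    intro G hG
    have h1 : aeval x (map (OW v).subtype G) = 0 := by
      rw [aeval_def, eval₂_map]
      exact hG
    have h2 : ∀ d, aeval (fun l => (u l : N))
        (homogeneousComponent d (map (OW v).subtype G)) = 0 := by
      intro d
      have h3 := hspec _ (hx.hom _ h1 d)
      rw [hau, aeval_smul_hom (homogeneousComponent_isHomogeneous d _)] at h3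
      exact (mul_eq_zero.1 h3).resolve_left (pow_ne_zero _ ha)
    apply Subtype.val_injective
    rw [hev, ← sum_homogeneousComponent (map (OW v).subtype G), map_sum]
    exact Finset.sum_eq_zero fun d _ => h2 d
  set z := Ψ.act^[k₀ * n] u with hz
  have hzG : eval₂ (toOW h) z G' = (toOW h Φ.ϖ) ^ (m + 1) * eval₂ (toOW h) u H := by
    have h1 : evO v x (φ^[n] G' - C Φ.ϖ ^ (m + 1) * H) = 0 := by
      rw [map_sub, hH, sub_self]
    have h2 := h0 _ h1
    rw [eval₂_sub, eval₂_mul, eval₂_pow, eval₂_C, sub_eq_zero] at h2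
    rw [← h2, hφ2, hz, hΨ, ev_act_iter]
  have hact' : (Φ.map (toN v N)).act = gAct F N := gact_eq_aeval Φ F hΦF N
  have h4 : (gAct F N)^[k₀ * n] R = (a ^ ((p ^ s) ^ (k₀ * n))) • fun l => ((z l : OW w) : N) := by
    rw [← hact', hau, GF.act_iter_smul, ← gcoe_act_iter Φ h]
  obtain ⟨l, hl⟩ := prim_act_iter Φ h hϖ (k₀ * n) u hu
  have h5 : w ((gAct F N)^[k₀ * n] R l) = w (a ^ ((p ^ s) ^ (k₀ * n))) := by
    rw [h4]
    simp only [Pi.smul_apply, smul_eq_mul, map_mul]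
    rw [hz, hl, mul_one]
  have h6 : aeval ((gAct F N)^[k₀ * n] R) G =
      (a ^ ((p ^ s) ^ (k₀ * n))) ^ T *
        (((toOW h Φ.ϖ) ^ (m + 1) * eval₂ (toOW h) u H : OW w) : N) := by
    rw [h4, aeval_smul_hom hG, ← hzG, hev, hG']
  rw [h6, map_mul, map_pow, mul_comm]
  refine mul_le_mul ?_ ?_ (pow_nonneg (apply_nonneg w _) _) (pow_nonneg (apply_nonneg w _) _)
  · rw [Subring.coe_mul, Subring.coe_pow, map_mul, map_pow, toOW_coe]
    exact mul_le_of_le_one_right (pow_nonneg (apply_nonneg w _) _) (eval₂ (toOW h) u H).2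
  · refine pow_le_pow_left₀ (apply_nonneg w _) ?_ T
    rw [← h5]
    exact Finite.le_ciSup (fun l => w ((gAct F N)^[k₀ * n] R l)) l

end Pool.DynLehmer.SP
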