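import Pool.Agent.Lib.MP_2194ec_nt.SP.Curve

set_option autoImplicit false
set_option linter.unusedSectionVars false

/-!
# Module NIL: nilpotency exponents (helper72)
-/

namespace Pool.DynLehmer.SP
open MvPolynomial NumberField Pool.DynLehmer Pool.DynLehmer.SB
open scoped Classical

namespace NilAux

/-! ### commutative algebra -/

/-- Cayley-Hamilton for a family containing one -/
theorem cayley {R B : Type} [CommRing R] [CommRing B] [IsDomain B] (f : R →+* B) {r : ℕ}
    (m : Fin r → B) {j₀ : Fin r} (hm : m j₀ = 1) (a : B)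
    (h : ∀ j, ∃ c : Fin r → R, a * m j = ∑ i, f (c i) * m i) :
    ∃ P : Polynomial R, P.Monic ∧ P.natDegree = r ∧ Polynomial.eval₂ f a P = 0 := by
  have : Nontrivial R := by
    by_contra hcon
    rw [not_nontrivial_iff_subsingleton] at hcon
    have h1 : (1 : R) = 0 := Subsingleton.elim _ _
    have h2 := congrArg f h1
    rw [map_one, map_zero] at h2
    exact one_ne_zero h2
  choose c hc using h
  let N : Matrix (Fin r) (Fin r) R := Matrix.of c
  refine ⟨N.charpoly, Matrix.charpoly_monic _, by rw [Matrix.charpoly_natDegree_eq_dim,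
    Fintype.card_fin], ?_⟩
  have h1 : Polynomial.eval₂ f a N.charpoly = (Matrix.scalar (Fin r) a - N.map f).det := by
    rw [← Matrix.eval_charpoly, Matrix.charpoly_map, Polynomial.eval_map]
  rw [h1]
  refine Matrix.exists_mulVec_eq_zero_iff.1 ⟨m, ?_, ?_⟩
  · intro h0
    rw [h0] at hm
    exact zero_ne_one hm
  · funext j
    rw [Matrix.sub_mulVec, Pi.sub_apply, Pi.zero_apply, sub_eq_zero]
    have h2 : (Matrix.scalar (Fin r) a).mulVec m = fun i => a * m i := by
      funext i
      rw [Matrix.scalar_apply, Matrix.mulVec_diagonal]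
    rw [h2]
    change a * m j = _
    rw [hc j]
    rfl

/-- the key step: the powers of an element which is nilpotent modulo a prime -/
theorem key {R B : Type} [CommRing R] [IsDomain R] [IsIntegrallyClosed R] [CommRing B]
    [IsDomain B] [Algebra R B] (hinj : Function.Injective (algebraMap R B)) {p : R}
    (hp : Prime p) {a b : B} {M r : ℕ} (hab : a ^ M = algebraMap R B p * b)
    (hb : IsIntegral R b) {P : Polynomial R} (hP : P.Monic) (hPr : P.natDegree = r)
    (hPa : Polynomial.aeval a P = 0) :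
    ∃ q : Polynomial R, a ^ r = algebraMap R B p * Polynomial.aeval a q := by
  have htf : Module.IsTorsionFree R B := by
    have := (faithfulSMul_iff_algebraMap_injective R B).2 hinj
    infer_instance
  have ha : IsIntegral R a := ⟨P, hP, hPa⟩
  obtain ⟨h, hh, hhb⟩ := hb
  have hhb' : Polynomial.aeval b h = 0 := hhb
  set n := h.natDegree with hn
  -- a monic polynomial congruent to a power of the variable
  set Q : Polynomial R := ∑ i ∈ Finset.range (n + 1),
    Polynomial.C (p ^ (n - i) * h.coeff i) * Polynomial.X ^ (M * i) with hQ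
  have hQa : Polynomial.aeval a Q = 0 := by
    have h1 : Polynomial.aeval a Q = algebraMap R B p ^ n * Polynomial.aeval b h := by
      rw [Polynomial.aeval_eq_sum_range (p := h), hQ, map_sum, Finset.mul_sum]
      refine Finset.sum_congr rfl fun i hi => ?_
      have hi' : i ≤ n := by
        rw [Finset.mem_range] at hi
        omega
      have h2 : algebraMap R B p ^ n = algebraMap R B p ^ (n - i) * algebraMap R B p ^ i := by
        rw [← pow_add]
        congr 1
        omega
      rw [map_mul, Polynomial.aeval_C, map_pow, Polynomial.aeval_X, pow_mul, hab, mul_pow, h2,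
        map_mul, map_pow, Algebra.smul_def]
      ring
    rw [h1, hhb', mul_zero]
  set π : R →+* R ⧸ Ideal.span {p} := Ideal.Quotient.mk _ with hπ
  have hprime : (Ideal.span {p}).IsPrime := (Ideal.span_singleton_prime hp.ne_zero).2 hp
  have hdom : IsDomain (R ⧸ Ideal.span {p}) := Ideal.Quotient.isDomain _
  have hπp : π p = 0 := Ideal.Quotient.eq_zero_iff_mem.2 (Ideal.mem_span_singleton_self p)
  have hQmap : Q.map π = Polynomial.X ^ (M * n) := by
    rw [hQ, Polynomial.map_sum, Finset.sum_range_succ, Finset.sum_eq_zero, zero_add]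
    · rw [Polynomial.map_mul, Polynomial.map_C, Polynomial.map_pow, Polynomial.map_X,
        Nat.sub_self, pow_zero, one_mul]
      have h1 : h.coeff n = 1 := hh
      rw [h1, map_one, map_one, one_mul]
    · intro i hi
      rw [Finset.mem_range] at hi
      have h1 : n - i ≠ 0 := by omega
      rw [Polynomial.map_mul, Polynomial.map_C, map_mul, map_pow, hπp, zero_pow h1, zero_mul,
        map_zero, zero_mul]
  -- the minimal polynomial
  set m := minpoly R a with hm
  have hmmon : m.Monic := minpoly.monic ha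
  have hmQ : m ∣ Q := minpoly.isIntegrallyClosed_dvd ha hQa
  have hmP : m ∣ P := minpoly.isIntegrallyClosed_dvd ha hPa
  have hmr : m.natDegree ≤ r := by
    rw [← hPr]
    exact Polynomial.natDegree_le_of_dvd hmP hP.ne_zero
  have hmmap : m.map π = Polynomial.X ^ m.natDegree := by
    have h1 : m.map π ∣ Polynomial.X ^ (M * n) := by
      rw [← hQmap]
      exact Polynomial.map_dvd π hmQ
    obtain ⟨i, -, hi⟩ := (dvd_prime_pow Polynomial.prime_X _).1 h1
    have h2 : m.map π = Polynomial.X ^ i :=
      Polynomial.eq_of_monic_of_associated (hmmon.map π) (Polynomial.monic_X_pow i) hi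
    have h3 := congrArg Polynomial.natDegree h2
    rw [hmmon.natDegree_map, Polynomial.natDegree_X_pow] at h3
    rw [h2, ← h3]
  -- division by the prime
  have hdiv : ∀ k, p ∣ (Polynomial.X ^ m.natDegree - m).coeff k := by
    intro k
    rw [← Ideal.mem_span_singleton, ← Ideal.Quotient.eq_zero_iff_mem]
    have h1 : (Polynomial.X ^ m.natDegree - m).map π = 0 := by
      rw [Polynomial.map_sub, hmmap, Polynomial.map_pow, Polynomial.map_X, sub_self]
    have h2 := congrArg (fun f => Polynomial.coeff f k) h1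
    simpa [Polynomial.coeff_map] using h2
  obtain ⟨q, hq⟩ := (Polynomial.C_dvd_iff_dvd_coeff p _).2 hdiv
  refine ⟨Polynomial.X ^ (r - m.natDegree) * q, ?_⟩
  have h3 : Polynomial.aeval a m = 0 := minpoly.aeval R a
  have h4 := congrArg (Polynomial.aeval a) hq
  rw [map_sub, h3, sub_zero, map_pow, Polynomial.aeval_X, map_mul, Polynomial.aeval_C] at h4
  have h5 : r = (r - m.natDegree) + m.natDegree := by omega
  conv_lhs => rw [h5]
  rw [pow_add, h4, map_mul, map_pow, Polynomial.aeval_X]
  ring

/-! ### algebraic independence -/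

theorem indep {A B : Type} [CommRing A] [IsDomain A] [CommRing B] [IsDomain B] [Algebra A B]
    (hAB : Function.Injective (algebraMap A B)) {σ : Type} (y : σ → B) (z : Fin 2 → B)
    (hz : ∀ i, z i ∈ Algebra.adjoin A (Set.range y))
    (hy : ∃ u : Fin 2 → σ, AlgebraicIndependent A fun i => y (u i))
    (halg : ∀ a ∈ Algebra.adjoin A (Set.range y), ∃ lam : A, lam ≠ 0 ∧
      ∃ P : Polynomial (MvPolynomial (Fin 2) A), P.Monic ∧
        Polynomial.eval₂ (aeval z : MvPolynomial (Fin 2) A →ₐ[A] B).toRingHom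
          (algebraMap A B lam * a) P = 0) :
    AlgebraicIndependent A z := by
  set 𝔅 := Algebra.adjoin A (Set.range y) with h𝔅
  let z' : Fin 2 → 𝔅 := fun i => ⟨z i, hz i⟩
  obtain ⟨u, hu⟩ := hy
  let y' : Fin 2 → 𝔅 := fun i => ⟨y (u i), Algebra.subset_adjoin ⟨u i, rfl⟩⟩
  have hval : Function.Injective 𝔅.val := Subtype.val_injective
  have hy' : AlgebraicIndependent A y' := by
    have h1 : AlgebraicIndependent A (𝔅.val ∘ y') := hu
    exact h1.of_comp 𝔅.val
  have hfs : FaithfulSMul A 𝔅 := by
    refine (faithfulSMul_iff_algebraMap_injective A 𝔅).2 fun a b hab => hAB ?_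
    exact congrArg Subtype.val hab
  have hle : Cardinal.mk (Fin 2) ≤ Algebra.trdeg A 𝔅 := hy'.cardinalMk_le_trdeg
  have hz' : AlgebraicIndependent A z' := by
    have hal : Algebra.IsAlgebraic (Algebra.adjoin A (Set.range z')) 𝔅 := by
      refine ⟨fun a => ?_⟩
      obtain ⟨lam, hlam, P, hP, hPa⟩ := halg a.1 a.2
      have hmem : ∀ p : MvPolynomial (Fin 2) A, aeval z' p ∈ Algebra.adjoin A (Set.range z') := by
        intro p
        rw [Algebra.adjoin_range_eq_range_aeval]
        exact ⟨p, rfl⟩
      let g : MvPolynomial (Fin 2) A →ₐ[A] Algebra.adjoin A (Set.range z') :=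
        (aeval z').codRestrict _ hmem
      have hg : ∀ p, 𝔅.val (algebraMap (Algebra.adjoin A (Set.range z')) 𝔅 (g p)) =
          aeval z p := by
        intro p
        exact DFunLike.congr_fun (comp_aeval z' 𝔅.val) p
      have h1 : IsIntegral (Algebra.adjoin A (Set.range z'))
          (algebraMap A (Algebra.adjoin A (Set.range z')) lam • a) := by
        refine ⟨P.map g.toRingHom, hP.map _, hval ?_⟩
        rw [Polynomial.eval₂_map, map_zero, ← hPa]
        have h2 := Polynomial.hom_eval₂ P
          ((algebraMap (Algebra.adjoin A (Set.range z')) 𝔅).comp g.toRingHom)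
          (𝔅.val : 𝔅 →+* B) (algebraMap A (Algebra.adjoin A (Set.range z')) lam • a)
        refine h2.trans ?_
        congr 1
        exact RingHom.ext hg
      have : IsDomain (Algebra.adjoin A (Set.range z')) := inferInstance
      refine IsAlgebraic.of_smul_isIntegral ?_ h1
      rintro ⟨k, hk⟩
      rw [← map_pow] at hk
      have h3 : algebraMap A B (lam ^ k) = 0 := by
        have h4 := congrArg (fun b : Algebra.adjoin A (Set.range z') => ((b : 𝔅) : B)) hk
        exact h4
      rw [map_eq_zero_iff _ hAB] at h3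
      exact pow_ne_zero k hlam h3
    exact (Algebra.IsAlgebraic.isTranscendenceBasis_of_le_trdeg_of_finite A z' hle).1
  have h3 := hz'.map' hval
  exact h3

/-! ### two algebraically independent coordinates -/

theorem hom_two_eq_zero {K Ω : Type} [Field K] [Field Ω] [Algebra K Ω] {a b : Ω} (hb : b ≠ 0)
    (htr : Transcendental K (a / b)) {h : MvPolynomial (Fin 2) K} {d : ℕ}
    (hh : h.IsHomogeneous d) (h0 : aeval ![a, b] h = 0) : h = 0 := by
  have h1 : aeval ![a, b] h = b ^ d * aeval ![a / b, 1] h := by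
    have h2 := eval_smul_hom (hh.map (algebraMap K Ω)) b ![a / b, 1]
    have h3 : b • ![a / b, (1 : Ω)] = ![a, b] := by
      funext i
      fin_cases i
      · simp [mul_div_cancel₀ _ hb]
      · simp
    rw [h3, eval_map, eval_map] at h2
    exact h2
  rw [h1] at h0
  have h2 : aeval ![a / b, 1] h = 0 := (mul_eq_zero.1 h0).resolve_left (pow_ne_zero _ hb)
  set f : Polynomial K := aeval ![Polynomial.X, 1] h with hf
  have h3 : Polynomial.aeval (a / b) f = 0 := by
    have h4 := DFunLike.congr_fun (comp_aeval ![Polynomial.X, (1 : Polynomial K)]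
      (Polynomial.aeval (a / b))) h
    have h5 : Polynomial.aeval (a / b) f =
        aeval (fun i => Polynomial.aeval (a / b) (![Polynomial.X, (1 : Polynomial K)] i)) h := h4
    rw [h5, ← h2]
    congr 2
    funext i
    fin_cases i
    · simp
    · simp
  have h4 : f = 0 := by
    by_contra hne
    exact htr ⟨f, hne, h3⟩
  -- the coefficients
  ext m
  rw [coeff_zero]
  by_contra hm
  have hdeg : ∀ m : Fin 2 →₀ ℕ, coeff m h ≠ 0 → m 0 + m 1 = d := by
    intro m hm
    have h5 : m.degree = d := by
      by_contra hne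
      exact hm (hh.coeff_eq_zero hne)
    rw [Finsupp.degree_eq_sum, Fin.sum_univ_two] at h5
    exact h5
  have h5 : f.coeff (m 0) = coeff m h := by
    rw [hf, aeval_def, eval₂_eq', Polynomial.finsetSum_coeff]
    have h6 : ∀ m' : Fin 2 →₀ ℕ, (algebraMap K (Polynomial K) (coeff m' h) *
        ∏ i, (![Polynomial.X, (1 : Polynomial K)] i) ^ m' i).coeff (m 0) =
        if m 0 = m' 0 then coeff m' h else 0 := by
      intro m'
      rw [Fin.prod_univ_two]
      have h7 : (![Polynomial.X, (1 : Polynomial K)] 0) ^ m' 0 *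
          (![Polynomial.X, (1 : Polynomial K)] 1) ^ m' 1 = Polynomial.X ^ m' 0 := by
        simp
      rw [h7, Polynomial.algebraMap_eq, Polynomial.coeff_C_mul_X_pow]
    rw [Finset.sum_eq_single m]
    · rw [h6, if_pos rfl]
    · intro m' hm' hne
      rw [h6, if_neg]
      intro h7
      have h8 := hdeg m' (mem_support_iff.1 hm')
      have h9 := hdeg m hm
      refine hne (Finsupp.ext fun k => ?_)
      fin_cases k
      · exact h7.symm
      · change m' 1 = m 1
        omega
    · intro hm'
      exact absurd (mem_support_iff.2 hm) hm'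
  rw [h4, Polynomial.coeff_zero] at h5
  exact hm h5.symm

theorem two_indep {K : Type} [Field K] {Ω : Type} [Field Ω] [Algebra K Ω] {ι : Type} [Fintype ι]
    {x : ι → Ω} (hom : HomRel K x) (low : ∀ T, T + 1 ≤ HW K x T) :
    ∃ u : Fin 2 → ι, AlgebraicIndependent K fun i => x (u i) := by
  have hj : ∃ j, x j ≠ 0 := by
    by_contra hcon
    push Not at hcon
    have h1 : VW K x 1 ≤ ⊥ := by
      have h2 := CurveAux.VW_le (K := K) (y := x)
        (fun T => if T = 0 then (⊤ : Submodule K Ω) else ⊥) (by simp)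
        (fun T k a _ => by
          change x k * a ∈ (if T + 1 = 0 then (⊤ : Submodule K Ω) else ⊥)
          rw [if_neg (Nat.succ_ne_zero T), hcon k, zero_mul]
          exact Submodule.zero_mem _) 1
      simpa using h2
    have h2 := low 1
    rw [HW, le_bot_iff.1 h1, finrank_bot] at h2
    omega
  obtain ⟨j, hj⟩ := hj
  have hi : ∃ i, Transcendental K (x i / x j) := by
    by_contra hcon
    push Not at hcon
    have hcon' : ∀ i, IsAlgebraic K (x i / x j) := fun i => by
      by_contra h
      exact hcon i h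
    set E := IntermediateField.adjoin K (Set.range fun i => x i / x j) with hE
    have hfin : FiniteDimensional K E := by
      refine IntermediateField.finiteDimensional_adjoin ?_
      rintro _ ⟨i, rfl⟩
      exact (hcon' i).isIntegral
    have hle : ∀ T, VW K x T ≤ (Subalgebra.toSubmodule E.toSubalgebra).map
        (LinearMap.mulLeft K (x j ^ T)) := by
      refine CurveAux.VW_le (K := K) (y := x) (fun T => (Subalgebra.toSubmodule
        E.toSubalgebra).map (LinearMap.mulLeft K (x j ^ T))) ?_ ?_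
      · exact ⟨1, E.one_mem, by simp⟩
      · rintro T k _ ⟨e, he, rfl⟩
        refine ⟨x k / x j * e, E.mul_mem (IntermediateField.subset_adjoin K _ ⟨k, rfl⟩) he, ?_⟩
        rw [LinearMap.mulLeft_apply, LinearMap.mulLeft_apply, pow_succ]
        field_simp
    set D := Module.finrank K E with hD
    have h1 := low D
    have h2 : HW K x D ≤ D := by
      have : Module.Finite K (Subalgebra.toSubmodule E.toSubalgebra) := hfin
      have h3 : Module.finrank K ((Subalgebra.toSubmodule E.toSubalgebra).map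
          (LinearMap.mulLeft K (x j ^ D))) ≤
          Module.finrank K (Subalgebra.toSubmodule E.toSubalgebra) :=
        Submodule.finrank_map_le _ _
      exact (Submodule.finrank_mono (hle D)).trans h3
    omega
  obtain ⟨i, hi⟩ := hi
  have hij : i ≠ j := by
    rintro rfl
    rw [div_self hj] at hi
    exact hi isAlgebraic_one
  refine ⟨![i, j], ?_⟩
  have hfun : (fun k => x (![i, j] k)) = ![x i, x j] := by
    funext k
    fin_cases k <;> rfl
  rw [algebraicIndependent_iff]
  intro g hg
  have h1 : aeval x (rename ![i, j] g) = 0 := by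
    rw [aeval_rename]
    exact hg
  have h2 : ∀ d, homogeneousComponent d g = 0 := by
    intro d
    have h3 := hom _ h1 d
    rw [← rename_homogeneousComponent, aeval_rename] at h3
    have h4 : aeval ![x i, x j] (homogeneousComponent d g) = 0 := by
      rw [← hfun]
      exact h3
    exact hom_two_eq_zero hj hi (homogeneousComponent_isHomogeneous d g) h4
  rw [← sum_homogeneousComponent g]
  exact Finset.sum_eq_zero fun d _ => h2 d

/-! ### coefficients of the powers of the extra variable -/

section coeff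

variable {O Ω : Type} [CommRing O] [CommRing Ω] {σ : Type}

/-- the coefficient of the `k`-th power of the extra variable -/
noncomputable def cf (k : ℕ) (g : MvPolynomial σ (Polynomial O)) : MvPolynomial σ O :=
  ∑ m ∈ g.support, monomial m ((coeff m g).coeff k)

theorem coeff_cf (k : ℕ) (g : MvPolynomial σ (Polynomial O)) (m : σ →₀ ℕ) :
    coeff m (cf k g) = (coeff m g).coeff k := by
  rw [cf, coeff_sum]
  simp only [coeff_monomial]
  rw [Finset.sum_ite_eq']
  split_ifs with h
  · rfl
  · rw [notMem_support_iff.1 h, Polynomial.coeff_zero]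

/-- evaluation of polynomials with coefficients in `O[τ]` -/
noncomputable def ev (φ : O →+* Ω) (x : σ → Ω) :
    MvPolynomial σ (Polynomial O) →+* Polynomial Ω :=
  eval₂Hom (Polynomial.mapRingHom φ) fun i => Polynomial.C (x i)

theorem ev_C (φ : O →+* Ω) (x : σ → Ω) (a : Polynomial O) : ev φ x (C a) = a.map φ :=
  eval₂_C _ _ a

theorem ev_X (φ : O →+* Ω) (x : σ → Ω) (i : σ) : ev φ x (X i) = Polynomial.C (x i) :=
  eval₂_X _ _ i

theorem coeff_ev (φ : O →+* Ω) (x : σ → Ω) (g : MvPolynomial σ (Polynomial O)) (k : ℕ) :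
    (ev φ x g).coeff k = eval₂ φ x (cf k g) := by
  have h1 : ev φ x g = eval₂ (Polynomial.mapRingHom φ) (fun i => Polynomial.C (x i)) g := rfl
  rw [h1, eval₂_eq, Polynomial.finsetSum_coeff, cf, eval₂_sum]
  refine Finset.sum_congr rfl fun m _ => ?_
  have h2 : ∏ i ∈ m.support, (Polynomial.C (x i)) ^ m i =
      Polynomial.C (∏ i ∈ m.support, x i ^ m i) := by
    rw [map_prod]
    exact Finset.prod_congr rfl fun i _ => (map_pow _ _ _).symm
  rw [h2, Polynomial.coeff_mul_C, eval₂_monomial, Polynomial.coe_mapRingHom,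
    Polynomial.coeff_map]
  rfl

/-- the constant polynomials -/
theorem ev_map_C (φ : O →+* Ω) (x : σ → Ω) (a : MvPolynomial σ O) :
    ev φ x (map Polynomial.C a) = Polynomial.C (eval₂ φ x a) := by
  have h : (ev φ x).comp (map Polynomial.C) = Polynomial.C.comp (eval₂Hom φ x) := by
    refine ringHom_ext (fun a => ?_) fun i => ?_
    · rw [RingHom.comp_apply, RingHom.comp_apply, map_C, ev_C, Polynomial.map_C]
      congr 1
      exact (eval₂_C _ _ a).symm
    · rw [RingHom.comp_apply, RingHom.comp_apply, map_X, ev_X]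
      congr 1
      exact (eval₂_X _ _ i).symm
  exact DFunLike.congr_fun h a

theorem ev_inj {φ : O →+* Ω} {x : σ → Ω}
    (h : ∀ g : MvPolynomial σ O, eval₂ φ x g = 0 → g = 0)
    {g : MvPolynomial σ (Polynomial O)} (hg : ev φ x g = 0) : g = 0 := by
  ext m k
  have h1 : cf k g = 0 := h _ (by rw [← coeff_ev, hg, Polynomial.coeff_zero])
  rw [← coeff_cf, h1, coeff_zero, coeff_zero, Polynomial.coeff_zero]

end coeff

/-! ### the generic statement -/

section main

variable {O Ω : Type} [CommRing O] [IsDomain O] [UniqueFactorizationMonoid O] [Field Ω]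

/-- the relations between three linear forms -/
def RelF (φ : O →+* Ω) (p : O) {σ : Type} (x : σ → Ω) (s : ℕ) : Prop :=
  ∀ l : Fin 3 → MvPolynomial σ (Polynomial O), (∀ i, (l i).IsHomogeneous 1) →
    ∃ g : MvPolynomial (Fin 3) (Polynomial O), g.IsHomogeneous s ∧
      (∃ t, coeff t g ∉ Ideal.span {Polynomial.C p}) ∧ ev φ x (aeval l g) = 0

theorem generic (hN : NnStatement) (φ : O →+* Ω) (hφ : Function.Injective φ) {p : O}
    (hp : Prime p) (hunit : ∀ a : O, ¬ p ∣ a → IsUnit a) {s n : ℕ} (hs : 1 ≤ s)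
    (x : Fin (n + 2) → Ω) (hrel : RelF φ p x s)
    (hind : ∃ u : Fin 2 → Fin (n + 2), ∀ h : MvPolynomial (Fin 2) O,
      eval₂ φ (fun i => x (u i)) h = 0 → h = 0)
    (a b : MvPolynomial (Fin (n + 2)) O) (M : ℕ)
    (hab : eval₂ φ x a ^ M = φ p * eval₂ φ x b) :
    ∃ b' : MvPolynomial (Fin (n + 2)) O, eval₂ φ x a ^ (s ^ n) = φ p * eval₂ φ x b' := by
  let alg : Algebra (Polynomial O) (Polynomial Ω) := (Polynomial.mapRingHom φ).toAlgebra
  have halg : ∀ c : Polynomial O, algebraMap (Polynomial O) (Polynomial Ω) c = c.map φ :=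
    fun c => rfl
  have hinj : Function.Injective (algebraMap (Polynomial O) (Polynomial Ω)) :=
    Polynomial.map_injective φ hφ
  set y : Fin (n + 2) → Polynomial Ω := fun k => Polynomial.C (x k) with hy
  set I : Ideal (Polynomial O) := Ideal.span {Polynomial.C p} with hI
  have hpC : Prime (Polynomial.C p) := Polynomial.prime_C_iff.2 hp
  have hIp : I.IsPrime := (Ideal.span_singleton_prime hpC.ne_zero).2 hpC
  have hIinf : Infinite (Polynomial O ⧸ I) := by
    refine Infinite.of_injective (fun k : ℕ => Ideal.Quotient.mk I (Polynomial.X ^ k)) ?_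
    intro k k' hk
    by_contra hne
    rw [Ideal.Quotient.eq, Ideal.mem_span_singleton, Polynomial.C_dvd_iff_dvd_coeff] at hk
    have h1 := hk k
    rw [Polynomial.coeff_sub, Polynomial.coeff_X_pow, Polynomial.coeff_X_pow, if_pos rfl,
      if_neg hne, sub_zero] at h1
    exact hp.not_isUnit (isUnit_of_dvd_one h1)
  -- evaluation is the algebra evaluation
  have hev : ∀ g : MvPolynomial (Fin (n + 2)) (Polynomial O), ev φ x g = aeval y g :=
    fun g => rfl
  have hlin : ∀ w ∈ Submodule.span (Polynomial O) (Set.range y),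
      ∃ l : MvPolynomial (Fin (n + 2)) (Polynomial O), l.IsHomogeneous 1 ∧ ev φ x l = w := by
    intro w hw
    obtain ⟨c, hc⟩ := (Submodule.mem_span_range_iff_exists_fun (Polynomial O)).1 hw
    refine ⟨∑ k, C (c k) * X k, IsHomogeneous.sum _ _ _ fun k _ =>
      isHomogeneous_C_mul_X _ k, ?_⟩
    rw [map_sum, ← hc]
    refine Finset.sum_congr rfl fun k _ => ?_
    rw [map_mul, ev_C, ev_X, Algebra.smul_def, halg]
  obtain ⟨z, lam, m, hz, hlam, ⟨j₀, hj₀⟩, hfin⟩ := hN (Polynomial O) (Polynomial Ω) I hIp hIinf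
    s n y hs (by
      intro w hw
      choose l hl hlw using fun i => hlin (w i) (hw i)
      obtain ⟨g, hg, ht, h0⟩ := hrel l hl
      refine ⟨g, hg, ht, ?_⟩
      rw [hev] at h0
      have h1 := DFunLike.congr_fun (comp_aeval l
        (aeval y : MvPolynomial (Fin (n + 2)) (Polynomial O) →ₐ[Polynomial O] Polynomial Ω)) g
      have h2 : aeval y (aeval l g) = aeval (fun i => aeval y (l i)) g := h1
      rw [h0] at h2
      rw [h2]
      congr 2
      funext i
      exact (hlw i).symm)
  have hlam0 : lam ≠ 0 := by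
    rintro rfl
    exact hlam (Ideal.zero_mem _)
  have hzad : ∀ i, z i ∈ Algebra.adjoin (Polynomial O) (Set.range y) := fun i =>
    Algebra.span_le_adjoin _ _ (hz i)
  -- the ring of the two elements
  let θ : MvPolynomial (Fin 2) (Polynomial O) →ₐ[Polynomial O] Polynomial Ω := aeval z
  have hcay : ∀ w ∈ Algebra.adjoin (Polynomial O) (Set.range y), ∃ k₀ : ℕ, ∀ k, k₀ ≤ k →
      ∃ P : Polynomial (MvPolynomial (Fin 2) (Polynomial O)), P.Monic ∧
        P.natDegree = s ^ n ∧ Polynomial.eval₂ θ.toRingHom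
          (algebraMap (Polynomial O) (Polynomial Ω) (lam ^ k) * w) P = 0 := by
    intro w hw
    obtain ⟨k₀, hk₀⟩ := hfin w hw
    refine ⟨k₀, fun k hk => ?_⟩
    refine cayley θ.toRingHom m hj₀ _ fun j => ?_
    obtain ⟨c, hc⟩ := (Submodule.mem_span_range_iff_exists_fun _).1 (hk₀ j)
    have hrange : ∀ u ∈ Algebra.adjoin (Polynomial O) (Set.range z),
        ∃ q : MvPolynomial (Fin 2) (Polynomial O), θ q = u := by
      intro u hu
      rw [Algebra.adjoin_range_eq_range_aeval] at hu
      exact hu
    choose q hq using fun i => hrange _ (c i).2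
    refine ⟨fun i => C (lam ^ (k - k₀)) * q i, ?_⟩
    have h2 : algebraMap (Polynomial O) (Polynomial Ω) (lam ^ k) =
        algebraMap (Polynomial O) (Polynomial Ω) (lam ^ (k - k₀)) *
          algebraMap (Polynomial O) (Polynomial Ω) (lam ^ k₀) := by
      rw [← map_mul, ← pow_add]
      congr 2
      omega
    rw [h2, mul_assoc, mul_assoc]
    have h3 : algebraMap (Polynomial O) (Polynomial Ω) (lam ^ k₀) * (w * m j) =
        lam ^ k₀ • (w * m j) := (Algebra.smul_def _ _).symm
    rw [h3, ← hc, Finset.mul_sum]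
    refine Finset.sum_congr rfl fun i _ => ?_
    have h4 : θ.toRingHom (C (lam ^ (k - k₀)) * q i) =
        algebraMap (Polynomial O) (Polynomial Ω) (lam ^ (k - k₀)) * (c i : Polynomial Ω) := by
      rw [map_mul]
      congr 1
      · exact aeval_C _ _
      · exact hq i
    rw [h4, mul_assoc]
    rfl
  -- algebraic independence
  have hindA : AlgebraicIndependent (Polynomial O) z := by
    refine indep hinj y z hzad ?_ ?_
    · obtain ⟨u, hu⟩ := hind
      refine ⟨u, ?_⟩
      rw [algebraicIndependent_iff]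
      intro g hg
      exact ev_inj (x := fun i => x (u i)) hu hg
    · intro w hw
      obtain ⟨k₀, hk₀⟩ := hcay w hw
      obtain ⟨P, hP, -, hPw⟩ := hk₀ k₀ le_rfl
      exact ⟨lam ^ k₀, pow_ne_zero _ hlam0, P, hP, hPw⟩
  have hθ : Function.Injective θ := hindA
  have hmemC : ∀ c : MvPolynomial (Fin (n + 2)) O,
      Polynomial.C (eval₂ φ x c) ∈ Algebra.adjoin (Polynomial O) (Set.range y) := by
    intro c
    rw [← ev_map_C, hev, Algebra.adjoin_range_eq_range_aeval]
    exact ⟨_, rfl⟩
  obtain ⟨ka, hka⟩ := hcay _ (hmemC a)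
  obtain ⟨kb, hkb⟩ := hcay _ (hmemC (a * b))
  set k := max ka kb with hk
  have hab1 : eval₂ φ x a ^ (M + 1) = φ p * eval₂ φ x (a * b) := by
    rw [pow_succ, hab, eval₂_mul]
    ring
  obtain ⟨P, hP, hPr, hPa⟩ := hka k (le_max_left _ _)
  obtain ⟨P', hP', -, hPb⟩ := hkb (k * (M + 1)) (by
    refine (le_max_right ka kb).trans ?_
    exact Nat.le_mul_of_pos_right _ (Nat.succ_pos _))
  let algR : Algebra (MvPolynomial (Fin 2) (Polynomial O)) (Polynomial Ω) :=
    θ.toRingHom.toAlgebra
  have hθp : algebraMap (MvPolynomial (Fin 2) (Polynomial O)) (Polynomial Ω)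
      (C (Polynomial.C p)) = Polynomial.C (φ p) := by
    have h1 : algebraMap (MvPolynomial (Fin 2) (Polynomial O)) (Polynomial Ω)
      (C (Polynomial.C p)) = θ (C (Polynomial.C p)) := rfl
    have h2 : θ (C (Polynomial.C p)) = algebraMap (Polynomial O) (Polynomial Ω)
      (Polynomial.C p) := aeval_C _ _
    rw [h1, h2, halg, Polynomial.map_C]
  obtain ⟨q, hq⟩ := key (R := MvPolynomial (Fin 2) (Polynomial O)) (B := Polynomial Ω) hθ
    (p := C (Polynomial.C p)) ((MvPolynomial.prime_C_iff (Fin 2)).2 hpC)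
    (a := algebraMap (Polynomial O) (Polynomial Ω) (lam ^ k) * Polynomial.C (eval₂ φ x a))
    (b := algebraMap (Polynomial O) (Polynomial Ω) (lam ^ (k * (M + 1))) *
      Polynomial.C (eval₂ φ x (a * b))) (M := M + 1) (r := s ^ n) (by
        rw [mul_pow, ← map_pow, ← pow_mul, ← map_pow, hab1, hθp, map_mul]
        ring) ⟨P', hP', hPb⟩ hP hPr hPa
  -- everything comes from polynomials
  choose l hl hlz using fun i => hlin (z i) (hz i)
  have hcomp : (ev φ x).comp (aeval l : MvPolynomial (Fin 2) (Polynomial O) →ₐ[Polynomial O]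
      MvPolynomial (Fin (n + 2)) (Polynomial O)).toRingHom = θ.toRingHom := by
    refine ringHom_ext (fun c => ?_) fun i => ?_
    · have h1 : (aeval l : MvPolynomial (Fin 2) (Polynomial O) →ₐ[Polynomial O]
        MvPolynomial (Fin (n + 2)) (Polynomial O)).toRingHom (C c) = C c := aeval_C _ _
      have h2 : θ.toRingHom (C c) = algebraMap (Polynomial O) (Polynomial Ω) c := aeval_C _ _
      rw [RingHom.comp_apply, h1, h2, ev_C, halg]
    · have h1 : (aeval l : MvPolynomial (Fin 2) (Polynomial O) →ₐ[Polynomial O]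
        MvPolynomial (Fin (n + 2)) (Polynomial O)).toRingHom (X i) = l i := aeval_X _ _
      have h2 : θ.toRingHom (X i) = z i := aeval_X _ _
      rw [RingHom.comp_apply, h1, h2, hlz]
  set A' : MvPolynomial (Fin (n + 2)) (Polynomial O) := C (lam ^ k) * map Polynomial.C a with hA'
  have hA'ev : ev φ x A' = algebraMap (Polynomial O) (Polynomial Ω) (lam ^ k) *
      Polynomial.C (eval₂ φ x a) := by
    rw [hA', map_mul, ev_C, ev_map_C, halg]
  set BB := Polynomial.eval₂ (aeval l : MvPolynomial (Fin 2) (Polynomial O) →ₐ[Polynomial O]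
    MvPolynomial (Fin (n + 2)) (Polynomial O)).toRingHom A' q with hBB
  have hBBev : ev φ x BB = Polynomial.aeval (algebraMap (Polynomial O) (Polynomial Ω)
      (lam ^ k) * Polynomial.C (eval₂ φ x a)) q := by
    rw [hBB, Polynomial.hom_eval₂, hcomp, hA'ev]
    rfl
  rw [← hBBev, hθp, mul_pow, ← map_pow, ← map_pow, halg] at hq
  -- a unit coefficient
  have hlamk : (lam ^ k) ^ s ^ n ∉ I := by
    intro h1
    exact hlam (hIp.mem_of_pow_mem _ (hIp.mem_of_pow_mem _ h1))
  rw [hI, Ideal.mem_span_singleton, Polynomial.C_dvd_iff_dvd_coeff] at hlamk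
  push Not at hlamk
  obtain ⟨j, hj⟩ := hlamk
  obtain ⟨u, hu⟩ := (hunit _ hj).exists_left_inv
  refine ⟨C u * cf j BB, ?_⟩
  have h5 := congrArg (fun f : Polynomial Ω => f.coeff j) hq
  simp only [Polynomial.coeff_mul_C, Polynomial.coeff_C_mul, Polynomial.coeff_map] at h5
  rw [coeff_ev] at h5
  rw [eval₂_mul, eval₂_C]
  calc eval₂ φ x a ^ s ^ n = φ (u * ((lam ^ k) ^ s ^ n).coeff j) * eval₂ φ x a ^ s ^ n := by
        rw [hu, map_one, one_mul]
    _ = φ u * (φ (((lam ^ k) ^ s ^ n).coeff j) * eval₂ φ x a ^ s ^ n) := by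
        rw [map_mul, mul_assoc]
    _ = φ p * (φ u * eval₂ φ x (cf j BB)) := by
        rw [h5]
        ring

end main

/-! ### the valuation ring -/

section val

variable {K : Type} [Field K] [NumberField K] {v : FinitePlace K}

theorem isUnit_of_eq_one {x : OW v} (hx : v (x : K) = 1) : IsUnit x := by
  have h0 : (x : K) ≠ 0 := by
    intro h
    rw [h, map_zero] at hx
    exact zero_ne_one hx
  refine IsUnit.of_mul_eq_one (⟨(x : K)⁻¹, ?_⟩ : OW v) ?_
  · rw [mem_OW, map_inv₀, hx, inv_one]
  · exact Subtype.ext (mul_inv_cancel₀ h0)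

theorem not_isUnit_of_lt {x : OW v} (hx : v (x : K) < 1) : ¬ IsUnit x := by
  rintro ⟨u, rfl⟩
  have h1 : ((u : OW v) : K) * ((u⁻¹ : (OW v)ˣ) : OW v) = 1 := by
    have h2 := congrArg Subtype.val u.mul_inv
    exact h2
  have h2 := congrArg v h1
  rw [map_mul, map_one] at h2
  have h3 : v (((u⁻¹ : (OW v)ˣ) : OW v) : K) ≤ 1 := ((u⁻¹ : (OW v)ˣ) : OW v).2
  have h4 : 0 ≤ v ((u : OW v) : K) := apply_nonneg v _
  have h5 : 0 ≤ v (((u⁻¹ : (OW v)ˣ) : OW v) : K) := apply_nonneg v _
  nlinarith

theorem dvd_of_le {x y : OW v} (hx : (x : K) ≠ 0) (h : v (y : K) ≤ v (x : K)) : x ∣ y := by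
  refine ⟨⟨(y : K) / x, ?_⟩, ?_⟩
  · rw [mem_OW, map_div₀]
    exact div_le_one_of_le₀ h (apply_nonneg v _)
  · exact Subtype.ext (mul_div_cancel₀ _ hx).symm

theorem unit_of_not_dvd {ϖ : OW v} (h0 : (ϖ : K) ≠ 0)
    (h2 : ∀ a : K, v a < 1 → v a ≤ v (ϖ : K)) {a : OW v} (ha : ¬ ϖ ∣ a) : IsUnit a := by
  refine isUnit_of_eq_one (le_antisymm a.2 ?_)
  by_contra hcon
  push Not at hcon
  exact ha (dvd_of_le h0 (h2 _ hcon))

theorem irr {ϖ : OW v} (h1 : v (ϖ : K) < 1) (h0 : (ϖ : K) ≠ 0)
    (h2 : ∀ a : K, v a < 1 → v a ≤ v (ϖ : K)) : Irreducible ϖ := by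
  have hpos : 0 < v (ϖ : K) := (apply_nonneg v _).lt_of_ne (fun h => h0 ((map_eq_zero v).1 h.symm))
  refine ⟨not_isUnit_of_lt h1, ?_⟩
  · intro a b hab
    by_contra hcon
    push Not at hcon
    have ha : ϖ ∣ a := by
      by_contra h
      exact hcon.1 (unit_of_not_dvd h0 h2 h)
    have hb : ϖ ∣ b := by
      by_contra h
      exact hcon.2 (unit_of_not_dvd h0 h2 h)
    have hv : ∀ c : OW v, ϖ ∣ c → v (c : K) ≤ v (ϖ : K) := by
      rintro _ ⟨c, rfl⟩
      rw [Subring.coe_mul, map_mul]
      exact mul_le_of_le_one_right hpos.le c.2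
    have h3 : v (ϖ : K) = v (a : K) * v (b : K) := by
      conv_lhs => rw [hab]
      rw [Subring.coe_mul, map_mul]
    have h4 := hv a ha
    have h5 := hv b hb
    have h6 : 0 ≤ v (a : K) := apply_nonneg v _
    nlinarith

theorem hasUnit {ϖ : OW v} (h1 : v (ϖ : K) < 1) (h0 : (ϖ : K) ≠ 0)
    (h2 : ∀ a : K, v a < 1 → v a ≤ v (ϖ : K)) :
    IsDiscreteValuationRing.HasUnitMulPowIrreducibleFactorization (OW v) := by
  have hpos : 0 < v (ϖ : K) := (apply_nonneg v _).lt_of_ne (fun h => h0 ((map_eq_zero v).1 h.symm))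
  refine ⟨ϖ, irr h1 h0 h2, ?_⟩
  · have key : ∀ N : ℕ, ∀ x : OW v, v (ϖ : K) ^ N < v (x : K) → ∃ n : ℕ, Associated (ϖ ^ n) x := by
      intro N
      induction N with
      | zero =>
        intro x hx
        rw [pow_zero] at hx
        exact absurd x.2 (not_le.2 hx)
      | succ N ih =>
        intro x hx
        by_cases hd : ϖ ∣ x
        · obtain ⟨y, rfl⟩ := hd
          rw [Subring.coe_mul, map_mul, pow_succ'] at hx
          obtain ⟨n, hn⟩ := ih y (lt_of_mul_lt_mul_left hx hpos.le)
          refine ⟨n + 1, ?_⟩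
          rw [pow_succ']
          exact hn.mul_left ϖ
        · refine ⟨0, ?_⟩
          rw [pow_zero]
          exact (associated_one_iff_isUnit.2 (unit_of_not_dvd h0 h2 hd)).symm
    intro x hx
    have hx0 : 0 < v (x : K) := (apply_nonneg v _).lt_of_ne (fun h =>
      hx (Subtype.ext ((map_eq_zero v).1 h.symm)))
    obtain ⟨N, hN⟩ := exists_pow_lt_of_lt_one hx0 h1
    exact key N x hN

end val

end NilAux

open NilAux in
/-- NIL: nilpotency exponents modulo the uniformizer on a curve -/
theorem nil (nn : NnStatement) (rel : RelStatement) : NilStatement := by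
  intro K _ _ v ϖ h1 h0 h2 Ω _ _ ι _ x W hx a b M hab
  have hufd : UniqueFactorizationMonoid (OW v) :=
    (hasUnit h1 h0 h2).toUniqueFactorizationMonoid
  have hϖ : Prime ϖ := (irr h1 h0 h2).prime
  have hW : 1 ≤ W := by
    have h3 := (hx.low 0).trans (hx.up 0)
    omega
  obtain ⟨u, hu⟩ := two_indep hx.hom hx.low
  have hcard : 2 ≤ Fintype.card ι := by
    have h3 := Fintype.card_le_of_injective u (Function.Injective.of_comp hu.injective)
    rwa [Fintype.card_fin] at h3
  obtain ⟨n, hn⟩ : ∃ n, Fintype.card ι = n + 2 := ⟨Fintype.card ι - 2, by omega⟩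
  let e : Fin (n + 2) ≃ ι := (Fintype.equivFinOfCardEq hn).symm
  set φ : OW v →+* Ω := (algebraMap K Ω).comp (OW v).subtype with hφ
  have hφi : Function.Injective φ :=
    (algebraMap K Ω).injective.comp Subtype.val_injective
  set s := 2 * W with hs
  set E := s ^ Fintype.card ι with hE
  have hrel : RelF φ ϖ (x ∘ e) s := by
    intro l hl
    refine rel K v ϖ h1 h0 h2 Ω (Fin (n + 2)) (x ∘ e) s ?_ l hl
    rw [CurveAux.HW_comp]
    have h3 := hx.up s
    nlinarith
  have hind : ∃ u : Fin 2 → Fin (n + 2), ∀ h : MvPolynomial (Fin 2) (OW v),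
      eval₂ φ (fun i => (x ∘ e) (u i)) h = 0 → h = 0 := by
    refine ⟨fun i => e.symm (u i), fun h hh => ?_⟩
    have h3 : (fun i => (x ∘ e) (e.symm (u i))) = fun i => x (u i) := by
      funext i
      rw [Function.comp_apply, Equiv.apply_symm_apply]
    rw [h3] at hh
    have h4 : aeval (fun i => x (u i)) (map (OW v).subtype h) = 0 := by
      rw [aeval_def, eval₂_map]
      exact hh
    have h5 : map (OW v).subtype h = 0 := (algebraicIndependent_iff.1 hu) _ h4
    exact map_injective _ Subtype.val_injective (h5.trans (map_zero _).symm)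
  have hre : ∀ g : MvPolynomial ι (OW v),
      eval₂ φ (x ∘ e) (rename e.symm g) = eval₂ φ x g := by
    intro g
    rw [eval₂_rename]
    congr 1
    funext i
    rw [Function.comp_apply, Function.comp_apply, Equiv.apply_symm_apply]
  have hre2 : ∀ g : MvPolynomial (Fin (n + 2)) (OW v),
      eval₂ φ x (rename e g) = eval₂ φ (x ∘ e) g := fun g => eval₂_rename _ _ _ _
  have hab' : eval₂ φ x a ^ M = φ ϖ * eval₂ φ x b := by
    have h3 : evO v x (C ϖ * b) = φ ϖ * eval₂ φ x b := by
      rw [map_mul]
      congr 1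
      exact eval₂_C _ _ _
    rw [← h3]
    exact hab
  obtain ⟨b₀, hb₀⟩ := generic nn φ hφi hϖ (fun a ha => unit_of_not_dvd h0 h2 ha) (s := s)
    (n := n) (by omega) (x ∘ e) hrel hind (rename e.symm a) (rename e.symm b) M (by
      rw [hre, hre]
      exact hab')
  rw [hre, ← hre2] at hb₀
  refine ⟨rename e b₀ * a ^ (E - s ^ n), ?_⟩
  have h3 : s ^ n ≤ E := Nat.pow_le_pow_right (by omega) (by omega)
  have h4 : evO v x (C ϖ * (rename e b₀ * a ^ (E - s ^ n))) =
      φ ϖ * (eval₂ φ x (rename e b₀) * eval₂ φ x a ^ (E - s ^ n)) := by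
    rw [map_mul, map_mul, map_pow]
    congr 1
    exact eval₂_C _ _ _
  rw [h4, ← mul_assoc, ← hb₀, ← pow_add]
  congr 1
  omega

end Pool.DynLehmer.SP
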