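import Pool.Agent.Lib.MP_2194ec_nt.SP.Iface

set_option autoImplicit false

/-!
# Module NN: normalisation over a domain with a prime ideal of infinite index (helper12)
-/

namespace Pool.DynLehmer.SP
open MvPolynomial NumberField Pool.DynLehmer Pool.DynLehmer.SB
open scoped Classical

namespace NNAux

/-- homogeneity, evaluated -/
theorem aeval_smul {R S σ : Type} [CommRing R] [CommRing S] [Algebra R S]
    (h : MvPolynomial σ R) {s : ℕ} (hs : h.IsHomogeneous s) (c : S) (x : σ → S) :
    aeval (fun i => c * x i) h = c ^ s * aeval x h := by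
  rw [aeval_def, aeval_def, eval₂_eq, eval₂_eq, Finset.mul_sum]
  refine Finset.sum_congr rfl fun t ht => ?_
  have h1 : ∑ i ∈ t.support, t i = s := by
    rw [← Finsupp.degree_apply]
    exact (hs.degree_eq_sum_deg_support ht).symm
  have h2 : ∏ i ∈ t.support, (c * x i) ^ t i = c ^ s * ∏ i ∈ t.support, x i ^ t i := by
    rw [← h1, ← Finset.prod_pow_eq_pow_sum, ← Finset.prod_mul_distrib]
    exact Finset.prod_congr rfl fun i _ => mul_pow _ _ _
  rw [h2]
  ring

/-- a non zero form has a point with last coordinate one at which it does not vanish -/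
theorem exists_point {D : Type} [CommRing D] [IsDomain D] [Infinite D]
    (h : MvPolynomial (Fin 3) D) {s : ℕ} (hs : h.IsHomogeneous s) (h0 : h ≠ 0) :
    ∃ c : Fin 3 → D, c 2 = 1 ∧ eval c h ≠ 0 := by
  by_contra hcon
  push Not at hcon
  let F := FractionRing D
  let G : MvPolynomial (Fin 2) D := aeval ![X 0, X 1, 1] h
  have hG : G = 0 := by
    refine MvPolynomial.funext fun c => ?_
    rw [map_zero]
    have h1 : (aeval c : MvPolynomial (Fin 2) D →ₐ[D] D) G =
        (aeval ![c 0, c 1, 1] : MvPolynomial (Fin 3) D →ₐ[D] D) h := by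
      have h2 := MvPolynomial.comp_aeval_apply (R := D) (f := ![X 0, X 1, 1])
        (aeval c : MvPolynomial (Fin 2) D →ₐ[D] D) h
      change (aeval c : MvPolynomial (Fin 2) D →ₐ[D] D) (aeval ![X 0, X 1, 1] h) = _
      rw [h2]
      congr 2
      funext i
      fin_cases i <;> simp
    have h3 := hcon ![c 0, c 1, 1] rfl
    rw [← MvPolynomial.coe_aeval_eq_eval] at h3 ⊢
    change (aeval c : MvPolynomial (Fin 2) D →ₐ[D] D) G = 0
    rw [h1]
    exact h3
  have hinj : Function.Injective (algebraMap D F) := IsFractionRing.injective D F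
  have : Infinite F := Infinite.of_injective _ hinj
  have h3 : ∀ c : Fin 3 → F, c 2 ≠ 0 → aeval c h = 0 := by
    intro c hc
    have h4 : c = fun i => c 2 * (![c 0 / c 2, c 1 / c 2, 1] : Fin 3 → F) i := by
      funext i
      fin_cases i
      · simp [mul_div_cancel₀ _ hc]
      · simp [mul_div_cancel₀ _ hc]
      · simp
    rw [h4, aeval_smul h hs]
    have h5 : aeval (![c 0 / c 2, c 1 / c 2, 1] : Fin 3 → F) h =
        aeval (![c 0 / c 2, c 1 / c 2] : Fin 2 → F) G := by
      have h6 := MvPolynomial.comp_aeval_apply (R := D) (f := ![X 0, X 1, 1])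
        (aeval (![c 0 / c 2, c 1 / c 2] : Fin 2 → F) : MvPolynomial (Fin 2) D →ₐ[D] F) h
      change _ = (aeval (![c 0 / c 2, c 1 / c 2] : Fin 2 → F) :
        MvPolynomial (Fin 2) D →ₐ[D] F) (aeval ![X 0, X 1, 1] h)
      rw [h6]
      congr 2
      funext i
      fin_cases i <;> simp
    rw [h5, hG, map_zero, mul_zero]
  have h7 : map (algebraMap D F) h * X 2 = 0 := by
    refine MvPolynomial.funext fun c => ?_
    rw [map_zero, map_mul, eval_X, eval_map, ← aeval_def]
    by_cases hc : c 2 = 0
    · rw [hc, mul_zero]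
    · rw [h3 c hc, zero_mul]
  have h8 : map (algebraMap D F) h = 0 := by
    rcases mul_eq_zero.1 h7 with h9 | h9
    · exact h9
    · exact absurd h9 (X_ne_zero _)
  apply h0
  apply map_injective _ hinj
  rw [h8, map_zero]

/-- the point is in `A` and its value is not in the prime ideal -/
theorem exists_pointI {A : Type} [CommRing A] (I : Ideal A) [I.IsPrime] [Infinite (A ⧸ I)]
    (g : MvPolynomial (Fin 3) A) {s : ℕ} (hs : g.IsHomogeneous s) (h : ∃ t, coeff t g ∉ I) :
    ∃ c0 c1 : A, eval ![c0, c1, 1] g ∉ I := by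
  obtain ⟨t, ht⟩ := h
  have h1 : map (Ideal.Quotient.mk I) g ≠ 0 := by
    intro h0
    apply ht
    rw [← Ideal.Quotient.eq_zero_iff_mem, ← coeff_map, h0, coeff_zero]
  obtain ⟨c, hc2, hc⟩ := exists_point (map (Ideal.Quotient.mk I) g) (hs.map _) h1
  obtain ⟨c0, h0⟩ := Ideal.Quotient.mk_surjective (c 0)
  obtain ⟨c1, h1⟩ := Ideal.Quotient.mk_surjective (c 1)
  refine ⟨c0, c1, fun hmem => hc ?_⟩
  rw [← Ideal.Quotient.eq_zero_iff_mem] at hmem
  rw [eval_map]
  have h2 : c = (Ideal.Quotient.mk I) ∘ ![c0, c1, 1] := by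
    funext i
    fin_cases i
    · exact h0.symm
    · exact h1.symm
    · simp [hc2]
  have h3 := eval₂_comp_left (Ideal.Quotient.mk I) (RingHom.id A) ![c0, c1, 1] g
  rw [RingHom.comp_id, eval₂_id, hmem] at h3
  rw [h2]
  exact h3.symm

section mono
variable {A Ω : Type} [CommRing A] [CommRing Ω] [Algebra A Ω] (B : Subalgebra A Ω)

/-- the span of the small powers -/
noncomputable def low (T : Ω) (a : ℕ) : Submodule B Ω :=
  Submodule.span B ((fun i => T ^ i) '' {i | i < a})

theorem low_mono (T : Ω) {a b : ℕ} (h : a ≤ b) : low B T a ≤ low B T b :=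
  Submodule.span_mono (Set.image_mono fun _ hi => lt_of_lt_of_le hi h)

theorem low_mul (T : Ω) {a : ℕ} {v : Ω} (h : v ∈ low B T a) : T * v ∈ low B T (a + 1) := by
  induction h using Submodule.span_induction with
  | mem x hx =>
    obtain ⟨i, hi, rfl⟩ := hx
    refine Submodule.subset_span ⟨i + 1, Nat.succ_lt_succ hi, ?_⟩
    change T ^ (i + 1) = T * T ^ i
    ring
  | zero => rw [mul_zero]; exact Submodule.zero_mem _
  | add x y _ _ hx hy => rw [mul_add]; exact Submodule.add_mem _ hx hy
  | smul c x _ hx => rw [mul_smul_comm]; exact Submodule.smul_mem _ _ hx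

theorem low_step {T : Ω} {a : ℕ} {γ v : Ω} (hγ : γ ∈ B) (h : v - γ * T ^ a ∈ low B T a)
    {x c : Ω} (hx : x ∈ B) (hc : c ∈ B) :
    (x + c * T) * v - (c * γ) * T ^ (a + 1) ∈ low B T (a + 1) := by
  have h1 : (x + c * T) * v - (c * γ) * T ^ (a + 1) =
      (⟨x, hx⟩ : B) • (v - γ * T ^ a) + (⟨x, hx⟩ * ⟨γ, hγ⟩ : B) • T ^ a +
        (⟨c, hc⟩ : B) • (T * (v - γ * T ^ a)) := by
    change _ = x * (v - γ * T ^ a) + (x * γ) * T ^ a + c * (T * (v - γ * T ^ a))
    ring
  rw [h1]
  refine Submodule.add_mem _ (Submodule.add_mem _ ?_ ?_) ?_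
  · exact Submodule.smul_mem _ _ (low_mono B T (Nat.le_succ a) h)
  · exact Submodule.smul_mem _ _ (Submodule.subset_span ⟨a, Nat.lt_succ_self a, rfl⟩)
  · exact Submodule.smul_mem _ _ (low_mul B T h)

theorem low_pow {T : Ω} {x c : Ω} (hx : x ∈ B) (hc : c ∈ B) (n : ℕ) :
    ∀ {a : ℕ} {γ v : Ω}, γ ∈ B → v - γ * T ^ a ∈ low B T a →
    (x + c * T) ^ n * v - (c ^ n * γ) * T ^ (a + n) ∈ low B T (a + n) := by
  induction n with
  | zero =>
    intro a γ v hγ h
    simpa using h
  | succ n ih =>
    intro a γ v hγ h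
    have h1 := ih (B.mul_mem hc hγ) (low_step B hγ h hx hc)
    have h2 : (x + c * T) ^ (n + 1) * v - (c ^ (n + 1) * γ) * T ^ (a + (n + 1)) =
      (x + c * T) ^ n * ((x + c * T) * v) - (c ^ n * (c * γ)) * T ^ (a + 1 + n) := by
      ring
    have h3 : a + (n + 1) = a + 1 + n := by omega
    rw [h2, h3]
    exact h1

/-- the relation, expanded -/
theorem low_rel (g : MvPolynomial (Fin 3) A) {s : ℕ} (hs : g.IsHomogeneous s) {T x0 x1 : Ω}
    (c0 c1 : A) (hx0 : x0 ∈ B) (hx1 : x1 ∈ B)
    (h0 : aeval ![x0 + algebraMap A Ω c0 * T, x1 + algebraMap A Ω c1 * T, T] g = 0) :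
    algebraMap A Ω (eval ![c0, c1, 1] g) * T ^ s ∈ low B T s := by
  have h1 : ∀ t ∈ g.support,
      (∏ i, (![x0 + algebraMap A Ω c0 * T, x1 + algebraMap A Ω c1 * T, T] : Fin 3 → Ω) i ^ t i) -
        algebraMap A Ω (∏ i, (![c0, c1, 1] : Fin 3 → A) i ^ t i) * T ^ s ∈ low B T s := by
    intro t ht
    have h2 : t 0 + t 1 + t 2 = s := by
      have h3 := hs.degree_eq_sum_deg_support ht
      rw [h3, Finset.sum_subset (Finset.subset_univ _), Fin.sum_univ_three]
      intro i _ hi
      exact Finsupp.notMem_support_iff.1 hi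
    have h4 : (1 : Ω) - 1 * T ^ 0 ∈ low B T 0 := by
      rw [pow_zero, mul_one, sub_self]
      exact Submodule.zero_mem _
    have h5 := low_pow B B.zero_mem B.one_mem (t 2) B.one_mem h4
    have h6 := low_pow B hx1 (B.algebraMap_mem c1) (t 1)
      (B.mul_mem (B.pow_mem B.one_mem _) B.one_mem) h5
    have h7 := low_pow B hx0 (B.algebraMap_mem c0) (t 0)
      (B.mul_mem (B.pow_mem (B.algebraMap_mem c1) _)
        (B.mul_mem (B.pow_mem B.one_mem _) B.one_mem)) h6
    have h8 : 0 + t 2 + t 1 + t 0 = s := by omega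
    rw [h8] at h7
    rw [Fin.prod_univ_three, Fin.prod_univ_three]
    simp only [Matrix.cons_val_zero, Matrix.cons_val_one, Matrix.cons_val]
    convert h7 using 1
    simp only [map_mul, map_pow, map_one]
    ring
  have h2 : algebraMap A Ω (eval ![c0, c1, 1] g) * T ^ s =
      - (aeval ![x0 + algebraMap A Ω c0 * T, x1 + algebraMap A Ω c1 * T, T] g -
        algebraMap A Ω (eval ![c0, c1, 1] g) * T ^ s) := by
    rw [h0]
    ring
  rw [h2]
  refine Submodule.neg_mem _ ?_
  rw [aeval_def, eval₂_eq', eval_eq', map_sum, Finset.sum_mul, ← Finset.sum_sub_distrib]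
  refine Submodule.sum_mem _ fun t ht => ?_
  have h3 := Submodule.smul_mem (low B T s) (algebraMap A B (coeff t g)) (h1 t ht)
  convert h3 using 1
  change _ = (algebraMap A Ω (coeff t g)) * _
  rw [map_mul]
  ring

end mono

/-- the inductive statement with an arbitrary index type -/
theorem main (A Ω : Type) [CommRing A] [CommRing Ω] [Algebra A Ω]
    (I : Ideal A) (hI : I.IsPrime) (hinf : Infinite (A ⧸ I)) (s : ℕ) (hs : 1 ≤ s) (n : ℕ) :
    ∀ y : Fin (n + 2) → Ω,
    (∀ z : Fin 3 → Ω, (∀ i, z i ∈ Submodule.span A (Set.range y)) →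
      ∃ g : MvPolynomial (Fin 3) A, g.IsHomogeneous s ∧ (∃ t, coeff t g ∉ I) ∧
        aeval z g = 0) →
    ∃ (z : Fin 2 → Ω) (lam : A) (J : Type) (_ : Fintype J) (m : J → Ω),
      Fintype.card J = s ^ n ∧
      (∀ i, z i ∈ Submodule.span A (Set.range y)) ∧ lam ∉ I ∧ (∃ j, m j = 1) ∧
      ∀ a ∈ Algebra.adjoin A (Set.range y), ∃ k : ℕ, ∀ j,
        lam ^ k • (a * m j) ∈ Submodule.span (Algebra.adjoin A (Set.range z)) (Set.range m) := by
  induction n with
  | zero =>
    intro y _
    refine ⟨y, 1, Unit, inferInstance, fun _ => 1, by simp, fun i => Submodule.subset_span ⟨i, rfl⟩,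
      fun h => hI.ne_top ((Ideal.eq_top_iff_one _).2 h), ⟨(), rfl⟩, fun a ha => ⟨0, fun j => ?_⟩⟩
    rw [pow_zero, one_smul]
    have h1 := Submodule.smul_mem (Submodule.span (Algebra.adjoin A (Set.range y))
      (Set.range fun _ : Unit => (1 : Ω))) (⟨a, ha⟩ : Algebra.adjoin A (Set.range y))
      (Submodule.subset_span ⟨(), rfl⟩)
    exact h1
  | succ n ih =>
    intro y hy
    let T : Ω := y (Fin.last (n + 2))
    obtain ⟨g, hg, hgI, hg0⟩ := hy ![y 0, y 1, T] (by
      intro i
      fin_cases i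
      · exact Submodule.subset_span ⟨0, rfl⟩
      · exact Submodule.subset_span ⟨1, rfl⟩
      · exact Submodule.subset_span ⟨Fin.last (n + 2), rfl⟩)
    obtain ⟨c0, c1, hc⟩ := exists_pointI I g hg hgI
    let c : Fin (n + 2) → A := fun i => if i = 0 then c0 else if i = 1 then c1 else 0
    let y' : Fin (n + 2) → Ω := fun i => y i.castSucc - algebraMap A Ω (c i) * T
    have hy'mem : ∀ i, y' i ∈ Submodule.span A (Set.range y) := by
      intro i
      refine Submodule.sub_mem _ (Submodule.subset_span ⟨_, rfl⟩) ?_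
      rw [← Algebra.smul_def]
      exact Submodule.smul_mem _ _ (Submodule.subset_span ⟨_, rfl⟩)
    have hspan : Submodule.span A (Set.range y') ≤ Submodule.span A (Set.range y) := by
      rw [Submodule.span_le]
      rintro _ ⟨i, rfl⟩
      exact hy'mem i
    obtain ⟨z, lam', J, instJ, m', hcard, hz, hlam', ⟨j0, hj0⟩, hm'⟩ := ih y' (fun z hz =>
      hy z fun i => hspan (hz i))
    let lam1 : A := eval ![c0, c1, 1] g
    let B := Algebra.adjoin A (Set.range z)
    let m : J × Fin s → Ω := fun p => m' p.1 * T ^ (p.2 : ℕ)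
    let S := Submodule.span B (Set.range m)
    let S' := Submodule.span B (Set.range m')
    have hS'S : ∀ x ∈ S', ∀ i < s, x * T ^ i ∈ S := by
      intro x hx i hi
      induction hx using Submodule.span_induction with
      | mem x hx =>
        obtain ⟨j, rfl⟩ := hx
        exact Submodule.subset_span ⟨(j, ⟨i, hi⟩), rfl⟩
      | zero => rw [zero_mul]; exact Submodule.zero_mem _
      | add x y _ _ hx hy => rw [add_mul]; exact Submodule.add_mem _ hx hy
      | smul c x _ hx => rw [smul_mul_assoc]; exact Submodule.smul_mem _ _ hx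
    have hAS : ∀ (a : A) (x : Ω), x ∈ S → a • x ∈ S := fun a x hx =>
      Submodule.smul_of_tower_mem S a hx
    have hAS' : ∀ (a : A) (x : Ω), x ∈ S' → a • x ∈ S' := fun a x hx =>
      Submodule.smul_of_tower_mem S' a hx
    let lam : A := lam1 * lam'
    -- enlarging the exponent
    have hup : ∀ (x : Ω) (k l : ℕ), k ≤ l → lam ^ k • x ∈ S → lam ^ l • x ∈ S := by
      intro x k l hkl hx
      obtain ⟨d, rfl⟩ := Nat.exists_eq_add_of_le hkl
      rw [pow_add, mul_comm, mul_smul]
      exact hAS _ _ hx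
    have hspanP : ∀ (a : Ω) (k : ℕ), (∀ p, lam ^ k • (a * m p) ∈ S) →
        ∀ x ∈ S, lam ^ k • (a * x) ∈ S := by
      intro a k ha x hx
      induction hx using Submodule.span_induction with
      | mem x hx =>
        obtain ⟨p, rfl⟩ := hx
        exact ha p
      | zero => rw [mul_zero, smul_zero]; exact Submodule.zero_mem _
      | add x y _ _ hx hy => rw [mul_add, smul_add]; exact Submodule.add_mem _ hx hy
      | smul c x _ hx =>
        rw [mul_smul_comm, smul_comm]
        exact Submodule.smul_mem _ _ hx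
    let P : Subalgebra A Ω :=
      { carrier := {a | ∃ k : ℕ, ∀ p, lam ^ k • (a * m p) ∈ S}
        mul_mem' := by
          rintro a b ⟨k, hk⟩ ⟨l, hl⟩
          refine ⟨k + l, fun p => ?_⟩
          have h1 := hspanP a k hk _ (hl p)
          rw [pow_add, mul_smul, mul_assoc, ← mul_smul_comm]
          exact h1
        add_mem' := by
          rintro a b ⟨k, hk⟩ ⟨l, hl⟩
          refine ⟨k + l, fun p => ?_⟩
          rw [add_mul, smul_add]
          exact Submodule.add_mem _ (hup _ k (k + l) (Nat.le_add_right _ _) (hk p))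
            (hup _ l (k + l) (Nat.le_add_left _ _) (hl p))
        algebraMap_mem' := by
          intro r
          refine ⟨0, fun p => ?_⟩
          rw [pow_zero, one_smul, ← Algebra.smul_def]
          exact hAS _ _ (Submodule.subset_span ⟨p, rfl⟩) }
    -- elements of the smaller algebra
    have hsmall : ∀ b ∈ Algebra.adjoin A (Set.range y'), ∃ k : ℕ, ∀ j, ∀ i < s,
        lam ^ k • (b * (m' j * T ^ i)) ∈ S := by
      intro b hb
      obtain ⟨k, hk⟩ := hm' b hb
      refine ⟨k, fun j i hi => ?_⟩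
      have h1 := hS'S _ (hk j) i hi
      have h2 := hAS (lam1 ^ k) _ h1
      have h3 : lam1 ^ k • (lam' ^ k • (b * m' j) * T ^ i) = lam ^ k • (b * (m' j * T ^ i)) := by
        rw [smul_mul_assoc, smul_smul, ← mul_pow, mul_assoc]
      rw [h3] at h2
      exact h2
    have hB'P : Algebra.adjoin A (Set.range y') ≤ P := by
      intro b hb
      obtain ⟨k, hk⟩ := hsmall b hb
      exact ⟨k, fun p => hk p.1 p.2 p.2.2⟩
    have hy'B : ∀ i, y' i ∈ Algebra.adjoin A (Set.range y') := fun i =>
      Algebra.subset_adjoin ⟨i, rfl⟩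
    have hrel : algebraMap A Ω lam1 * T ^ s ∈ low (Algebra.adjoin A (Set.range y')) T s := by
      refine low_rel (Algebra.adjoin A (Set.range y')) g hg c0 c1 (hy'B 0) (hy'B 1) ?_
      have h1 : (![y' 0 + algebraMap A Ω c0 * T, y' 1 + algebraMap A Ω c1 * T, T] : Fin 3 → Ω) =
          ![y 0, y 1, T] := by
        funext i
        fin_cases i
        · change y (Fin.castSucc 0) - algebraMap A Ω (c 0) * T + algebraMap A Ω c0 * T = y 0
          have h2 : c 0 = c0 := if_pos rfl
          rw [h2, Fin.castSucc_zero]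
          ring
        · change y (Fin.castSucc 1) - algebraMap A Ω (c 1) * T + algebraMap A Ω c1 * T = y 1
          have h2 : c 1 = c1 := by
            change (if (1 : Fin (n + 2)) = 0 then c0 else if (1 : Fin (n + 2)) = 1 then c1 else 0) = c1
            rw [if_neg (by simp), if_pos rfl]
          rw [h2]
          have h3 : (Fin.castSucc (1 : Fin (n + 2))) = 1 := rfl
          rw [h3]
          ring
        · rfl
      rw [h1]
      exact hg0
    -- the last coordinate
    have hlow : ∀ x ∈ low (Algebra.adjoin A (Set.range y')) T s, ∃ k : ℕ, ∀ j,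
        lam ^ k • (x * m' j) ∈ S := by
      intro x hx
      induction hx using Submodule.span_induction with
      | mem x hx =>
        obtain ⟨i, hi, rfl⟩ := hx
        refine ⟨0, fun j => ?_⟩
        rw [pow_zero, one_smul, mul_comm]
        exact Submodule.subset_span ⟨(j, ⟨i, hi⟩), rfl⟩
      | zero =>
        refine ⟨0, fun j => ?_⟩
        rw [zero_mul, smul_zero]
        exact Submodule.zero_mem _
      | add x y _ _ hx hy =>
        obtain ⟨k, hk⟩ := hx
        obtain ⟨l, hl⟩ := hy
        refine ⟨k + l, fun j => ?_⟩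
        rw [add_mul, smul_add]
        exact Submodule.add_mem _ (hup _ k (k + l) (Nat.le_add_right _ _) (hk j))
          (hup _ l (k + l) (Nat.le_add_left _ _) (hl j))
      | smul c x _ hx =>
        obtain ⟨k, hk⟩ := hx
        obtain ⟨l, hl⟩ := hB'P c.2
        refine ⟨l + k, fun j => ?_⟩
        have h1 := hspanP (c : Ω) l hl _ (hk j)
        have h2 : lam ^ (l + k) • (c • x * m' j) = lam ^ l • ((c : Ω) * lam ^ k • (x * m' j)) := by
          change lam ^ (l + k) • ((c : Ω) * x * m' j) = _
          rw [pow_add, mul_smul, mul_assoc, mul_smul_comm]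
        rw [h2]
        exact h1
    have hT : T ∈ P := by
      obtain ⟨k, hk⟩ := hlow _ hrel
      refine ⟨k + 1, fun p => ?_⟩
      obtain ⟨j, i, hi⟩ := p
      by_cases hi1 : i + 1 < s
      · refine hup _ 0 (k + 1) (Nat.zero_le _) ?_
        rw [pow_zero, one_smul]
        refine Submodule.subset_span ⟨(j, ⟨i + 1, hi1⟩), ?_⟩
        change m' j * T ^ (i + 1) = T * (m' j * T ^ i)
        ring
      · have his : i + 1 = s := by omega
        have h1 := hk j
        have h2 : lam ^ (k + 1) • (T * m (j, ⟨i, hi⟩)) =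
            lam' • (lam ^ k • (algebraMap A Ω lam1 * T ^ s * m' j)) := by
          change lam ^ (k + 1) • (T * (m' j * T ^ i)) = _
          rw [← his]
          simp only [Algebra.smul_def, map_pow]
          change algebraMap A Ω (lam1 * lam') ^ (k + 1) * _ =
            algebraMap A Ω lam' * (algebraMap A Ω (lam1 * lam') ^ k * _)
          rw [map_mul]
          ring
        rw [h2]
        exact hAS _ _ h1
    refine ⟨z, lam, J × Fin s, inferInstance, m, ?_, fun i => hspan (hz i), ?_,
      ⟨(j0, ⟨0, hs⟩), ?_⟩, ?_⟩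
    · rw [Fintype.card_prod, Fintype.card_fin, hcard, pow_succ]
    · intro hmem
      rcases hI.mem_or_mem hmem with h1 | h1
      · exact hc h1
      · exact hlam' h1
    · change m' j0 * T ^ 0 = 1
      rw [hj0, pow_zero, one_mul]
    · have h1 : Algebra.adjoin A (Set.range y) ≤ P := by
        refine Algebra.adjoin_le ?_
        rintro _ ⟨i, rfl⟩
        change y i ∈ P
        refine Fin.lastCases hT (fun i => ?_) i
        have h2 : y i.castSucc = y' i + algebraMap A Ω (c i) * T := by
          change _ = y i.castSucc - algebraMap A Ω (c i) * T + _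
          ring
        rw [h2]
        exact P.add_mem (hB'P (hy'B i)) (P.mul_mem (P.algebraMap_mem _) hT)
      intro a ha
      exact h1 ha

end NNAux

/-- NN -/
theorem nn : NnStatement := by
  intro A Ω _ _ _ _ _ I hI hinf s n y hs hy
  obtain ⟨z, lam, J, instJ, m, hcard, hz, hlam, ⟨j0, hj0⟩, hm⟩ :=
    NNAux.main A Ω I hI hinf s hs n y hy
  let e : J ≃ Fin (s ^ n) := Fintype.equivFinOfCardEq hcard
  have hr : Set.range (fun i => m (e.symm i)) = Set.range m := by
    ext x
    constructor
    · rintro ⟨i, rfl⟩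
      exact ⟨_, rfl⟩
    · rintro ⟨j, rfl⟩
      exact ⟨e j, by simp⟩
  refine ⟨z, lam, fun i => m (e.symm i), hz, hlam, ⟨e j0, by simp [hj0]⟩, fun a ha => ?_⟩
  obtain ⟨k, hk⟩ := hm a ha
  refine ⟨k, fun j => ?_⟩
  rw [hr]
  exact hk _

end Pool.DynLehmer.SP
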