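import Pool.Agent.Lib.MP_2194ec_nt.SP.Iface
import Pool.Agent.Lib.MP_2194ec_nt.SB.Ded
import Pool.Agent.Lib.MP_2194ec_nt.SB.Rows

set_option autoImplicit false

/-!
# Module NSA: conjugates separated in degree `T`
-/

namespace Pool.DynLehmer.SP
open MvPolynomial NumberField Pool.DynLehmer Pool.DynLehmer.SB
open scoped Classical

namespace NsaAux

/-- the value of a form over `K` at a conjugate -/
theorem aeval_gal {K N : Type} [Field K] [Field N] [Algebra K N] {ι : Type} (σ : N ≃ₐ[K] N)
    (P : ι → N) (G : MvPolynomial ι K) : aeval (gal σ P) G = σ (aeval P G) := by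
  have h := MvPolynomial.comp_aeval_apply P (σ : N →ₐ[K] N) G
  exact h.symm

/-- a basis of `VW` made of values of forms -/
theorem exists_basis (K : Type) {N : Type} [Field K] [Field N] [Algebra K N]
    [FiniteDimensional K N] {ι : Type} (P : ι → N) (T : ℕ) :
    ∃ A : Fin (Module.finrank K (VW K P T)) → MvPolynomial ι K, (∀ j, (A j).IsHomogeneous T) ∧
      LinearIndependent K (fun j => (aeval P (A j) : N)) := by
  have hb := Module.finBasis K (VW K P T)
  have h1 : ∀ j, ∃ A : MvPolynomial ι K, A.IsHomogeneous T ∧ aeval P A = ((hb j : VW K P T) : N) := by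
    intro j
    obtain ⟨A, hA, hA2⟩ := (hb j).2
    exact ⟨A, hA, hA2⟩
  choose A hA hA2 using h1
  refine ⟨A, hA, ?_⟩
  have h2 : LinearIndependent K (fun j => ((hb j : VW K P T) : N)) :=
    hb.linearIndependent.map' (VW K P T).subtype (Submodule.ker_subtype _)
  have h3 : (fun j => (aeval P (A j) : N)) = fun j => ((hb j : VW K P T) : N) := funext hA2
  rw [h3]
  exact h2

end NsaAux

open NsaAux in
/-- NSA -/
theorem nsa : NsaStatement := by
  intro K N _ _ _ _ _ _ ι _ P T
  obtain ⟨A, hA, hli⟩ : ∃ A : Fin (HW K P T) → MvPolynomial ι K, (∀ j, (A j).IsHomogeneous T) ∧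
      LinearIndependent K (fun j => (aeval P (A j) : N)) := exists_basis K P T
  have hcard : Nat.card (N →ₐ[K] N) = Module.finrank K N := by
    rw [← Nat.card_congr (algEquivEquivAlgHom K N).toEquiv]
    exact IsGalois.card_aut_eq_finrank K N
  have hli' : LinearIndependent K (fun (j : Fin (HW K P T)) (_ : Fin 1) => (aeval P (A j) : N)) := by
    rw [Fintype.linearIndependent_iff] at hli ⊢
    intro g hg
    refine hli g ?_
    have h1 := congrFun hg 0
    rw [Finset.sum_apply] at h1
    simpa using h1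
  have hN := (ded K N N hcard).1 1 _ _ hli'
  obtain ⟨row, hrow⟩ := rows_exists _ hN
  refine ⟨fun i => (algEquivEquivAlgHom K N).symm (row i).2, fun a => ?_⟩
  set M : Matrix (Fin (HW K P T)) (Fin (HW K P T)) N :=
    Matrix.of fun i a => (row i).2 (aeval P (A a)) with hM
  have hMu : IsUnit M.det := isUnit_iff_ne_zero.2 hrow
  have hval : ∀ i, eval (gal ((algEquivEquivAlgHom K N).symm (row i).2) P)
      (∑ j, C (M⁻¹ j a) * map (algebraMap K N) (A j)) = (1 : Matrix _ _ N) i a := by
    intro i
    rw [← Matrix.mul_nonsing_inv M hMu, Matrix.mul_apply, map_sum]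
    refine Finset.sum_congr rfl fun j _ => ?_
    have h5 := NsaAux.aeval_gal ((algEquivEquivAlgHom K N).symm (row i).2) P (A j)
    rw [map_mul, eval_C, eval_map, mul_comm]
    exact congrArg (fun z => z * M⁻¹ j a) h5
  refine ⟨∑ j, C (M⁻¹ j a) * map (algebraMap K N) (A j), ?_, ?_, ?_⟩
  · refine IsHomogeneous.sum _ _ _ fun j _ => ?_
    have h2 := (isHomogeneous_C ι (M⁻¹ j a)).mul ((hA j).map (algebraMap K N))
    rwa [zero_add] at h2
  · rw [hval a, Matrix.one_apply_eq]
    exact one_ne_zero
  · intro i hi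
    rw [hval i, Matrix.one_apply_ne hi]

end Pool.DynLehmer.SP
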