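import Mathlib
import Pool.Agent.Lib.MP_2194ec_nt.SP.Iface

set_option autoImplicit false

/-!
# PER: a specialisation between two iterates gives a periodic curve
-/

namespace Pool.DynLehmer.SP
open MvPolynomial NumberField Pool.DynLehmer Pool.DynLehmer.SB
open scoped Classical

namespace PERAux

variable {K : Type} [Field K] {ι : Type} (F : ι → MvPolynomial ι K)

theorem aeval_iter {L : Type} [Field L] [Algebra K L] (r : ℕ) (y : ι → L)
    (G : MvPolynomial ι K) : aeval ((gAct F L)^[r] y) G = aeval y ((bind₁ F)^[r] G) := by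
  induction r generalizing y with
  | zero => rfl
  | succ r ih =>
    rw [Function.iterate_succ_apply, ih, Function.iterate_succ_apply', aeval_bind₁]
    rfl

theorem exists_hom (r : ℕ) : ∃ φ : MvPolynomial ι K →ₐ[K] MvPolynomial ι K,
    ∀ G, φ G = (bind₁ F)^[r] G := by
  induction r with
  | zero => exact ⟨AlgHom.id K _, fun G => rfl⟩
  | succ r ih =>
    obtain ⟨φ, hφ⟩ := ih
    refine ⟨(bind₁ F).comp φ, fun G => ?_⟩
    rw [Function.iterate_succ_apply', ← hφ]
    rfl

theorem hom_iter {q : ℕ} (hF : ∀ i, (F i).IsHomogeneous q) (r : ℕ) (d : ℕ)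
    (G : MvPolynomial ι K) (hG : G.IsHomogeneous d) :
    ((bind₁ F)^[r] G).IsHomogeneous (q ^ r * d) := by
  induction r with
  | zero => simpa using hG
  | succ r ih =>
    rw [Function.iterate_succ_apply']
    have h := ih.aeval F hF
    rw [pow_succ', mul_assoc]
    exact h

theorem comp_iter {q : ℕ} (hq : 1 ≤ q) (hF : ∀ i, (F i).IsHomogeneous q) (r : ℕ) (d : ℕ)
    (G : MvPolynomial ι K) :
    homogeneousComponent (q ^ r * d) ((bind₁ F)^[r] G) =
      (bind₁ F)^[r] (homogeneousComponent d G) := by
  obtain ⟨φ, hφ⟩ := exists_hom F r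
  rw [← hφ, ← hφ]
  have h1 : φ G = ∑ i ∈ Finset.range (G.totalDegree + 1), φ (homogeneousComponent i G) := by
    rw [← map_sum, sum_homogeneousComponent]
  rw [h1, map_sum]
  have h2 : ∀ i, homogeneousComponent (q ^ r * d) (φ (homogeneousComponent i G)) =
      if i = d then φ (homogeneousComponent d G) else 0 := by
    intro i
    have h3 : (φ (homogeneousComponent i G)).IsHomogeneous (q ^ r * i) := by
      rw [hφ]
      exact hom_iter F hF r i _ (homogeneousComponent_isHomogeneous i G)
    rw [homogeneousComponent_of_mem h3]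
    have hpos : 0 < q ^ r := Nat.pow_pos hq
    by_cases h : i = d
    · subst h; simp
    · rw [if_neg h, if_neg]
      intro h4
      exact h (Nat.eq_of_mul_eq_mul_left hpos h4).symm
  rw [Finset.sum_congr rfl fun i _ => h2 i, Finset.sum_ite_eq']
  split_ifs with h
  · rfl
  · have h5 : homogeneousComponent d G = 0 := by
      apply homogeneousComponent_eq_zero
      simp at h
      omega
    rw [h5, map_zero]

end PERAux

open PERAux in
theorem per : PerStatement := by
  intro K _ ι _ q F hq hF Ω N _ _ _ _ x R W hx hW hR r k hk hlow hs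
  have hfin : ∀ t, FiniteDimensional K (homogeneousSubmodule ι K t) := fun t =>
    Module.Finite.iff_fg.2 (homogeneousSubmodule_fg ι K t)
  have hrk : ∀ T, HW K ((gAct F Ω)^[r] x) T +
      Module.finrank K ↥(homogeneousSubmodule ι K T ⊓
        (RingHom.ker (aeval ((gAct F Ω)^[r] x) : MvPolynomial ι K →ₐ[K] Ω)).restrictScalars
          K) = Module.finrank K (homogeneousSubmodule ι K T) := by
    intro T
    set f : MvPolynomial ι K →ₗ[K] Ω :=
      (aeval ((gAct F Ω)^[r] x) : MvPolynomial ι K →ₐ[K] Ω).toLinearMap with hf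
    have h1 := LinearMap.finrank_range_add_finrank_ker (f.domRestrict (homogeneousSubmodule ι K T))
    have h2 : LinearMap.range (f.domRestrict (homogeneousSubmodule ι K T)) =
        VW K ((gAct F Ω)^[r] x) T := by
      rw [LinearMap.range_domRestrict]
      rfl
    have h3 : Module.finrank K ↥(LinearMap.ker (f.domRestrict (homogeneousSubmodule ι K T))) =
        Module.finrank K ↥(homogeneousSubmodule ι K T ⊓
          (RingHom.ker (aeval ((gAct F Ω)^[r] x) : MvPolynomial ι K →ₐ[K] Ω)).restrictScalars
            K) := by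
      have h4 : (LinearMap.ker (f.domRestrict (homogeneousSubmodule ι K T))).map
          (homogeneousSubmodule ι K T).subtype = homogeneousSubmodule ι K T ⊓
          (RingHom.ker (aeval ((gAct F Ω)^[r] x) : MvPolynomial ι K →ₐ[K] Ω)).restrictScalars
            K := by
        ext G
        constructor
        · rintro ⟨g, hg, rfl⟩
          exact ⟨g.2, hg⟩
        · rintro ⟨hG, hG'⟩
          exact ⟨⟨G, hG⟩, hG', rfl⟩
      rw [← h4]
      exact (LinearEquiv.finrank_eq (Submodule.equivMapOfInjective _
        (Submodule.injective_subtype _) _))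
    rw [h2, h3] at h1
    exact h1
  refine ⟨r, k, W * q ^ r, RingHom.ker (aeval ((gAct F Ω)^[r] x) : MvPolynomial ι K →ₐ[K] Ω),
    hk, RingHom.ker_isPrime _, ?_, ?_, ?_, ?_, ?_⟩
  · intro G hG d
    rw [RingHom.mem_ker] at hG ⊢
    have h1 : aeval ((gAct F Ω)^[r] x) G = 0 := hG
    rw [aeval_iter] at h1
    have h2 := hx _ h1 (q ^ r * d)
    rw [comp_iter F hq hF, ← aeval_iter] at h2
    exact h2
  · intro T
    have h1 := hrk T
    have h2 := hlow T
    omega
  · intro T
    have h1 := hrk T
    have h5 : VW K ((gAct F Ω)^[r] x) T ≤ VW K x (q ^ r * T) := by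
      rintro _ ⟨G, hG, rfl⟩
      exact ⟨(bind₁ F)^[r] G, hom_iter F hF r T G hG, (aeval_iter F r x G).symm⟩
    have h6 : HW K ((gAct F Ω)^[r] x) T ≤ HW K x (q ^ r * T) := by
      have : FiniteDimensional K (VW K x (q ^ r * T)) := by
        have := hfin (q ^ r * T)
        unfold VW
        infer_instance
      exact Submodule.finrank_mono h5
    have h7 := hW (q ^ r * T)
    have h8 : W * (q ^ r * T + 1) ≤ W * q ^ r * (T + 1) := by
      have hpos : 0 < q ^ r := Nat.pow_pos hq
      nlinarith [Nat.zero_le W]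
    omega
  · intro G hG
    have h1 : aeval ((gAct F Ω)^[r] x) G = 0 := hG
    rw [aeval_iter] at h1 ⊢
    exact hR _ h1
  · intro G hG
    have h1 : aeval ((gAct F Ω)^[r] x) G = 0 := hG
    have h2 := hs G h1
    rw [RingHom.mem_ker]
    show aeval ((gAct F Ω)^[r] x) ((bind₁ F)^[k] G) = 0
    rw [← aeval_iter, ← Function.iterate_add_apply, add_comm]
    exact h2

end Pool.DynLehmer.SP
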