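import Mathlib
import Pool.Agent.Lib.MP_2194ec_nt.SP.Iface

set_option autoImplicit false

/-!
# Iterated substitutions are congruent to powers
-/

namespace Pool.DynLehmer.SP
open MvPolynomial NumberField Pool.DynLehmer
open scoped Classical

namespace PhiAux

section abs

variable {A : Type} [CommRing A] {p s : ℕ} {ι : Type} [Fintype ι] [DecidableEq ι]

/-- evaluation of iterated substitutions -/
theorem eval_bind_iter (Φ : GF A p s ι) {B : Type} [CommRing B] (χ : A →+* B) (j : ℕ)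
    (u : ι → B) (h : MvPolynomial ι A) :
    eval₂ χ u ((bind₁ Φ.F)^[j] h) = eval₂ χ ((Φ.map χ).act^[j] u) h := by
  induction j generalizing h with
  | zero => rfl
  | succ j ih =>
    rw [Function.iterate_succ_apply, ih, Function.iterate_succ_apply']
    have h1 : (eval₂Hom χ ((Φ.map χ).act^[j] u)) (bind₁ Φ.F h) =
        (eval₂Hom χ fun i => (eval₂Hom χ ((Φ.map χ).act^[j] u)) (Φ.F i)) h :=
      eval₂Hom_bind₁ _ _ _ _
    have h2 : (fun i => (eval₂Hom χ ((Φ.map χ).act^[j] u)) (Φ.F i)) =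
        (Φ.map χ).act ((Φ.map χ).act^[j] u) := by
      funext i
      rw [GF.act, GF.map_F, eval_map]
      rfl
    rw [h2] at h1
    exact h1

variable {κ : Type} [CommRing κ] [CharP κ p]

omit [Fintype ι] [DecidableEq ι] in
theorem frob_map (hp : p.Prime) (mk : A →+* κ) (n : ℕ) (hc : ∀ c : κ, c ^ (p ^ n) = c)
    (h : MvPolynomial ι A) :
    eval₂ (C.comp mk) (fun i => (X i : MvPolynomial ι κ) ^ (p ^ n)) h =
      (map mk h) ^ (p ^ n) := by
  have hfact : Fact p.Prime := ⟨hp⟩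
  have h3 : (eval₂Hom (C.comp mk) fun i => (X i : MvPolynomial ι κ) ^ (p ^ n)) =
      (iterateFrobenius (MvPolynomial ι κ) p n).comp (map mk) := by
    apply MvPolynomial.ringHom_ext
    · intro r
      simp only [coe_eval₂Hom, eval₂_C, RingHom.comp_apply, iterateFrobenius_def, map_C]
      rw [← map_pow, hc]
    · intro i
      simp only [coe_eval₂Hom, eval₂_X, RingHom.comp_apply, iterateFrobenius_def, map_X]
  have h4 := congrArg (fun φ : MvPolynomial ι A →+* MvPolynomial ι κ => φ h) h3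
  simp only [coe_eval₂Hom, RingHom.comp_apply, iterateFrobenius_def] at h4
  exact h4

theorem map_bind_iter (hp : p.Prime) (Φ : GF A p s ι) (mk : A →+* κ) (h0 : mk Φ.ϖ = 0)
    {j : ℕ} (hgood : ∀ (R : Type) [CommRing R] [CharP R p] (ψ : κ →+* R) (z : ι → R),
      (glin (p ^ s) (Φ.g.map mk) ψ)^[j] z = fun i => z i ^ ((p ^ s) ^ j))
    (hc : ∀ c : κ, c ^ ((p ^ s) ^ j) = c)
    (h : MvPolynomial ι A) :
    map mk ((bind₁ Φ.F)^[j] h) = (map mk h) ^ ((p ^ s) ^ j) := by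
  have hredeq : ∀ f : MvPolynomial ι A, map mk f = eval₂ (C.comp mk) X f := by
    intro f
    rw [← eval₂_map, eval₂_eta]
  have hact : (Φ.map (C.comp mk)).act = glin (p ^ s) (Φ.g.map mk)
      (C : κ →+* MvPolynomial ι κ) := by
    funext z i
    rw [GF.act_apply]
    have h1 : (Φ.map ((C : κ →+* MvPolynomial ι κ).comp mk)).ϖ = 0 := by
      change C (mk Φ.ϖ) = 0
      rw [h0, map_zero]
    rw [h1, zero_mul, add_zero]
    rfl
  rw [hredeq, eval_bind_iter, hact, hgood (MvPolynomial ι κ) C X]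
  have hQ : (p ^ s) ^ j = p ^ (s * j) := (pow_mul p s j).symm
  rw [hQ] at hc ⊢
  exact frob_map hp mk _ hc h

end abs

section iter

variable {K : Type} [Field K] [NumberField K] {v : FinitePlace K} {p s : ℕ}
  {ι : Type} [Fintype ι] [DecidableEq ι] (Φ : GF (OW v) p s ι)

theorem exists_good (hϖ : v (Φ.ϖ : K) < 1) (hp : p.Prime) :
    ∃ j, 1 ≤ j ∧ GGoodExp Φ j ∧ ∀ c : OW v ⧸ MW v, c ^ ((p ^ s) ^ j) = c := by
  obtain ⟨m, hm, h⟩ := exists_ggoodExp Φ hϖ hp
  have hchar := gcharP Φ hϖ hp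
  have hfact : Fact p.Prime := ⟨hp⟩
  have hmx : (MW v).IsMaximal :=
    Ideal.Quotient.maximal_of_isField _ (Finite.isField_of_domain _)
  let _ := Ideal.Quotient.field (MW v)
  have _ := Fintype.ofFinite (OW v ⧸ MW v)
  obtain ⟨n, -, hn⟩ := FiniteField.card (OW v ⧸ MW v) p
  refine ⟨m * n, Nat.mul_pos hm n.pos, h _ (dvd_mul_right _ _), ?_⟩
  intro c
  have h1 : (p ^ s) ^ (m * (n : ℕ)) = Fintype.card (OW v ⧸ MW v) ^ (s * m) := by
    rw [hn, ← pow_mul, ← pow_mul]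
    congr 1
    ring
  rw [h1]
  exact FiniteField.pow_card_pow _ _

/-- multiples of the uniformizer -/
theorem dvd_of_map_zero (hϖ0 : (Φ.ϖ : K) ≠ 0) (hmax : ∀ a : K, v a < 1 → v a ≤ v (Φ.ϖ : K))
    {f : MvPolynomial ι (OW v)} (hf : map (Ideal.Quotient.mk (MW v)) f = 0) : C Φ.ϖ ∣ f := by
  rw [C_dvd_iff_dvd_coeff]
  intro t
  have h1 := congrArg (coeff t) hf
  rw [coeff_map, coeff_zero, Ideal.Quotient.eq_zero_iff_mem, mem_MW] at h1
  have h2 := hmax _ h1
  have h3 : 0 < v (Φ.ϖ : K) := FinitePlace.pos_iff.2 hϖ0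
  refine ⟨⟨((coeff t f : OW v) : K) / (Φ.ϖ : K), ?_⟩, ?_⟩
  · rw [mem_OW, map_div₀]
    exact div_le_one_of_le₀ h2 h3.le
  · ext
    rw [Subring.coe_mul]
    change _ = (Φ.ϖ : K) * (((coeff t f : OW v) : K) / (Φ.ϖ : K))
    rw [mul_div_cancel₀ _ hϖ0]

end iter

end PhiAux

open PhiAux in
/-- PHI -/
theorem phi : PhiStatement := by
  intro K _ _ p s ι _ _ v Φ hp _ hϖ hϖ0 hmax
  obtain ⟨j, hj1, hj, hc⟩ := exists_good Φ hϖ hp
  refine ⟨j, hj1, fun G => ?_⟩
  have hchar := gcharP Φ hϖ hp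
  have h1 : map (Ideal.Quotient.mk (MW v)) ((bind₁ Φ.F)^[j] G - G ^ ((p ^ s) ^ j)) = 0 := by
    rw [map_sub, map_pow, map_bind_iter hp Φ (Ideal.Quotient.mk (MW v))
      (Ideal.Quotient.eq_zero_iff_mem.2 (mem_MW.2 hϖ)) hj hc G, sub_self]
  obtain ⟨H, hH⟩ := dvd_of_map_zero Φ hϖ0 hmax h1
  exact ⟨H, by rw [← hH]; ring⟩

end Pool.DynLehmer.SP
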