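import Pool.Agent.Lib.MP_2194ec_nt.SP.Iface

set_option autoImplicit false

/-!
# Module REL: relations between three linear forms (helper12)
-/

namespace Pool.DynLehmer.SP
open MvPolynomial NumberField Pool.DynLehmer Pool.DynLehmer.SB
open scoped Classical

namespace RelAux

/-- exponents of degree `s` in three variables -/
abbrev Idx (s : ℕ) : Type := Σ a : Fin (s + 1), Fin (a.val + 1)

theorem card_idx (s : ℕ) : 2 * Fintype.card (Idx s) = (s + 1) * (s + 2) := by
  rw [Fintype.card_sigma]
  simp only [Fintype.card_fin]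
  rw [Fin.sum_univ_eq_sum_range (fun a => a + 1) (s + 1)]
  induction s with
  | zero => rfl
  | succ s ih =>
    rw [Finset.sum_range_succ, mul_add, ih]
    ring

/-- the exponent -/
noncomputable def ex {s : ℕ} (p : Idx s) : Fin 3 →₀ ℕ :=
  Finsupp.equivFunOnFinite.symm ![s - p.1, p.2, p.1 - p.2]

theorem ex_deg {s : ℕ} (p : Idx s) : (ex p).degree = s := by
  rw [Finsupp.degree_eq_sum, Fin.sum_univ_three]
  change (s - (p.1 : ℕ)) + (p.2 : ℕ) + ((p.1 : ℕ) - (p.2 : ℕ)) = s
  have h1 := p.1.2
  have h2 := p.2.2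
  omega

theorem ex_inj {s : ℕ} : Function.Injective (ex (s := s)) := by
  rintro ⟨a, b⟩ ⟨a', b'⟩ h
  have h0 := DFunLike.congr_fun h 0
  have h1 := DFunLike.congr_fun h 1
  change s - (a : ℕ) = s - (a' : ℕ) at h0
  change (b : ℕ) = (b' : ℕ) at h1
  have h2 : a = a' := by
    have := a.2
    have := a'.2
    exact Fin.ext (by omega)
  subst h2
  have h3 : b = b' := Fin.ext h1
  rw [h3]

section ev
variable {K : Type} [Field K] [NumberField K] (v : FinitePlace K) {Ω : Type} [Field Ω]
  [Algebra K Ω] {ι : Type} (x : ι → Ω)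

theorem coeff_mem {s : ℕ} {P : MvPolynomial ι (Polynomial (OW v))} (hP : P.IsHomogeneous s)
    (j : ℕ) : (evT v x P).coeff j ∈ VW K x s := by
  change (eval₂ (Polynomial.mapRingHom ((algebraMap K Ω).comp (OW v).subtype))
    (fun i => Polynomial.C (x i)) P).coeff j ∈ _
  rw [eval₂_eq, Polynomial.finsetSum_coeff]
  refine Submodule.sum_mem _ fun t ht => ?_
  have h1 : ∏ i ∈ t.support, (Polynomial.C (x i)) ^ t i =
      Polynomial.C (∏ i ∈ t.support, x i ^ t i) := by
    rw [map_prod]
    exact Finset.prod_congr rfl fun i _ => (map_pow _ _ _).symm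
  rw [h1, Polynomial.coeff_mul_C]
  have h2 : (∏ i ∈ t.support, x i ^ t i) ∈ VW K x s := by
    refine ⟨monomial t 1, isHomogeneous_monomial _ ?_, ?_⟩
    · rw [hP.degree_eq_sum_deg_support ht, Finsupp.degree_apply]
    · change aeval x (monomial t (1 : K)) = _
      rw [aeval_monomial, map_one, one_mul]
      rfl
  have h3 := Submodule.smul_mem (VW K x s) (((coeff t P).coeff j : OW v) : K) h2
  convert h3 using 1
  rw [Algebra.smul_def, Polynomial.coe_mapRingHom, Polynomial.coeff_map]
  rfl

end ev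

/-- the dependence over `K[τ]` -/
theorem dep {K : Type} [Field K] {Ω : Type} [Field Ω] [Algebra K Ω] (V : Submodule K Ω)
    [FiniteDimensional K V] {κ : Type} [Fintype κ] (w : κ → Polynomial Ω)
    (hw : ∀ p j, (w p).coeff j ∈ V) (hcard : Module.finrank K V < Fintype.card κ) :
    ∃ c : κ → Polynomial K, (∑ p, (c p).map (algebraMap K Ω) * w p = 0) ∧ ∃ p, c p ≠ 0 := by
  let _ : Module (Polynomial K) (Polynomial Ω) :=
    Module.compHom (Polynomial Ω) (Polynomial.mapRingHom (algebraMap K Ω))
  have hsmul : ∀ (c : Polynomial K) (q : Polynomial Ω), c • q = c.map (algebraMap K Ω) * q :=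
    fun c q => rfl
  by_contra hcon
  have hind : LinearIndependent (Polynomial K) w := by
    by_contra hnot
    rw [Fintype.not_linearIndependent_iff] at hnot
    obtain ⟨g, hg, p, hp⟩ := hnot
    exact hcon ⟨g, by simpa only [hsmul] using hg, p, hp⟩
  let b := Module.finBasis K V
  have hspan : Set.range w ≤ Submodule.span (Polynomial K)
      (Set.range fun j => Polynomial.C ((b j : V) : Ω)) := by
    rintro _ ⟨p, rfl⟩
    rw [SetLike.mem_coe, ← Polynomial.sum_monomial_eq (w p), Polynomial.sum_def]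
    refine Submodule.sum_mem _ fun i _ => ?_
    let y : V := ⟨(w p).coeff i, hw p i⟩
    have h1 : (w p).coeff i = ∑ j, algebraMap K Ω (b.repr y j) * ((b j : V) : Ω) := by
      have h2 := congrArg (Subtype.val) (b.sum_repr y)
      change ((∑ j, b.repr y j • b j : V) : Ω) = (w p).coeff i at h2
      rw [← h2, Submodule.coe_sum]
      refine Finset.sum_congr rfl fun j _ => ?_
      rw [Submodule.coe_smul, Algebra.smul_def]
    rw [h1, map_sum]
    refine Submodule.sum_mem _ fun j _ => ?_
    have h3 := Submodule.smul_mem (Submodule.span (Polynomial K)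
      (Set.range fun j => Polynomial.C ((b j : V) : Ω))) (Polynomial.monomial i (b.repr y j))
      (Submodule.subset_span ⟨j, rfl⟩)
    rw [hsmul, Polynomial.map_monomial, Polynomial.monomial_mul_C] at h3
    exact h3
  have h1 := linearIndependent_le_span' w hind _ hspan
  rw [Cardinal.mk_fintype, Nat.cast_le] at h1
  have h2 : Fintype.card (Set.range fun j => Polynomial.C ((b j : V) : Ω)) ≤
      Fintype.card (Fin (Module.finrank K V)) := Fintype.card_range_le _
  rw [Fintype.card_fin] at h2
  omega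

end RelAux

/-- REL -/
theorem rel : RelStatement := by
  intro K _ _ v ϖ hϖ1 hϖ0 hϖ Ω _ _ ι _ x s hs l hl
  have hfin : FiniteDimensional K (VW K x s) := by
    have h1 : (homogeneousSubmodule ι K s).FG := homogeneousSubmodule_fg ι K s
    exact Module.Finite.iff_fg.2 (h1.map _)
  have hcard := RelAux.card_idx s
  let M : RelAux.Idx s → MvPolynomial ι (Polynomial (OW v)) := fun p =>
    (RelAux.ex p).prod fun i k => l i ^ k
  have hM : ∀ p, (M p).IsHomogeneous s := by
    intro p
    have h1 : (M p).IsHomogeneous (∑ i ∈ (RelAux.ex p).support, 1 * RelAux.ex p i) :=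
      IsHomogeneous.prod _ _ _ fun i _ => (hl i).pow _
    have h2 : ∑ i ∈ (RelAux.ex p).support, 1 * RelAux.ex p i = s := by
      simp only [one_mul]
      rw [← Finsupp.degree_apply, RelAux.ex_deg]
    rw [h2] at h1
    exact h1
  obtain ⟨c, hc, p0, hp0⟩ := RelAux.dep (VW K x s) (fun p => evT v x (M p))
    (fun p j => RelAux.coeff_mem v x (hM p) j) (by
      have : Module.finrank K (VW K x s) = HW K x s := rfl
      omega)
  -- the largest coefficient
  let S : Finset (Σ _ : RelAux.Idx s, ℕ) := Finset.univ.sigma fun p => (c p).support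
  have hS : S.Nonempty := by
    obtain ⟨j, hj⟩ := Polynomial.nonempty_support_iff.2 hp0
    exact ⟨⟨p0, j⟩, Finset.mem_sigma.2 ⟨Finset.mem_univ _, hj⟩⟩
  obtain ⟨⟨p1, j1⟩, hmem, hmax⟩ := Finset.exists_max_image S
    (fun q => v ((c q.1).coeff q.2)) hS
  set a : K := (c p1).coeff j1 with ha
  have ha0 : a ≠ 0 := Polynomial.mem_support_iff.1 (Finset.mem_sigma.1 hmem).2
  have hva : 0 < v a := by
    rcases (apply_nonneg v a).lt_or_eq with h | h
    · exact h
    · exact absurd ((map_eq_zero v).1 h.symm) ha0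
  have hle : ∀ p j, v ((c p).coeff j) ≤ v a := by
    intro p j
    by_cases h : j ∈ (c p).support
    · exact hmax ⟨p, j⟩ (Finset.mem_sigma.2 ⟨Finset.mem_univ _, h⟩)
    · rw [Polynomial.notMem_support_iff.1 h, map_zero]
      exact hva.le
  have hcoef : ∀ p, ((Polynomial.C a⁻¹ * c p).coeffs : Set K) ⊆ OW v := by
    intro p y hy
    obtain ⟨n, _, rfl⟩ := Polynomial.mem_coeffs_iff.1 (Finset.mem_coe.1 hy)
    rw [Polynomial.coeff_C_mul]
    change v (a⁻¹ * _) ≤ 1
    rw [map_mul, map_inv₀, inv_mul_le_one₀ hva]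
    exact hle _ _
  let c' : RelAux.Idx s → Polynomial (OW v) := fun p =>
    (Polynomial.C a⁻¹ * c p).toSubring (OW v) (hcoef p)
  have hc' : ∀ p, (c' p).map (OW v).subtype = Polynomial.C a⁻¹ * c p := fun p =>
    Polynomial.map_toSubring _ _ _
  refine ⟨∑ p, monomial (RelAux.ex p) (c' p), ?_, ⟨RelAux.ex p1, ?_⟩, ?_⟩
  · exact IsHomogeneous.sum _ _ _ fun p _ => isHomogeneous_monomial _ (RelAux.ex_deg p)
  · rw [coeff_sum]
    have h1 : ∑ p, coeff (RelAux.ex p1) (monomial (RelAux.ex p) (c' p)) = c' p1 := by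
      rw [Finset.sum_eq_single p1]
      · rw [coeff_monomial, if_pos rfl]
      · intro p _ hp
        rw [coeff_monomial, if_neg fun h => hp (RelAux.ex_inj h)]
      · exact fun h => absurd (Finset.mem_univ _) h
    rw [h1, Ideal.mem_span_singleton]
    rintro ⟨q, hq⟩
    have h2 := congrArg (fun P => ((P.coeff j1 : OW v) : K)) hq
    change (((c' p1).coeff j1 : OW v) : K) = (((Polynomial.C ϖ * q).coeff j1 : OW v) : K) at h2
    rw [Polynomial.coeff_C_mul] at h2
    have h3 : (((c' p1).coeff j1 : OW v) : K) = 1 := by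
      have h4 : ((((c' p1).coeff j1 : OW v)) : K) = (Polynomial.C a⁻¹ * c p1).coeff j1 :=
        Polynomial.coeff_toSubring _ _ _
      rw [h4, Polynomial.coeff_C_mul]
      exact inv_mul_cancel₀ ha0
    rw [h3] at h2
    have h5 : v (1 : K) = v (ϖ : K) * v ((q.coeff j1 : OW v) : K) := by
      rw [h2, Subring.coe_mul, map_mul]
    rw [map_one] at h5
    have h6 : v ((q.coeff j1 : OW v) : K) ≤ 1 := (q.coeff j1).2
    have h7 : 0 ≤ v (ϖ : K) := apply_nonneg _ _
    nlinarith
  · rw [map_sum, map_sum]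
    have h1 : ∀ p, evT v x (aeval l (monomial (RelAux.ex p) (c' p))) =
        Polynomial.C (algebraMap K Ω a⁻¹) *
          ((c p).map (algebraMap K Ω) * evT v x (M p)) := by
      intro p
      rw [aeval_monomial, map_mul]
      have h2 : evT v x (algebraMap (Polynomial (OW v)) (MvPolynomial ι (Polynomial (OW v)))
          (c' p)) = Polynomial.C (algebraMap K Ω a⁻¹) * (c p).map (algebraMap K Ω) := by
        change eval₂ _ _ (C (c' p)) = _
        rw [eval₂_C, Polynomial.coe_mapRingHom, ← Polynomial.map_map, hc' p, Polynomial.map_mul,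
          Polynomial.map_C]
      rw [h2, mul_assoc]
    rw [Finset.sum_congr rfl fun p _ => h1 p, ← Finset.mul_sum, hc, mul_zero]

end Pool.DynLehmer.SP
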