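import Pool.Agent.Lib.MP_2194ec_nt.SP.Iface

set_option autoImplicit false

/-! # Minimal primes over a monic polynomial -/

namespace Pool.DynLehmer.SP

open Polynomial

/-- STEP -/
theorem step : StepStatement := by
  intro S _ _ f hf P hP hfP
  have h1 : Ideal.span {f} ≤ P := (Ideal.span_singleton_le_iff_mem P).2 hfP
  obtain ⟨Q, hQ, hQP⟩ := Ideal.exists_minimalPrimes_le h1
  have hQp : Q.IsPrime := hQ.1.1
  have hfQ : f ∈ Q := (Ideal.span_singleton_le_iff_mem Q).1 hQ.1.2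
  refine ⟨Q, hQp, hQP, hfQ, fun a ha => ?_⟩
  obtain ⟨h, hh, hah⟩ := Ideal.exists_mul_mem_of_mem_minimalPrimes hQ ha
  rw [Ideal.mem_span_singleton] at hh hah
  have h2 : h %ₘ f ≠ 0 := fun e => hh ((modByMonic_eq_zero_iff_dvd hf).1 e)
  have h3 : (C a * h) %ₘ f = 0 := (modByMonic_eq_zero_iff_dvd hf).2 hah
  rw [← smul_eq_C_mul, smul_modByMonic, smul_eq_zero] at h3
  exact h3.resolve_right h2

end Pool.DynLehmer.SP
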