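import Mathlib
import Pool.Agent.Lib.MP_2194ec_nt.SP.Iface

set_option autoImplicit false

/-!
# Closeness from nilpotency exponents
-/

namespace Pool.DynLehmer.SP
namespace WlemAux

variable {A B : Type} [CommRing A] [CommRing B]

/-- the elements of `θ(ϖ ^ k A)` -/
def Dv (θ : A →+* B) (ϖ : A) (k : ℕ) (y : B) : Prop := ∃ h : A, y = θ (ϖ ^ k * h)

theorem Dv.mono {θ : A →+* B} {ϖ : A} {k l : ℕ} (hkl : k ≤ l) {y : B} (h : Dv θ ϖ l y) :
    Dv θ ϖ k y := by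
  obtain ⟨b, hb⟩ := h
  refine ⟨ϖ ^ (l - k) * b, ?_⟩
  rw [hb, ← mul_assoc, ← pow_add, Nat.add_sub_cancel' hkl]

theorem Dv.sum {θ : A →+* B} {ϖ : A} {k : ℕ} {s : Finset ℕ} {f : ℕ → B}
    (h : ∀ i ∈ s, Dv θ ϖ k (f i)) : Dv θ ϖ k (∑ i ∈ s, f i) := by
  choose! b hb using h
  refine ⟨∑ i ∈ s, b i, ?_⟩
  rw [Finset.mul_sum, map_sum]
  exact Finset.sum_congr rfl hb

theorem Dv.neg {θ : A →+* B} {ϖ : A} {k : ℕ} {y : B} (h : Dv θ ϖ k y) : Dv θ ϖ k (-y) := by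
  obtain ⟨b, hb⟩ := h
  exact ⟨-b, by rw [hb, mul_neg, map_neg]⟩

theorem Dv.add {θ : A →+* B} {ϖ : A} {k : ℕ} {y z : B} (h : Dv θ ϖ k y) (h' : Dv θ ϖ k z) :
    Dv θ ϖ k (y + z) := by
  obtain ⟨b, hb⟩ := h
  obtain ⟨b', hb'⟩ := h'
  exact ⟨b + b', by rw [hb, hb', mul_add, map_add]⟩

/-- a term of the expansion with a nilpotent coefficient -/
theorem term {θ : A →+* B} {ϖ a b : A} {q U j n k : ℕ} (hq : 2 ≤ q)
    (hb : θ a ^ (q ^ U) = θ (ϖ * b)) (hn : U + j ≤ n) (hk : k ≤ n - U + 1) :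
    Dv θ ϖ k (θ (ϖ ^ j * a ^ (q ^ (n - j)))) := by
  have h1 : θ (ϖ ^ j * a ^ (q ^ (n - j))) =
      θ (ϖ ^ (j + q ^ (n - j - U)) * b ^ (q ^ (n - j - U))) := by
    have h2 : q ^ (n - j) = q ^ U * q ^ (n - j - U) := by
      rw [← pow_add]
      congr 1
      omega
    rw [h2, pow_mul, map_mul, map_pow θ _ (q ^ (n - j - U)), map_pow θ a, hb, ← map_pow,
      ← map_mul, mul_pow, pow_add, mul_assoc]
  have h3 : n - j - U + 1 ≤ q ^ (n - j - U) :=
    (Nat.lt_two_pow_self (n := n - j - U)).trans_le (Nat.pow_le_pow_left hq _)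
  exact Dv.mono (l := j + q ^ (n - j - U)) (by omega) ⟨_, h1⟩

end WlemAux

open WlemAux in
/-- WLEM -/
theorem wlem : DworkStatement → WlemStatement := by
  intro hD A B _ _ _ ϖ c q U m φ θ hq hqc hφ hF hϖ hN G n₀ hn₀ hG n hn
  obtain ⟨a, ha⟩ := hD A ϖ c q φ hq hqc hφ hF G
  -- the coefficients are nilpotent of small exponent modulo the uniformizer
  have key : ∀ i, i ≤ m → ∃ b : A, θ (a i) ^ (q ^ U) = θ (ϖ * b) := by
    intro i
    induction i using Nat.strong_induction_on with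
    | _ i ih =>
      intro him
      have h0 : ∑ j ∈ Finset.range (n₀ + 1), θ (ϖ ^ j * a j ^ (q ^ (n₀ - j))) = 0 := by
        rw [← map_sum, ← ha, hG]
      have hi : i ∈ Finset.range (n₀ + 1) := Finset.mem_range.2 (by omega)
      rw [← Finset.add_sum_erase _ _ hi] at h0
      have h1 : Dv θ ϖ (i + 1) (θ (ϖ ^ i * a i ^ (q ^ (n₀ - i)))) := by
        rw [eq_neg_of_add_eq_zero_left h0]
        refine Dv.neg (Dv.sum fun j hj => ?_)
        obtain ⟨hji, hj⟩ := Finset.mem_erase.1 hj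
        rcases lt_or_gt_of_ne hji with h | h
        · obtain ⟨b, hb⟩ := ih j h (by omega)
          exact term hq hb (by omega) (by omega)
        · exact Dv.mono (l := j) h ⟨_, rfl⟩
      obtain ⟨b, hb⟩ := h1
      refine hN (a i) b (q ^ (n₀ - i)) ?_
      have h2 : θ ϖ ^ i * (θ (a i) ^ (q ^ (n₀ - i))) = θ ϖ ^ i * θ (ϖ * b) := by
        rw [← map_pow θ ϖ i, ← map_pow θ (a i), ← map_mul, ← map_mul, hb, pow_succ, mul_assoc]
      exact mul_left_cancel₀ (pow_ne_zero _ hϖ) h2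
  rw [ha n, map_sum]
  refine Dv.sum fun j _ => ?_
  by_cases h : j ≤ m
  · obtain ⟨b, hb⟩ := key j h
    exact term hq hb (by omega) (by omega)
  · exact Dv.mono (l := j) (by omega) ⟨_, rfl⟩

end Pool.DynLehmer.SP
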