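import Mathlib
import Pool.Agent.Lib.MP_2194ec_nt.SP.Final
import Pool.Agent.Lib.MP_2194ec_nt.SP.Bez
import Pool.Agent.Lib.MP_2194ec_nt.SP.CaseA
import Pool.Agent.Lib.MP_2194ec_nt.SP.CaseB
import Pool.Agent.Lib.MP_2194ec_nt.SP.Cent
import Pool.Agent.Lib.MP_2194ec_nt.SP.Cover
import Pool.Agent.Lib.MP_2194ec_nt.SP.Crvn
import Pool.Agent.Lib.MP_2194ec_nt.SP.Curve
import Pool.Agent.Lib.MP_2194ec_nt.SP.Cut
import Pool.Agent.Lib.MP_2194ec_nt.SP.Deg
import Pool.Agent.Lib.MP_2194ec_nt.SP.Detg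
import Pool.Agent.Lib.MP_2194ec_nt.SP.Dwork
import Pool.Agent.Lib.MP_2194ec_nt.SP.Eneq
import Pool.Agent.Lib.MP_2194ec_nt.SP.Img
import Pool.Agent.Lib.MP_2194ec_nt.SP.JetK
import Pool.Agent.Lib.MP_2194ec_nt.SP.Jetd
import Pool.Agent.Lib.MP_2194ec_nt.SP.Jeto
import Pool.Agent.Lib.MP_2194ec_nt.SP.Jetw
import Pool.Agent.Lib.MP_2194ec_nt.SP.LocW
import Pool.Agent.Lib.MP_2194ec_nt.SP.Nil
import Pool.Agent.Lib.MP_2194ec_nt.SP.Nn
import Pool.Agent.Lib.MP_2194ec_nt.SP.Ns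
import Pool.Agent.Lib.MP_2194ec_nt.SP.Nsa
import Pool.Agent.Lib.MP_2194ec_nt.SP.Per
import Pool.Agent.Lib.MP_2194ec_nt.SP.Phi
import Pool.Agent.Lib.MP_2194ec_nt.SP.Rel
import Pool.Agent.Lib.MP_2194ec_nt.SP.Step
import Pool.Agent.Lib.MP_2194ec_nt.SP.Wlem
import Pool.Agent.Lib.MP_2194ec_nt.SB.Doub
import Pool.Agent.Lib.MP_2194ec_nt.SB.Mono
import Pool.Agent.Lib.MP_2194ec_nt.SB.Indep

set_option autoImplicit false

/-!
# Theorem L in every dimension: all modules together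
-/

namespace Pool.DynLehmer.SP
open MvPolynomial NumberField Pool.DynLehmer Pool.DynLehmer.SB
open scoped Classical

theorem nsStatement : NsStatement := ns cover nsa

theorem crvnStatement : CrvnStatement :=
  crvn (casea (cut nn) per img bez deg cent detg (locw (nil nn rel) (wlem dwork)) (indep mono)
    doub mono) (caseb (jeto rel (jetd jetk)) jetw detg) eneq (curve step) phi

end Pool.DynLehmer.SP
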