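import Mathlib
import Pool.Agent.Lib.MP_2194ec_nt.SP.Iface
import Pool.Agent.Lib.MP_2194ec_nt.H9.LocGain

set_option autoImplicit false

/-!
# Module DETG
-/

namespace Pool.DynLehmer.SP
open MvPolynomial NumberField Pool.DynLehmer Pool.DynLehmer.SB
open scoped Classical

theorem detg : DetgStatement := by
  intro K _ _ N _ _ _ p s ι _ _ _ v w e Φ h hϖ F hΦF n J b μ hμ z hz ω hω0 hω1 r B hBh hBv hB
  set T := dl b (p ^ s) J with hT
  choose a u ha hzu hu using fun i => gexists_prim (w := w) (hz i)
  have hwv : ∀ x : K, v x ≤ 1 → w (algebraMap K N x) ≤ 1 := by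
    intro x hx
    rw [h.2]
    exact pow_le_one₀ (apply_nonneg v _) hx
  have hFh : ∀ i, (F i).IsHomogeneous (p ^ s) := fun i => by
    rw [← hΦF i]; exact (Φ.F_hom i).map _
  have hQh : ∀ c, (gQ F J (μ c)).IsHomogeneous T := fun c => gQ_hom F hFh J (μ c) (hμ c)
  have hQv : ∀ c t, v (coeff t (gQ F J (μ c))) ≤ 1 := by
    intro c t
    have h1 : F = fun i => map (OW v).subtype (Φ.F i) := by
      funext i
      exact (hΦF i).symm
    rw [h1, ← map_gQ, coeff_map]
    exact (coeff t (gQ Φ.F J (μ c))).2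
  choose c hc1 hc2 using fun col => hB (gQ F J (μ col)) (hQh col) (hQv col)
  -- the supremum
  have hsup : ∀ i, (⨆ l, w (z i l)) = w (a i) := by
    intro i
    apply le_antisymm
    · refine ciSup_le fun l => ?_
      rw [hzu i]
      simp only [Pi.smul_apply, smul_eq_mul, map_mul]
      exact mul_le_of_le_one_right (apply_nonneg w _) (u i l).2
    · obtain ⟨l, hl⟩ := hu i
      refine le_trans (le_of_eq ?_) (Finite.le_ciSup (fun l => w (z i l)) l)
      rw [hzu i]
      simp only [Pi.smul_apply, smul_eq_mul, map_mul]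
      rw [hl, mul_one]
  have hapos : ∀ i, 0 < w (a i) := fun i => FinitePlace.pos_iff.2 (ha i)
  set U : Fin n → ι → N := fun i l => (u i l : N) with hU
  have hU1 : ∀ i l, w (U i l) ≤ 1 := fun i l => (u i l).2
  have hval : ∀ (G : MvPolynomial ι K), G.IsHomogeneous T → ∀ i,
      aeval (z i) G = a i ^ T * aeval (U i) G := by
    intro G hG i
    rw [hzu i]
    exact Pool.DynLehmerDet.aeval_smul_hom hG (a i) (U i)
  -- the errors
  have hEh : ∀ col, (gQ F J (μ col) - ∑ j, C (c col j) * B j).IsHomogeneous T := by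
    intro col
    refine (hQh col).sub (IsHomogeneous.sum _ _ _ fun j _ => ?_)
    have h1 := (isHomogeneous_C ι (c col j)).mul (hBh j)
    rwa [zero_add] at h1
  have hE : ∀ i col, w (aeval (U i) (gQ F J (μ col) - ∑ j, C (c col j) * B j)) ≤ ω := by
    intro i col
    have h1 := hc2 col i
    rw [hval _ (hEh col) i, map_mul, map_pow, hsup i, mul_comm ω] at h1
    exact le_of_mul_le_mul_left h1 (pow_pos (hapos i) _)
  have hdet1 := Pool.DynLehmerDet.det_gain w
    (fun i col => aeval (U i) (gQ F J (μ col)))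
    (fun (j : Fin r) col => algebraMap K N (c col j))
    (fun i j => aeval (U i) (B j))
    (fun i col => aeval (U i) (gQ F J (μ col) - ∑ j, C (c col j) * B j)) hω0 hω1
    (fun i col => by
      rw [map_sub, map_sum]
      have h1 : ∀ j, aeval (U i) (C (c col j) * B j) =
          aeval (U i) (B j) * algebraMap K N (c col j) := by
        intro j
        rw [map_mul, aeval_C, mul_comm]
      rw [Finset.sum_congr rfl fun j _ => h1 j]
      ring)
    (fun j col => hwv _ (hc1 col j))
    (fun i j => Pool.DynLehmerDet.w_aeval_le w (fun d => hwv _ (hBv j d)) (hU1 i))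
    (fun i col => hE i col)
  rw [Fintype.card_fin] at hdet1
  have hdet2 : (Matrix.of fun i c => aeval (z i) (gQ F J (μ c))).det =
      (∏ i, a i ^ T) * (Matrix.of fun i c => aeval (U i) (gQ F J (μ c))).det := by
    rw [← Matrix.det_mul_column]
    congr 1
    ext i c
    simp only [Matrix.of_apply]
    exact hval _ (hQh c) i
  rw [hdet2, map_mul, map_prod, mul_comm]
  refine mul_le_mul hdet1 ?_ (Finset.prod_nonneg fun i _ => apply_nonneg w _)
    (pow_nonneg hω0 _)
  refine Finset.prod_le_prod (fun i _ => apply_nonneg w _) fun i _ => ?_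
  rw [map_pow, hT, dl_eq, ← Finset.prod_pow_eq_pow_sum]
  refine Finset.prod_le_prod (fun j _ => pow_nonneg (apply_nonneg w _) _) fun j _ => ?_
  rw [pow_mul]
  refine pow_le_pow_left₀ (pow_nonneg (apply_nonneg w _) _) ?_ b
  -- the norm of the iterates
  have hact : (Φ.map (toN v N)).act = gAct F N := gact_eq_aeval Φ F hΦF N
  obtain ⟨l, hl⟩ := prim_act_iter Φ h hϖ j (u i) (hu i)
  have h4 : (gAct F N)^[j] (z i) = (a i ^ ((p ^ s) ^ j)) •
      fun l => (((Φ.map (toOW h)).act^[j] (u i) l : OW w) : N) := by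
    rw [← hact, hzu i, GF.act_iter_smul, ← gcoe_act_iter Φ h]
  have h5 : w ((gAct F N)^[j] (z i) l) = w (a i) ^ ((p ^ s) ^ j) := by
    rw [h4]
    simp only [Pi.smul_apply, smul_eq_mul, map_mul, map_pow]
    rw [hl, mul_one]
  rw [← h5]
  exact Finite.le_ciSup (fun l => w ((gAct F N)^[j] (z i) l)) l

end Pool.DynLehmer.SP
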