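import Pool.Agent.Lib.MP_2194ec_nt.SP.Iface

set_option autoImplicit false

/-!
# Module NS: orbits which are not separated have small Hilbert functions
-/

namespace Pool.DynLehmer.SP
open MvPolynomial NumberField Pool.DynLehmer Pool.DynLehmer.SB
open scoped Classical

namespace NsAux

variable {K N : Type} [Field K] [Field N] [Algebra K N] {ι : Type}

/-- a form vanishing at the points of a translate different from `P` -/
theorem translate_form {P : ι → N} (hP : P ≠ 0) {n T : ℕ} (σ : Fin n → (N ≃ₐ[K] N))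
    (hσ : ∀ a, ∃ G : MvPolynomial ι N, G.IsHomogeneous T ∧ eval (gal (σ a) P) G ≠ 0 ∧
      ∀ i, i ≠ a → eval (gal (σ i) P) G = 0) (g : N ≃ₐ[K] N) :
    ∃ B : MvPolynomial ι N, B.IsHomogeneous (T + 1) ∧ eval P B ≠ 0 ∧
      ∀ a, g * σ a ∉ stab (K := K) P → eval (gal (g * σ a) P) B = 0 := by
  have hsep : ∀ a, ∃ G : MvPolynomial ι N, G.IsHomogeneous T ∧
      eval (gal (g * σ a) P) G ≠ 0 ∧ ∀ i, i ≠ a → eval (gal (g * σ i) P) G = 0 := by
    intro a
    obtain ⟨G, hG, hG1, hG2⟩ := hσ a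
    refine ⟨map ((g : N →ₐ[K] N) : N →+* N) G, hG.map _, ?_, ?_⟩
    · rw [gal_mul, eval_gal_map]
      simpa using hG1
    · intro i hi
      rw [gal_mul, eval_gal_map, hG2 i hi, map_zero]
  by_cases hmem : ∃ a0, g * σ a0 ∈ stab (K := K) P
  · obtain ⟨a0, ha0⟩ := hmem
    obtain ⟨G, hG, hG1, hG2⟩ := hsep a0
    obtain ⟨c, hc, h1⟩ := ha0
    obtain ⟨k0, hk0⟩ := Function.ne_iff.1 hP
    refine ⟨G * X k0, hG.mul (isHomogeneous_X N k0), ?_, ?_⟩
    · rw [map_mul, eval_X]
      refine mul_ne_zero (fun h0 => hG1 ?_) hk0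
      exact (eval_zero_of_smul hG hc h1).2 h0
    · intro a ha
      have hne : a ≠ a0 := by
        rintro rfl
        exact ha ⟨c, hc, h1⟩
      rw [map_mul, hG2 a hne, zero_mul]
  · push Not at hmem
    obtain ⟨B, hB, hB1, hB2⟩ := sep_vanish (fun a => gal (g * σ a) P) hsep P hP (fun a => by
      by_contra hcon
      push Not at hcon
      obtain ⟨c, hc, h1⟩ := prop_of_minors hP (gal_ne (g * σ a) hP) hcon
      refine hmem a ⟨c⁻¹, inv_ne_zero hc, ?_⟩
      conv_rhs => rw [h1]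
      rw [smul_smul, inv_mul_cancel₀ hc, one_smul])
    exact ⟨B, hB, hB1, fun a _ => hB2 a⟩

end NsAux

open NsAux in
/-- NS -/
theorem ns (cover : CoverStatement) (nsa : NsaStatement) : NsStatement := by
  intro K N _ _ _ _ _ _ ι _ P hP δ hδ T
  obtain ⟨σ, hσ⟩ := nsa K N ι P T
  set D := idx (⊤ : Subgroup (N ≃ₐ[K] N)) P with hD
  have hD1 : 1 ≤ D := idx_pos _ _
  have hlog : 0 ≤ Real.log D := Real.log_natCast_nonneg D
  have hT0 : (0 : ℝ) ≤ (T : ℝ) + 1 := by positivity
  rcases Nat.eq_zero_or_pos (HW K P T) with h0 | hpos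
  · rw [h0, Nat.cast_zero, mul_zero]
    have : (0 : ℝ) ≤ (D : ℝ) := Nat.cast_nonneg D
    exact mul_nonneg hT0 (mul_nonneg this (by linarith))
  let X := (N ≃ₐ[K] N) ⧸ stab (K := K) P
  have hfX : Finite X := inferInstance
  let iX : Fintype X := Fintype.ofFinite X
  have hX : Fintype.card X = D := by
    rw [hD, idx, Subgroup.relIndex_top_right, Subgroup.index_eq_card, Nat.card_eq_fintype_card]
  let c : Fin (HW K P T) → X := fun a => (σ a : X)
  have hcinj : Function.Injective c := by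
    intro a b hab
    by_contra hne
    have h1 : (σ b)⁻¹ * σ a ∈ stab (K := K) P := QuotientGroup.eq.1 hab.symm
    rw [mem_stab_gal] at h1
    obtain ⟨d, hd, h2⟩ := h1
    obtain ⟨G, hG, hG1, hG2⟩ := hσ b
    apply hG1
    exact (eval_zero_of_smul hG hd h2).1 (hG2 a hne)
  let S : Finset X := Finset.univ.image c
  have hScard : S.card = HW K P T := by
    rw [Finset.card_image_of_injective _ hcinj, Finset.card_univ, Fintype.card_fin]
  have hS : S.Nonempty := by
    rw [← Finset.card_pos, hScard]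
    exact hpos
  obtain ⟨Z, hZ, hcov⟩ := cover (N ≃ₐ[K] N) X S hS
  rw [hScard, hX] at hZ
  choose B hB hB1 hB2 using fun g : N ≃ₐ[K] N => translate_form hP σ hσ g
  have hOS : OrbSep K (Z.card * (T + 1)) P := by
    refine ⟨∏ g ∈ Z, B g, ?_, ?_, ?_⟩
    · have h1 := IsHomogeneous.prod Z B (fun _ => T + 1) (fun g _ => hB g)
      rwa [Finset.sum_const, smul_eq_mul] at h1
    · rw [map_prod]
      exact Finset.prod_ne_zero_iff.2 fun g _ => hB1 g
    · intro τ hτ
      obtain ⟨g, hg, h1⟩ := hcov (τ : X)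
      rw [Finset.mem_image] at h1
      obtain ⟨a, _, ha⟩ := h1
      have h2 : ((g * σ a : N ≃ₐ[K] N) : X) = (τ : X) := by
        have h3 : g • (σ a : X) = (τ : X) := by
          rw [show (σ a : X) = g⁻¹ • (τ : X) from ha, smul_inv_smul]
        exact h3
      have h3 : (g * σ a)⁻¹ * τ ∈ stab (K := K) P := QuotientGroup.eq.1 h2
      have h4 : g * σ a ∉ stab (K := K) P := by
        intro h5
        apply hτ
        have h6 := (stab (K := K) P).mul_mem h5 h3
        rwa [mul_inv_cancel_left] at h6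
      rw [map_prod]
      refine Finset.prod_eq_zero hg ?_
      rw [mem_stab_gal] at h3
      obtain ⟨d, hd, h5⟩ := h3
      exact (eval_zero_of_smul (hB g) hd h5).2 (hB2 g a h4)
  have hlt : δ < Z.card * (T + 1) := by
    by_contra hcon
    push Not at hcon
    exact hδ (hOS.mono hcon hP)
  have hlt' : (δ : ℝ) ≤ (Z.card : ℝ) * ((T : ℝ) + 1) := by
    have h1 : (δ : ℝ) ≤ ((Z.card * (T + 1) : ℕ) : ℝ) := by exact_mod_cast hlt.le
    push_cast at h1
    exact h1
  have hposR : (0 : ℝ) < (HW K P T : ℝ) := by exact_mod_cast hpos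
  have hZ' : (Z.card : ℝ) * (HW K P T : ℝ) ≤ (D : ℝ) * (1 + Real.log D) := by
    calc (Z.card : ℝ) * (HW K P T : ℝ) ≤ ((D : ℝ) / (HW K P T : ℝ) * (1 + Real.log D)) *
        (HW K P T : ℝ) := by gcongr
      _ = (D : ℝ) * (1 + Real.log D) := by field_simp
  calc (δ : ℝ) * (HW K P T : ℝ) ≤ (Z.card : ℝ) * ((T : ℝ) + 1) * (HW K P T : ℝ) := by gcongr
    _ = ((T : ℝ) + 1) * ((Z.card : ℝ) * (HW K P T : ℝ)) := by ring
    _ ≤ ((T : ℝ) + 1) * ((D : ℝ) * (1 + Real.log D)) := by gcongr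

end Pool.DynLehmer.SP
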